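import Pool.Agent.Lib.MP_a54f13_nt.Ef.Spec

/-!
# Package `Th`: an exceptional set of size `T^(3/2+ε)`

GOAL (helper54): for every `ε > 0` there is a set `E` of forms with at most `C T^(3/2+ε)` elements with `t ≤ T` (out of
about `T²/12`), such that for every sequence of Hecke–Maass forms outside `E` the first four moments are Gaussian. It
replaces the `T^(19/10)` of package `Ef`. (`3/2` is the limit of a second moment method: the variance of the mass at the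
scale `T^(-1/2)` is `T^(-1/2)` on average.) New points: (1) the sharp number of pairs of matrices (`Cs2`: one exponent);
(2) a dyadic decomposition in `c` (`G3`); (3) `T^(-ε) ≤ wf ≤ T^ε` outside a set of `T^(3/2+ε)` forms (`Wsup`, `Bad`, `Gud`).

Many statements are variants of statements of the packages `Av`, `Ef`; their proofs are obtained by adapting the files
named in the doc comment (COPY the file and change what is necessary). Notation as in `Av/SpecB.lean`, `Av/SpecC.lean`.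

Every module: file `Pool/Agent/Lib/MP_a54f13_nt/Th/<Name>.lean`, importing
`Pool.Agent.Lib.MP_a54f13_nt.Th.Spec` and what is named in the task, private names in
`namespace Pool.Agent.A54.Th.<Name>M`, final theorem `Pool.Agent.A54.Th.stmt<Name>`; the other Props used
are hypotheses of the theorem.
-/

set_option autoImplicit false

namespace Pool.Agent.A54.Th

open MeasureTheory Filter Topology Set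
open scoped ContDiff ComplexConjugate UpperHalfPlane MatrixGroups ENNReal
open Pool.Agent.A54.Half (H0 qq ff hh)
open Pool.Agent.A54.Av (Mat VV Vd msq bet NonSc Bump es Sm' MN RN GR qs qT dl yo Aa DD Fam wf XX2 O8 Pm
  lam Cc Blk BlkG Pc cnt Cnd WW sW an IsRho KB KB1)
open Pool.Agent.A54.Ef (HMul SF qe)

noncomputable section

/-! ### The number of pairs of matrices -/

/-- **Cs2** the main class (model `Av/Cs.lean`; uses `Av.StmtCg`, `Av.StmtCr`). Proof. Let `Y = C ρ^M η H³ λ`. The part of `S` with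
`gcd(p1, p2) = g` has at most `min (Y/g) (Y λ τ(g)³/g²)` elements, and `min a b ≤ a^{1-θ} b^θ`, so at most
`Y λ^θ τ(g)^{3θ} g^{-1-θ} ≤ Y λ^θ D^{3θ} g^{3θ/4 - 1 - θ} = Y λ^θ D^{3θ} g^{-1-θ/4}` (`τ(g) ≤ D g^{1/4}`); the sum over `g`
converges. -/
def StmtCs2 : Prop := ∀ θ : ℝ, 0 < θ → θ ≤ 1 / 2 → ∃ (C : ℝ) (M : ℕ), 0 ≤ C ∧ ∀ H η δ E ρ : ℕ,
  Pm H η δ E ρ → ∀ S : Finset O8,
  (∀ x ∈ S, Blk H η δ E ρ x ∧ x.p1 ≠ x.p2 ∧ 4 * (ρ : ℤ) * H ≤ |x.p1| * η) →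
    (S.card : ℝ) ≤ C * (ρ : ℝ) ^ M * ((η : ℝ) * H ^ 3 * lam H η δ E ^ (1 + θ))

/-- the bound for a block -/
def bb2 (θ : ℝ) (H η δ E : ℕ) : ℝ :=
  (H : ℝ) ^ 2 * E * δ + (H : ℝ) ^ 3 * lam H η δ E * δ / η + (η : ℝ) * H ^ 3 * lam H η δ E ^ (1 + θ)

/-- **Pb2** (model `Av/Pb.lean`; uses `Av.StmtCa`, `Av.StmtCb`, `Cs2`). -/
def StmtPb2 : Prop := ∀ θ : ℝ, 0 < θ → θ ≤ 1 / 2 → ∃ (C : ℝ) (M : ℕ), 0 ≤ C ∧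
  ∀ H η δ E B ρ : ℕ, Pm H η δ E ρ →
  ∀ S : Finset O8, (∀ x ∈ S, Pc H B ρ x ∧ Cc H η x.c1 x.c2 ∧ |x.d1| ≤ ρ * E ∧ |x.d2| ≤ ρ * E ∧
    |x.d1 - x.d2| ≤ 3 * ρ * δ) → (S.card : ℝ) ≤ C * (ρ : ℝ) ^ M * bb2 θ H η δ E

/-- **PI2** different traces, class I (model `Av/PI.lean`; uses `Pb2`). Proof. `Pb2` with `δ = η = 2^i`, `E = B + H`,
`λ ≤ 2 (B + H)/H`: `bb2 ≤ H² (B + H) η + 2 H² (B + H) + 4 η H³ ((B + H)/H)^{1+θ}`; sum over the `i` with `2^i ≤ H` (at most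
`H` values, `∑ 2^i ≤ 2H`), and `((B + H)/H)^θ ≥ 1`. -/
def StmtPI2 : Prop := ∀ θ : ℝ, 0 < θ → θ ≤ 1 / 2 → ∃ (C : ℝ) (M : ℕ), 0 ≤ C ∧
  ∀ H B ρ : ℕ, 1 ≤ H → 1 ≤ ρ →
  ∀ S : Finset O8, (∀ x ∈ S, Pc H B ρ x ∧ 2 * x.d2 + x.p2 < 2 * x.d1 + x.p1 ∧
    32 * (ρ : ℤ) ^ 3 ≤ x.c2 - x.c1 ∧ ∃ i : ℕ, (2 : ℤ) ^ i ≤ x.c2 - x.c1 ∧
      x.c2 - x.c1 < 2 ^ (i + 1) ∧ (2 * x.d1 + x.p1) - (2 * x.d2 + x.p2) ≤ 2 ^ i) →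
    (S.card : ℝ) ≤ C * (ρ : ℝ) ^ M * ((H : ℝ) ^ 3 * (B + H) * (((B : ℝ) + H) / H) ^ θ)

/-- **PC2** the count (model `Av/PC.lean`; uses `Av.StmtPd`, `Av.StmtP0`, `Av.StmtP1`, `PI2`, `Av.StmtPII`). -/
def StmtPC2 : Prop := ∀ θ : ℝ, 0 < θ → θ ≤ 1 / 2 → ∃ (C : ℝ) (M : ℕ), 0 ≤ C ∧
  ∀ H B ρ : ℕ, 1 ≤ H → 1 ≤ ρ → ∀ S : Finset O8, (∀ x ∈ S, Pc H B ρ x) →
    (S.card : ℝ) ≤ C * (ρ : ℝ) ^ M * ((H : ℝ) ^ 3 * (B + H) * (((B : ℝ) + H) / H) ^ θ)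

/-- **J2** a dyadic range of `c` (model `Av/I2.lean`; uses `PC2`, `Av.StmtI2a`, `Av.StmtGe`, `Av.StmtAr`, and `Av.StmtQF` if `Av/I2.lean` has
it). Proof. As `I2`: the volume of the points `z` for a given pair is at most `C r²/H²`, and if there is any `γ` then `H ≤ C' β`,
`β ≥ 1`, `B + H ≤ C' β`; so the integral is at most
`C (1+r)^M r² H (B + H) ((B + H)/H)^θ ≤ C' (1+r)^M r² β^{1+θ} H^{1-θ}`. -/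
def StmtJ2 : Prop := ∀ θ : ℝ, 0 < θ → θ ≤ 1 / 2 → ∀ K : Set ℂ, IsCompact K → K ⊆ H0 →
  ∃ (A C : ℝ) (M : ℕ), 1 ≤ A ∧ 0 ≤ C ∧
  ∀ (β r : ℝ) (H : ℕ), 0 < β → 0 < r → A * (1 + r) ≤ H →
    ∫⁻ z in K, ∑' n : ℕ, cnt (fun γ => Cnd β r (n + 1) z γ ∧ (H : ℤ) ≤ |γ 1 0| ∧
      |γ 1 0| < 2 * H) ^ 2 ≤ ENNReal.ofReal (C * r ^ 2 * (1 + r) ^ M * (β ^ (1 + θ) * (H : ℝ) ^ (1 - θ)))

/-- **JJ** the count (model `Av/I.lean`; uses `Av.StmtI0`, `Av.StmtI1`, `J2`). Proof. As `I` (with `IM.sum_sq`: the factors are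
`(5/4)^k 2^{-k(1-θ)}`, `(5/4) 2^{-1/2} < 9/10`). -/
def StmtJJ : Prop := ∀ θ : ℝ, 0 < θ → θ ≤ 1 / 2 → ∀ K : Set ℂ, IsCompact K → K ⊆ H0 →
  ∃ (C : ℝ) (M : ℕ), 0 ≤ C ∧ ∀ β r L : ℝ, 0 < β → 0 < r → 0 ≤ L →
    ∫⁻ z in K, ∑' n : ℕ, cnt (fun γ => Cnd β r (n + 1) z γ ∧ ((|γ 1 0| : ℤ) : ℝ) ≤ L) ^ 2 ≤
      ENNReal.ofReal (C * r ^ 2 * (1 + r) ^ M * (β + β ^ (1 + θ) * L ^ (1 - θ)))

/-- **W2** exponential weights (model: the second part of `Av/W1.lean`; uses `JJ`, `Av.StmtGe`). Proof. As `W1` (2): `JJ` with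
`L = ε β`: `β + β^{1+θ} (ε β)^{1-θ} = β + ε^{1-θ} β²`, `β = √(j/y₁)`. -/
def StmtW2 : Prop := ∀ θ : ℝ, 0 < θ → θ ≤ 1 / 2 → ∀ K : Set ℂ, IsCompact K → K ⊆ H0 →
  ∃ C : ℝ, 0 ≤ C ∧ ∀ y1 y : ℝ, 0 < y1 → 1 / 2 ≤ y → ∀ ε : ℝ, 0 < ε → ε ≤ 1 →
    ∫⁻ z in K, ∑' n : ℕ, sW (fun γ => γ.det = (n : ℤ) + 1 ∧ NonSc γ ∧
      ((γ 1 0 : ℤ) : ℝ) ^ 2 ≤ ε ^ 2 * ((γ.det : ℤ) : ℝ)) y1 y z ^ 2 ≤
        ENNReal.ofReal (C / y * (1 / √y1 + ε ^ (1 - θ) / y1))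

/-! ### The geometric side -/

/-- **G3** refined bound (model `Ef/G2.lean`; uses `Av.StmtMb`, `Av.StmtW1`, `W2`, `Av.StmtW3`, `Av.StmtAvg`, `Ef.StmtSm3`, `Ef.StmtFar`,
`Ef.StmtGaD`, `Av.StmtQF`). Write `δ = dl T φ`, `y₁ = yo T φ y`, so `(y/δ)² = T² y y₁`. Proof. Split the matrices of `MN` as in
`Ef/G2.lean` into (A) `n ≤ 0`; (B) `n ≥ 1`, `c² ≤ ε² n`; (D) `n ≥ 1`, `c² > ε² n`, and `V > (c y/4)²` somewhere on the disc; (C) the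
rest, and split (C) further: let `ε_j = 2^j ε`, `J` the number with `1/2 < ε_J ≤ 1`; `(C_j)` for `j < J`:
`ε_j² n < c² ≤ ε_{j+1}² n`; `(C_J)`: `c² > ε_J² n`. By `IM.sum_sq` of `Av/I.lean`, `(∑_{j ≤ J} x_j)² ≤ 5 ∑_j (5/4)^j x_j²`.
(A): `W3`: `≤ C T⁶ y₁^{3/4} ≤ C T⁶ √y₁`. (B): `W2`: `≤ C T⁶ (√y₁ + ε^{1-θ})`.
(D): by `Mb` and `Far` the term of `γ` is at most `C T² (y/δ) e^{-π y c0 qe ε γ}`, and `qe ε γ ≥ 1` (`c ≠ 0`), so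
`y qe ≥ y/2 + qe/4` and by `GaD` the sum over all `γ` is at most `C T² (y/δ) e^{-π c0 y/2}/ε`: contribution
`≤ C T⁴ (y/δ)² e^{-c y} ε⁻² = C T⁶ (y/δ)² e^{-c y} (ε T)⁻²`.
(C_j): by `Sm3` with `ε_j` (`|κ|/Re κ ≤ 2/δ ≤ 2 r⁻²`) the term of `γ` is at most `(y/δ) C ε_j⁻² 3 r⁻² (r⁻² ∫_disc WW)`, so by `Avg` (2) and
`W2` with `ε_{j+1}` the contribution is at most `C (y/δ)² ε_j⁻⁴ r⁻⁴ (1/y)(1/√y₁ + ε_{j+1}^{1-θ}/y₁) =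
C T⁶ (rT)⁻⁴ ε_j⁻⁴ (√y₁ + ε_{j+1}^{1-θ})`; the sum over `j` of `(5/4)^j` times this is at most
`C T⁶ (rT)⁻⁴ (ε⁻⁴ √y₁ + ε^{-(3+θ)})`. For `j = J` use `W1` (1) instead: `C T⁶ (rT)⁻⁴`, times `(5/4)^J ≤ 2^J ≤ ε⁻¹`. -/
def StmtG3 : Prop := ∀ θ : ℝ, 0 < θ → θ ≤ 1 / 2 → ∀ η : ℂ → ℝ, Bump η → ∀ K : Set ℂ, IsCompact K →
  K ⊆ H0 → ∃ C r0 c : ℝ, 0 ≤ C ∧ 0 < r0 ∧ 0 < c ∧ ∀ ε r T y φ : ℝ, 0 < ε → ε ≤ 1 → 0 < r →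
    r ≤ r0 * ε → 2 ≤ T → 1 / 2 ≤ y → |φ| ≤ Real.pi → yo T φ y ≤ 1 → r ^ 2 ≤ dl T φ →
      ∫⁻ z0 in K, ∑' n : ℤ, ‖MN (es η r z0) (qs (qT T) φ) y n‖ₑ ^ 2 ≤
        ENNReal.ofReal (C * T ^ 6 * (√(yo T φ y) + ε ^ (1 - θ) +
          ((ε ^ 4)⁻¹ * √(yo T φ y) + ε ^ (-(3 + θ))) * ((r * T) ^ 4)⁻¹ +
          (y / dl T φ) ^ 2 * Real.exp (-(c * y)) * ((ε * T) ^ 2)⁻¹))

/-- **Dl2** (uses `Av.StmtDl`). Proof. `dl T φ ≥ |φ|/4`, so the integrand is at most `4 |φ|^{-(1-s)}`, and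
`∫_{-π}^{π} |φ|^{s-1} dφ = 2 π^s/s`. -/
def StmtDl2 : Prop := ∀ s : ℝ, 0 < s → s < 1 → ∃ C : ℝ, 0 ≤ C ∧ ∀ T : ℝ, 2 ≤ T →
  ∫⁻ φ in Ioc (-Real.pi) Real.pi, ENNReal.ofReal (dl T φ ^ (-(1 - s))) ≤ ENNReal.ofReal C

/-- **BQ** (model `Ef/BP.lean`; uses `Av.StmtG1`, `G3`, `Av.StmtDl`, `Dl2`). Proof. `r = T^{-(1/2+κ)}`, `ε = T^{-1/2+2κ}`, `θ = κ`,
`Y = T^{1/2}`, `δ0 = T^{-1/2}`, `T` large (`r ≤ r0 ε`). On `{y ≥ Y} ∪ {δ < δ0}` use `G1` as in `Ef/BP.lean`: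
`≤ C T⁶ (1/Y + δ0 + T^{-1/2}) ≤ C T^{6-1/2}`. On `{√3/2 < y ≤ Y, δ ≥ δ0}`: `y₁ = y/(T²δ²) ≤ T^{-1/2} ≤ 1`, `r² ≤ δ`, and `G3` gives
`C T⁶` times the integral of (`dy dφ/y²`): (i) `√y₁ = √y/(Tδ)`: `∫ y^{-3/2} dy < ∞`, `δ⁻¹ ≤ δ0^{-κ} δ^{-(1-κ)}`, `Dl2`:
`≤ C T^{-1+κ/2}`; (ii) `ε^{1-κ} ≤ T^{-1/2+3κ}`; (iii) `(ε⁴)⁻¹ (rT)⁻⁴ = T^{-4κ} ≤ 1`, so this part is at most (i);
`ε^{-(3+κ)} (rT)⁻⁴ = T^{(3+κ)(1/2-2κ) - 2 + 4κ} ≤ T^{-1/2}`; (iv) `y⁻² (y/δ)² e^{-cy} = δ⁻² e^{-cy}`, `∫ e^{-cy} dy ≤ 1/c`,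
`δ⁻² ≤ δ0^{-(1+κ)} δ^{-(1-κ)}`, `(εT)⁻² = T^{-1-4κ}`: `≤ C T^{-1-4κ+(1+κ)/2} ≤ C T^{-1/2}`. -/
def StmtBQ : Prop := ∀ κ : ℝ, 0 < κ → κ ≤ 1 / 20 → ∀ η : ℂ → ℝ, Bump η → ∀ K : Set ℂ, IsCompact K →
  K ⊆ H0 → ∃ C T0 : ℝ, 0 ≤ C ∧ 2 ≤ T0 ∧ ∀ T : ℝ, T0 ≤ T →
    ∫⁻ z0 in K, RN (qT T) (es η (T ^ (-(1 / 2 + κ))) z0) ≤
      ENNReal.ofReal (C * T ^ (6 - 1 / 2 + 3 * κ))

/-- **F3** (model `Ef/F1.lean`; uses `Av.StmtAv1`, `Av.StmtGN`, `BQ`). -/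
def StmtF3 : Prop := ∀ κ : ℝ, 0 < κ → κ ≤ 1 / 20 → ∀ η : ℂ → ℝ, Bump η → ∀ K : Set ℂ, IsCompact K →
  K ⊆ H0 → ∃ C T0 : ℝ, 0 ≤ C ∧ 2 ≤ T0 ∧ ∀ T : ℝ, T0 ≤ T →
    ∀ (ι : Type) [Fintype ι] (F : ι → ℍ → ℝ) (t : ι → ℝ) (ρ : ι → ℂ), Fam ι F t ρ →
      (∀ i, T / 2 < t i ∧ t i ≤ T) →
      ∫⁻ z in K, ∫⁻ z' in K, ENNReal.ofReal (∑ i, wf (t i) (ρ i) *
        (Sm' η (T ^ (-(1 / 2 + κ))) (fun w => ext (F i) w ^ 2) z -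
          Sm' η (T ^ (-(1 / 2 + κ))) (fun w => ext (F i) w ^ 2) z') ^ 2) ≤
          ENNReal.ofReal (C * T ^ (2 - 1 / 2 + 3 * κ))

/-! ### The weights

Notation: `l(n)` the normalised Hecke eigenvalues, `S(x) = SF l x = ∑_{n ≤ x} l(n)²`, `w = wf t ρ = cosh(π t)/‖ρ‖²`,
`e0 = π t/sinh(π t)`. -/

/-- `l` are the normalised Hecke eigenvalues of `f` -/
structure Lam (f : ℍ → ℝ) (l : ℕ → ℝ) : Prop where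
  mul : HMul l
  coef : ∀ n : ℕ, 1 ≤ n → ∀ y : ℝ, 0 < y → an f n y = ((l n / √n : ℝ) : ℂ) * an f 1 (n * y)

/-- **HkE** (model `Ef/HkR.lean`, which has the proof: `l(n) = c(n)/√n` and `Fo1` (5); uses `Av.StmtFo1`, `Av.StmtRho`, `Av.StmtKBf`). -/
def StmtHkE : Prop := ∀ (f : ℍ → ℝ) (t : ℝ), IsHeckeMaass f t → ∃ l : ℕ → ℝ, Lam f l

/-- **Hec** the Hecke relations for all indices. Proof. Induction on the number of prime factors of `m`, for all `n`. `m = 1` is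
clear. If it holds for `m` and `m/p` (if `p ∣ m`), then `l(pm) l(n) = l(p) l(m) l(n) - 1_{p ∣ m} l(m/p) l(n)
= ∑_{d ∣ (m,n)} [l(pmn/d²) + 1_{p ∣ mn/d²} l(mn/(pd²))] - 1_{p ∣ m} ∑_{d ∣ (m/p,n)} l(mn/(pd²))`. Let `a, b` be the exponents of `p` in
`m, n`; `d = p^i e`. In the second sum `0 ≤ i ≤ min(a,b)` and `a + b - 2i ≥ 1`, in the third `0 ≤ i ≤ min(a-1,b)`, `a ≥ 1`: they are
equal except for the terms `i = a` of the second sum if `a < b`: `l(mn/(p^{2a+1} e²)) = l(pmn/(p^{a+1}e)²)`, and `p^{a+1} e` are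
exactly the divisors of `(pm, n)` which do not divide `(m, n)`. -/
def StmtHec : Prop := ∀ l : ℕ → ℝ, HMul l → ∀ m n : ℕ, 1 ≤ m → 1 ≤ n →
  l m * l n = ∑ d ∈ (Nat.gcd m n).divisors, l (m * n / d ^ 2)

/-- **KbE** the Bessel function in the oscillating range (model `Av/En.lean`; uses `Av.StmtKBf`, `Av.StmtBet`). Proof. `e(X) = (X K')² + (t² - X²) K²`,
`e' = -2 X K²`, `e(0+) = e0`, `e(∞) = 0`; so `0 ≤ e ≤ e0` and (1), (2) for `X ≤ t/2` (`t² - X² ≥ (3/4) t²`). For `X ≤ t/2`,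
`e' ≥ -(2X/(t²-X²)) e` gives `e(X) ≥ e0 (t² - X²)/t² ≥ (3/4) e0`. (3): `(K · X K')' = (e - 2 (t² - X²) K²)/X`, so
`∫_X^{2X} (t² - u²) K² du/u = (1/2) ∫ e du/u - (1/2) [K · u K']`, and `|K · u K'| ≤ e/(2 √(t² - u²)) ≤ 0.6 e0/t`; so it is at least
`(3/8)(log 2) e0 - 0.6 e0/t ≥ e0/5`. (4): `e(X) = 2 ∫_X^∞ u K²`, at most `e0`. -/
def StmtKbE : Prop := ∀ t : ℝ, 100 ≤ t →
  (∀ X : ℝ, 0 < X → X ≤ t / 2 →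
    KB t X ^ 2 ≤ 2 / t ^ 2 * (Real.pi * t / Real.sinh (Real.pi * t)) ∧
    (X * KB1 t X) ^ 2 ≤ Real.pi * t / Real.sinh (Real.pi * t)) ∧
  (∀ X : ℝ, 0 < X → 4 * X ≤ t → (Real.pi * t / Real.sinh (Real.pi * t)) / (5 * t ^ 2) ≤
    ∫ u in X..(2 * X), KB t u ^ 2 / u) ∧
  ∀ X : ℝ, 0 < X → IntegrableOn (fun u : ℝ => u * KB t u ^ 2) (Ioi X) ∧
    ∫ u in Ioi X, u * KB t u ^ 2 ≤ Real.pi * t / Real.sinh (Real.pi * t)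

/-- `∫_X^∞ K_{it}(u)² du/u` -/
def KI (t X : ℝ) : ℝ := ∫ u in Ioi X, KB t u ^ 2 / u

/-- **Kin** upper bounds for `KI` (uses `KbE`, `Av.StmtKBf`). Proof. `t/2 < X`: `KI t X ≤ X⁻² ∫_X^∞ u K² ≤ 4 e0/t²`. `X ≤ t/2`: the part
`u ≥ t/2` as before, and `∫_X^{t/2} K² du/u ≤ (2 e0/t²) log(t/(2X))`. `X ≥ 4t`: `|K(u)| ≤ √(π/(2u)) e^{-u}`, so
`KI t X ≤ e^{-2X} ≤ e^{-X} e^{-4t}` and `e0/t² = π/(t sinh(πt)) ≥ e^{-πt}/t`. -/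
def StmtKin : Prop := ∃ C : ℝ, 0 ≤ C ∧ ∀ t : ℝ, 100 ≤ t →
  (∀ X : ℝ, 0 < X → IntegrableOn (fun u : ℝ => KB t u ^ 2 / u) (Ioi X) ∧
    KI t X ≤ C * (1 + max 0 (Real.log (t / X))) *
      ((Real.pi * t / Real.sinh (Real.pi * t)) / t ^ 2)) ∧
  ∀ X : ℝ, 4 * t ≤ X →
    KI t X ≤ t * Real.exp (-X) * ((Real.pi * t / Real.sinh (Real.pi * t)) / t ^ 2)

/-- the strip `0 ≤ x < 1`, `y > Y` -/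
def Sp (Y : ℝ) : Set ℍ := {z : ℍ | 0 ≤ z.re ∧ z.re < 1 ∧ Y < z.im}

/-- **Mas** the mass of a strip (model `Ef/Cus.lean`; uses `Av.StmtFo1`, `Av.StmtDec`). Proof. Parseval in `x`:
`∫_0^1 f² dx = ∑_n |a_n(y)|² = 2 ∑_{n ≥ 1} |a_n(y)|²`, `|a_n(y)|² = (l(n)²/n) |a_1(ny)|² = l(n)² ‖ρ‖² y K(2πny)²`; integrate
`dy/y²` over `y > Y` and substitute `u = 2πny` (Tonelli). `f` is bounded (`Dec`), so everything is finite. -/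
def StmtMas : Prop := ∀ (f : ℍ → ℝ) (t : ℝ) (ρ : ℂ) (l : ℕ → ℝ), IsHeckeMaass f t → IsRho f t ρ →
  Lam f l → ∀ Y : ℝ, 0 < Y → IntegrableOn (fun z : ℍ => f z ^ 2) (Sp Y) ∧
    (Summable fun n : ℕ => l (n + 1) ^ 2 * KI t (2 * Real.pi * (n + 1) * Y)) ∧
    ∫ z in Sp Y, f z ^ 2 = 2 * ‖ρ‖ ^ 2 * ∑' n : ℕ, l (n + 1) ^ 2 * KI t (2 * Real.pi * (n + 1) * Y)

/-- **Str** strips and the fundamental domain (uses `Av.StmtUL` (1)). Proof. For `G = 1_{Sp Y} f²` (as `ℝ≥0∞`-valued function) `UL` gives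
`2 ∫_{Sp Y} f² = ∫_{fdo} f(z)² #{γ ∈ SL(2,ℤ) : γ z ∈ Sp Y} dμ`. Upper bound of this number for `z ∈ fdo`, `Y ≤ 1`, `y = im z ≥ √3/2`: for
every bottom row `(c, d)` there is exactly one `γ` with `re γz ∈ [0, 1)`, and `im γz = y/|cz + d|² > Y` means
`c² y² + (cx + d)² < y/Y`. `c = 0`: `d = ±1`. `c ≠ 0`: then `y < 1/Y`, at most `2/√(yY)` values of `c` and `2 √(y/Y) + 1` values of
`d`: at most `2 + 4/Y + 2/√(yY) ≤ 9/Y` in all. Lower bound for `Y = 4/5 < √3/2`: `± T^j` for one `j`, so the number is at least `2`. And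
`∫_{fdo} f² = π/3`. -/
def StmtStr : Prop := ∃ C : ℝ, 0 ≤ C ∧ ∀ (f : ℍ → ℝ) (t : ℝ), IsHeckeMaass f t →
  (∀ Y : ℝ, 0 < Y → Y ≤ 1 → IntegrableOn (fun z : ℍ => f z ^ 2) (Sp Y) →
    ∫ z in Sp Y, f z ^ 2 ≤ C / Y) ∧
  (IntegrableOn (fun z : ℍ => f z ^ 2) (Sp (4 / 5)) → Real.pi / 3 ≤ ∫ z in Sp (4 / 5), f z ^ 2)

/-- **Wlo** `S(x) ≤ C x w` for `x ≥ t/(8π)` (uses `Mas`, `Str`, `KbE`, `Kin`). Proof. `Y = t/(8πx) ∈ (0, 1]`. For `n ≤ x` and `X = 2πnY`,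
`4X ≤ t`, so `KI t X ≥ ∫_X^{2X} ≥ e0/(5t²)`; hence `C/Y ≥ ∫_{Sp Y} f² ≥ 2 ‖ρ‖² S(x) e0/(5t²)`, and
`e0/t² = π/(t sinh(πt)) ≥ π/(t cosh(πt))`: `S(x) ≤ C' (t/Y) w = 8π C' x w`. -/
def StmtWlo : Prop := ∃ C : ℝ, 0 ≤ C ∧ ∀ (f : ℍ → ℝ) (t : ℝ) (ρ : ℂ) (l : ℕ → ℝ), IsHeckeMaass f t →
  IsRho f t ρ → Lam f l → 100 ≤ t → ∀ x : ℝ, t / (8 * Real.pi) ≤ x → SF l x ≤ C * x * wf t ρ

/-- **Wup** `w ≤ C S(t)/t` (uses `Mas`, `Str`, `Kin`, `Wlo`, `Ef.StmtSnd`). Proof. `π/3 ≤ ∫_{Sp (4/5)} f² = 2 ‖ρ‖² ∑_n l(n)² KI t (8πn/5)`, and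
`8π/5 ≥ 5`. By `Kin` the terms `n ≤ t` give at most `C (e0/t²) ∑_{n ≤ t} l(n)² (1 + log(t/n))`, which is at most `C' (e0/t²) S(t)`: the
`n` with `2^{-j-1} t < n ≤ 2^{-j} t` contribute at most `(j + 2) S(2^{-j} t) ≤ C (j + 2) 2^{-j/4} S(t)` (`Snd`). The terms `n > t` give at
most `(e0/t²) t ∑_{n > t} l(n)² e^{-5n}`, where `l(n)² ≤ S(n) ≤ C n w` (`Wlo`), so at most `C (e0/t²) w e^{-t}`. As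
`‖ρ‖² e0/t² = ‖ρ‖² π/(t sinh(πt)) ≤ 2π/(t w)`: `π/3 ≤ (C/(t w)) (S(t) + w e^{-t})`, i.e. `w (π/3 - C e^{-t}/t) ≤ C S(t)/t`. -/
def StmtWup : Prop := ∃ C T0 : ℝ, 0 ≤ C ∧ 100 ≤ T0 ∧ ∀ (f : ℍ → ℝ) (t : ℝ) (ρ : ℂ) (l : ℕ → ℝ),
  IsHeckeMaass f t → IsRho f t ρ → Lam f l → T0 ≤ t → wf t ρ ≤ C * SF l t / t

/-- **Wsup** `w ≤ t^ε` (uses `Hec`, `Wlo`, `Wup`; `Pool.Agent.Lib.MP_640417_ag.All.divisor_bound` in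
`Lib/MP_640417_ag/All/Divisor.lean`). Proof. By `Hec` and Cauchy–Schwarz (`m = d m'`, `n = d n'`)
`S(t)² = ∑_{m,n ≤ t} (l(m) l(n))² ≤ ∑_{m,n ≤ t} τ((m,n)) ∑_{d ∣ (m,n)} l(mn/d²)² ≤ C t^ε ∑_{d ≤ t} ∑_{m',n' ≤ t/d} l(m'n')²
≤ C t^ε ∑_{d ≤ t} ∑_{N ≤ t²/d²} τ(N) l(N)² ≤ C t^{3ε} ∑_{d ≤ t} S(t²/d²)`. If `t²/d² ≥ t/(8π)` then `S(t²/d²) ≤ C w t²/d²`, otherwise
`S(t²/d²) ≤ S(t/(8π)) ≤ C w t` (`Wlo`); there are at most `t` values of `d`, so the sum is at most `C w t²`, and by `Wup`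
`S(t)² ≤ C t^{3ε} t² w ≤ C t^{3ε} t S(t)`; so `S(t) ≤ C t^{1+3ε}` and `w ≤ C t^{3ε}`. -/
def StmtWsup : Prop := ∀ ε : ℝ, 0 < ε → ∃ C T0 : ℝ, 0 ≤ C ∧ 100 ≤ T0 ∧ ∀ (f : ℍ → ℝ) (t : ℝ)
  (ρ : ℂ) (l : ℕ → ℝ), IsHeckeMaass f t → IsRho f t ρ → Lam f l → T0 ≤ t → wf t ρ ≤ C * t ^ ε

/-- **LSv** a large sieve inequality (model `Av/RS.lean`; uses `KbE`, `Av.StmtKBf`, `Av.StmtDec`, `Kin` if useful). Proof. `M = T/64`, `w0 = M/(20T)`,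
`u0 ∈ [M, 2M]`, `W = [u0, u0 + w0]`, `P(z) = y² ∑_{n ∈ A} n^{3/2} e(nx) 1(n y ∈ W)` on `fdo` (supported in `y ≥ 1`, where `fdo` is the
strip `|x| < 1/2`, up to a null set). With `b(u) = √u KB t (2πu)`, `a_n(y) = (l(n)/√n) a_1(ny) = ρ l(n) √y K(2πny)`:
`∫_{fdo} f conj(P) dμ = ∑_{n ∈ A} n^{3/2} ∫ a_n(y) 1(ny ∈ W) dy = ρ (∑_{n ∈ A} l(n)) ∫_W b`, and
`∫ |P|² dμ = ∑_{n ∈ A} n³ ∫ y² 1(ny ∈ W) dy = #A ∫_W u² du ≤ #A 9 M² w0`. Bessel's inequality (`‖f‖² = π/3`), integrated over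
`u0 ∈ [M, 2M]`: `∑_i (3/π) ‖ρ_i‖² (∑_{n ∈ A} l_i(n))² ∫_M^{2M} |∫_W b_i|² du0 ≤ 9 M³ w0 #A`. For `u ∈ [M, 2M + w0]`, `2πu ≤ t/2`
(`t > T/2`), so by `KbE` `|b'| ≤ 4 √e0/√M`, and `|∫_W b|² ≥ (1/2) w0² b(u0)² - 16 w0⁴ e0/M`,
`∫_M^{2M} b² = (1/4π²) ∫_{2πM}^{4πM} X K² dX ≥ M² ∫_{2πM}^{4πM} K² dX/X ≥ M² e0/(5t²)`; so `∫_M^{2M} |∫_W b|² ≥
w0² e0 (M²/(10t²) - 16 w0²) ≥ w0² e0 M²/(100 t²)`, as `16 w0² ≤ 9M²/(100T²)`. Hence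
`∑ ‖ρ_i‖² (e0/t²) (∑ l_i(n))² ≤ C (M/w0) #A = C' T #A`, and `e0/t² ≥ π/(T cosh(πt))`. -/
def StmtLSv : Prop := ∃ C : ℝ, 0 ≤ C ∧ ∀ (ι : Type) [Fintype ι] (F : ι → ℍ → ℝ) (t : ι → ℝ)
  (ρ : ι → ℂ) (l : ι → ℕ → ℝ) (T : ℝ), Fam ι F t ρ → (∀ i, Lam (F i) (l i)) → 200 ≤ T →
  (∀ i, T / 2 < t i ∧ t i ≤ T) → ∀ A : Finset ℕ, (∀ n ∈ A, 1 ≤ n ∧ (n : ℝ) ≤ T / 64) →
    ∑ i, (wf (t i) (ρ i))⁻¹ * (∑ n ∈ A, l i n) ^ 2 ≤ C * T ^ 2 * A.card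

/-- the primes in `(z, 4z]` -/
def Pz (z : ℝ) : Finset ℕ := (Finset.Icc 1 ⌊4 * z⌋₊).filter fun p : ℕ => p.Prime ∧ z < (p : ℝ)

/-- **ChP** (model `Ef/ChQ.lean`, which has the inequality `θ(4z) - θ(z) ≥ 2 z log 2 - o(z)`). Proof. The number is at least
`(2 z log 2 - o(z))/log(4z) ≥ z^{1-ε}` for large `z`. -/
def StmtChP : Prop := ∀ ε : ℝ, 0 < ε → ∃ z0 : ℝ, 1 ≤ z0 ∧ ∀ z : ℝ, z0 ≤ z →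
  z ^ (1 - ε) ≤ ((Pz z).card : ℝ)

/-- **Bad** few forms have small eigenvalues at the primes near `√T` (uses `LSv`, `ChP`). Proof. `z = √T/32`, `P = Pz z`,
`A = {p² : p ∈ P}`, `p² ≤ 16 z² = T/64`. `l(p²) = l(p)² - 1` (`HMul.rel` with `n = p`, `HMul.one`), so for the forms considered
`∑_{p ∈ P} l(p²) ≤ - #P/2` and its square is at least `(#P)²/4`. `LSv`: `∑_i w_i⁻¹ ≤ 4 C T²/#P`, and `#P ≥ z^{1-ε}`. -/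
def StmtBad : Prop := ∀ ε : ℝ, 0 < ε → ∃ T0 : ℝ, 200 ≤ T0 ∧ ∀ T : ℝ, T0 ≤ T → ∀ (ι : Type)
  [Fintype ι] (F : ι → ℍ → ℝ) (t : ι → ℝ) (ρ : ι → ℂ) (l : ι → ℕ → ℝ), Fam ι F t ρ →
  (∀ i, Lam (F i) (l i)) → (∀ i, T / 2 < t i ∧ t i ≤ T) →
  (∀ i, ∑ p ∈ Pz (√T / 32), l i p ^ 2 ≤ ((Pz (√T / 32)).card : ℝ) / 2) →
    ∑ i, (wf (t i) (ρ i))⁻¹ ≤ T ^ (3 / 2 + ε)

/-- **Gud** the other forms have `w ≥ T^{-ε}` (uses `Wlo`, `ChP`; see `Ef/Big.lean`). Proof. `z = √T/32`, `P = Pz z`, `(4z)² = T/64`. For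
`p ∈ P`, `n ≥ 1`: if `3 ≤ |l(p)|` then `l(pn)² ≥ (|l(p)| - 1)² l(n)² ≥ (4/9) l(p)² l(n)²` (pointwise inequality in the proof of `Big`);
if `|l(p)| < 3` and `p ∤ n` then `l(pn)² = l(p)² l(n)²`. For `n ≤ 4z` at most one `p ∈ P` divides `n` (`z > 4`), so
`∑_{p ∈ P} l(pn)² ≥ l(n)² ((4/9) #P/2 - 4) ≥ l(n)² #P/9` for large `T`. Every `N ≤ (4z)²` is divisible by at most two `p ∈ P`
(`z³ > 16 z²`), so `2 S((4z)²) ≥ ∑_{n ≤ 4z} ∑_{p ∈ P} l(pn)² ≥ (#P/9) S(4z)`, and `S(4z) ≥ ∑_{p ∈ P} l(p)² ≥ #P/2`. So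
`S(T/64) ≥ (#P)²/36`, and by `Wlo` with `x = t/(8π) ≥ T/64` (`t > T/2`), `S(T/64) ≤ S(t/(8π)) ≤ C t w ≤ C T w`. `#P ≥ z^{1-ε/4}`. -/
def StmtGud : Prop := ∀ ε : ℝ, 0 < ε → ∃ T0 : ℝ, 200 ≤ T0 ∧ ∀ T : ℝ, T0 ≤ T → ∀ (f : ℍ → ℝ) (t : ℝ)
  (ρ : ℂ) (l : ℕ → ℝ), IsHeckeMaass f t → IsRho f t ρ → Lam f l → T / 2 < t → t ≤ T →
  ((Pz (√T / 32)).card : ℝ) / 2 < ∑ p ∈ Pz (√T / 32), l p ^ 2 → T ^ (-ε) ≤ wf t ρ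

/-! ### Conclusion -/

/-- **Cn2** the number of bad forms (model `Ef/Cnt.lean`, `Ef/F2.lean`; uses `F3`, `HkE`, `Wsup`, `Bad`, `Gud`, `Av.StmtOrth`, `Av.StmtRho`,
`Av.StmtPar`). Proof. Let `S'` be as in `Ef/Cnt.lean` (one element from every pair `f, -f`: a family `Fam`), `l_i` from `HkE`. Let
`X_i = XX2 η r K (F i)`. Let `ι₁` be the `i` with `∑_{p ∈ P} l_i(p)² ≤ #P/2` (`P = Pz (√T/32)`): by `Wsup` and `Bad` (both with `κ`)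
`#ι₁ = ∑ w_i w_i⁻¹ ≤ C T^κ T^{3/2+κ}`. For the others `w_i ≥ T^{-κ}` (`Gud`) and `X_i > T^{-κ}`, so by `F3` (for this part of the
family) `#ι₂ T^{-2κ} ≤ ∑ w_i X_i ≤ C T^{3/2+3κ}`. -/
def StmtCn2 : Prop := ∀ κ : ℝ, 0 < κ → κ ≤ 1 / 20 → ∀ η : ℂ → ℝ, Bump η → ∀ K : Set ℂ,
  IsCompact K → K ⊆ H0 → ∃ C T0 : ℝ, 0 ≤ C ∧ 2 ≤ T0 ∧ ∀ T : ℝ, T0 ≤ T → ∀ S : Finset (ℍ → ℝ),
    (∀ f ∈ S, ∃ t : ℝ, IsHeckeMaass f t ∧ T / 2 < t ∧ t ≤ T ∧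
      T ^ (-κ) < XX2 η (T ^ (-(1 / 2 + κ))) K f) →
        (S.card : ℝ) ≤ C * T ^ (3 / 2 + 5 * κ)

/-- **Dn2** one exceptional set, with general exponents (abstract; copy of `Ef/Den.lean` with `759/400` replaced by `α` and
`19/10` by `β`). Proof. As `Ef.StmtDen`, with `C_j (m+1) ≤ 2^{(β-α)m/2}` in the definition of `J(m)`. -/
def StmtDn2 : Prop := ∀ α β : ℝ, 0 < α → α < β → ∀ (F : Type) (P : F → ℝ → Prop)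
  (B : ℕ → F → ℝ → Prop), (∀ f t t', P f t → P f t' → t = t') →
  (∀ j : ℕ, ∃ C T0 : ℝ, 0 ≤ C ∧ 2 ≤ T0 ∧ ∀ T : ℝ, T0 ≤ T → ∀ S : Finset F,
    (∀ f ∈ S, ∃ t : ℝ, P f t ∧ T / 2 < t ∧ t ≤ T ∧ B j f T) → (S.card : ℝ) ≤ C * T ^ α) →
  ∃ E : Set F, (∃ C : ℝ, ∀ T : ℝ, 1 ≤ T → {f | f ∈ E ∧ ∃ t : ℝ, t ≤ T ∧ P f t}.Finite ∧
    ({f | f ∈ E ∧ ∃ t : ℝ, t ≤ T ∧ P f t}.ncard : ℝ) ≤ C * T ^ β) ∧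
  ∀ (f : ℕ → F) (t : ℕ → ℝ), (∀ i, P (f i) (t i)) → (∀ i, f i ∉ E) → Tendsto t atTop atTop →
    ∃ T : ℕ → ℝ, (∀ᶠ i in atTop, T i / 2 < t i ∧ t i ≤ T i) ∧
      ∀ j : ℕ, ∀ᶠ i in atTop, ¬B j (f i) (T i)

/-- **Sq2** sequences of good forms (copy of `Ef/Seq.lean` with `51/100` replaced by `1/2 + κ`, `101/200` by `1/2 + κ/2` and `1/200` by `κ/2`;
uses what `Ef.stmtSeq` uses). -/
def StmtSq2 : Prop := ∀ κ : ℝ, 0 < κ → κ ≤ 1 / 20 → ∀ η : ℂ → ℝ, Bump η →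
  ∀ (f : ℕ → ℍ → ℝ) (t T : ℕ → ℝ),
  (∀ i, IsHeckeMaass (f i) (t i)) → Tendsto t atTop atTop →
  (∀ᶠ i in atTop, T i / 2 < t i ∧ t i ≤ T i) →
  (∀ K : Set ℂ, IsCompact K → K ⊆ H0 →
    Tendsto (fun i => XX2 η (T i ^ (-(1 / 2 + κ))) K (f i)) atTop (𝓝 0)) → Pl.CondH f

/-- **Fi2** the main theorem (model `Ef/Fin.lean`; uses `Cn2`, `Dn2`, `Sq2`, `Sq.StmtFou`, `Pl.StmtU2`). Proof. As `Ef.StmtFin` with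
`κ = min (1/20) (ε/10)`, `α = 3/2 + 5κ`, `β = 3/2 + ε`, `B j f T :⇔ T^{-κ} < XX2 η (T^{-(1/2+κ)}) K_j f`. -/
def StmtFi2 : Prop := ∀ ε : ℝ, 0 < ε → ∃ (E : Set (ℍ → ℝ)) (C : ℝ),
  (∀ T : ℝ, 1 ≤ T → {f | f ∈ E ∧ ∃ t : ℝ, t ≤ T ∧ IsHeckeMaass f t}.Finite ∧
    ({f | f ∈ E ∧ ∃ t : ℝ, t ≤ T ∧ IsHeckeMaass f t}.ncard : ℝ) ≤ C * T ^ (3 / 2 + ε)) ∧
  ∀ (f : ℕ → ℍ → ℝ) (t : ℕ → ℝ), (∀ i, IsHeckeMaass (f i) (t i)) → (∀ i, f i ∉ E) →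
    Tendsto t atTop atTop → ∀ ψ : ℍ → ℝ, TestX ψ → ∀ n : ℕ, 1 ≤ n → n ≤ 4 →
      Tendsto (fun i => ∫ z in ModularGroup.fdo, ψ z * f i z ^ n) atTop
        (𝓝 (1 / √(2 * Real.pi) * (∫ x : ℝ, x ^ n * Real.exp (-x ^ 2 / 2)) *
          ∫ z in ModularGroup.fdo, ψ z))

end

end Pool.Agent.A54.Th
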