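import Pool.Agent.Lib.MP_a54f13_nt.Th.Spec

/-!
# Package `Th`, module `ChP`: the number of primes in `(z, 4z]`
-/

set_option autoImplicit false

namespace Pool.Agent.A54.Th

open MeasureTheory Filter Topology Set
open scoped ENNReal

noncomputable section

namespace ChPM

private theorem theta_sub {q : ℝ} (hq : 1 ≤ q) : Chebyshev.theta (4 * q) - Chebyshev.theta q ≤
    ((Pz q).card : ℝ) * Real.log (4 * q) := by
  set S := Pz q with hS
  have hSd : S = (Finset.Icc 1 ⌊4 * q⌋₊).filter (fun p : ℕ => p.Prime ∧ q < (p : ℝ)) := rfl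
  have h1 : Chebyshev.theta (4 * q) ≤ Chebyshev.theta q + ∑ p ∈ S, Real.log p := by
    unfold Chebyshev.theta
    have hsub : (Finset.Ioc 0 ⌊4 * q⌋₊).filter Nat.Prime ⊆
        (Finset.Ioc 0 ⌊q⌋₊).filter Nat.Prime ∪ S := by
      intro p hp
      rw [Finset.mem_filter, Finset.mem_Ioc] at hp
      obtain ⟨⟨h2, h3⟩, h4⟩ := hp
      rw [Finset.mem_union]
      rcases le_or_gt (p : ℝ) q with h5 | h5
      · left
        rw [Finset.mem_filter, Finset.mem_Ioc]
        exact ⟨⟨h2, Nat.le_floor h5⟩, h4⟩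
      · right
        rw [hSd, Finset.mem_filter, Finset.mem_Icc]
        exact ⟨⟨h2, h3⟩, h4, h5⟩
    have hnn : ∀ p : ℕ, 0 ≤ Real.log p := fun p => Real.log_natCast_nonneg p
    refine (Finset.sum_le_sum_of_subset_of_nonneg hsub fun p _ _ => hnn p).trans ?_
    have h6 := Finset.sum_union_inter (s₁ := (Finset.Ioc 0 ⌊q⌋₊).filter Nat.Prime) (s₂ := S)
      (f := fun p : ℕ => Real.log p)
    have h7 : 0 ≤ ∑ p ∈ (Finset.Ioc 0 ⌊q⌋₊).filter Nat.Prime ∩ S, Real.log (p : ℝ) :=
      Finset.sum_nonneg fun p _ => hnn p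
    linarith
  have h2 : ∑ p ∈ S, Real.log p ≤ (S.card : ℝ) * Real.log (4 * q) := by
    rw [← nsmul_eq_mul]
    apply Finset.sum_le_card_nsmul
    intro p hp
    rw [hSd, Finset.mem_filter, Finset.mem_Icc] at hp
    apply Real.log_le_log (by exact_mod_cast hp.1.1)
    exact (Nat.cast_le.mpr hp.1.2).trans (Nat.floor_le (by linarith))
  linarith

private theorem main : ∀ᶠ q : ℝ in atTop, q ≤ ((Pz q).card : ℝ) * Real.log (4 * q) := by
  have hlog : ∀ᶠ q : ℝ in atTop, Real.log q ≤ 1 / 2 * q ^ (1 / 8 : ℝ) := by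
    have h := (isLittleO_log_rpow_atTop (r := 1 / 8) (by norm_num)).bound
      (c := 1 / 2) (by norm_num)
    filter_upwards [h, eventually_ge_atTop 1] with q hq hq1
    rw [Real.norm_of_nonneg (Real.log_nonneg hq1), Real.norm_of_nonneg (by positivity)] at hq
    exact hq
  have hu : ∀ᶠ q : ℝ in atTop, 16 ≤ q ^ (1 / 8 : ℝ) :=
    (tendsto_rpow_atTop (by norm_num)).eventually_ge_atTop 16
  filter_upwards [hlog, hu, eventually_ge_atTop 1] with q h1 h2 hq1'
  have hq0 : 0 < q := by linarith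
  set u := q ^ (1 / 8 : ℝ) with hudef
  have hu8 : u ^ 8 = q := by
    rw [hudef, ← Real.rpow_natCast, ← Real.rpow_mul hq0.le]
    norm_num
  have hsq : √(4 * q) = 2 * u ^ 4 := by
    rw [← hu8, show 4 * u ^ 8 = (2 * u ^ 4) ^ 2 by ring, Real.sqrt_sq (by positivity)]
  have hl4 : Real.log 4 ≤ 2 := by
    have := Real.log_two_lt_d9
    rw [show (4 : ℝ) = 2 ^ 2 by norm_num, Real.log_pow]
    push_cast
    linarith
  have hl6 : Real.log 6 ≤ 3 := by
    have h3 : Real.log 6 ≤ Real.log 8 := Real.log_le_log (by norm_num) (by norm_num)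
    rw [show (8 : ℝ) = 2 ^ 3 by norm_num, Real.log_pow] at h3
    have := Real.log_two_lt_d9
    push_cast at h3
    linarith
  have e1 : Real.log (4 * q) ≤ u := by
    rw [Real.log_mul (by norm_num) hq0.ne']
    linarith
  have e2 : Real.log (4 * q + 2) ≤ u := by
    have h3 : Real.log (4 * q + 2) ≤ Real.log (6 * q) :=
      Real.log_le_log (by positivity) (by linarith)
    rw [Real.log_mul (by norm_num) hq0.ne'] at h3
    linarith
  have h3 := Chebyshev.theta_ge' (x := 4 * q) (by linarith)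
  have h4 := Chebyshev.theta_le_log4_mul_x (x := q) hq0.le
  have h5 := theta_sub hq1'
  rw [hsq] at h3
  have hlog4 : Real.log 4 = 2 * Real.log 2 := by
    rw [show (4 : ℝ) = 2 ^ 2 by norm_num, Real.log_pow]
    norm_num
  rw [hlog4] at h4
  have hl2 := Real.log_two_gt_d9
  have hl2' := Real.log_two_lt_d9
  have hu7 : u ^ 7 * 16 ≤ q := by
    rw [← hu8]
    have : 0 ≤ u ^ 7 := by positivity
    nlinarith
  have hu5 : u ^ 5 ≤ u ^ 7 := pow_le_pow_right₀ (by linarith) (by norm_num)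
  have hu1 : u ≤ u ^ 7 := by
    calc u = u ^ 1 := by ring
      _ ≤ u ^ 7 := pow_le_pow_right₀ (by linarith) (by norm_num)
  have f1 : 2 * (2 * u ^ 4) * Real.log (4 * q) ≤ 4 * u ^ 7 := by
    calc 2 * (2 * u ^ 4) * Real.log (4 * q) ≤ 2 * (2 * u ^ 4) * u := by gcongr
      _ = 4 * u ^ 5 := by ring
      _ ≤ 4 * u ^ 7 := by linarith
  nlinarith

end ChPM

theorem stmtChP : StmtChP := by
  intro ε hε
  have hlog : ∀ᶠ q : ℝ in atTop, Real.log q ≤ 1 / 2 * q ^ ε := by
    have h := (isLittleO_log_rpow_atTop hε).bound (c := 1 / 2) (by norm_num)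
    filter_upwards [h, eventually_ge_atTop 1] with q hq hq1
    rw [Real.norm_of_nonneg (Real.log_nonneg hq1), Real.norm_of_nonneg (by positivity)] at hq
    exact hq
  have hu : ∀ᶠ q : ℝ in atTop, 4 ≤ q ^ ε :=
    (tendsto_rpow_atTop hε).eventually_ge_atTop 4
  obtain ⟨q1, hq1⟩ := eventually_atTop.mp (hlog.and (hu.and ChPM.main))
  refine ⟨max q1 1, le_max_right _ _, fun q hq => ?_⟩
  obtain ⟨h1, h2, h3⟩ := hq1 q ((le_max_left _ _).trans hq)
  have hq1' : 1 ≤ q := (le_max_right _ _).trans hq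
  have hq0 : 0 < q := by linarith
  have hl4 : Real.log 4 ≤ 2 := by
    have := Real.log_two_lt_d9
    rw [show (4 : ℝ) = 2 ^ 2 by norm_num, Real.log_pow]
    push_cast
    linarith
  have e1 : Real.log (4 * q) ≤ q ^ ε := by
    rw [Real.log_mul (by norm_num) hq0.ne']
    linarith
  have e1pos : 0 < Real.log (4 * q) := Real.log_pos (by linarith)
  have e2 : q ^ (1 - ε) * q ^ ε = q := by
    rw [← Real.rpow_add hq0, sub_add_cancel, Real.rpow_one]
  have e3 : q ^ (1 - ε) * Real.log (4 * q) ≤ ((Pz q).card : ℝ) * Real.log (4 * q) := by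
    calc q ^ (1 - ε) * Real.log (4 * q) ≤ q ^ (1 - ε) * q ^ ε :=
          mul_le_mul_of_nonneg_left e1 (by positivity)
      _ = q := e2
      _ ≤ _ := h3
  exact le_of_mul_le_mul_right e3 e1pos

end

end Pool.Agent.A54.Th
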