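import Pool.Agent.Lib.MP_a54f13_nt.Th.Spec
import Pool.Agent.Lib.MP_a54f13_nt.Av.BP

/-! The geometric side: the integral over `y` and `φ`, with the exponent `6 - 1/2 + 3 κ`. -/

set_option autoImplicit false

namespace Pool.Agent.A54.Th.BQM

open MeasureTheory Filter Topology Set
open scoped ContDiff ComplexConjugate UpperHalfPlane MatrixGroups ENNReal
open Pool.Agent.A54.Half (H0)
open Pool.Agent.A54.Av (Bump es MN RN qs qT dl yo)
open Pool.Agent.A54.Av.BPM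

noncomputable section

lemma ev {c r : ℝ} (hc : 0 < c) (hr : 0 < r) : ∀ᶠ T : ℝ in atTop, T ^ (-c) ≤ r :=
  ((tendsto_rpow_neg_atTop hc).eventually (ge_mem_nhds hr))

/-- the weight in `y` -/
def gy (c y : ℝ) : ℝ := 2 * y ^ (-(3 / 2) : ℝ) + Real.exp (-c * y)

lemma gy_eq {c y : ℝ} (hy : 0 < y) :
    (2 * √y + y ^ 2 * Real.exp (-(c * y))) * (y ^ 2)⁻¹ = gy c y := by
  unfold gy
  have h1 : √y * (y ^ 2)⁻¹ = y ^ (-(3 / 2) : ℝ) := by
    rw [Real.sqrt_eq_rpow, ← Real.rpow_natCast, ← Real.rpow_neg hy.le, ← Real.rpow_add hy]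
    norm_num
  have h2 : y ^ 2 * (y ^ 2)⁻¹ = 1 := mul_inv_cancel₀ (by positivity)
  calc (2 * √y + y ^ 2 * Real.exp (-(c * y))) * (y ^ 2)⁻¹
      = 2 * (√y * (y ^ 2)⁻¹) + (y ^ 2 * (y ^ 2)⁻¹) * Real.exp (-(c * y)) := by ring
    _ = _ := by rw [h1, h2, one_mul, neg_mul]

lemma gy_meas (c : ℝ) : Measurable (fun y => ENNReal.ofReal (gy c y)) := by
  unfold gy
  fun_prop

lemma gy_nonneg {c y : ℝ} (hy : 0 < y) : 0 ≤ gy c y := by
  unfold gy
  positivity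

lemma int_gy (c : ℝ) (hc : 0 < c) : ∃ C : ℝ, 0 ≤ C ∧
    ∫⁻ y in Ioi (√3 / 2), ENNReal.ofReal (gy c y) ≤ ENNReal.ofReal C := by
  have h3 : (0 : ℝ) < √3 / 2 := by have := sqrt3; linarith
  refine ⟨(∫⁻ y in Ioi (√3 / 2), ENNReal.ofReal (gy c y)).toReal, ENNReal.toReal_nonneg, ?_⟩
  rw [ENNReal.ofReal_toReal]
  have h1 := (integrableOn_Ioi_rpow_of_lt (a := (-(3 / 2) : ℝ)) (by norm_num) h3)
  have h2 := exp_neg_integrableOn_Ioi (√3 / 2) hc
  exact (Integrable.lintegral_lt_top ((h1.const_mul 2).add h2)).ne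

lemma dl_meas (T s : ℝ) : Measurable (fun φ => ENNReal.ofReal (dl T φ ^ s)) := by
  unfold dl qs
  fun_prop

/-- adding the new terms to a bound for the double integral -/
lemma addX (B P : ℝ → ℝ → ℝ≥0∞) (c T s A Q C3 C6 : ℝ) (hA : 0 ≤ A) (hQ : 0 ≤ Q)
    (hC3 : 0 ≤ C3) (hC6 : 0 ≤ C6)
    (hP : ∫⁻ y in Ioi (√3 / 2), ∫⁻ φ in Ioc (-Real.pi) Real.pi, P y φ * ENNReal.ofReal (y ^ 2)⁻¹ ≤
      ENNReal.ofReal Q)
    (h3 : ∫⁻ φ in Ioc (-Real.pi) Real.pi, ENNReal.ofReal (dl T φ ^ s) ≤ ENNReal.ofReal C3)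
    (h6 : ∫⁻ y in Ioi (√3 / 2), ENNReal.ofReal (gy c y) ≤ ENNReal.ofReal C6)
    (hB : ∀ y ∈ Ioi (√3 / 2), ∀ φ ∈ Ioc (-Real.pi) Real.pi,
      B y φ * ENNReal.ofReal (y ^ 2)⁻¹ ≤ P y φ * ENNReal.ofReal (y ^ 2)⁻¹ +
        ENNReal.ofReal A * (ENNReal.ofReal (gy c y) * ENNReal.ofReal (dl T φ ^ s))) :
    ∫⁻ y in Ioi (√3 / 2), ∫⁻ φ in Ioc (-Real.pi) Real.pi, B y φ * ENNReal.ofReal (y ^ 2)⁻¹ ≤
      ENNReal.ofReal (Q + A * (C6 * C3)) := by
  have m1 := dl_meas T s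
  have m2 := gy_meas c
  calc ∫⁻ y in Ioi (√3 / 2), ∫⁻ φ in Ioc (-Real.pi) Real.pi, B y φ * ENNReal.ofReal (y ^ 2)⁻¹
      ≤ ∫⁻ y in Ioi (√3 / 2), ((∫⁻ φ in Ioc (-Real.pi) Real.pi,
          P y φ * ENNReal.ofReal (y ^ 2)⁻¹) +
          ENNReal.ofReal A * (ENNReal.ofReal (gy c y) * ENNReal.ofReal C3)) := by
        refine setLIntegral_mono' measurableSet_Ioi fun y hy => ?_
        calc ∫⁻ φ in Ioc (-Real.pi) Real.pi, B y φ * ENNReal.ofReal (y ^ 2)⁻¹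
            ≤ ∫⁻ φ in Ioc (-Real.pi) Real.pi, (P y φ * ENNReal.ofReal (y ^ 2)⁻¹ +
              ENNReal.ofReal A * (ENNReal.ofReal (gy c y) * ENNReal.ofReal (dl T φ ^ s))) :=
              setLIntegral_mono' measurableSet_Ioc (hB y hy)
          _ = (∫⁻ φ in Ioc (-Real.pi) Real.pi, P y φ * ENNReal.ofReal (y ^ 2)⁻¹) +
              ∫⁻ φ in Ioc (-Real.pi) Real.pi,
              ENNReal.ofReal A * (ENNReal.ofReal (gy c y) * ENNReal.ofReal (dl T φ ^ s)) :=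
              lintegral_add_right _ (by fun_prop)
          _ ≤ _ := by
              gcongr
              rw [lintegral_const_mul' _ _ ENNReal.ofReal_ne_top,
                lintegral_const_mul' _ _ ENNReal.ofReal_ne_top]
              gcongr
    _ = (∫⁻ y in Ioi (√3 / 2), ∫⁻ φ in Ioc (-Real.pi) Real.pi,
          P y φ * ENNReal.ofReal (y ^ 2)⁻¹) +
          ∫⁻ y in Ioi (√3 / 2),
            ENNReal.ofReal A * (ENNReal.ofReal (gy c y) * ENNReal.ofReal C3) :=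
        lintegral_add_right _ (by fun_prop)
    _ ≤ ENNReal.ofReal Q + ENNReal.ofReal A * (ENNReal.ofReal C6 * ENNReal.ofReal C3) := by
        gcongr
        rw [lintegral_const_mul' _ _ ENNReal.ofReal_ne_top,
          lintegral_mul_const' _ _ ENNReal.ofReal_ne_top]
        gcongr
    _ = ENNReal.ofReal (Q + A * (C6 * C3)) := by
        rw [← ENNReal.ofReal_mul hC6, ← ENNReal.ofReal_mul hA,
          ← ENNReal.ofReal_add hQ (by positivity)]

/-- the exponents -/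
lemma exps {κ T c y D : ℝ} (hκ : 0 < κ) (hκ1 : κ ≤ 1 / 20) (hT : 2 ≤ T) (hy : 0 < y)
    (hD : T ^ (-(1 / 2) : ℝ) ≤ D) :
    √(y / (T ^ 2 * D ^ 2)) + (T ^ (-(1 / 2) + 2 * κ)) ^ (1 - κ) +
      (((T ^ (-(1 / 2) + 2 * κ)) ^ 4)⁻¹ * √(y / (T ^ 2 * D ^ 2)) +
        (T ^ (-(1 / 2) + 2 * κ)) ^ (-(3 + κ))) * ((T ^ (-(1 / 2 + κ)) * T) ^ 4)⁻¹ +
      (y / D) ^ 2 * Real.exp (-(c * y)) * ((T ^ (-(1 / 2) + 2 * κ) * T) ^ 2)⁻¹ ≤
      2 * T ^ (-(1 / 2) + 3 * κ) +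
        T ^ (-(1 / 2) : ℝ) * ((2 * √y + y ^ 2 * Real.exp (-(c * y))) * D ^ (-(1 - κ))) := by
  have hT0 : 0 < T := by linarith
  have hT1 : 1 ≤ T := by linarith
  have hd0 : 0 < T ^ (-(1 / 2) : ℝ) := Real.rpow_pos_of_pos hT0 _
  have hD0 : 0 < D := hd0.trans_le hD
  have pw : ∀ (a : ℝ) (n : ℕ), (T ^ a) ^ n = T ^ (a * n) := fun a n => by
    rw [← Real.rpow_natCast, ← Real.rpow_mul hT0.le]
  have pr : ∀ (a b : ℝ), (T ^ a) ^ b = T ^ (a * b) := fun a b => (Real.rpow_mul hT0.le a b).symm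
  have iv : ∀ a : ℝ, (T ^ a)⁻¹ = T ^ (-a) := fun a => (Real.rpow_neg hT0.le a).symm
  have ml : ∀ a b : ℝ, T ^ a * T ^ b = T ^ (a + b) := fun a b => (Real.rpow_add hT0 a b).symm
  have mo : ∀ a b : ℝ, a ≤ b → T ^ a ≤ T ^ b := fun a b h =>
    Real.rpow_le_rpow_of_exponent_le hT1 h
  have m1 : ∀ a : ℝ, T ^ a * T = T ^ (a + 1) := fun a => by
    rw [Real.rpow_add hT0, Real.rpow_one]
  -- powers of `D`
  have d1 : D⁻¹ ≤ T ^ (κ / 2) * D ^ (-(1 - κ)) := by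
    have h1 : D⁻¹ = D ^ (-κ) * D ^ (-(1 - κ)) := by
      rw [← Real.rpow_add hD0, ← Real.rpow_neg_one]
      congr 1
      ring
    rw [h1]
    refine mul_le_mul_of_nonneg_right ?_ (Real.rpow_nonneg hD0.le _)
    calc D ^ (-κ) ≤ (T ^ (-(1 / 2) : ℝ)) ^ (-κ) :=
          Real.rpow_le_rpow_of_nonpos hd0 hD (by linarith)
      _ = T ^ (κ / 2) := by rw [pr]; congr 1; ring
  have d2 : (D ^ 2)⁻¹ ≤ T ^ ((1 + κ) / 2) * D ^ (-(1 - κ)) := by
    have h1 : (D ^ 2)⁻¹ = D ^ (-(1 + κ)) * D ^ (-(1 - κ)) := by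
      rw [← Real.rpow_add hD0, ← Real.rpow_natCast, ← Real.rpow_neg hD0.le]
      congr 1
      push_cast
      ring
    rw [h1]
    refine mul_le_mul_of_nonneg_right ?_ (Real.rpow_nonneg hD0.le _)
    calc D ^ (-(1 + κ)) ≤ (T ^ (-(1 / 2) : ℝ)) ^ (-(1 + κ)) :=
          Real.rpow_le_rpow_of_nonpos hd0 hD (by linarith)
      _ = T ^ ((1 + κ) / 2) := by rw [pr]; congr 1; ring
  set S := √(y / (T ^ 2 * D ^ 2)) with hS
  have hS0 : 0 ≤ S := Real.sqrt_nonneg _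
  have s1 : S ≤ T ^ (-(1 / 2) : ℝ) * (√y * D ^ (-(1 - κ))) := by
    have h1 : S = √y * (T⁻¹ * D⁻¹) := by
      rw [hS, Real.sqrt_div hy.le, ← mul_pow, Real.sqrt_sq (by positivity), div_eq_mul_inv,
        mul_inv]
    have h2 : T⁻¹ = T ^ (-1 : ℝ) := (Real.rpow_neg_one T).symm
    rw [h1]
    calc √y * (T⁻¹ * D⁻¹) ≤ √y * (T⁻¹ * (T ^ (κ / 2) * D ^ (-(1 - κ)))) := by gcongr
      _ = T ^ (-1 + κ / 2) * (√y * D ^ (-(1 - κ))) := by
          rw [h2, ← ml (-1) (κ / 2)]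
          ring
      _ ≤ T ^ (-(1 / 2) : ℝ) * (√y * D ^ (-(1 - κ))) :=
          mul_le_mul_of_nonneg_right (mo _ _ (by linarith)) (by positivity)
  -- the four other terms
  have e2 : (T ^ (-(1 / 2) + 2 * κ)) ^ (1 - κ) ≤ T ^ (-(1 / 2) + 3 * κ) := by
    rw [pr]
    exact mo _ _ (by nlinarith)
  have e3 : ((T ^ (-(1 / 2) + 2 * κ)) ^ 4)⁻¹ * ((T ^ (-(1 / 2 + κ)) * T) ^ 4)⁻¹ ≤ 1 := by
    rw [m1, pw, pw, iv, iv, ml]
    refine Real.rpow_le_one_of_one_le_of_nonpos hT1 ?_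
    push_cast
    linarith
  have e4 : (T ^ (-(1 / 2) + 2 * κ)) ^ (-(3 + κ)) * ((T ^ (-(1 / 2 + κ)) * T) ^ 4)⁻¹ ≤
      T ^ (-(1 / 2) + 3 * κ) := by
    rw [m1, pw, pr, iv, ml]
    refine mo _ _ ?_
    push_cast
    nlinarith
  have e5 : (y / D) ^ 2 * Real.exp (-(c * y)) * ((T ^ (-(1 / 2) + 2 * κ) * T) ^ 2)⁻¹ ≤
      T ^ (-(1 / 2) : ℝ) * (y ^ 2 * Real.exp (-(c * y)) * D ^ (-(1 - κ))) := by
    have h1 : ((T ^ (-(1 / 2) + 2 * κ) * T) ^ 2)⁻¹ = T ^ (-(1 + 4 * κ)) := by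
      rw [m1, pw, iv]
      congr 1
      push_cast
      ring
    rw [h1, div_pow, div_eq_mul_inv]
    calc y ^ 2 * (D ^ 2)⁻¹ * Real.exp (-(c * y)) * T ^ (-(1 + 4 * κ))
        ≤ y ^ 2 * (T ^ ((1 + κ) / 2) * D ^ (-(1 - κ))) * Real.exp (-(c * y)) *
          T ^ (-(1 + 4 * κ)) := by gcongr
      _ = T ^ ((1 + κ) / 2 + -(1 + 4 * κ)) *
          (y ^ 2 * Real.exp (-(c * y)) * D ^ (-(1 - κ))) := by
          rw [← ml]
          ring
      _ ≤ T ^ (-(1 / 2) : ℝ) * (y ^ 2 * Real.exp (-(c * y)) * D ^ (-(1 - κ))) :=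
          mul_le_mul_of_nonneg_right (mo _ _ (by linarith)) (by positivity)
  have e6 : (((T ^ (-(1 / 2) + 2 * κ)) ^ 4)⁻¹ * S + (T ^ (-(1 / 2) + 2 * κ)) ^ (-(3 + κ))) *
      ((T ^ (-(1 / 2 + κ)) * T) ^ 4)⁻¹ ≤ S + T ^ (-(1 / 2) + 3 * κ) := by
    have h1 : ((T ^ (-(1 / 2) + 2 * κ)) ^ 4)⁻¹ * ((T ^ (-(1 / 2 + κ)) * T) ^ 4)⁻¹ * S ≤ 1 * S :=
      mul_le_mul_of_nonneg_right e3 hS0
    calc _ = ((T ^ (-(1 / 2) + 2 * κ)) ^ 4)⁻¹ * ((T ^ (-(1 / 2 + κ)) * T) ^ 4)⁻¹ * S +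
          (T ^ (-(1 / 2) + 2 * κ)) ^ (-(3 + κ)) * ((T ^ (-(1 / 2 + κ)) * T) ^ 4)⁻¹ := by ring
      _ ≤ S + T ^ (-(1 / 2) + 3 * κ) := by linarith
  have e7 : T ^ (-(1 / 2) : ℝ) * ((2 * √y + y ^ 2 * Real.exp (-(c * y))) * D ^ (-(1 - κ))) =
      2 * (T ^ (-(1 / 2) : ℝ) * (√y * D ^ (-(1 - κ)))) +
        T ^ (-(1 / 2) : ℝ) * (y ^ 2 * Real.exp (-(c * y)) * D ^ (-(1 - κ))) := by ring
  rw [e7]
  linarith

end

end Pool.Agent.A54.Th.BQM

namespace Pool.Agent.A54.Th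

open MeasureTheory Filter Topology Set
open scoped ContDiff ComplexConjugate UpperHalfPlane MatrixGroups ENNReal
open Pool.Agent.A54.Half (H0)
open Pool.Agent.A54.Av (Bump es MN RN qs qT dl yo)
open Pool.Agent.A54.Av.BPM

noncomputable section

theorem stmtBQ (hG1 : Av.StmtG1) (hG3 : StmtG3) (hDl : Av.StmtDl) (hDl2 : StmtDl2) : StmtBQ := by
  intro κ hκ hκ1 η hη K hK hKH
  obtain ⟨C1, r1, hC1, hr1, hG1⟩ := hG1 η hη K hK hKH
  obtain ⟨C2, r0, c, hC2, hr0, hc, hG3⟩ := hG3 κ hκ (by linarith) η hη K hK hKH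
  obtain ⟨hD, Cd, hCd, hDi⟩ := hDl
  obtain ⟨C3, hC3, hD2⟩ := hDl2 κ hκ (by linarith)
  obtain ⟨C5, hC5, h5⟩ := int_34
  obtain ⟨C6, hC6, h6⟩ := BQM.int_gy c hc
  obtain ⟨T0, hT0⟩ := eventually_atTop.mp
    ((BQM.ev (c := 1 / 2 + κ) (by linarith) hr1).and (BQM.ev (c := 3 * κ) (by linarith) hr0))
  refine ⟨28 * C2 + 23 * C1 + C1 * Cd * C5 + C2 * (C6 * C3), max 2 T0, by positivity,
    le_max_left _ _, fun T hT => ?_⟩
  have hT2 : 2 ≤ T := (le_max_left _ _).trans hT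
  obtain ⟨hr1', hr0'⟩ := hT0 T ((le_max_right _ _).trans hT)
  have hTp : 0 < T := by linarith
  have hT1 : 1 ≤ T := by linarith
  set r := T ^ (-(1 / 2 + κ)) with hrdef
  set ε := T ^ (-(1 / 2) + 2 * κ) with hεdef
  set Y := T ^ (1 / 2 : ℝ) with hYdef
  set d := T ^ (-(1 / 2) : ℝ) with hddef
  set G := T ^ (-(1 / 2) + 3 * κ) with hGdef
  have hr : 0 < r := Real.rpow_pos_of_pos hTp _
  have hε : 0 < ε := Real.rpow_pos_of_pos hTp _
  have hG0 : 0 < G := Real.rpow_pos_of_pos hTp _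
  have hε1 : ε ≤ 1 := Real.rpow_le_one_of_one_le_of_nonpos hT1 (by linarith)
  have hY1 : 1 ≤ Y := Real.one_le_rpow hT1 (by norm_num)
  have hd0 : 0 < d := Real.rpow_pos_of_pos hTp _
  have hd1 : d ≤ 1 := Real.rpow_le_one_of_one_le_of_nonpos hT1 (by norm_num)
  have hdG : d ≤ G := Real.rpow_le_rpow_of_exponent_le hT1 (by linarith)
  have hYd : Y⁻¹ = d := by rw [hYdef, hddef, Real.rpow_neg hTp.le]
  have hrr : r ≤ r0 * ε := by
    have h1 : r = T ^ (-(3 * κ)) * ε := by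
      rw [hrdef, hεdef, ← Real.rpow_add hTp]
      congr 1
      ring
    rw [h1]
    exact mul_le_mul_of_nonneg_right hr0' hε.le
  have hcont : Continuous η := hη.smooth.continuous
  rw [swap η hcont r (qT T) K]
  set E : ℝ := C2 * (2 * G) with hE
  have hE0 : 0 ≤ E := by positivity
  have hDpos : ∀ θ : ℝ, |θ| ≤ Real.pi → 0 < dl T θ := by
    intro θ hθ
    exact lt_of_lt_of_le (by positivity) (hD T θ hT2 hθ).1
  set P : ℝ → ℝ → ℝ≥0∞ := fun y θ => ENNReal.ofReal (T ^ 6) *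
    (ENNReal.ofReal E + i1 Y C1 y + i2 d C1 θ +
      ENNReal.ofReal (C1 * yo T θ y ^ (3 / 4 : ℝ))) with hP
  have hPi := outer P Cd T C1 E Y d C5 hT2 hC1 hCd hE0 hY1 hd0 hC5 hDpos (hDi T hT2) h5
    (fun y _ θ _ => le_refl _)
  have hadd := BQM.addX (fun y θ => ∫⁻ z0 in K, ∑' n : ℤ,
    ‖MN (es η r z0) (qs (qT T) θ) y n‖ₑ ^ 2) P c T (-(1 - κ)) (T ^ 6 * (C2 * d))
    (T ^ 6 * (14 * E + 7 * (C1 / Y) + 16 * d * C1 + C1 * Cd * C5 * (√T)⁻¹)) C3 C6
    (by positivity) (by positivity) hC3 hC6 hPi (hD2 T hT2) h6 ?_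
  · refine hadd.trans (ENNReal.ofReal_le_ofReal ?_)
    have hsT : (√T)⁻¹ = d := by
      rw [Real.sqrt_eq_rpow, ← Real.rpow_neg hTp.le, hddef]
    have h6 : T ^ (6 - 1 / 2 + 3 * κ) = T ^ 6 * G := by
      rw [hGdef, ← Real.rpow_natCast T 6, ← Real.rpow_add hTp]
      congr 1
      push_cast
      ring
    rw [h6, hsT]
    have h8 : C1 / Y = C1 * d := by rw [div_eq_mul_inv, hYd]
    have h7 : 14 * E + 7 * (C1 / Y) + 16 * d * C1 + C1 * Cd * C5 * d + C2 * d * (C6 * C3) ≤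
        (28 * C2 + 23 * C1 + C1 * Cd * C5 + C2 * (C6 * C3)) * G := by
      have h9 : (23 * C1 + C1 * Cd * C5 + C2 * (C6 * C3)) * d ≤
          (23 * C1 + C1 * Cd * C5 + C2 * (C6 * C3)) * G :=
        mul_le_mul_of_nonneg_left hdG (by positivity)
      rw [h8, hE]
      linarith
    calc T ^ 6 * (14 * E + 7 * (C1 / Y) + 16 * d * C1 + C1 * Cd * C5 * d) +
          T ^ 6 * (C2 * d) * (C6 * C3)
        = T ^ 6 * (14 * E + 7 * (C1 / Y) + 16 * d * C1 + C1 * Cd * C5 * d +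
          C2 * d * (C6 * C3)) := by ring
      _ ≤ T ^ 6 * ((28 * C2 + 23 * C1 + C1 * Cd * C5 + C2 * (C6 * C3)) * G) :=
          mul_le_mul_of_nonneg_left h7 (by positivity)
      _ = _ := by ring
  · intro y hy θ hθ
    have hyh : 1 / 2 ≤ y := by
      have : √3 / 2 < y := hy
      have := sqrt3
      linarith
    have hy0 : 0 < y := by linarith
    have hθ' : |θ| ≤ Real.pi := abs_le.2 ⟨hθ.1.le, hθ.2⟩
    have hdpos := hDpos θ hθ'
    have hyo : 0 ≤ yo T θ y := by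
      unfold yo
      positivity
    have hyo' : 0 ≤ yo T θ y ^ (3 / 4 : ℝ) := Real.rpow_nonneg hyo _
    have key : ENNReal.ofReal (C1 * T ^ 6 * (1 + yo T θ y ^ (3 / 4 : ℝ))) =
        ENNReal.ofReal (T ^ 6) * (ENNReal.ofReal C1 +
          ENNReal.ofReal (C1 * yo T θ y ^ (3 / 4 : ℝ))) := by
      rw [← ENNReal.ofReal_add hC1 (by positivity), ← ENNReal.ofReal_mul (by positivity)]
      congr 1
      ring
    by_cases h1 : Y < y
    · have b := hG1 T r y θ hT2 hr hr1' hyh hθ'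
      rw [key] at b
      refine le_trans ?_ le_self_add
      refine mul_le_mul' ?_ le_rfl
      refine b.trans ?_
      simp only [hP]
      gcongr
      have : i1 Y C1 y = ENNReal.ofReal C1 := by
        unfold i1
        exact indicator_of_mem h1 _
      rw [this, add_comm (ENNReal.ofReal E), add_assoc]
      exact le_self_add
    · by_cases h2 : dl T θ < d
      · have b := hG1 T r y θ hT2 hr hr1' hyh hθ'
        rw [key] at b
        refine le_trans ?_ le_self_add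
        refine mul_le_mul' ?_ le_rfl
        refine b.trans ?_
        simp only [hP]
        gcongr
        have : i2 d C1 θ = ENNReal.ofReal C1 := by
          unfold i2
          refine indicator_of_mem ?_ _
          have := (hD T θ hT2 hθ').2.1
          simp only [Set.mem_ofPred_eq]
          linarith
        rw [this]
        exact le_add_self
      · have hdd : d ≤ dl T θ := not_lt.1 h2
        have hyY : y ≤ Y := not_lt.1 h1
        have hyo1 : yo T θ y ≤ 1 := by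
          unfold yo
          rw [div_le_one (by positivity)]
          have e1 : Y ≤ T ^ 2 * d ^ 2 := by
            have : T ^ 2 * d ^ 2 = T := by
              rw [hddef, ← Real.rpow_natCast, ← Real.rpow_natCast, ← Real.rpow_mul hTp.le,
                ← Real.rpow_add hTp]
              norm_num
            rw [this, hYdef]
            calc T ^ (1 / 2 : ℝ) ≤ T ^ (1 : ℝ) :=
                  Real.rpow_le_rpow_of_exponent_le hT1 (by norm_num)
              _ = T := Real.rpow_one T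
          have e2 : T ^ 2 * d ^ 2 ≤ T ^ 2 * dl T θ ^ 2 := by gcongr
          linarith
        have hr2 : r ^ 2 ≤ dl T θ := by
          refine le_trans ?_ hdd
          rw [hrdef, hddef, ← Real.rpow_natCast, ← Real.rpow_mul hTp.le]
          refine Real.rpow_le_rpow_of_exponent_le hT1 ?_
          push_cast
          linarith
        have b := hG3 ε r T y θ hε hε1 hr hrr hT2 hyh hθ' hyo1 hr2
        have hx := BQM.exps (c := c) hκ hκ1 hT2 hy0 hdd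
        rw [← hεdef, ← hddef, ← hrdef, ← hGdef] at hx
        have hg := BQM.gy_eq (c := c) hy0
        have hgn := BQM.gy_nonneg (c := c) hy0
        have hDn : 0 ≤ dl T θ ^ (-(1 - κ)) := Real.rpow_nonneg hdpos.le _
        have hyi : 0 ≤ (y ^ 2)⁻¹ := by positivity
        calc (∫⁻ z0 in K, ∑' n : ℤ, ‖MN (es η r z0) (qs (qT T) θ) y n‖ₑ ^ 2) *
              ENNReal.ofReal (y ^ 2)⁻¹
            ≤ ENNReal.ofReal (C2 * T ^ 6 * (2 * G + d * ((2 * √y +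
              y ^ 2 * Real.exp (-(c * y))) * dl T θ ^ (-(1 - κ))))) *
                ENNReal.ofReal (y ^ 2)⁻¹ := by
              gcongr
              refine b.trans (ENNReal.ofReal_le_ofReal ?_)
              exact mul_le_mul_of_nonneg_left hx (by positivity)
          _ = ENNReal.ofReal (T ^ 6) * ENNReal.ofReal E * ENNReal.ofReal (y ^ 2)⁻¹ +
              ENNReal.ofReal (T ^ 6 * (C2 * d)) *
                (ENNReal.ofReal (BQM.gy c y) * ENNReal.ofReal (dl T θ ^ (-(1 - κ)))) := by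
              rw [← ENNReal.ofReal_mul (by positivity), ← ENNReal.ofReal_mul (by positivity),
                ← ENNReal.ofReal_mul (by positivity), ← ENNReal.ofReal_mul hgn,
                ← ENNReal.ofReal_mul (by positivity),
                ← ENNReal.ofReal_add (by positivity) (by positivity), ← hg]
              congr 1
              rw [hE]
              ring
          _ ≤ _ := by
              refine add_le_add ?_ (le_refl _)
              simp only [hP]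
              gcongr
              rw [add_assoc, add_assoc]
              exact le_self_add

end

end Pool.Agent.A54.Th
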