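import Pool.Agent.Lib.MP_a54f13_nt.Th.Spec

/-!
# `Bad`: few forms have small eigenvalues at the primes near `√T / 32`
-/

set_option autoImplicit false

namespace Pool.Agent.A54.Th

open MeasureTheory Filter Topology Set
open scoped ContDiff ComplexConjugate UpperHalfPlane MatrixGroups ENNReal
open Pool.Agent.A54.Half (H0 qq ff hh)
open Pool.Agent.A54.Av (Mat VV Vd msq bet NonSc Bump es Sm' MN RN GR qs qT dl yo Aa DD Fam wf XX2 O8 Pm
  lam Cc Blk BlkG Pc cnt Cnd WW sW an IsRho KB KB1)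
open Pool.Agent.A54.Ef (HMul SF qe)

noncomputable section

namespace BadM

lemma sq_val {l : ℕ → ℝ} (h : HMul l) {p : ℕ} (hp : p.Prime) : l (p ^ 2) = l p ^ 2 - 1 := by
  have h1 := h.rel p p hp hp.one_lt.le
  rw [if_pos (dvd_refl p), Nat.div_self hp.pos, h.one] at h1
  rw [pow_two p]
  linarith

/-- the squares of the primes -/
def A2 (z : ℝ) : Finset ℕ := (Pz z).image (fun p => p ^ 2)

lemma inj2 (S : Set ℕ) : InjOn (fun p : ℕ => p ^ 2) S :=
  (Nat.pow_left_injective (by norm_num : (2 : ℕ) ≠ 0)).injOn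

lemma card_A2 (z : ℝ) : (A2 z).card = (Pz z).card :=
  Finset.card_image_of_injOn (inj2 _)

lemma mem_A2 {T : ℝ} (hT : 0 ≤ T) : ∀ n ∈ A2 (√T / 32), 1 ≤ n ∧ (n : ℝ) ≤ T / 64 := by
  intro n hn
  obtain ⟨p, hp, rfl⟩ := Finset.mem_image.1 hn
  rw [Pz, Finset.mem_filter, Finset.mem_Icc] at hp
  obtain ⟨⟨h1, h2⟩, h3, -⟩ := hp
  refine ⟨Nat.one_le_pow _ _ (by omega), ?_⟩
  have h4 : (p : ℝ) ≤ 4 * (√T / 32) := (Nat.le_floor_iff (by positivity)).1 h2
  have h5 : (p : ℝ) ^ 2 ≤ (4 * (√T / 32)) ^ 2 := pow_le_pow_left₀ (Nat.cast_nonneg p) h4 2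
  have h6 : (4 * (√T / 32)) ^ 2 = T / 64 := by
    have := Real.sq_sqrt hT
    calc (4 * (√T / 32)) ^ 2 = √T ^ 2 / 64 := by ring
      _ = T / 64 := by rw [this]
  push_cast
  linarith

lemma sum_A2 {l : ℕ → ℝ} (h : HMul l) (z : ℝ) :
    ∑ n ∈ A2 z, l n = ∑ p ∈ Pz z, l p ^ 2 - (Pz z).card := by
  rw [A2, Finset.sum_image (inj2 _)]
  have h1 : ∑ p ∈ Pz z, l (p ^ 2) = ∑ p ∈ Pz z, (l p ^ 2 - 1) := by
    refine Finset.sum_congr rfl fun p hp => ?_
    rw [Pz, Finset.mem_filter] at hp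
    exact sq_val h hp.2.1
  rw [h1, Finset.sum_sub_distrib]
  simp

end BadM

theorem stmtBad (hLS : StmtLSv) (hCh : StmtChP) : StmtBad := by
  intro ε hε
  obtain ⟨C, hC, hLS⟩ := hLS
  obtain ⟨z0, hz0, hCh⟩ := hCh ε hε
  have hlim : Tendsto (fun T : ℝ => T ^ (ε / 2)) atTop atTop := tendsto_rpow_atTop (by linarith)
  obtain ⟨T1, hT1⟩ := eventually_atTop.1 (hlim.eventually_ge_atTop (128 * C))
  refine ⟨max 200 (max T1 ((32 * z0) ^ 2)), le_max_left _ _, fun T hT ι _ F t ρ l hF hl ht hs => ?_⟩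
  have hT200 : 200 ≤ T := (le_max_left _ _).trans hT
  have hTT1 : T1 ≤ T := (le_max_left _ _).trans ((le_max_right _ _).trans hT)
  have hTz : (32 * z0) ^ 2 ≤ T := (le_max_right _ _).trans ((le_max_right _ _).trans hT)
  have hT0 : 0 < T := by linarith
  have hpow := hT1 T hTT1
  set z : ℝ := √T / 32 with hz
  have hzz : z0 ≤ z := by
    rw [hz, le_div_iff₀ (by norm_num)]
    have := Real.le_sqrt_of_sq_le hTz
    linarith
  have hP := hCh z hzz
  have hsT : 0 < √T := Real.sqrt_pos.2 hT0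
  have hzpos : 0 < z := by positivity
  set P : ℝ := ((Pz z).card : ℝ) with hPdef
  have hPpos : 0 < P := lt_of_lt_of_le (Real.rpow_pos_of_pos hzpos _) hP
  -- lower bound for the number of primes
  have hzlow : T ^ ((1 - ε) / 2) / 32 ≤ P := by
    refine le_trans ?_ hP
    have h1 : z ^ (1 - ε) = T ^ ((1 - ε) / 2) * (32 : ℝ) ^ (ε - 1) := by
      rw [hz, div_eq_mul_inv, Real.mul_rpow hsT.le (by norm_num), Real.sqrt_eq_rpow,
        ← Real.rpow_mul hT0.le, Real.inv_rpow (by norm_num), ← Real.rpow_neg (by norm_num)]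
      congr 1
      · congr 1
        ring
      · congr 1
        ring
    rw [h1, div_eq_mul_inv]
    refine mul_le_mul_of_nonneg_left ?_ (by positivity)
    have h2 : (32 : ℝ)⁻¹ = (32 : ℝ) ^ (-1 : ℝ) := by rw [Real.rpow_neg_one]
    rw [h2]
    exact Real.rpow_le_rpow_of_exponent_le (by norm_num) (by linarith)
  -- the large sieve
  have hmain := hLS ι F t ρ l T hF hl hT200 ht (BadM.A2 z) (BadM.mem_A2 hT0.le)
  rw [BadM.card_A2, ← hPdef] at hmain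
  have hw : ∀ i, 0 ≤ (wf (t i) (ρ i))⁻¹ := by
    intro i
    unfold wf
    have := Real.cosh_pos (Real.pi * t i)
    positivity
  have hterm : ∀ i, (wf (t i) (ρ i))⁻¹ * (P ^ 2 / 4) ≤
      (wf (t i) (ρ i))⁻¹ * (∑ n ∈ BadM.A2 z, l i n) ^ 2 := by
    intro i
    refine mul_le_mul_of_nonneg_left ?_ (hw i)
    rw [BadM.sum_A2 (hl i).mul, ← hPdef]
    have h1 := hs i
    have h2 : 0 ≤ P / 2 - ∑ p ∈ Pz z, l i p ^ 2 := by linarith
    have h3 : 0 ≤ 3 * P / 2 - ∑ p ∈ Pz z, l i p ^ 2 := by linarith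
    nlinarith [mul_nonneg h2 h3]
  have hsum : (∑ i, (wf (t i) (ρ i))⁻¹) * (P ^ 2 / 4) ≤ C * T ^ 2 * P := by
    rw [Finset.sum_mul]
    exact (Finset.sum_le_sum fun i _ => hterm i).trans hmain
  set W : ℝ := ∑ i, (wf (t i) (ρ i))⁻¹ with hW
  have hW0 : 0 ≤ W := Finset.sum_nonneg fun i _ => hw i
  have h3 : W * P ≤ 4 * C * T ^ 2 := by
    have h4 : W * P * P ≤ 4 * C * T ^ 2 * P := by nlinarith
    exact le_of_mul_le_mul_right h4 hPpos
  have h5 : W * (T ^ ((1 - ε) / 2) / 32) ≤ 4 * C * T ^ 2 :=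
    (mul_le_mul_of_nonneg_left hzlow hW0).trans h3
  have h6 : 0 < T ^ ((1 - ε) / 2) := Real.rpow_pos_of_pos hT0 _
  have h7 : T ^ (2 : ℕ) = T ^ ((1 - ε) / 2) * (T ^ (3 / 2 + ε / 2)) := by
    rw [← Real.rpow_natCast T 2, ← Real.rpow_add hT0]
    congr 1
    push_cast
    ring
  have h8 : T ^ (3 / 2 + ε) = T ^ (ε / 2) * T ^ (3 / 2 + ε / 2) := by
    rw [← Real.rpow_add hT0]
    congr 1
    ring
  have h9 : T ^ ((1 - ε) / 2) * W ≤ T ^ ((1 - ε) / 2) * (128 * C * T ^ (3 / 2 + ε / 2)) := by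
    calc T ^ ((1 - ε) / 2) * W = 32 * (W * (T ^ ((1 - ε) / 2) / 32)) := by ring
      _ ≤ 32 * (4 * C * T ^ 2) := by linarith
      _ = T ^ ((1 - ε) / 2) * (128 * C * T ^ (3 / 2 + ε / 2)) := by rw [h7]; ring
  have h10 : W ≤ 128 * C * T ^ (3 / 2 + ε / 2) := le_of_mul_le_mul_left h9 h6
  rw [h8]
  exact h10.trans (mul_le_mul_of_nonneg_right hpow (by positivity))

end

end Pool.Agent.A54.Th
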