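import Pool.Agent.Lib.MP_a54f13_nt.Th.Spec
import Pool.Agent.Lib.MP_a54f13_nt.Av.Fin2
import Pool.Agent.Lib.MP_a54f13_nt.Av.F2

/-!
# Package `Th`, module `Cn2`: the number of bad forms
-/

set_option autoImplicit false

namespace Pool.Agent.A54.Th.Cn2M

open MeasureTheory Filter Topology Set
open scoped ContDiff ComplexConjugate UpperHalfPlane MatrixGroups ENNReal
open Pool.Agent.A54.Half (H0 qq ff hh)
open Pool.Agent.A54.Av (Bump es Sm' Fam wf XX2)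
open Pool.Agent.A54.Av.F2M

lemma wfPos {ι : Type} {F : ι → ℍ → ℝ} {t : ι → ℝ} {ρ : ι → ℂ} (hF : Fam ι F t ρ) (i : ι) :
    0 < wf (t i) (ρ i) := by
  unfold wf
  have : ρ i ≠ 0 := (hF.rho i).1
  have h5 := Real.cosh_pos (Real.pi * t i)
  positivity

/-- from the integral to the sum of the masses -/
lemma sumLe {ι : Type} [Fintype ι] {F : ι → ℍ → ℝ} {t : ι → ℝ} {ρ : ι → ℂ}
    (hF : Fam ι F t ρ) {η : ℂ → ℝ} {r : ℝ} {K : Set ℂ} {B ε' : ℝ} (hB : 0 ≤ B) (hε' : 0 < ε')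
    (hX : ∀ i, ε' < XX2 η r K (F i))
    (h3 : ∫⁻ z in K, ∫⁻ z' in K, ENNReal.ofReal (∑ i, wf (t i) (ρ i) *
        (Sm' η r (fun w => ext (F i) w ^ 2) z - Sm' η r (fun w => ext (F i) w ^ 2) z') ^ 2) ≤
          ENNReal.ofReal B) :
    ∑ i, wf (t i) (ρ i) * XX2 η r K (F i) ≤ B := by
  have hw := wfPos hF
  set S : ι → ℂ → ℝ := fun i => Sm' η r (fun w => ext (F i) w ^ 2) with hS
  have h5 : ENNReal.ofReal (∑ i, wf (t i) (ρ i) * XX2 η r K (F i)) ≤ ENNReal.ofReal B := by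
    refine le_trans ?_ h3
    have h60 : ∀ i ∈ Finset.univ, 0 ≤ wf (t i) (ρ i) * XX2 η r K (F i) := fun i _ =>
      mul_nonneg (hw i).le (hε'.le.trans (hX i).le)
    rw [ENNReal.ofReal_sum_of_nonneg h60]
    have h6 : ∀ i, ENNReal.ofReal (wf (t i) (ρ i) * XX2 η r K (F i)) ≤
        ∫⁻ z in K, ∫⁻ z' in K, ENNReal.ofReal (wf (t i) (ρ i) * (S i z - S i z') ^ 2) := by
      intro i
      have h7 : wf (t i) (ρ i) * XX2 η r K (F i) =
          ∫ z in K, ∫ z' in K, wf (t i) (ρ i) * (S i z - S i z') ^ 2 := by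
        unfold XX2
        rw [← integral_const_mul]
        congr 1
        funext z
        rw [← integral_const_mul]
      rw [h7]
      refine (ofReal_int_le _ _ fun z => integral_nonneg fun z' =>
        mul_nonneg (hw i).le (sq_nonneg _)).trans ?_
      refine lintegral_mono fun z => ?_
      exact ofReal_int_le _ _ fun z' => mul_nonneg (hw i).le (sq_nonneg _)
    refine (Finset.sum_le_sum fun i _ => h6 i).trans ?_
    refine (sum_lint_le _ _ _).trans ?_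
    refine lintegral_mono fun z => ?_
    refine (sum_lint_le _ _ _).trans ?_
    refine lintegral_mono fun z' => ?_
    simp only
    rw [ENNReal.ofReal_sum_of_nonneg (fun i _ => mul_nonneg (hw i).le (sq_nonneg _))]
  exact (ENNReal.ofReal_le_ofReal_iff hB).mp h5

end Pool.Agent.A54.Th.Cn2M

namespace Pool.Agent.A54.Th

open MeasureTheory Filter Topology Set
open scoped ContDiff ComplexConjugate UpperHalfPlane MatrixGroups ENNReal
open Pool.Agent.A54.Half (H0 qq ff hh)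
open Pool.Agent.A54.Av (Bump es Sm' Fam wf XX2)
open Cn2M

/-- **Cn2** the number of bad forms -/
theorem stmtCn2 (hF3 : StmtF3) (hHk : StmtHkE) (hWs : StmtWsup) (hBad : StmtBad)
    (hGud : StmtGud) (hOrth : Av.StmtOrth) (hRho : Av.StmtRho) (hPar : Av.StmtPar) :
    StmtCn2 := by
  classical
  intro κ hκ hκ1 η hη K hK hKH
  obtain ⟨C3, T3, hC3, hT3, h3⟩ := hF3 κ hκ hκ1 η hη K hK hKH
  obtain ⟨C1, T1, hC1, hT1, h1⟩ := hWs κ hκ
  obtain ⟨T4, hT4, h4⟩ := hBad κ hκ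
  obtain ⟨T5, hT5, h5⟩ := hGud κ hκ
  refine ⟨2 * (C1 + C3), max (max T3 (2 * T1)) (max T4 T5), by positivity,
    hT3.trans ((le_max_left _ _).trans (le_max_left _ _)), fun T hT S hS => ?_⟩
  have hTT3 : T3 ≤ T := ((le_max_left _ _).trans (le_max_left _ _)).trans hT
  have hTT1 : 2 * T1 ≤ T := ((le_max_right _ _).trans (le_max_left _ _)).trans hT
  have hTT4 : T4 ≤ T := ((le_max_left _ _).trans (le_max_right _ _)).trans hT
  have hTT5 : T5 ≤ T := ((le_max_right _ _).trans (le_max_right _ _)).trans hT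
  have hTpos : 0 < T := by linarith
  have hTone : 1 ≤ T := by linarith
  obtain ⟨S', hS'S, hS'c, hS'p⟩ := Av.Fin2M.exists_half (fun f : ℍ → ℝ => -f)
    (fun f => neg_neg f) S.card S le_rfl
  have ht : ∀ f : ℍ → ℝ, ∃ (t : ℝ) (l : ℕ → ℝ), f ∈ S' → (IsHeckeMaass f t ∧ T / 2 < t ∧ t ≤ T ∧
      T ^ (-κ) < XX2 η (T ^ (-(1 / 2 + κ))) K f) ∧ Lam f l := by
    intro f
    by_cases hf : f ∈ S'
    · obtain ⟨t, ht⟩ := hS f (hS'S hf)
      obtain ⟨l, hl⟩ := hHk f t ht.1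
      exact ⟨t, l, fun _ => ⟨ht, hl⟩⟩
    · exact ⟨0, 0, fun h => absurd h hf⟩
  choose tt ll htt using ht
  set P := Pz (√T / 32) with hP
  set S1 := S'.filter (fun f => ∑ p ∈ P, ll f p ^ 2 ≤ (P.card : ℝ) / 2) with hS1
  set S2 := S'.filter (fun f => ¬ ∑ p ∈ P, ll f p ^ 2 ≤ (P.card : ℝ) / 2) with hS2
  have hsplit : S1.card + S2.card = S'.card := Finset.card_filter_add_card_filter_not _
  have hS1' : S1 ⊆ S' := Finset.filter_subset _ _
  have hS2' : S2 ⊆ S' := Finset.filter_subset _ _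
  -- the first part
  have c1 : (S1.card : ℝ) ≤ C1 * T ^ (3 / 2 + 5 * κ) := by
    obtain ⟨ρ, hρ⟩ := Av.Fin2M.fam_of hOrth hRho hPar (A := S1) (tt := tt)
      (fun f hf => (htt f (hS1' hf)).1.1)
      (fun f hf g hg => hS'p f (hS1' hf) g (hS1' hg))
    have hb := h4 T hTT4 {f // f ∈ S1} (fun i => i.1) (fun i => tt i.1) ρ (fun i => ll i.1) hρ
      (fun i => (htt i.1 (hS1' i.2)).2)
      (fun i => ⟨(htt i.1 (hS1' i.2)).1.2.1, (htt i.1 (hS1' i.2)).1.2.2.1⟩)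
      (fun i => (Finset.mem_filter.1 i.2).2)
    have hw := wfPos hρ
    have hup : ∀ i : {f // f ∈ S1}, wf (tt i.1) (ρ i) ≤ C1 * T ^ κ := by
      intro i
      have g1 := (htt i.1 (hS1' i.2)).1
      have g2 := h1 i.1 (tt i.1) (ρ i) (ll i.1) g1.1 (hρ.rho i) (htt i.1 (hS1' i.2)).2
        (by linarith [g1.2.1])
      refine g2.trans (mul_le_mul_of_nonneg_left ?_ hC1)
      exact Real.rpow_le_rpow (by linarith [g1.2.1]) g1.2.2.1 hκ.le
    have e1 : (S1.card : ℝ) = ∑ i : {f // f ∈ S1}, wf (tt i.1) (ρ i) * (wf (tt i.1) (ρ i))⁻¹ := by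
      rw [← Fintype.card_coe S1]
      have : ∀ i : {f // f ∈ S1}, wf (tt i.1) (ρ i) * (wf (tt i.1) (ρ i))⁻¹ = 1 :=
        fun i => mul_inv_cancel₀ (hw i).ne'
      simp only [this]
      simp
    calc (S1.card : ℝ) = ∑ i : {f // f ∈ S1}, wf (tt i.1) (ρ i) * (wf (tt i.1) (ρ i))⁻¹ := e1
      _ ≤ ∑ i : {f // f ∈ S1}, C1 * T ^ κ * (wf (tt i.1) (ρ i))⁻¹ :=
          Finset.sum_le_sum fun i _ =>
            mul_le_mul_of_nonneg_right (hup i) (inv_nonneg.2 (hw i).le)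
      _ = C1 * T ^ κ * ∑ i : {f // f ∈ S1}, (wf (tt i.1) (ρ i))⁻¹ := by
          rw [Finset.mul_sum]
      _ ≤ C1 * T ^ κ * T ^ (3 / 2 + κ) := mul_le_mul_of_nonneg_left hb (by positivity)
      _ = C1 * T ^ (3 / 2 + 2 * κ) := by
          rw [mul_assoc, ← Real.rpow_add hTpos]
          congr 2
          ring
      _ ≤ C1 * T ^ (3 / 2 + 5 * κ) :=
          mul_le_mul_of_nonneg_left
            (Real.rpow_le_rpow_of_exponent_le hTone (by linarith)) hC1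
  -- the second part
  have c2 : (S2.card : ℝ) ≤ C3 * T ^ (3 / 2 + 5 * κ) := by
    obtain ⟨ρ, hρ⟩ := Av.Fin2M.fam_of hOrth hRho hPar (A := S2) (tt := tt)
      (fun f hf => (htt f (hS2' hf)).1.1)
      (fun f hf g hg => hS'p f (hS2' hf) g (hS2' hg))
    have hw := wfPos hρ
    have hlow : ∀ i : {f // f ∈ S2}, T ^ (-κ) ≤ wf (tt i.1) (ρ i) := by
      intro i
      have g1 := (htt i.1 (hS2' i.2)).1
      exact h5 T hTT5 i.1 (tt i.1) (ρ i) (ll i.1) g1.1 (hρ.rho i) (htt i.1 (hS2' i.2)).2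
        g1.2.1 g1.2.2.1 (not_le.1 (Finset.mem_filter.1 i.2).2)
    have hint := h3 T hTT3 {f // f ∈ S2} (fun i => i.1) (fun i => tt i.1) ρ hρ
      (fun i => ⟨(htt i.1 (hS2' i.2)).1.2.1, (htt i.1 (hS2' i.2)).1.2.2.1⟩)
    have hTκ : 0 < T ^ (-κ) := Real.rpow_pos_of_pos hTpos _
    have hX : ∀ i : {f // f ∈ S2}, T ^ (-κ) < XX2 η (T ^ (-(1 / 2 + κ))) K i.1 :=
      fun i => (htt i.1 (hS2' i.2)).1.2.2.2
    have hs := sumLe hρ (η := η) (r := T ^ (-(1 / 2 + κ))) (K := K)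
      (B := C3 * T ^ (2 - 1 / 2 + 3 * κ)) (ε' := T ^ (-κ)) (by positivity) hTκ hX hint
    have e1 : (S2.card : ℝ) * (T ^ (-κ) * T ^ (-κ)) ≤ C3 * T ^ (2 - 1 / 2 + 3 * κ) := by
      refine le_trans ?_ hs
      have : (S2.card : ℝ) * (T ^ (-κ) * T ^ (-κ)) =
          ∑ _i : {f // f ∈ S2}, T ^ (-κ) * T ^ (-κ) := by
        rw [Finset.sum_const, Finset.card_univ, Fintype.card_coe, nsmul_eq_mul]
      rw [this]
      exact Finset.sum_le_sum fun i _ => mul_le_mul (hlow i) (hX i).le hTκ.le (hw i).le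
    have e2 : C3 * T ^ (2 - 1 / 2 + 3 * κ) =
        C3 * T ^ (3 / 2 + 5 * κ) * (T ^ (-κ) * T ^ (-κ)) := by
      rw [mul_assoc, ← Real.rpow_add hTpos, ← Real.rpow_add hTpos]
      congr 2
      ring
    rw [e2] at e1
    exact le_of_mul_le_mul_right e1 (by positivity)
  have c3 : (S.card : ℝ) ≤ 2 * ((S1.card : ℝ) + S2.card) := by
    have : (S.card : ℝ) ≤ 2 * (S'.card : ℝ) := by exact_mod_cast hS'c
    rw [← hsplit] at this
    push_cast at this
    exact this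
  calc (S.card : ℝ) ≤ 2 * ((S1.card : ℝ) + S2.card) := c3
    _ ≤ 2 * (C1 * T ^ (3 / 2 + 5 * κ) + C3 * T ^ (3 / 2 + 5 * κ)) := by linarith
    _ = 2 * (C1 + C3) * T ^ (3 / 2 + 5 * κ) := by ring

end Pool.Agent.A54.Th
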