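import Pool.Agent.Lib.MP_a54f13_nt.Th.Spec

/-!
# Package `Th`, module `Dl2`: an integral over the circle
-/

set_option autoImplicit false

namespace Pool.Agent.A54.Th

open MeasureTheory Filter Topology Set
open scoped ENNReal
open Pool.Agent.A54.Av (dl)

namespace Dl2M

private theorem ii (r : ℝ) (hr : -1 < r) :
    IntegrableOn (fun x : ℝ => |x| ^ r) (Ioc (-Real.pi) Real.pi) := by
  have hpi := Real.pi_pos
  have h1 : IntervalIntegrable (fun x : ℝ => |x| ^ r) volume 0 Real.pi := by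
    refine (intervalIntegral.intervalIntegrable_rpow' hr).congr ?_
    intro x hx
    rw [uIoc_of_le hpi.le] at hx
    simp only
    rw [abs_of_pos hx.1]
  have h2 : IntervalIntegrable (fun x : ℝ => |x| ^ r) volume (-Real.pi) 0 := by
    have h3 := (IntervalIntegrable.iff_comp_neg).1 h1
    simp only [abs_neg, neg_zero] at h3
    exact h3.symm
  exact (intervalIntegrable_iff_integrableOn_Ioc_of_le (by linarith)).1 (h2.trans h1)

end Dl2M

theorem stmtDl2 (hDl : Av.StmtDl) : StmtDl2 := by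
  intro s hs hs1
  obtain ⟨hD, -⟩ := hDl
  have hI := Dl2M.ii (-(1 - s)) (by linarith)
  have hI2 : IntegrableOn (fun x : ℝ => (4 : ℝ) ^ (1 - s) * |x| ^ (-(1 - s)))
      (Ioc (-Real.pi) Real.pi) := hI.const_mul _
  refine ⟨∫ x in Ioc (-Real.pi) Real.pi, (4 : ℝ) ^ (1 - s) * |x| ^ (-(1 - s)), ?_, ?_⟩
  · exact setIntegral_nonneg measurableSet_Ioc fun x _ => by positivity
  · intro T hT
    rw [ofReal_integral_eq_lintegral_ofReal hI2 (Eventually.of_forall fun x => by positivity)]
    have h0 : ∀ᵐ x : ℝ ∂(volume.restrict (Ioc (-Real.pi) Real.pi)), x ≠ 0 := by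
      refine ae_restrict_of_ae ?_
      rw [ae_iff]
      simp
    refine lintegral_mono_ae ?_
    filter_upwards [h0, ae_restrict_mem measurableSet_Ioc] with x hx0 hx
    apply ENNReal.ofReal_le_ofReal
    have hxa : |x| ≤ Real.pi := abs_le.2 ⟨hx.1.le, hx.2⟩
    obtain ⟨-, h2, -⟩ := hD T x hT hxa
    have hp : 0 < |x| := abs_pos.2 hx0
    have h3 : dl T x ^ (-(1 - s)) ≤ (|x| / 4) ^ (-(1 - s)) :=
      Real.rpow_le_rpow_of_nonpos (by positivity) h2 (by linarith)
    refine h3.trans (le_of_eq ?_)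
    rw [div_eq_mul_inv, mul_comm, Real.mul_rpow (by positivity) hp.le,
      Real.inv_rpow (by norm_num), Real.rpow_neg (by norm_num : (0 : ℝ) ≤ 4), inv_inv]

end Pool.Agent.A54.Th
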