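import Pool.Agent.Lib.MP_a54f13_nt.Th.Spec
import Pool.Agent.Lib.MP_a54f13_nt.Av.Dens

/-!
# One exceptional set, with general exponents (abstract version)
-/

set_option autoImplicit false

namespace Pool.Agent.A54.Th

open MeasureTheory Filter Topology Set

namespace Dn2M

open Pool.Agent.A54.Av.DensM

lemma pow_eq (γ : ℝ) (m : ℕ) : ((2 : ℝ) ^ γ) ^ m = ((2 : ℝ) ^ m) ^ γ := by
  rw [← Real.rpow_natCast, ← Real.rpow_mul (by norm_num), ← Real.rpow_natCast 2 m,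
    ← Real.rpow_mul (by norm_num), mul_comm]

lemma r_mul (α β : ℝ) (m : ℕ) :
    ((2 : ℝ) ^ (β - α)) ^ m * ((2 : ℝ) ^ m) ^ α = ((2 : ℝ) ^ β) ^ m := by
  rw [pow_eq, pow_eq, ← Real.rpow_add (by positivity)]
  congr 1
  ring

lemma sum_ρ {ρ : ℝ} (hρ : 1 < ρ) (k : ℕ) :
    ∑ m ∈ Finset.range k, ρ ^ m ≤ (ρ - 1)⁻¹ * ρ ^ k := by
  rw [geom_sum_eq hρ.ne', div_eq_inv_mul]
  have h1 : 0 < ρ - 1 := by linarith
  exact mul_le_mul_of_nonneg_left (by linarith) (by positivity)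

lemma ρ_kk {β : ℝ} (hβ : 0 < β) {T : ℝ} (hT : 1 ≤ T) :
    ((2 : ℝ) ^ β) ^ kk T ≤ (2 : ℝ) ^ β * T ^ β := by
  have h2 : (1 : ℝ) < 2 ^ β := Real.one_lt_rpow (by norm_num) hβ
  rcases Nat.eq_zero_or_pos (kk T) with h | h
  · rw [h, pow_zero]
    have h3 : 1 ≤ T ^ β := Real.one_le_rpow hT hβ.le
    nlinarith
  · obtain ⟨m, hm⟩ : ∃ m, kk T = m + 1 := ⟨kk T - 1, by omega⟩
    have h1 : (2 : ℝ) ^ m < T := lt_of_lt_kk (by omega)
    rw [hm, pow_succ, pow_eq, mul_comm]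
    apply mul_le_mul_of_nonneg_left _ (by linarith)
    exact Real.rpow_le_rpow (by positivity) h1.le hβ.le

lemma ev_small {r : ℝ} (hr1 : 1 < r) (C : ℝ) :
    ∀ᶠ m : ℕ in atTop, C * ((m : ℝ) + 1) ≤ r ^ m := by
  have h1 : Tendsto (fun n : ℕ => (n : ℝ) ^ 1 / r ^ n) atTop (𝓝 0) :=
    tendsto_pow_const_div_const_pow_of_one_lt 1 hr1
  have h2 := h1.const_mul (2 * |C|)
  rw [mul_zero] at h2
  filter_upwards [h2.eventually (gt_mem_nhds one_pos), eventually_ge_atTop 1] with m hm hm1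
  have hr : (0 : ℝ) < r ^ m := pow_pos (by linarith) m
  have h3 : 2 * |C| * ((m : ℝ) ^ 1 / r ^ m) = (2 * |C| * m) / r ^ m := by
    rw [pow_one]
    ring
  rw [h3, div_lt_one hr] at hm
  have h4 : C ≤ |C| := le_abs_self C
  have h5 : (1 : ℝ) ≤ m := by exact_mod_cast hm1
  have h6 : 0 ≤ |C| := abs_nonneg C
  nlinarith

end Dn2M

open Dn2M Pool.Agent.A54.Av.DensM in
/-- **Dn2** -/
theorem stmtDn2 : StmtDn2 := by
  classical
  intro α β hα hαβ F P B huniq hB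
  have hβ : 0 < β := hα.trans hαβ
  set r : ℝ := (2 : ℝ) ^ (β - α) with hr0
  set ρ : ℝ := (2 : ℝ) ^ β with hρ0
  have hr1 : 1 < r := Real.one_lt_rpow (by norm_num) (by linarith)
  have hρ1 : 1 < ρ := Real.one_lt_rpow (by norm_num) hβ
  choose c T0 hc hT0 hmain using hB
  set J : ℕ → ℕ := fun m => Nat.findGreatest
    (fun J => ∀ j < J, T0 j ≤ 2 ^ m ∧ c j * ((m : ℝ) + 1) ≤ r ^ m) m with hJ
  have hJspec : ∀ m, ∀ j < J m, T0 j ≤ 2 ^ m ∧ c j * ((m : ℝ) + 1) ≤ r ^ m := by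
    intro m
    exact Nat.findGreatest_spec
      (P := fun J => ∀ j < J, T0 j ≤ 2 ^ m ∧ c j * ((m : ℝ) + 1) ≤ r ^ m) (Nat.zero_le m)
      (fun j hj => absurd hj (Nat.not_lt_zero j))
  have hJle : ∀ m, J m ≤ m := fun m => Nat.findGreatest_le m
  have hJlim : Tendsto J atTop atTop := by
    rw [tendsto_atTop]
    intro b
    have h1 : Tendsto (fun m : ℕ => (2 : ℝ) ^ m) atTop atTop :=
      tendsto_pow_atTop_atTop_of_one_lt one_lt_two
    have h2 : ∀ᶠ m : ℕ in atTop, ∀ j < b, T0 j ≤ 2 ^ m ∧ c j * ((m : ℝ) + 1) ≤ r ^ m := by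
      have h3 : ∀ j ∈ Finset.range b, ∀ᶠ m : ℕ in atTop,
          T0 j ≤ 2 ^ m ∧ c j * ((m : ℝ) + 1) ≤ r ^ m := fun j _ =>
        (h1.eventually_ge_atTop (T0 j)).and (ev_small hr1 (c j))
      have h4 := (Finset.eventually_all (Finset.range b)).2 h3
      filter_upwards [h4] with m hm j hj
      exact hm j (Finset.mem_range.2 hj)
    filter_upwards [eventually_ge_atTop b, h2] with m hm hm2
    exact Nat.le_findGreatest hm hm2
  set A : ℕ → Set F := fun m => {f | ∃ t : ℝ, P f t ∧ (2 : ℝ) ^ m / 2 < t ∧ t ≤ 2 ^ m ∧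
    ∃ j < J m, B j f (2 ^ m)} with hA
  have hAfin : ∀ m, (A m).Finite ∧ ((A m).ncard : ℝ) ≤ ρ ^ m := by
    intro m
    apply finite_of_bound
    intro S hS
    have hsub : S ⊆ (Finset.range (J m)).biUnion fun j => S.filter fun f => B j f (2 ^ m) := by
      intro f hf
      obtain ⟨t, -, -, -, j, hj, hb⟩ := hS f hf
      exact Finset.mem_biUnion.mpr ⟨j, Finset.mem_range.mpr hj, Finset.mem_filter.mpr ⟨hf, hb⟩⟩
    have h1 : (S.card : ℝ) ≤ ∑ j ∈ Finset.range (J m),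
        ((S.filter fun f => B j f (2 ^ m)).card : ℝ) := by
      exact_mod_cast (Finset.card_le_card hsub).trans Finset.card_biUnion_le
    have hm0 : (0 : ℝ) < (m : ℝ) + 1 := by positivity
    have hT : (0 : ℝ) ≤ ((2 : ℝ) ^ m) ^ α := by positivity
    have h2 : ∀ j ∈ Finset.range (J m), ((S.filter fun f => B j f (2 ^ m)).card : ℝ) ≤
        (r ^ m / ((m : ℝ) + 1)) * ((2 : ℝ) ^ m) ^ α := by
      intro j hj
      obtain ⟨h3, h4⟩ := hJspec m j (Finset.mem_range.mp hj)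
      refine (hmain j (2 ^ m) h3 _ fun f hf => ?_).trans ?_
      · obtain ⟨h5, h6⟩ := Finset.mem_filter.mp hf
        obtain ⟨t, h7, h8, h9, -⟩ := hS f h5
        exact ⟨t, h7, h8, h9, h6⟩
      · apply mul_le_mul_of_nonneg_right _ hT
        rw [le_div_iff₀ hm0]
        exact h4
    have hr : (0 : ℝ) < r ^ m := pow_pos (by linarith) m
    calc (S.card : ℝ) ≤ ∑ j ∈ Finset.range (J m),
          ((S.filter fun f => B j f (2 ^ m)).card : ℝ) := h1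
      _ ≤ ∑ _j ∈ Finset.range (J m), (r ^ m / ((m : ℝ) + 1)) *
          ((2 : ℝ) ^ m) ^ α := Finset.sum_le_sum h2
      _ = (J m : ℝ) * ((r ^ m / ((m : ℝ) + 1)) * ((2 : ℝ) ^ m) ^ α) := by
          rw [Finset.sum_const, Finset.card_range, nsmul_eq_mul]
      _ ≤ ((m : ℝ) + 1) * ((r ^ m / ((m : ℝ) + 1)) * ((2 : ℝ) ^ m) ^ α) := by
          apply mul_le_mul_of_nonneg_right _ (by positivity)
          have : (J m : ℝ) ≤ m := by exact_mod_cast hJle m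
          linarith
      _ = r ^ m * ((2 : ℝ) ^ m) ^ α := by
          field_simp
      _ = ρ ^ m := r_mul α β m
  have hsubT : ∀ T : ℝ, {f | f ∈ ⋃ m, A m ∧ ∃ t : ℝ, t ≤ T ∧ P f t} ⊆
      ⋃ m ∈ Finset.range (kk (2 * T)), A m := by
    rintro T f ⟨hf, t, htT, hft⟩
    obtain ⟨m, hm⟩ := Set.mem_iUnion.mp hf
    have hm2 := hm
    obtain ⟨t', hft', ht', -, -⟩ := hm2
    rw [huniq f t' t hft' hft] at ht'
    exact Set.mem_biUnion (Finset.mem_coe.mpr (Finset.mem_range.mpr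
      (lt_kk_of_lt (by linarith)))) hm
  have hfinU : ∀ T : ℝ, (⋃ m ∈ Finset.range (kk (2 * T)), A m).Finite := fun T =>
    Set.Finite.biUnion (Finset.finite_toSet _) fun m _ => (hAfin m).1
  refine ⟨⋃ m, A m, ⟨(ρ - 1)⁻¹ * (ρ * 2 ^ β), fun T hT => ⟨(hfinU T).subset (hsubT T), ?_⟩⟩, ?_⟩
  · have h1 : ({f | f ∈ ⋃ m, A m ∧ ∃ t : ℝ, t ≤ T ∧ P f t}.ncard : ℝ) ≤
        ((⋃ m ∈ Finset.range (kk (2 * T)), A m).ncard : ℝ) := by
      exact_mod_cast Set.ncard_le_ncard (hsubT T) (hfinU T)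
    have h2 : (⋃ m ∈ Finset.range (kk (2 * T)), A m).ncard ≤
        ∑ m ∈ Finset.range (kk (2 * T)), (A m).ncard :=
      Finset.set_ncard_biUnion_le _ _
    have h3 : ((⋃ m ∈ Finset.range (kk (2 * T)), A m).ncard : ℝ) ≤
        ∑ m ∈ Finset.range (kk (2 * T)), ((A m).ncard : ℝ) := by exact_mod_cast h2
    calc ({f | f ∈ ⋃ m, A m ∧ ∃ t : ℝ, t ≤ T ∧ P f t}.ncard : ℝ)
        ≤ ∑ m ∈ Finset.range (kk (2 * T)), ((A m).ncard : ℝ) := h1.trans h3
      _ ≤ ∑ m ∈ Finset.range (kk (2 * T)), ρ ^ m := Finset.sum_le_sum fun m _ => (hAfin m).2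
      _ ≤ (ρ - 1)⁻¹ * ρ ^ kk (2 * T) := sum_ρ hρ1 _
      _ ≤ (ρ - 1)⁻¹ * (ρ * (2 * T) ^ β) := by
          have h4 : 0 < ρ - 1 := by linarith
          exact mul_le_mul_of_nonneg_left (ρ_kk hβ (by linarith)) (by positivity)
      _ = (ρ - 1)⁻¹ * (ρ * 2 ^ β) * T ^ β := by
          rw [Real.mul_rpow (by norm_num) (by linarith)]
          ring
  · intro f t hft hfE htlim
    refine ⟨fun i => 2 ^ kk (t i), ?_, fun j => ?_⟩
    · filter_upwards [htlim.eventually_gt_atTop 1] with i hi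
      refine ⟨?_, le_kk (t i)⟩
      have h1 : 0 < kk (t i) := lt_kk_of_lt (by simpa using hi)
      obtain ⟨m, hm⟩ : ∃ m, kk (t i) = m + 1 := ⟨kk (t i) - 1, by omega⟩
      have h2 : (2 : ℝ) ^ m < t i := lt_of_lt_kk (by omega)
      rw [hm, pow_succ]
      linarith
    · have hk : Tendsto (fun i => kk (t i)) atTop atTop := kk_tendsto.comp htlim
      have hJk := hJlim.comp hk
      filter_upwards [htlim.eventually_gt_atTop 1, hJk.eventually_gt_atTop j] with i hi h2 hb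
      apply hfE i
      refine Set.mem_iUnion.mpr ⟨kk (t i), t i, hft i, ?_, le_kk (t i), j, h2, hb⟩
      have h1 : 0 < kk (t i) := lt_kk_of_lt (by simpa using hi)
      obtain ⟨m, hm⟩ : ∃ m, kk (t i) = m + 1 := ⟨kk (t i) - 1, by omega⟩
      have h3 : (2 : ℝ) ^ m < t i := lt_of_lt_kk (by omega)
      rw [hm, pow_succ]
      linarith

end Pool.Agent.A54.Th
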