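import Pool.Agent.Lib.MP_a54f13_nt.Th.Spec
import Pool.Agent.Lib.MP_a54f13_nt.Av.F1

/-!
# `F3`: the average over the forms, with the exponent `3/2` (adapted from `Ef/F1.lean`)
-/

set_option autoImplicit false

namespace Pool.Agent.A54.Th

open MeasureTheory Filter Topology Set
open scoped ContDiff ComplexConjugate UpperHalfPlane MatrixGroups ENNReal
open Pool.Agent.A54.Half (H0 qq ff hh)
open Pool.Agent.A54.Av (Mat VV Vd msq bet NonSc Bump es Sm' MN RN GR qs qT dl yo Aa DD Fam wf XX2 TestG)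

noncomputable section

open Pool.Agent.A54.Av.F1M in
theorem stmtF3 (hAv : Av.StmtAv1) (hGN : Av.StmtGN) (hBQ : StmtBQ) : StmtF3 := by
  intro κ hκ hκ1 η hη K hK hKH
  obtain ⟨C, hC, hAv⟩ := hAv
  have hKv : volume K ≠ ⊤ := hK.measure_lt_top.ne
  set v : ℝ := (volume K).toReal with hv
  have hv0 : 0 ≤ v := ENNReal.toReal_nonneg
  obtain ⟨C1, T0, hC1, hT0, hBT⟩ := hBQ κ hκ hκ1 η hη K hK hKH
  -- the discs
  have hopen : IsOpen H0 := isOpen_lt continuous_const Complex.continuous_im
  obtain ⟨r1, hr1, hr1K⟩ := hK.exists_cthickening_subset_open hopen hKH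
  have hlim : Tendsto (fun T : ℝ => T ^ (-(1 / 2 + κ))) atTop (𝓝 0) :=
    tendsto_rpow_neg_atTop (by linarith)
  obtain ⟨T2, hT2⟩ := eventually_atTop.1 (hlim.eventually (gt_mem_nhds hr1))
  refine ⟨4 * C * v * C1, max T0 T2, by positivity, le_max_of_le_left hT0,
    fun T hT ι _ F t ρ hFam ht => ?_⟩
  have hT1 : T0 ≤ T := (le_max_left _ _).trans hT
  have hT2 : T ^ (-(1 / 2 + κ)) < r1 := hT2 T ((le_max_right _ _).trans hT)
  have hTge : 2 ≤ T := hT0.trans hT1
  have hTpos : 0 < T := by linarith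
  set r : ℝ := T ^ (-(1 / 2 + κ)) with hr
  have hr0 : 0 < r := by positivity
  have hrr1 : r ≤ r1 := hT2.le
  have hball : ∀ z ∈ K, Metric.closedBall z r ⊆ H0 := by
    intro z hz
    exact (Metric.closedBall_subset_closedBall hrr1).trans
      ((Metric.closedBall_subset_cthickening hz r1).trans hr1K)
  have hq0 : 0 < qT T := by
    unfold qT
    refine Real.sqrt_pos.mpr ?_
    have : (T ^ 2)⁻¹ ≤ 4⁻¹ := by
      refine inv_anti₀ (by norm_num) ?_
      nlinarith
    linarith [show (4 : ℝ)⁻¹ < 1 by norm_num]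
  have hq1 : qT T < 1 := by
    unfold qT
    rw [Real.sqrt_lt' one_pos]
    have : 0 < (T ^ 2)⁻¹ := by positivity
    linarith
  have hmain : ∀ z ∈ K, ∀ z' ∈ K, ENNReal.ofReal (∑ i, wf (t i) (ρ i) *
      (Sm' η r (fun w => ext (F i) w ^ 2) z - Sm' η r (fun w => ext (F i) w ^ 2) z') ^ 2) ≤
      ENNReal.ofReal (C / T ^ 4) * (2 * (RN (qT T) (es η r z) + RN (qT T) (es η r z'))) := by
    intro z hz z' hz'
    have hg : TestG (fun w => es η r z w - es η r z' w) := by
      refine ⟨(es_cont hη r z).sub (es_cont hη r z'), ?_, ?_, ?_⟩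
      · exact (es_compact hη hr0 z).sub (es_compact hη hr0 z')
      · refine (tsupport_sub _ _).trans ?_
        exact union_subset ((es_tsupport hη hr0 z).trans (hball z hz))
          ((es_tsupport hη hr0 z').trans (hball z' hz'))
      · rw [integral_sub (es_integrable hη hr0 z) (es_integrable hη hr0 z'), es_int hη hr0,
          es_int hη hr0, sub_self]
    have h1 := hAv ι F t ρ T hFam hTge ht _ hg
    have h2 := hGN (qT T) (es η r z) (es η r z') hq0 hq1 (es_cont hη r z) (es_cont hη r z')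
      (es_compact hη hr0 z) (es_compact hη hr0 z') ((es_tsupport hη hr0 z).trans (hball z hz))
      ((es_tsupport hη hr0 z').trans (hball z' hz')) (by rw [es_int hη hr0, es_int hη hr0])
    have h3 : ∀ i, ∫ w, (es η r z w - es η r z' w) * ext (F i) w ^ 2 =
        Sm' η r (fun w => ext (F i) w ^ 2) z - Sm' η r (fun w => ext (F i) w ^ 2) z' := by
      intro i
      have hc : ContinuousOn (fun w => ext (F i) w ^ 2) H0 :=
        ((hFam.form i).smooth.continuousOn).pow 2
      unfold Sm'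
      rw [← integral_sub (es_mul_integrable hη hr0 (hball z hz) hc)
        (es_mul_integrable hη hr0 (hball z' hz') hc)]
      congr 1
      ext w
      ring
    simp_rw [h3] at h1
    exact h1.trans (mul_le_mul_right h2 _)
  calc ∫⁻ z in K, ∫⁻ z' in K, ENNReal.ofReal (∑ i, wf (t i) (ρ i) *
        (Sm' η r (fun w => ext (F i) w ^ 2) z - Sm' η r (fun w => ext (F i) w ^ 2) z') ^ 2)
      ≤ 4 * ENNReal.ofReal (C / T ^ 4) * volume K * ∫⁻ z in K, RN (qT T) (es η r z) :=
        double K hKv _ ENNReal.ofReal_ne_top _ _ hK.measurableSet hmain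
    _ ≤ 4 * ENNReal.ofReal (C / T ^ 4) * volume K * ENNReal.ofReal (C1 * T ^ (6 - 1 / 2 + 3 * κ)) :=
        mul_le_mul_right (hBT T hT1) _
    _ = ENNReal.ofReal (4 * (C / T ^ 4) * v * (C1 * T ^ (6 - 1 / 2 + 3 * κ))) := by
        have h4 : (4 : ℝ≥0∞) = ENNReal.ofReal 4 := by simp
        have h5 : volume K = ENNReal.ofReal v := (ENNReal.ofReal_toReal hKv).symm
        rw [h4, h5, ← ENNReal.ofReal_mul (by norm_num), ← ENNReal.ofReal_mul (by positivity),
          ← ENNReal.ofReal_mul (by positivity)]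
    _ = ENNReal.ofReal (4 * C * v * C1 * T ^ (2 - 1 / 2 + 3 * κ)) := by
        congr 1
        have e1 : T ^ (6 - 1 / 2 + 3 * κ) = T ^ (2 - 1 / 2 + 3 * κ) * T ^ 4 := by
          rw [← Real.rpow_natCast T 4, ← Real.rpow_add hTpos]
          congr 1
          push_cast
          ring
        rw [e1]
        field_simp

end

end Pool.Agent.A54.Th
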