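import Pool.Agent.Lib.MP_a54f13_nt.Th.Spec
import Pool.Agent.Lib.MP_a54f13_nt.Ef.Fin

/-!
# Package `Th`, module `Fi2`: the main theorem
-/

set_option autoImplicit false

namespace Pool.Agent.A54.Th

open MeasureTheory Filter Topology Set
open scoped ContDiff ComplexConjugate UpperHalfPlane MatrixGroups ENNReal
open Pool.Agent.A54.Half (H0)
open Pool.Agent.A54.Av (Bump XX2)

/-- **Fi2** the main theorem -/
theorem stmtFi2 (hCn2 : StmtCn2) (hDn2 : StmtDn2) (hSq2 : StmtSq2) (hFou : Sq.StmtFou)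
    (hU2 : Pl.StmtU2) : StmtFi2 := by
  intro ε hε
  obtain ⟨η, hη⟩ := Av.Fin2M.exists_bump
  set κ : ℝ := min (1 / 20) (ε / 10) with hκ
  have hκ0 : 0 < κ := lt_min (by norm_num) (by positivity)
  have hκ1 : κ ≤ 1 / 20 := min_le_left _ _
  have hκ2 : κ ≤ ε / 10 := min_le_right _ _
  obtain ⟨E, ⟨C, hC⟩, hE⟩ := hDn2 (3 / 2 + 5 * κ) (3 / 2 + ε) (by positivity) (by linarith)
    (ℍ → ℝ) IsHeckeMaass
    (fun j f T => T ^ (-κ) < XX2 η (T ^ (-(1 / 2 + κ))) (Ef.FinM.KK j) f)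
    (fun f t t' h h' => Ef.FinM.unique h h')
    (fun j => hCn2 κ hκ0 hκ1 η hη (Ef.FinM.KK j) (Ef.FinM.kk_compact j) (Ef.FinM.kk_sub j))
  refine ⟨E, C, hC, fun f t hf hfE ht ψ hψ n hn1 hn4 => ?_⟩
  obtain ⟨T, hT, hB⟩ := hE f t hf hfE ht
  have hTt : Tendsto T atTop atTop := tendsto_atTop_mono' _ (hT.mono fun i h => h.2) ht
  have hH : Pl.CondH f := by
    refine hSq2 κ hκ0 hκ1 η hη f t T hf ht hT fun L hL hLs => ?_
    obtain ⟨j, hLj⟩ := Ef.FinM.exists_kk hL hLs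
    have hH : IsOpen H0 := isOpen_lt continuous_const Complex.continuous_im
    obtain ⟨r0, hr0, hr0'⟩ :=
      (Ef.FinM.kk_compact j).exists_cthickening_subset_open hH (Ef.FinM.kk_sub j)
    have h1 : Tendsto (fun i => T i ^ (-(1 / 2 + κ))) atTop (𝓝 0) :=
      (tendsto_rpow_neg_atTop (by positivity)).comp hTt
    have h2 : Tendsto (fun i => T i ^ (-κ)) atTop (𝓝 0) :=
      (tendsto_rpow_neg_atTop hκ0).comp hTt
    refine squeeze_zero' (Eventually.of_forall fun i => ?_) ?_ h2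
    · exact integral_nonneg fun _ => integral_nonneg fun _ => sq_nonneg _
    · filter_upwards [h1.eventually (gt_mem_nhds hr0), hTt.eventually_gt_atTop 0, hB j]
        with i hi hTi hBi
      refine le_trans (Av.Fin2M.xx2_mono hη (hf i).smooth.continuousOn hL
        (Ef.FinM.kk_compact j) hLj
        (Real.rpow_pos_of_pos hTi _) ((Metric.cthickening_mono hi.le _).trans hr0')) ?_
      exact not_lt.1 hBi
  exact hFou f t hf ht (Pl.condA_of_condH hU2 hf hH) ψ hψ n hn1 hn4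

end Pool.Agent.A54.Th
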