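import Pool.Agent.Lib.MP_a54f13_nt.Th.Spec
import Pool.Agent.Lib.MP_a54f13_nt.Av.G2

/-!
# Package `Th`, module `G3`: the refined bound with a dyadic decomposition in `c`
-/

set_option autoImplicit false

namespace Pool.Agent.A54.Th.G3M

open MeasureTheory Filter Topology Set
open scoped ContDiff ComplexConjugate UpperHalfPlane MatrixGroups ENNReal
open Pool.Agent.A54.Half (H0)
open Pool.Agent.A54.Av
open Pool.Agent.A54.Ef (qe)
open Pool.Agent.A54.Av.G2M (ind ind_pos ind_neg sW_eq meas_ind meas_sW es_cont es_nonneg es_supp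
  sq_add_le tsum_int sum_sq_le sum_det_le term_le term_le_sm meas_av meas_ball pull MN_le PA PB PC neg_le)

noncomputable section

/-! ### weighted sums of squares -/

lemma sq_add' (a b : ℝ≥0∞) :
    (a + b) ^ 2 ≤ 5 * a ^ 2 + ENNReal.ofReal (5 / 4) * b ^ 2 := by
  rcases eq_or_ne a ⊤ with rfl | ha
  · simp
  rcases eq_or_ne b ⊤ with rfl | hb
  · have h : ENNReal.ofReal (5 / 4) * (⊤ : ℝ≥0∞) ^ 2 = ⊤ := by
      rw [ENNReal.top_pow (by norm_num), ENNReal.mul_top]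
      simp
    rw [h]; simp
  have h0a := ENNReal.ofReal_toReal ha
  have h0b := ENNReal.ofReal_toReal hb
  have ha0 := ENNReal.toReal_nonneg (a := a)
  have hb0 := ENNReal.toReal_nonneg (a := b)
  rw [← h0a, ← h0b]
  generalize a.toReal = x at *
  generalize b.toReal = y at *
  have h5 : (5 : ℝ≥0∞) = ENNReal.ofReal 5 := by
    rw [ENNReal.ofReal_ofNat]
  rw [h5, ← ENNReal.ofReal_add ha0 hb0, ← ENNReal.ofReal_pow (by positivity),
    ← ENNReal.ofReal_pow (by positivity), ← ENNReal.ofReal_pow (by positivity),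
    ← ENNReal.ofReal_mul (by positivity), ← ENNReal.ofReal_mul (by positivity),
    ← ENNReal.ofReal_add (by positivity) (by positivity)]
  apply ENNReal.ofReal_le_ofReal
  nlinarith [sq_nonneg (2 * x - y / 2)]

lemma sum_sq : ∀ (m : ℕ) (y : ℕ → ℝ≥0∞),
    (∑ k ∈ Finset.range m, y k) ^ 2 ≤
      5 * ∑ k ∈ Finset.range m, ENNReal.ofReal ((5 / 4) ^ k) * y k ^ 2
  | 0, y => by simp
  | m + 1, y => by
    rw [Finset.sum_range_succ', Finset.sum_range_succ', add_comm]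
    refine (sq_add' _ _).trans ?_
    have ih := sum_sq m (fun k => y (k + 1))
    have h1 : ENNReal.ofReal (5 / 4) * (∑ k ∈ Finset.range m, y (k + 1)) ^ 2 ≤
        5 * ∑ k ∈ Finset.range m, ENNReal.ofReal ((5 / 4) ^ (k + 1)) * y (k + 1) ^ 2 := by
      calc ENNReal.ofReal (5 / 4) * (∑ k ∈ Finset.range m, y (k + 1)) ^ 2
          ≤ ENNReal.ofReal (5 / 4) *
            (5 * ∑ k ∈ Finset.range m, ENNReal.ofReal ((5 / 4) ^ k) * y (k + 1) ^ 2) := by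
            gcongr
        _ = 5 * ∑ k ∈ Finset.range m, ENNReal.ofReal ((5 / 4) ^ (k + 1)) * y (k + 1) ^ 2 := by
            rw [mul_left_comm, Finset.mul_sum]
            congr 1
            refine Finset.sum_congr rfl fun k _ => ?_
            rw [← mul_assoc, ← ENNReal.ofReal_mul (by norm_num), pow_succ' (5 / 4 : ℝ) k]
    calc 5 * y 0 ^ 2 + ENNReal.ofReal (5 / 4) * (∑ k ∈ Finset.range m, y (k + 1)) ^ 2
        ≤ 5 * y 0 ^ 2 +
          5 * ∑ k ∈ Finset.range m, ENNReal.ofReal ((5 / 4) ^ (k + 1)) * y (k + 1) ^ 2 := by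
          gcongr
      _ = _ := by
          rw [← mul_add]
          congr 1
          rw [add_comm]
          simp

/-! ### the sum over the matrices -/

lemma qe_nonneg (ε : ℝ) (γ : Mat) : 0 ≤ qe ε γ := by unfold qe; positivity

/-- sum over a fixed positive determinant -/
lemma pos_le {c1 ε y1 y r : ℝ} {g : Mat → ℝ≥0∞} (N : ℕ) (cC : ℕ → ℝ) (PJ : ℕ → Mat → Prop)
    (η : ℂ → ℝ) (hη : Bump η) (z0 : ℂ) (m : ℕ) (X : Mat → ℝ≥0∞)
    (hX : ∀ γ : Mat, PC m γ → X γ ≤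
      ENNReal.ofReal c1 * (∫⁻ z, ENNReal.ofReal (es η r z0 z) *
        (ind (PB ε m γ) (WW y1 y γ z) + g γ)) +
      ∑ j ∈ Finset.range N, ENNReal.ofReal (cC j) * (ENNReal.ofReal (r ^ 2)⁻¹ *
        ∫⁻ z in Metric.closedBall z0 r, ind (PJ j γ) (WW y1 y γ z))) :
    ∑' γ : Mat, ind (PC m γ) (X γ) ≤
      ENNReal.ofReal c1 * (∫⁻ z, ENNReal.ofReal (es η r z0 z) *
        (sW (PB ε m) y1 y z + ∑' γ : Mat, ind (PC m γ) (g γ))) +
      ∑ j ∈ Finset.range N, ENNReal.ofReal (cC j) * (ENNReal.ofReal (r ^ 2)⁻¹ *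
        ∫⁻ z in Metric.closedBall z0 r, sW (PJ j) y1 y z) := by
  have hes : Measurable fun z => ENNReal.ofReal (es η r z0 z) :=
    ENNReal.measurable_ofReal.comp ((es_cont η hη r).measurable.comp measurable_prodMk_left)
  have h1 : ∀ z, sW (PB ε m) y1 y z + ∑' γ : Mat, ind (PC m γ) (g γ) =
      ∑' γ : Mat, (ind (PB ε m γ) (WW y1 y γ z) + ind (PC m γ) (g γ)) := fun z => by
    rw [sW_eq, ENNReal.tsum_add]
  simp_rw [h1]
  rw [← pull volume (fun z => ENNReal.ofReal (es η r z0 z)) hes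
    (fun γ z => ind (PB ε m γ) (WW y1 y γ z) + ind (PC m γ) (g γ))
    (fun γ => (meas_ind (PB ε m) y1 y γ).add measurable_const)]
  have h3 : ∀ j, ENNReal.ofReal (cC j) * (ENNReal.ofReal (r ^ 2)⁻¹ *
      ∫⁻ z in Metric.closedBall z0 r, sW (PJ j) y1 y z) =
      ∑' γ : Mat, ENNReal.ofReal (cC j) * ENNReal.ofReal (r ^ 2)⁻¹ *
        ∫⁻ z in Metric.closedBall z0 r, (1 : ℝ≥0∞) * ind (PJ j γ) (WW y1 y γ z) := by
    intro j
    simp_rw [sW_eq]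
    rw [pull (volume.restrict (Metric.closedBall z0 r)) (fun _ => 1) measurable_const
      (fun γ z => ind (PJ j γ) (WW y1 y γ z)) (fun γ => meas_ind (PJ j) y1 y γ)]
    simp only [one_mul]
    rw [mul_assoc]
  simp_rw [h3]
  rw [← Summable.tsum_finsetSum (fun j _ => ENNReal.summable), ← ENNReal.tsum_add]
  refine ENNReal.tsum_le_tsum fun γ => ?_
  by_cases h : PC m γ
  · simp only [ind_pos h, one_mul]
    simp_rw [mul_assoc]
    exact hX γ h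
  · rw [ind_neg h]
    exact zero_le

/-- the pointwise bound of the whole sum over `n` -/
lemma point_le {c1 ε y1 y r : ℝ} {g : Mat → ℝ≥0∞} (N : ℕ) (cC : ℕ → ℝ)
    (PJ : ℕ → ℕ → Mat → Prop) (η : ℂ → ℝ) (hη : Bump η) (z0 : ℂ) (s : ℂ)
    (hpos : ∀ (m : ℕ) (γ : Mat), PC m γ →
      ‖∫ z, (es η r z0 z : ℂ) * mm s y ((m : ℤ) + 1 : ℤ) (Vd γ z)‖ₑ ≤
      ENNReal.ofReal c1 * (∫⁻ z, ENNReal.ofReal (es η r z0 z) *
        (ind (PB ε m γ) (WW y1 y γ z) + g γ)) +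
      ∑ j ∈ Finset.range N, ENNReal.ofReal (cC j) * (ENNReal.ofReal (r ^ 2)⁻¹ *
        ∫⁻ z in Metric.closedBall z0 r, ind (PJ j m γ) (WW y1 y γ z)))
    (hneg : ∀ γ : Mat, PA γ →
      ‖∫ z, (es η r z0 z : ℂ) * mm s y ((γ.det : ℤ) : ℝ) (Vd γ z)‖ₑ ≤
      ENNReal.ofReal c1 * (∫⁻ z, ENNReal.ofReal (es η r z0 z) * WW y1 y γ z)) :
    ∑' n : ℤ, ‖MN (es η r z0) s y n‖ₑ ^ 2 ≤
      (∑' m : ℕ, 4 * ((ENNReal.ofReal c1 * (∫⁻ z, ENNReal.ofReal (es η r z0 z) *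
        (sW (PB ε m) y1 y z + ∑' γ : Mat, ind (PC m γ) (g γ)))) ^ 2 +
      5 * ∑ j ∈ Finset.range N, ENNReal.ofReal ((5 / 4) ^ j) *
        (ENNReal.ofReal (cC j) * (ENNReal.ofReal (r ^ 2)⁻¹ *
        ∫⁻ z in Metric.closedBall z0 r, sW (PJ j m) y1 y z)) ^ 2)) +
      (ENNReal.ofReal c1 * (∫⁻ z, ENNReal.ofReal (es η r z0 z) * sW PA y1 y z)) ^ 2 := by
  rw [tsum_int]
  refine add_le_add (ENNReal.tsum_le_tsum fun m => ?_) ?_
  · refine le_trans (b := (ENNReal.ofReal c1 * (∫⁻ z, ENNReal.ofReal (es η r z0 z) *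
        (sW (PB ε m) y1 y z + ∑' γ : Mat, ind (PC m γ) (g γ))) +
      ∑ j ∈ Finset.range N, ENNReal.ofReal (cC j) * (ENNReal.ofReal (r ^ 2)⁻¹ *
        ∫⁻ z in Metric.closedBall z0 r, sW (PJ j m) y1 y z)) ^ 2) ?_ ?_
    · gcongr
      refine (MN_le _ _ _ _).trans ?_
      exact pos_le N cC (fun j => PJ j m) η hη z0 m _ (hpos m)
    · refine (sq_add_le _ _).trans ?_
      gcongr
      exact sum_sq N _
  · refine (sum_sq_le _).trans ?_
    gcongr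
    calc ∑' m : ℕ, ‖MN (es η r z0) s y (-(m : ℤ))‖ₑ
        ≤ ∑' m : ℕ, ∑' γ : Mat, ind (γ.det = -(m : ℤ) ∧ NonSc γ)
            ‖∫ z, (es η r z0 z : ℂ) * mm s y ((γ.det : ℤ) : ℝ) (Vd γ z)‖ₑ := by
          refine ENNReal.tsum_le_tsum fun m => (MN_le _ _ _ _).trans ?_
          refine ENNReal.tsum_le_tsum fun γ => ?_
          by_cases h : γ.det = -(m : ℤ) ∧ NonSc γ
          · rw [ind_pos h, ind_pos h, h.1]
          · rw [ind_neg h, ind_neg h]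
      _ ≤ ∑' γ : Mat, ind (PA γ)
            ‖∫ z, (es η r z0 z : ℂ) * mm s y ((γ.det : ℤ) : ℝ) (Vd γ z)‖ₑ := by
          apply sum_det_le (fun m => -(m : ℤ)) (fun a b h => by simpa using h)
          intro γ m h1 h2
          exact ⟨by rw [h1]; simp, h2⟩
      _ ≤ _ := neg_le η hη z0 _ hneg

/-- integration of the pointwise bound -/
lemma integ {c1 ε y1 y r vv gg Bb Bn : ℝ} {g : Mat → ℝ≥0∞} (N : ℕ) (cC Bd : ℕ → ℝ)
    (PJ : ℕ → ℕ → Mat → Prop) (hc1 : 0 ≤ c1) (hcC : ∀ j, 0 ≤ cC j)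
    (hr : 0 < r) (hvv : 0 ≤ vv) (hgg : 0 ≤ gg) (hBb : 0 ≤ Bb) (hBd : ∀ j, 0 ≤ Bd j) (hBn : 0 ≤ Bn)
    (η : ℂ → ℝ) (hη : Bump η) (K K' : Set ℂ) (hK : IsCompact K) (hK' : MeasurableSet K')
    (hsub : ∀ z ∈ K, Metric.closedBall z r ⊆ K') (hvol : volume K' = ENNReal.ofReal vv)
    (hG : ∑' γ : Mat, g γ ≤ ENNReal.ofReal gg)
    (hAvg : StmtAvg)
    (hB : ∫⁻ z in K', ∑' m : ℕ, sW (PB ε m) y1 y z ^ 2 ≤ ENNReal.ofReal Bb)
    (hJ : ∀ j ∈ Finset.range N, ∫⁻ z in K', ∑' m : ℕ, sW (PJ j m) y1 y z ^ 2 ≤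
      ENNReal.ofReal (Bd j))
    (hW3 : ∫⁻ z in K', sW PA y1 y z ^ 2 ≤ ENNReal.ofReal Bn) :
    ∫⁻ z0 in K, ((∑' m : ℕ, 4 * ((ENNReal.ofReal c1 * (∫⁻ z, ENNReal.ofReal (es η r z0 z) *
        (sW (PB ε m) y1 y z + ∑' γ : Mat, ind (PC m γ) (g γ)))) ^ 2 +
      5 * ∑ j ∈ Finset.range N, ENNReal.ofReal ((5 / 4) ^ j) *
        (ENNReal.ofReal (cC j) * (ENNReal.ofReal (r ^ 2)⁻¹ *
        ∫⁻ z in Metric.closedBall z0 r, sW (PJ j m) y1 y z)) ^ 2)) +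
      (ENNReal.ofReal c1 * (∫⁻ z, ENNReal.ofReal (es η r z0 z) * sW PA y1 y z)) ^ 2) ≤
    ENNReal.ofReal (4 * (c1 ^ 2 * (4 * (Bb + vv * gg ^ 2)) +
      5 * ∑ j ∈ Finset.range N, (5 / 4) ^ j * (cC j ^ 2 * (10 * Bd j))) + c1 ^ 2 * Bn) := by
  set G : ℕ → ℝ≥0∞ := fun m => ∑' γ : Mat, ind (PC m γ) (g γ) with hGdef
  have hFX : ∀ m, Measurable fun z => sW (PB ε m) y1 y z + G m := fun m =>
    (meas_sW (PB ε m) y1 y).add measurable_const
  have mX : ∀ m, Measurable fun z0 => ENNReal.ofReal c1 *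
      (∫⁻ z, ENNReal.ofReal (es η r z0 z) * (sW (PB ε m) y1 y z + G m)) := fun m =>
    (meas_av η hη r _ (hFX m)).const_mul _
  have mY : ∀ j m, Measurable fun z0 => ENNReal.ofReal (cC j) * (ENNReal.ofReal (r ^ 2)⁻¹ *
      ∫⁻ z in Metric.closedBall z0 r, sW (PJ j m) y1 y z) := fun j m =>
    ((meas_ball r _ (meas_sW (PJ j m) y1 y)).const_mul _).const_mul _
  have mA : Measurable fun z0 => ENNReal.ofReal c1 *
      (∫⁻ z, ENNReal.ofReal (es η r z0 z) * sW PA y1 y z) :=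
    (meas_av η hη r _ (meas_sW PA y1 y)).const_mul _
  have mX2 : ∀ m, Measurable fun z0 => (ENNReal.ofReal c1 *
      (∫⁻ z, ENNReal.ofReal (es η r z0 z) * (sW (PB ε m) y1 y z + G m))) ^ 2 := fun m =>
    (mX m).pow_const 2
  have mY2 : ∀ j m, Measurable fun z0 => (ENNReal.ofReal (cC j) * (ENNReal.ofReal (r ^ 2)⁻¹ *
      ∫⁻ z in Metric.closedBall z0 r, sW (PJ j m) y1 y z)) ^ 2 := fun j m => (mY j m).pow_const 2
  have mY3 : ∀ j m, Measurable fun z0 => ENNReal.ofReal ((5 / 4) ^ j) *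
      (ENNReal.ofReal (cC j) * (ENNReal.ofReal (r ^ 2)⁻¹ *
      ∫⁻ z in Metric.closedBall z0 r, sW (PJ j m) y1 y z)) ^ 2 := fun j m => (mY2 j m).const_mul _
  have mS : ∀ m, Measurable fun z0 => ∑ j ∈ Finset.range N, ENNReal.ofReal ((5 / 4) ^ j) *
      (ENNReal.ofReal (cC j) * (ENNReal.ofReal (r ^ 2)⁻¹ *
      ∫⁻ z in Metric.closedBall z0 r, sW (PJ j m) y1 y z)) ^ 2 := fun m =>
    Finset.measurable_sum _ fun j _ => mY3 j m
  have mA2 : Measurable fun z0 => (ENNReal.ofReal c1 *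
      (∫⁻ z, ENNReal.ofReal (es η r z0 z) * sW PA y1 y z)) ^ 2 := mA.pow_const 2
  -- the averages
  have aX : ∀ m, ∫⁻ z0 in K, (ENNReal.ofReal c1 *
      (∫⁻ z, ENNReal.ofReal (es η r z0 z) * (sW (PB ε m) y1 y z + G m))) ^ 2 ≤
      ENNReal.ofReal (c1 ^ 2) * (4 * ((∫⁻ z in K', sW (PB ε m) y1 y z ^ 2) +
        G m ^ 2 * ENNReal.ofReal vv)) := by
    intro m
    simp_rw [mul_pow]
    rw [lintegral_const_mul _ ((meas_av η hη r _ (hFX m)).pow_const 2), ENNReal.ofReal_pow hc1]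
    gcongr
    refine (hAvg η hη K K' hK hK' r hr hsub _ (hFX m)).1.trans ?_
    calc ∫⁻ z in K', (sW (PB ε m) y1 y z + G m) ^ 2
        ≤ ∫⁻ z in K', 4 * (sW (PB ε m) y1 y z ^ 2 + G m ^ 2) :=
          lintegral_mono fun z => sq_add_le _ _
      _ = _ := by
          have q1 : Measurable fun z => sW (PB ε m) y1 y z ^ 2 :=
            (meas_sW (PB ε m) y1 y).pow_const 2
          have q2 : Measurable fun z => sW (PB ε m) y1 y z ^ 2 + G m ^ 2 :=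
            q1.add measurable_const
          rw [lintegral_const_mul _ q2, lintegral_add_left q1, lintegral_const,
            Measure.restrict_apply_univ, hvol]
  have aY : ∀ j m, ∫⁻ z0 in K, (ENNReal.ofReal (cC j) * (ENNReal.ofReal (r ^ 2)⁻¹ *
      ∫⁻ z in Metric.closedBall z0 r, sW (PJ j m) y1 y z)) ^ 2 ≤
      ENNReal.ofReal (cC j ^ 2) * (10 * ∫⁻ z in K', sW (PJ j m) y1 y z ^ 2) := by
    intro j m
    have e1 : ∀ z0, (ENNReal.ofReal (cC j) * (ENNReal.ofReal (r ^ 2)⁻¹ *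
      ∫⁻ z in Metric.closedBall z0 r, sW (PJ j m) y1 y z)) ^ 2 = ENNReal.ofReal (cC j) ^ 2 *
      (ENNReal.ofReal (r ^ 2)⁻¹ *
        ∫⁻ z in Metric.closedBall z0 r, sW (PJ j m) y1 y z) ^ 2 := fun z0 => mul_pow _ _ 2
    simp_rw [e1]
    rw [lintegral_const_mul _ (((meas_ball r _ (meas_sW (PJ j m) y1 y)).const_mul _).pow_const 2),
      ENNReal.ofReal_pow (hcC j)]
    gcongr
    exact (hAvg η hη K K' hK hK' r hr hsub _ (meas_sW (PJ j m) y1 y)).2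
  have aA : ∫⁻ z0 in K, (ENNReal.ofReal c1 *
      (∫⁻ z, ENNReal.ofReal (es η r z0 z) * sW PA y1 y z)) ^ 2 ≤
      ENNReal.ofReal (c1 ^ 2) * ∫⁻ z in K', sW PA y1 y z ^ 2 := by
    simp_rw [mul_pow]
    rw [lintegral_const_mul _ ((meas_av η hη r _ (meas_sW PA y1 y)).pow_const 2),
      ENNReal.ofReal_pow hc1]
    exact mul_le_mul' le_rfl (hAvg η hη K K' hK hK' r hr hsub _ (meas_sW PA y1 y)).1
  -- sums of the constants
  have sG : ∑' m, G m ^ 2 ≤ ENNReal.ofReal (gg ^ 2) := by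
    refine (sum_sq_le G).trans ?_
    rw [ENNReal.ofReal_pow hgg]
    gcongr
    refine le_trans ?_ hG
    rw [hGdef]
    refine (sum_det_le (fun m : ℕ => (m : ℤ) + 1) (fun a b h => by simpa using h) NonSc
      (fun _ => True) (fun _ _ _ _ => trivial) g).trans ?_
    refine ENNReal.tsum_le_tsum fun γ => ?_
    rw [ind_pos trivial]
  have sB : ∑' m, ∫⁻ z in K', sW (PB ε m) y1 y z ^ 2 ≤ ENNReal.ofReal Bb := by
    rw [← lintegral_tsum fun m => ((meas_sW (PB ε m) y1 y).pow_const 2).aemeasurable]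
    exact hB
  have sC : ∀ j ∈ Finset.range N, ∑' m, ∫⁻ z in K', sW (PJ j m) y1 y z ^ 2 ≤
      ENNReal.ofReal (Bd j) := by
    intro j hj
    rw [← lintegral_tsum fun m => ((meas_sW (PJ j m) y1 y).pow_const 2).aemeasurable]
    exact hJ j hj
  have mXY : ∀ m, Measurable fun z0 => (ENNReal.ofReal c1 *
      (∫⁻ z, ENNReal.ofReal (es η r z0 z) * (sW (PB ε m) y1 y z + G m))) ^ 2 +
      5 * ∑ j ∈ Finset.range N, ENNReal.ofReal ((5 / 4) ^ j) *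
      (ENNReal.ofReal (cC j) * (ENNReal.ofReal (r ^ 2)⁻¹ *
      ∫⁻ z in Metric.closedBall z0 r, sW (PJ j m) y1 y z)) ^ 2 :=
    fun m => (mX2 m).add ((mS m).const_mul 5)
  change ∫⁻ z0 in K, ((∑' m : ℕ, 4 * ((ENNReal.ofReal c1 *
      (∫⁻ z, ENNReal.ofReal (es η r z0 z) * (sW (PB ε m) y1 y z + G m))) ^ 2 +
      5 * ∑ j ∈ Finset.range N, ENNReal.ofReal ((5 / 4) ^ j) *
      (ENNReal.ofReal (cC j) * (ENNReal.ofReal (r ^ 2)⁻¹ *
        ∫⁻ z in Metric.closedBall z0 r, sW (PJ j m) y1 y z)) ^ 2)) +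
      (ENNReal.ofReal c1 * (∫⁻ z, ENNReal.ofReal (es η r z0 z) * sW PA y1 y z)) ^ 2) ≤ _
  rw [lintegral_add_right _ mA2, lintegral_tsum fun m => ((mXY m).const_mul 4).aemeasurable]
  have hsumJ : ∑' m : ℕ, ∑ j ∈ Finset.range N, ENNReal.ofReal ((5 / 4) ^ j) *
      (ENNReal.ofReal (cC j ^ 2) * (10 * ∫⁻ z in K', sW (PJ j m) y1 y z ^ 2)) ≤
      ENNReal.ofReal (∑ j ∈ Finset.range N, (5 / 4) ^ j * (cC j ^ 2 * (10 * Bd j))) := by
    rw [Summable.tsum_finsetSum (fun j _ => ENNReal.summable),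
      ENNReal.ofReal_sum_of_nonneg (fun j _ => by have := hBd j; positivity)]
    refine Finset.sum_le_sum fun j hj => ?_
    rw [ENNReal.tsum_mul_left, ENNReal.tsum_mul_left, ENNReal.tsum_mul_left,
      ENNReal.ofReal_mul (by positivity), ENNReal.ofReal_mul (by positivity),
      ENNReal.ofReal_mul (by norm_num)]
    have e10 : (10 : ℝ≥0∞) = ENNReal.ofReal 10 := by simp
    rw [e10]
    gcongr
    exact sC j hj
  have hSn : 0 ≤ ∑ j ∈ Finset.range N, (5 / 4 : ℝ) ^ j * (cC j ^ 2 * (10 * Bd j)) :=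
    Finset.sum_nonneg fun j _ => by have := hBd j; positivity
  calc (∑' m : ℕ, ∫⁻ z0 in K, 4 * ((ENNReal.ofReal c1 * (∫⁻ z, ENNReal.ofReal (es η r z0 z) *
        (sW (PB ε m) y1 y z + G m))) ^ 2 +
      5 * ∑ j ∈ Finset.range N, ENNReal.ofReal ((5 / 4) ^ j) *
      (ENNReal.ofReal (cC j) * (ENNReal.ofReal (r ^ 2)⁻¹ *
        ∫⁻ z in Metric.closedBall z0 r, sW (PJ j m) y1 y z)) ^ 2)) +
      ∫⁻ z0 in K, (ENNReal.ofReal c1 *
        (∫⁻ z, ENNReal.ofReal (es η r z0 z) * sW PA y1 y z)) ^ 2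
      ≤ (∑' m : ℕ, 4 * (ENNReal.ofReal (c1 ^ 2) * (4 * ((∫⁻ z in K', sW (PB ε m) y1 y z ^ 2) +
        G m ^ 2 * ENNReal.ofReal vv)) +
        5 * ∑ j ∈ Finset.range N, ENNReal.ofReal ((5 / 4) ^ j) *
          (ENNReal.ofReal (cC j ^ 2) * (10 * ∫⁻ z in K', sW (PJ j m) y1 y z ^ 2)))) +
        ENNReal.ofReal (c1 ^ 2) * ∫⁻ z in K', sW PA y1 y z ^ 2 := by
        refine add_le_add (ENNReal.tsum_le_tsum fun m => ?_) aA
        rw [lintegral_const_mul _ (mXY m), lintegral_add_left (mX2 m),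
          lintegral_const_mul _ (mS m), lintegral_finsetSum _ (fun j _ => mY3 j m)]
        have hj : ∀ j ∈ Finset.range N, ∫⁻ z0 in K, ENNReal.ofReal ((5 / 4) ^ j) *
            (ENNReal.ofReal (cC j) * (ENNReal.ofReal (r ^ 2)⁻¹ *
            ∫⁻ z in Metric.closedBall z0 r, sW (PJ j m) y1 y z)) ^ 2 ≤
            ENNReal.ofReal ((5 / 4) ^ j) *
              (ENNReal.ofReal (cC j ^ 2) * (10 * ∫⁻ z in K', sW (PJ j m) y1 y z ^ 2)) := by
          intro j _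
          rw [lintegral_const_mul _ (mY2 j m)]
          gcongr
          exact aY j m
        refine mul_le_mul' le_rfl (add_le_add (aX m) (mul_le_mul' le_rfl ?_))
        exact Finset.sum_le_sum hj
    _ = 4 * (ENNReal.ofReal (c1 ^ 2) * (4 * ((∑' m : ℕ, ∫⁻ z in K', sW (PB ε m) y1 y z ^ 2) +
        (∑' m, G m ^ 2) * ENNReal.ofReal vv)) +
        5 * ∑' m : ℕ, ∑ j ∈ Finset.range N, ENNReal.ofReal ((5 / 4) ^ j) *
          (ENNReal.ofReal (cC j ^ 2) * (10 * ∫⁻ z in K', sW (PJ j m) y1 y z ^ 2))) +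
        ENNReal.ofReal (c1 ^ 2) * ∫⁻ z in K', sW PA y1 y z ^ 2 := by
        rw [ENNReal.tsum_mul_left, ENNReal.tsum_add, ENNReal.tsum_mul_left, ENNReal.tsum_mul_left,
          ENNReal.tsum_add, ENNReal.tsum_mul_right, ENNReal.tsum_mul_left]
    _ ≤ 4 * (ENNReal.ofReal (c1 ^ 2) * (4 * (ENNReal.ofReal Bb +
        ENNReal.ofReal (gg ^ 2) * ENNReal.ofReal vv)) +
        5 * ENNReal.ofReal (∑ j ∈ Finset.range N, (5 / 4) ^ j * (cC j ^ 2 * (10 * Bd j)))) +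
        ENNReal.ofReal (c1 ^ 2) * ENNReal.ofReal Bn := by
        gcongr
    _ = _ := by
        have e4 : (4 : ℝ≥0∞) = ENNReal.ofReal 4 := by simp
        have e5 : (5 : ℝ≥0∞) = ENNReal.ofReal 5 := by simp
        rw [e4, e5, ← ENNReal.ofReal_mul (sq_nonneg gg), ← ENNReal.ofReal_add hBb (by positivity),
          ← ENNReal.ofReal_mul (by norm_num), ← ENNReal.ofReal_mul (sq_nonneg c1),
          ← ENNReal.ofReal_mul (by norm_num),
          ← ENNReal.ofReal_add (by positivity) (by positivity), ← ENNReal.ofReal_mul (by norm_num),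
          ← ENNReal.ofReal_mul (sq_nonneg c1), ← ENNReal.ofReal_add (by positivity) (by positivity)]
        congr 1
        ring

/-! ### the final computation -/

lemma geo (x : ℝ) (hx : 0 ≤ x) (hx2 : x ≤ 1 / 2) (J : ℕ) : ∑ j ∈ Finset.range J, x ^ j ≤ 2 := by
  have h1 : ∑ j ∈ Finset.range J, x ^ j ≤ ∑ j ∈ Finset.range J, (1 / 2 : ℝ) ^ j :=
    Finset.sum_le_sum fun j _ => pow_le_pow_left₀ hx hx2 j
  have h6 := Summable.sum_le_tsum (Finset.range J)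
    (fun k _ => by positivity)
    (summable_geometric_of_lt_one (r := (1 / 2 : ℝ)) (by norm_num) (by norm_num))
  rw [tsum_geometric_of_lt_one (by norm_num) (by norm_num)] at h6
  norm_num at h6 h1 ⊢
  linarith

/-- the constants of the dyadic pieces -/
def cc (CS ε y δ r : ℝ) (j : ℕ) : ℝ := CS / (2 ^ j * ε) ^ 2 * (y / δ) * ((r ^ 2)⁻¹ + 2 / δ)

/-- the bounds for the dyadic pieces -/
def bd (C1 C2 θ ε y u : ℝ) (J j : ℕ) : ℝ :=
  if j < J then C2 / y * (1 / √u + (2 ^ (j + 1) * ε) ^ (1 - θ) / u) else C1 / (y * u)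

lemma cc_sq {CS ε y δ r T u : ℝ} (hCS : 0 ≤ CS) (hε : 0 < ε) (hy : 0 < y) (hδ : 0 < δ) (hr : 0 < r)
    (hrδ : r ^ 2 ≤ δ) (hyd : (y / δ) ^ 2 = y * u * T ^ 2) (j : ℕ) :
    cc CS ε y δ r j ^ 2 ≤ 9 * CS ^ 2 * ((2 ^ j * ε) ^ 4)⁻¹ * (y * u * T ^ 2) * (r ^ 4)⁻¹ := by
  have h1 : 2 / δ ≤ 2 * (r ^ 2)⁻¹ := by
    rw [div_eq_mul_inv]
    gcongr
  have h2 : cc CS ε y δ r j ≤ CS / (2 ^ j * ε) ^ 2 * (y / δ) * (3 * (r ^ 2)⁻¹) := by
    unfold cc
    gcongr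
    linarith
  have h3 : 0 ≤ cc CS ε y δ r j := by unfold cc; positivity
  refine (pow_le_pow_left₀ h3 h2 2).trans (le_of_eq ?_)
  rw [mul_pow, mul_pow, hyd]
  field_simp
  ring

lemma piece {CS C2 ε y δ r T u θ : ℝ} (hCS : 0 ≤ CS) (hC2 : 0 ≤ C2) (hε : 0 < ε) (hy : 0 < y)
    (hδ : 0 < δ) (hr : 0 < r) (hrδ : r ^ 2 ≤ δ) (hyd : (y / δ) ^ 2 = y * u * T ^ 2) (hu : 0 < u)
    (hT : 0 < T) (hθ : 0 < θ) (hθ1 : θ ≤ 1 / 2) (j : ℕ) :
    (5 / 4) ^ j * (cc CS ε y δ r j ^ 2 *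
      (10 * (C2 / y * (1 / √u + (2 ^ (j + 1) * ε) ^ (1 - θ) / u)))) ≤
    (5 / 32) ^ j * (180 * CS ^ 2 * C2 * (T ^ 6 * (((ε ^ 4)⁻¹ * √u + ε ^ (-(3 + θ))) *
      ((r * T) ^ 4)⁻¹))) := by
  have hA : 0 < ε ^ (1 - θ) := Real.rpow_pos_of_pos hε _
  have h1 : (2 ^ (j + 1) * ε) ^ (1 - θ) ≤ 2 ^ (j + 1) * ε ^ (1 - θ) := by
    rw [Real.mul_rpow (by positivity) hε.le]
    gcongr
    calc ((2 : ℝ) ^ (j + 1)) ^ (1 - θ) ≤ ((2 : ℝ) ^ (j + 1)) ^ (1 : ℝ) :=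
          Real.rpow_le_rpow_of_exponent_le (one_le_pow₀ (by norm_num)) (by linarith)
      _ = _ := Real.rpow_one _
  have h2 : ε ^ (-(3 + θ)) = (ε ^ 4)⁻¹ * ε ^ (1 - θ) := by
    rw [← Real.rpow_natCast, ← Real.rpow_neg hε.le, ← Real.rpow_add hε]
    congr 1
    push_cast
    ring
  have hv : 0 < √u := Real.sqrt_pos.2 hu
  have hvu : √u ^ 2 = u := Real.sq_sqrt hu.le
  have h3 := cc_sq (CS := CS) (j := j) hCS hε hy hδ hr hrδ hyd
  have hq : (0 : ℝ) < 2 ^ j := by positivity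
  have h4 : (5 / 4 : ℝ) ^ j = (5 / 32) ^ j * 2 ^ j * 2 ^ j * 2 ^ j := by
    rw [← mul_pow, ← mul_pow, ← mul_pow]
    norm_num
  have hq1 : (1 : ℝ) ≤ 2 ^ j := one_le_pow₀ (by norm_num)
  calc (5 / 4) ^ j * (cc CS ε y δ r j ^ 2 *
      (10 * (C2 / y * (1 / √u + (2 ^ (j + 1) * ε) ^ (1 - θ) / u))))
      ≤ (5 / 4) ^ j * ((9 * CS ^ 2 * ((2 ^ j * ε) ^ 4)⁻¹ * (y * u * T ^ 2) * (r ^ 4)⁻¹) *
      (10 * (C2 / y * (1 / √u + (2 ^ (j + 1) * ε ^ (1 - θ)) / u)))) := by gcongr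
    _ = 90 * CS ^ 2 * C2 * (T ^ 2 * (r ^ 4)⁻¹) * (ε ^ 4)⁻¹ * ((5 / 32) ^ j *
          ((2 ^ j)⁻¹ * √u + 2 * ε ^ (1 - θ))) := by
        rw [h4]
        have e1 : 1 / √u = √u / u := by
          rw [div_eq_div_iff hv.ne' hu.ne', one_mul, ← sq, hvu]
        rw [e1, pow_succ]
        field_simp
        ring
    _ ≤ 90 * CS ^ 2 * C2 * (T ^ 2 * (r ^ 4)⁻¹) * (ε ^ 4)⁻¹ * ((5 / 32) ^ j *
          (2 * √u + 2 * ε ^ (1 - θ))) := by
        have e1 : ((2 : ℝ) ^ j)⁻¹ * √u ≤ 2 * √u := by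
          have : ((2 : ℝ) ^ j)⁻¹ ≤ 1 := inv_le_one_of_one_le₀ hq1
          nlinarith
        gcongr
    _ = _ := by
        rw [h2]
        field_simp
        ring

lemma final_real {CM C1 C2 C3 CG CS vv gg E ε T y δ u r θ : ℝ} (J : ℕ) (hC1 : 0 ≤ C1)
    (hC2 : 0 ≤ C2) (hC3 : 0 ≤ C3) (hCS : 0 ≤ CS) (hvv : 0 ≤ vv) (hε : 0 < ε) (hE : 0 ≤ E)
    (hgg : gg ^ 2 ≤ E * (CG / ε) ^ 2) (hT : 2 ≤ T) (hθ : 0 < θ) (hθ1 : θ ≤ 1 / 2)
    (hy : 1 / 2 ≤ y) (hδ : 0 < δ) (hu : u = y / (T ^ 2 * δ ^ 2)) (hu1 : u ≤ 1)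
    (hr : 0 < r) (hrδ : r ^ 2 ≤ δ) (hJ : 2 ^ J * ε ≤ 1) (hJ2 : 1 < 2 ^ (J + 1) * ε) :
    4 * ((CM * T ^ 2 * (y / δ)) ^ 2 * (4 * (C2 / y * (1 / √u + ε ^ (1 - θ) / u) + vv * gg ^ 2)) +
      5 * ∑ j ∈ Finset.range (J + 1), (5 / 4) ^ j *
        (cc CS ε y δ r j ^ 2 * (10 * bd C1 C2 θ ε y u J j))) +
      (CM * T ^ 2 * (y / δ)) ^ 2 * (C3 / y * u ^ (-(1 / 4 : ℝ))) ≤
    (16 * CM ^ 2 * C2 + 16 * CM ^ 2 * vv * CG ^ 2 + 7200 * CS ^ 2 * C2 + 28800 * CS ^ 2 * C1 +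
      CM ^ 2 * C3) * T ^ 6 * (√u + ε ^ (1 - θ) +
          ((ε ^ 4)⁻¹ * √u + ε ^ (-(3 + θ))) * ((r * T) ^ 4)⁻¹ +
          (y / δ) ^ 2 * E * ((ε * T) ^ 2)⁻¹) := by
  have hT0 : 0 < T := by linarith
  have hy0 : 0 < y := by linarith
  have hup : 0 < u := by rw [hu]; positivity
  have hyd : (y / δ) ^ 2 = y * u * T ^ 2 := by rw [hu]; field_simp
  have hA : 0 < ε ^ (1 - θ) := Real.rpow_pos_of_pos hε _
  have hB : 0 < ε ^ (-(3 + θ)) := Real.rpow_pos_of_pos hε _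
  have hv : 0 < √u := Real.sqrt_pos.2 hup
  have hvu : √u ^ 2 = u := Real.sq_sqrt hup.le
  have hε1 : ε ≤ 1 := by
    refine le_trans ?_ hJ
    have : (1 : ℝ) ≤ 2 ^ J := one_le_pow₀ (by norm_num)
    nlinarith
  -- term 1
  have t1 : 4 * ((CM * T ^ 2 * (y / δ)) ^ 2 * (4 * (C2 / y * (1 / √u + ε ^ (1 - θ) / u)))) =
      16 * CM ^ 2 * C2 * T ^ 6 * (√u + ε ^ (1 - θ)) := by
    have e1 : 1 / √u = √u / u := by
      rw [div_eq_div_iff hv.ne' hup.ne', one_mul, ← sq, hvu]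
    rw [mul_pow, hyd, e1]
    field_simp
    ring
  have t2 : 4 * ((CM * T ^ 2 * (y / δ)) ^ 2 * (4 * (vv * gg ^ 2))) ≤
      16 * CM ^ 2 * vv * CG ^ 2 * T ^ 6 * ((y / δ) ^ 2 * E * ((ε * T) ^ 2)⁻¹) := by
    calc 4 * ((CM * T ^ 2 * (y / δ)) ^ 2 * (4 * (vv * gg ^ 2)))
        ≤ 4 * ((CM * T ^ 2 * (y / δ)) ^ 2 * (4 * (vv * (E * (CG / ε) ^ 2)))) := by gcongr
      _ = _ := by
        field_simp
        ring
  have t3 : ∑ j ∈ Finset.range J, (5 / 4) ^ j *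
        (cc CS ε y δ r j ^ 2 * (10 * bd C1 C2 θ ε y u J j)) ≤
      360 * CS ^ 2 * C2 * (T ^ 6 * (((ε ^ 4)⁻¹ * √u + ε ^ (-(3 + θ))) * ((r * T) ^ 4)⁻¹)) := by
    have hP : 0 ≤ 180 * CS ^ 2 * C2 * (T ^ 6 * (((ε ^ 4)⁻¹ * √u + ε ^ (-(3 + θ))) *
        ((r * T) ^ 4)⁻¹)) := by positivity
    calc ∑ j ∈ Finset.range J, (5 / 4) ^ j *
        (cc CS ε y δ r j ^ 2 * (10 * bd C1 C2 θ ε y u J j))
        ≤ ∑ j ∈ Finset.range J, (5 / 32) ^ j * (180 * CS ^ 2 * C2 * (T ^ 6 *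
          (((ε ^ 4)⁻¹ * √u + ε ^ (-(3 + θ))) * ((r * T) ^ 4)⁻¹))) := by
          refine Finset.sum_le_sum fun j hj => ?_
          unfold bd
          rw [if_pos (Finset.mem_range.1 hj)]
          exact piece hCS hC2 hε hy0 hδ hr hrδ hyd hup hT0 hθ hθ1 j
      _ = (∑ j ∈ Finset.range J, (5 / 32 : ℝ) ^ j) * (180 * CS ^ 2 * C2 * (T ^ 6 *
          (((ε ^ 4)⁻¹ * √u + ε ^ (-(3 + θ))) * ((r * T) ^ 4)⁻¹))) := by
          rw [Finset.sum_mul]
      _ ≤ 2 * (180 * CS ^ 2 * C2 * (T ^ 6 *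
          (((ε ^ 4)⁻¹ * √u + ε ^ (-(3 + θ))) * ((r * T) ^ 4)⁻¹))) :=
          mul_le_mul_of_nonneg_right (geo _ (by norm_num) (by norm_num) J) hP
      _ = _ := by ring
  have t3J : (5 / 4) ^ J * (cc CS ε y δ r J ^ 2 * (10 * bd C1 C2 θ ε y u J J)) ≤
      1440 * CS ^ 2 * C1 * (T ^ 6 * (((ε ^ 4)⁻¹ * √u + ε ^ (-(3 + θ))) * ((r * T) ^ 4)⁻¹)) := by
    unfold bd
    rw [if_neg (lt_irrefl _)]
    have h3 := cc_sq (CS := CS) (j := J) hCS hε hy0 hδ hr hrδ hyd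
    have h4 : ((2 ^ J * ε) ^ 4)⁻¹ ≤ 16 := by
      have h5 : (1 / 2 : ℝ) ≤ 2 ^ J * ε := by
        rw [pow_succ] at hJ2
        linarith
      have h6 : (1 / 2 : ℝ) ^ 4 ≤ (2 ^ J * ε) ^ 4 := pow_le_pow_left₀ (by norm_num) h5 4
      rw [inv_le_comm₀ (by positivity) (by norm_num)]
      norm_num at h6 ⊢
      exact h6
    have h7 : (5 / 4 : ℝ) ^ J ≤ ε ^ (-(3 + θ)) := by
      calc (5 / 4 : ℝ) ^ J ≤ 2 ^ J := pow_le_pow_left₀ (by norm_num) (by norm_num) J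
        _ ≤ ε⁻¹ := by
            rw [le_inv_comm₀ (by positivity) hε, ← one_div, le_div_iff₀ (by positivity)]
            linarith
        _ = ε ^ (-1 : ℝ) := (Real.rpow_neg_one ε).symm
        _ ≤ ε ^ (-(3 + θ)) := Real.rpow_le_rpow_of_exponent_ge hε hε1 (by linarith)
    calc (5 / 4) ^ J * (cc CS ε y δ r J ^ 2 * (10 * (C1 / (y * u))))
        ≤ ε ^ (-(3 + θ)) * ((9 * CS ^ 2 * 16 * (y * u * T ^ 2) * (r ^ 4)⁻¹) *
            (10 * (C1 / (y * u)))) := by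
          gcongr
          refine h3.trans ?_
          gcongr
      _ = 1440 * CS ^ 2 * C1 * (T ^ 6 * (ε ^ (-(3 + θ)) * ((r * T) ^ 4)⁻¹)) := by
          field_simp
          ring
      _ ≤ _ := by
          have h8 : 0 ≤ (ε ^ 4)⁻¹ * √u := by positivity
          gcongr
          linarith
  have t4 : (CM * T ^ 2 * (y / δ)) ^ 2 * (C3 / y * u ^ (-(1 / 4 : ℝ))) ≤
      CM ^ 2 * C3 * T ^ 6 * √u := by
    have h1 : u * u ^ (-(1 / 4 : ℝ)) ≤ √u := by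
      have : u * u ^ (-(1 / 4 : ℝ)) = u ^ (3 / 4 : ℝ) := by
        conv_lhs => rw [← Real.rpow_one u]
        rw [← Real.rpow_mul hup.le, ← Real.rpow_add hup]
        norm_num
      rw [this, Real.sqrt_eq_rpow]
      exact Real.rpow_le_rpow_of_exponent_ge hup hu1 (by norm_num)
    rw [mul_pow, hyd]
    calc (CM * T ^ 2) ^ 2 * (y * u * T ^ 2) * (C3 / y * u ^ (-(1 / 4 : ℝ)))
        = CM ^ 2 * C3 * T ^ 6 * (u * u ^ (-(1 / 4 : ℝ))) := by field_simp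
      _ ≤ CM ^ 2 * C3 * T ^ 6 * √u := by gcongr
  rw [Finset.sum_range_succ]
  set S1 := ∑ j ∈ Finset.range J, (5 / 4) ^ j *
        (cc CS ε y δ r j ^ 2 * (10 * bd C1 C2 θ ε y u J j))
  set S2 := (5 / 4) ^ J * (cc CS ε y δ r J ^ 2 * (10 * bd C1 C2 θ ε y u J J))
  set X3 := ((ε ^ 4)⁻¹ * √u + ε ^ (-(3 + θ))) * ((r * T) ^ 4)⁻¹ with hX3
  set X4 := (y / δ) ^ 2 * E * ((ε * T) ^ 2)⁻¹ with hX4
  have x3 : 0 ≤ X3 := by positivity
  have x4 : 0 ≤ X4 := by positivity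
  have hsum : 4 * ((CM * T ^ 2 * (y / δ)) ^ 2 * (4 * (C2 / y * (1 / √u + ε ^ (1 - θ) / u) +
      vv * gg ^ 2)) + 5 * (S1 + S2)) +
      (CM * T ^ 2 * (y / δ)) ^ 2 * (C3 / y * u ^ (-(1 / 4 : ℝ))) =
      4 * ((CM * T ^ 2 * (y / δ)) ^ 2 * (4 * (C2 / y * (1 / √u + ε ^ (1 - θ) / u)))) +
      4 * ((CM * T ^ 2 * (y / δ)) ^ 2 * (4 * (vv * gg ^ 2))) +
      20 * (S1 + S2) +
      (CM * T ^ 2 * (y / δ)) ^ 2 * (C3 / y * u ^ (-(1 / 4 : ℝ))) := by ring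
  rw [hsum, t1]
  have k1 : 16 * CM ^ 2 * C2 * T ^ 6 * (√u + ε ^ (1 - θ)) ≤
      16 * CM ^ 2 * C2 * T ^ 6 * (√u + ε ^ (1 - θ) + X3 + X4) :=
    mul_le_mul_of_nonneg_left (by linarith) (by positivity)
  have k2 : 16 * CM ^ 2 * vv * CG ^ 2 * T ^ 6 * X4 ≤
      16 * CM ^ 2 * vv * CG ^ 2 * T ^ 6 * (√u + ε ^ (1 - θ) + X3 + X4) :=
    mul_le_mul_of_nonneg_left (by linarith) (by positivity)
  have k3 : (7200 * CS ^ 2 * C2 + 28800 * CS ^ 2 * C1) * T ^ 6 * X3 ≤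
      (7200 * CS ^ 2 * C2 + 28800 * CS ^ 2 * C1) * T ^ 6 * (√u + ε ^ (1 - θ) + X3 + X4) :=
    mul_le_mul_of_nonneg_left (by linarith) (by positivity)
  have k4 : CM ^ 2 * C3 * T ^ 6 * √u ≤
      CM ^ 2 * C3 * T ^ 6 * (√u + ε ^ (1 - θ) + X3 + X4) :=
    mul_le_mul_of_nonneg_left (by linarith) (by positivity)
  have k5 : 20 * (S1 + S2) ≤ (7200 * CS ^ 2 * C2 + 28800 * CS ^ 2 * C1) * T ^ 6 * X3 := by
    have e1 : (7200 * CS ^ 2 * C2 + 28800 * CS ^ 2 * C1) * T ^ 6 * X3 =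
        20 * (360 * CS ^ 2 * C2 * (T ^ 6 * X3) + 1440 * CS ^ 2 * C1 * (T ^ 6 * X3)) := by ring
    rw [e1]
    linarith
  calc _ ≤ 16 * CM ^ 2 * C2 * T ^ 6 * (√u + ε ^ (1 - θ) + X3 + X4) +
        16 * CM ^ 2 * vv * CG ^ 2 * T ^ 6 * (√u + ε ^ (1 - θ) + X3 + X4) +
        (7200 * CS ^ 2 * C2 + 28800 * CS ^ 2 * C1) * T ^ 6 * (√u + ε ^ (1 - θ) + X3 + X4) +
        CM ^ 2 * C3 * T ^ 6 * (√u + ε ^ (1 - θ) + X3 + X4) :=
        add_le_add (add_le_add (add_le_add k1 (t2.trans k2)) (k5.trans k3)) (t4.trans k4)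
    _ = _ := by ring

end

end Pool.Agent.A54.Th.G3M

namespace Pool.Agent.A54.Th

open MeasureTheory Filter Topology Set G3M
open scoped ContDiff ComplexConjugate UpperHalfPlane MatrixGroups ENNReal
open Pool.Agent.A54.Half (H0)
open Pool.Agent.A54.Av (Mat VV Vd msq bet NonSc Bump es Sm' MN RN GR qs qT dl yo Aa DD Fam wf XX2 mm WW sW)
open Pool.Agent.A54.Ef (qe)
open Pool.Agent.A54.Av.G2M (ind ind_pos ind_neg sW_eq meas_ind meas_sW es_cont es_nonneg es_supp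
  sq_add_le tsum_int sum_sq_le sum_det_le term_le term_le_sm meas_av meas_ball pull MN_le PA PB PC neg_le)

theorem stmtG3 (hMb : Av.StmtMb) (hW1 : Av.StmtW1) (hW2 : StmtW2) (hW3 : Av.StmtW3)
    (hAvg : Av.StmtAvg) (hSm : Ef.StmtSm3) (hFar : Ef.StmtFar) (hGaD : Ef.StmtGaD)
    (hQF : Av.StmtQF) : StmtG3 := by
  intro θ hθ hθ1 η hη K hK hKH
  obtain ⟨ρ0, hρ0, hthick⟩ :=
    hK.exists_cthickening_subset_open Pool.Agent.A54.Half.isOpen_H0 hKH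
  set K' := Metric.cthickening ρ0 K with hK'def
  have hK'c : IsCompact K' := hK.cthickening
  have hK'm : MeasurableSet K' := hK'c.measurableSet
  obtain ⟨CM, hCM0, hMb'⟩ := hMb
  obtain ⟨C1, hC1, hW1'⟩ := hW1 K' hK'c hthick
  obtain ⟨C2, hC2, hW2'⟩ := hW2 θ hθ hθ1 K' hK'c hthick
  obtain ⟨C3, hC3, hW3'⟩ := hW3 K' hK'c hthick
  obtain ⟨CS, rS, hCS, hrS, hSm'⟩ := hSm η hη K hK hKH
  obtain ⟨cF, rF, hcF, hrF, hFar'⟩ := hFar K hK hKH
  obtain ⟨CG, hCG, hGa'⟩ := hGaD (Real.pi / 4 * cF) (by positivity)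
  set vv := (volume K').toReal with hvv
  have hvol : volume K' = ENNReal.ofReal vv := (ENNReal.ofReal_toReal hK'c.measure_lt_top.ne).symm
  have hvv0 : 0 ≤ vv := ENNReal.toReal_nonneg
  refine ⟨16 * CM ^ 2 * C2 + 16 * CM ^ 2 * vv * CG ^ 2 + 7200 * CS ^ 2 * C2 +
    28800 * CS ^ 2 * C1 + CM ^ 2 * C3, min ρ0 (min rS rF), Real.pi * cF, by positivity,
    lt_min hρ0 (lt_min hrS hrF), by positivity, ?_⟩
  intro ε r T y φ hε hε1 hr0 hr hT2 hy hφ hyo1 hrδ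
  obtain ⟨hsum', hsumle⟩ := hGa' ε hε hε1
  set gg := ∑' γ : Mat, Real.exp (-(Real.pi / 4 * cF * qe ε γ)) with hgg
  have hgg0 : 0 ≤ gg := tsum_nonneg fun γ => (Real.exp_pos _).le
  set e1 := Real.exp (-(Real.pi * cF / 2 * y)) with he1
  have he1p : 0 < e1 := Real.exp_pos _
  set g : Mat → ℝ≥0∞ := fun γ =>
    ENNReal.ofReal (e1 * Real.exp (-(Real.pi / 4 * cF * qe ε γ))) with hg
  have hG : ∑' γ : Mat, g γ ≤ ENNReal.ofReal (e1 * gg) := by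
    rw [hgg, ← tsum_mul_left, ENNReal.ofReal_tsum_of_nonneg
      (fun γ => mul_nonneg he1p.le (Real.exp_pos _).le) (hsum'.mul_left e1)]
  have hT0 : 0 < T := by linarith
  have hy0 : 0 < y := by linarith
  have hδp : 0 < dl T φ := lt_of_lt_of_le (by positivity) hrδ
  have hyo : 0 < yo T φ y := by unfold yo; positivity
  have hmin : 0 < min ρ0 (min rS rF) := lt_min hρ0 (lt_min hrS hrF)
  have hrm : r ≤ min ρ0 (min rS rF) := by
    refine hr.trans ?_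
    nlinarith
  have hr1 : r ≤ ρ0 := hrm.trans (min_le_left _ _)
  have hr2 : r ≤ rS := hrm.trans ((min_le_right _ _).trans (min_le_left _ _))
  have hr3 : r ≤ rF * ε :=
    hr.trans (mul_le_mul_of_nonneg_right ((min_le_right _ _).trans (min_le_right _ _)) hε.le)
  have hsub : ∀ z ∈ K, Metric.closedBall z r ⊆ K' := fun z hz =>
    (Metric.closedBall_subset_closedBall hr1).trans (Metric.closedBall_subset_cthickening hz ρ0)
  have hc1 : 0 ≤ CM * T ^ 2 * (y / dl T φ) := by positivity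
  -- the number of dyadic pieces
  obtain ⟨J, hJ1, hJ2⟩ := exists_nat_pow_near (one_le_inv_iff₀.2 ⟨hε, hε1⟩) (one_lt_two (α := ℝ))
  have hJ : 2 ^ J * ε ≤ 1 := by
    rwa [← le_div_iff₀ hε, one_div]
  have hJ' : 1 < 2 ^ (J + 1) * ε := by
    rwa [← div_lt_iff₀ hε, one_div]
  have hcC : ∀ j, 0 ≤ cc CS ε y (dl T φ) r j := fun j => by unfold cc; positivity
  set PJ : ℕ → ℕ → Mat → Prop := fun j m => if j < J then PB (2 ^ (j + 1) * ε) m else PC m with hPJ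
  have hpow : ∀ j, j ≤ J → (2 : ℝ) ^ j * ε ≤ 1 := fun j hj => by
    refine le_trans ?_ hJ
    gcongr
    norm_num
  have hpt : ∀ z0 ∈ K, ∑' n : ℤ, ‖MN (es η r z0) (qs (qT T) φ) y n‖ₑ ^ 2 ≤
      (∑' m : ℕ, 4 * ((ENNReal.ofReal (CM * T ^ 2 * (y / dl T φ)) *
        (∫⁻ z, ENNReal.ofReal (es η r z0 z) *
        (sW (PB ε m) (yo T φ y) y z + ∑' γ : Mat, ind (PC m γ) (g γ)))) ^ 2 +
      5 * ∑ j ∈ Finset.range (J + 1), ENNReal.ofReal ((5 / 4) ^ j) *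
        (ENNReal.ofReal (cc CS ε y (dl T φ) r j) *
        (ENNReal.ofReal (r ^ 2)⁻¹ *
        ∫⁻ z in Metric.closedBall z0 r, sW (PJ j m) (yo T φ y) y z)) ^ 2)) +
      (ENNReal.ofReal (CM * T ^ 2 * (y / dl T φ)) *
        (∫⁻ z, ENNReal.ofReal (es η r z0 z) * sW PA (yo T φ y) y z)) ^ 2 := by
    intro z0 hz0
    have hball : Metric.closedBall z0 r ⊆ H0 := (hsub z0 hz0).trans hthick
    apply point_le (J + 1) _ PJ η hη z0
    · intro m γ hγ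
      have hdet : γ.det = (m : ℤ) + 1 := hγ.1
      have hdet1 : 1 ≤ γ.det := by omega
      have hdetR : (1 : ℝ) ≤ ((γ.det : ℤ) : ℝ) := by exact_mod_cast hdet1
      by_cases hB : ((γ 1 0 : ℤ) : ℝ) ^ 2 ≤ ε ^ 2 * ((γ.det : ℤ) : ℝ)
      · have hPB : PB ε m γ := ⟨hγ.1, hγ.2, hB⟩
        refine le_trans ?_ le_self_add
        apply term_le hCM0 hMb' hQF η hη hT2 hφ hy0 hr0 z0 hball γ _ hdet
        intro z _
        rw [ind_pos hPB]
        exact le_self_add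
      · push Not at hB
        by_cases hN : ∀ z ∈ Metric.closedBall z0 r,
            Vd γ z ≤ (((γ 1 0 : ℤ) : ℝ) * z.im / 4) ^ 2
        · refine le_trans ?_ le_add_self
          classical
          set Q : ℕ → Prop := fun j =>
            (2 ^ j * ε) ^ 2 * ((γ.det : ℤ) : ℝ) ≤ ((γ 1 0 : ℤ) : ℝ) ^ 2 with hQ
          have hQ0 : Q 0 := by
            simp only [hQ, pow_zero, one_mul]
            exact hB.le
          set j := Nat.findGreatest Q J with hj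
          have hjJ : j ≤ J := Nat.findGreatest_le J
          have hQj : Q j := Nat.findGreatest_spec (Nat.zero_le J) hQ0
          have hPJj : PJ j m γ := by
            by_cases hlt : j < J
            · simp only [hPJ, if_pos hlt]
              refine ⟨hγ.1, hγ.2, ?_⟩
              have := Nat.findGreatest_is_greatest (P := Q) (n := J) (k := j + 1)
                (Nat.lt_succ_self j) hlt
              simp only [hQ, not_le] at this
              exact this.le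
            · simp only [hPJ, if_neg hlt]
              exact hγ
          have hεj : 0 < 2 ^ j * ε := by positivity
          have hCS' : 0 ≤ CS / (2 ^ j * ε) ^ 2 := by positivity
          refine le_trans ?_ (Finset.single_le_sum (f := fun j =>
            ENNReal.ofReal (cc CS ε y (dl T φ) r j) * (ENNReal.ofReal (r ^ 2)⁻¹ *
              ∫⁻ z in Metric.closedBall z0 r, ind (PJ j m γ) (WW (yo T φ y) y γ z)))
            (fun _ _ => zero_le) (Finset.mem_range.2 (Nat.lt_succ_of_le hjJ)))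
          simp only [ind_pos hPJj]
          exact term_le_sm hCS' η hT2 hy0 hδp le_rfl z0 γ _ hdet (by omega)
            (hSm' (2 ^ j * ε) hεj (hpow j hjJ) z0 hz0 r hr0 hr2 γ hdet1 hQj hN)
        · push Not at hN
          refine le_trans ?_ le_self_add
          apply term_le hCM0 hMb' hQF η hη hT2 hφ hy0 hr0 z0 hball γ _ hdet
          intro z hz
          have hV := hFar' ε hε hε1 z0 hz0 r hr0 hr3 γ hdet1 hB.le hN z hz
          obtain ⟨hV0, hnV, -⟩ := hQF γ z z (hball hz) (hball hz)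
          refine le_trans ?_ le_add_self
          unfold WW
          simp only [hg, he1]
          rw [← Real.exp_add]
          apply ENNReal.ofReal_le_ofReal
          apply Real.exp_le_exp.2
          have h1 : 0 ≤ yo T φ y * (((γ.det : ℤ) : ℝ) + Vd γ z) := mul_nonneg hyo.le hnV
          have hqe : 1 ≤ qe ε γ := by
            have h2 : (0 : ℝ) < ((γ 1 0 : ℤ) : ℝ) ^ 2 := by
              refine lt_of_le_of_lt ?_ hB
              positivity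
            have h3 : (0 : ℤ) < (γ 1 0) ^ 2 := by exact_mod_cast h2
            have h4 : (1 : ℤ) ≤ (γ 1 0) ^ 2 := h3
            have h5 : (1 : ℝ) ≤ ((γ 1 0 : ℤ) : ℝ) ^ 2 := by exact_mod_cast h4
            unfold qe
            have h6 : 0 ≤ ((γ 0 0 - γ 1 1 : ℤ) : ℝ) ^ 2 + ((γ 0 1 : ℤ) : ℝ) ^ 2 +
              ε ^ 2 * ((γ 0 0 + γ 1 1 : ℤ) : ℝ) ^ 2 := by positivity
            linarith
          have h2 : cF * (1 / 2 * y + 1 / 4 * qe ε γ) ≤ y * Vd γ z := by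
            have h3 : y * (cF * qe ε γ) ≤ y * Vd γ z := mul_le_mul_of_nonneg_left hV hy0.le
            have h4 : 1 / 2 * y + 1 / 4 * qe ε γ ≤ y * qe ε γ := by nlinarith
            have h5 := mul_le_mul_of_nonneg_left h4 hcF.le
            linarith
          have h7 := mul_le_mul_of_nonneg_left h2 Real.pi_pos.le
          have h8 := mul_nonneg Real.pi_pos.le h1
          linarith
    · intro γ hγ
      apply term_le hCM0 hMb' hQF η hη hT2 hφ hy0 hr0 z0 hball γ _ rfl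
      intro z _
      exact le_rfl
  have hBd : ∀ j, 0 ≤ bd C1 C2 θ ε y (yo T φ y) J j := fun j => by
    unfold bd
    split_ifs
    · positivity
    · positivity
  calc ∫⁻ z0 in K, ∑' n : ℤ, ‖MN (es η r z0) (qs (qT T) φ) y n‖ₑ ^ 2
      ≤ _ := setLIntegral_mono' hK.measurableSet hpt
    _ ≤ _ := integ (Bb := C2 / y * (1 / √(yo T φ y) + ε ^ (1 - θ) / yo T φ y))
        (Bn := C3 / y * yo T φ y ^ (-(1 / 4 : ℝ))) (J + 1) _
        (bd C1 C2 θ ε y (yo T φ y) J) PJ hc1 hcC hr0 hvv0 (mul_nonneg he1p.le hgg0)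
        (by positivity) hBd (by positivity) η hη K K' hK hK'm hsub hvol hG hAvg
        (hW2' (yo T φ y) y hyo hy ε hε hε1)
        (by
          intro j hj
          by_cases hlt : j < J
          · simp only [hPJ, bd, if_pos hlt]
            exact hW2' (yo T φ y) y hyo hy (2 ^ (j + 1) * ε) (by positivity) (hpow (j + 1) hlt)
          · simp only [hPJ, bd, if_neg hlt]
            exact (hW1' (yo T φ y) y hyo hy).1)
        (hW3' (yo T φ y) y hyo hy)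
    _ ≤ _ := by
        apply ENNReal.ofReal_le_ofReal
        refine final_real J hC1 hC2 hC3 hCS hvv0 hε (Real.exp_pos _).le ?_ hT2 hθ hθ1 hy hδp rfl
          hyo1 hr0 hrδ hJ hJ'
        have h1 : Real.exp (-(Real.pi * cF * y)) = e1 ^ 2 := by
          rw [he1, ← Real.exp_nat_mul]
          congr 1
          push_cast
          ring
        rw [h1, mul_pow]
        gcongr

end Pool.Agent.A54.Th
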