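import Pool.Agent.Lib.MP_a54f13_nt.Th.Spec
import Pool.Agent.Lib.MP_a54f13_nt.Ef.Big

/-!
# MP_a54f13_nt, Th/Gud: the other forms have `w ≥ T^(-ε)`
-/

set_option autoImplicit false

namespace Pool.Agent.A54.Th

open MeasureTheory Filter Topology Set
open scoped UpperHalfPlane
open Pool.Agent.A54.Av (wf IsRho)
open Pool.Agent.A54.Ef (HMul SF)

noncomputable section

namespace GudM

theorem low (f : ℕ → ℝ) (hf : HMul f) (p : ℕ) (hp : p.Prime) (n : ℕ) (hn : 1 ≤ n) :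
    4 / 9 * (f p ^ 2 - if p ∣ n then 9 else 0) * f n ^ 2 ≤ f (p * n) ^ 2 := by
  by_cases h3 : 3 ≤ |f p|
  · have h := Ef.BigM.step f hf p hp h3 n hn
    have h4 : 0 ≤ (|f p| - 1) * |f n| := mul_nonneg (by linarith) (abs_nonneg _)
    have h5 : ((|f p| - 1) * |f n|) ^ 2 ≤ |f (p * n)| ^ 2 := pow_le_pow_left₀ h4 h 2
    rw [mul_pow, sq_abs, sq_abs] at h5
    have h6 : 4 / 9 * f p ^ 2 ≤ (|f p| - 1) ^ 2 := by
      rw [← sq_abs (f p)]
      nlinarith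
    have h7 : 4 / 9 * (f p ^ 2 - if p ∣ n then 9 else 0) ≤ 4 / 9 * f p ^ 2 := by
      split_ifs <;> linarith
    calc 4 / 9 * (f p ^ 2 - if p ∣ n then 9 else 0) * f n ^ 2
        ≤ 4 / 9 * f p ^ 2 * f n ^ 2 := mul_le_mul_of_nonneg_right h7 (sq_nonneg _)
      _ ≤ (|f p| - 1) ^ 2 * f n ^ 2 := mul_le_mul_of_nonneg_right h6 (sq_nonneg _)
      _ ≤ _ := h5
  · push Not at h3
    by_cases hd : p ∣ n
    · rw [if_pos hd]
      have h9 : f p ^ 2 < 9 := by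
        rw [← sq_abs]
        nlinarith [abs_nonneg (f p)]
      have h8 : 4 / 9 * (f p ^ 2 - 9) * f n ^ 2 ≤ 0 :=
        mul_nonpos_of_nonpos_of_nonneg (by linarith) (sq_nonneg _)
      exact h8.trans (sq_nonneg _)
    · have h0 := hf.rel p n hp hn
      rw [if_neg hd, add_zero] at h0
      rw [if_neg hd, ← h0, mul_pow]
      have := mul_nonneg (sq_nonneg (f p)) (sq_nonneg (f n))
      nlinarith

theorem mem_Pz {z : ℝ} {p : ℕ} (h : p ∈ Pz z) : p.Prime ∧ z < (p : ℝ) ∧ (p : ℝ) ≤ 4 * z := by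
  unfold Pz at h
  obtain ⟨h1, h2, h3⟩ := Finset.mem_filter.1 h
  obtain ⟨h4, h5⟩ := Finset.mem_Icc.1 h1
  exact ⟨h2, h3, (Nat.le_floor_iff' (by omega)).1 h5⟩

theorem dvd2 {z : ℝ} {a b N : ℕ} (ha : a ∈ Pz z) (hb : b ∈ Pz z) (hab : a ≠ b) (h1 : a ∣ N)
    (h2 : b ∣ N) : a * b ∣ N := by
  have hc : Nat.Coprime a b := (Nat.coprime_primes (mem_Pz ha).1 (mem_Pz hb).1).2 hab
  exact Nat.Coprime.mul_dvd_of_dvd_of_dvd hc h1 h2

theorem count1 (z : ℝ) (hz : 4 < z) (n : ℕ) (hn : 1 ≤ n) (hnz : (n : ℝ) ≤ 4 * z) :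
    ((Pz z).filter (fun p => p ∣ n)).card ≤ 1 := by
  refine Finset.card_le_one.2 fun a ha b hb => ?_
  by_contra hab
  obtain ⟨ha1, ha2⟩ := Finset.mem_filter.1 ha
  obtain ⟨hb1, hb2⟩ := Finset.mem_filter.1 hb
  have h := Nat.le_of_dvd hn (dvd2 ha1 hb1 hab ha2 hb2)
  have h' : (a : ℝ) * b ≤ n := by exact_mod_cast h
  have h3 := (mem_Pz ha1).2.1
  have h4 := (mem_Pz hb1).2.1
  have h5 : z * z ≤ (a : ℝ) * b := mul_le_mul h3.le h4.le (by linarith) (by linarith)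
  nlinarith

theorem count2 (z : ℝ) (hz : 16 ≤ z) (N : ℕ) (hn : 1 ≤ N) (hnz : (N : ℝ) ≤ 16 * z ^ 2) :
    ((Pz z).filter (fun p => p ∣ N)).card ≤ 2 := by
  by_contra hcon
  push Not at hcon
  obtain ⟨a, ha, b, hb, c, hc, hab, hac, hbc⟩ := Finset.two_lt_card.1 hcon
  obtain ⟨ha1, ha2⟩ := Finset.mem_filter.1 ha
  obtain ⟨hb1, hb2⟩ := Finset.mem_filter.1 hb
  obtain ⟨hc1, hc2⟩ := Finset.mem_filter.1 hc
  have h1 := dvd2 ha1 hb1 hab ha2 hb2
  have hco : Nat.Coprime (a * b) c :=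
    Nat.Coprime.mul_left ((Nat.coprime_primes (mem_Pz ha1).1 (mem_Pz hc1).1).2 hac)
      ((Nat.coprime_primes (mem_Pz hb1).1 (mem_Pz hc1).1).2 hbc)
  have h := Nat.le_of_dvd hn (Nat.Coprime.mul_dvd_of_dvd_of_dvd hco h1 hc2)
  have h' : (a : ℝ) * b * c ≤ N := by exact_mod_cast h
  have h3 := (mem_Pz ha1).2.1
  have h4 := (mem_Pz hb1).2.1
  have h6 := (mem_Pz hc1).2.1
  have h5 : z * z < (a : ℝ) * b := mul_lt_mul' h3.le h4 (by linarith) (by linarith)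
  have h7 : z * z * z < (a : ℝ) * b * c := mul_lt_mul'' h5 h6 (by positivity) (by linarith)
  nlinarith [mul_nonneg (sub_nonneg.2 hz) (sq_nonneg z)]

theorem inner (f : ℕ → ℝ) (z : ℝ) (hz : 0 ≤ z) (p : ℕ) (hp : p.Prime)
    (hpz : (p : ℝ) ≤ 4 * z) :
    ∑ n ∈ Finset.Icc 1 ⌊4 * z⌋₊, f (p * n) ^ 2 ≤
      ∑ N ∈ Finset.Icc 1 ⌊16 * z ^ 2⌋₊, if p ∣ N then f N ^ 2 else 0 := by
  rw [← Finset.sum_filter]
  have hinj : Set.InjOn (fun n : ℕ => p * n) (Finset.Icc 1 ⌊4 * z⌋₊ : Finset ℕ) := by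
    intro a _ b _ hab
    exact Nat.eq_of_mul_eq_mul_left hp.pos hab
  have h6 : ∑ n ∈ Finset.Icc 1 ⌊4 * z⌋₊, f (p * n) ^ 2 =
      ∑ m ∈ (Finset.Icc 1 ⌊4 * z⌋₊).image (fun n => p * n), f m ^ 2 :=
    (Finset.sum_image (f := fun m => f m ^ 2) hinj).symm
  rw [h6]
  refine Finset.sum_le_sum_of_subset_of_nonneg ?_ fun i _ _ => sq_nonneg _
  intro m hm
  obtain ⟨n, hn, rfl⟩ := Finset.mem_image.1 hm
  obtain ⟨h7, h8⟩ := Finset.mem_Icc.1 hn
  have h9 : (n : ℝ) ≤ 4 * z := (Nat.le_floor_iff' (by omega)).1 h8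
  refine Finset.mem_filter.2 ⟨Finset.mem_Icc.2 ⟨?_, ?_⟩, Dvd.intro n rfl⟩
  · show 1 ≤ p * n
    have := hp.pos
    nlinarith
  · refine Nat.le_floor ?_
    show ((p * n : ℕ) : ℝ) ≤ 16 * z ^ 2
    rw [Nat.cast_mul]
    have : (p : ℝ) * n ≤ (4 * z) * (4 * z) := mul_le_mul hpz h9 (Nat.cast_nonneg _) (by linarith)
    nlinarith

theorem up (f : ℕ → ℝ) (z : ℝ) (hz : 16 ≤ z) :
    ∑ p ∈ Pz z, ∑ n ∈ Finset.Icc 1 ⌊4 * z⌋₊, f (p * n) ^ 2 ≤ 2 * SF f (16 * z ^ 2) := by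
  calc ∑ p ∈ Pz z, ∑ n ∈ Finset.Icc 1 ⌊4 * z⌋₊, f (p * n) ^ 2
      ≤ ∑ p ∈ Pz z, ∑ N ∈ Finset.Icc 1 ⌊16 * z ^ 2⌋₊, (if p ∣ N then f N ^ 2 else 0) :=
        Finset.sum_le_sum fun p hp => inner f z (by linarith) p (mem_Pz hp).1 (mem_Pz hp).2.2
    _ = ∑ N ∈ Finset.Icc 1 ⌊16 * z ^ 2⌋₊, ∑ p ∈ Pz z, (if p ∣ N then f N ^ 2 else 0) :=
        Finset.sum_comm
    _ ≤ ∑ N ∈ Finset.Icc 1 ⌊16 * z ^ 2⌋₊, 2 * f N ^ 2 := by
        refine Finset.sum_le_sum fun N hN => ?_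
        obtain ⟨h7, h8⟩ := Finset.mem_Icc.1 hN
        have h9 : (N : ℝ) ≤ 16 * z ^ 2 := (Nat.le_floor_iff' (by omega)).1 h8
        rw [← Finset.sum_filter, Finset.sum_const, nsmul_eq_mul]
        have h10 := count2 z hz N h7 h9
        have h11 : (((Pz z).filter (fun p => p ∣ N)).card : ℝ) ≤ 2 := by exact_mod_cast h10
        exact mul_le_mul_of_nonneg_right h11 (sq_nonneg _)
    _ = 2 * SF f (16 * z ^ 2) := by
        unfold SF
        rw [Finset.mul_sum]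

theorem main (f : ℕ → ℝ) (hf : HMul f) (z : ℝ) (hz : 16 ≤ z) (hP : (36 : ℝ) ≤ (Pz z).card)
    (hs : ((Pz z).card : ℝ) / 2 < ∑ p ∈ Pz z, f p ^ 2) :
    ((Pz z).card : ℝ) ^ 2 / 36 ≤ SF f (16 * z ^ 2) := by
  have h1 : ∀ n ∈ Finset.Icc 1 ⌊4 * z⌋₊, ((Pz z).card : ℝ) / 9 * f n ^ 2 ≤
      ∑ p ∈ Pz z, f (p * n) ^ 2 := by
    intro n hn
    obtain ⟨h7, h8⟩ := Finset.mem_Icc.1 hn
    have h9 : (n : ℝ) ≤ 4 * z := (Nat.le_floor_iff' (by omega)).1 h8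
    have h2 : ∑ p ∈ Pz z, 4 / 9 * (f p ^ 2 - if p ∣ n then 9 else 0) * f n ^ 2 ≤
        ∑ p ∈ Pz z, f (p * n) ^ 2 :=
      Finset.sum_le_sum fun p hp => low f hf p (mem_Pz hp).1 n h7
    refine le_trans ?_ h2
    rw [← Finset.sum_mul, ← Finset.mul_sum, Finset.sum_sub_distrib, ← Finset.sum_filter,
      Finset.sum_const, nsmul_eq_mul]
    have h3 := count1 z (by linarith) n h7 h9
    have h4 : (((Pz z).filter (fun p => p ∣ n)).card : ℝ) ≤ 1 := by exact_mod_cast h3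
    refine mul_le_mul_of_nonneg_right ?_ (sq_nonneg _)
    linarith
  have h2 : ((Pz z).card : ℝ) / 9 * SF f (4 * z) ≤ 2 * SF f (16 * z ^ 2) := by
    refine le_trans ?_ (up f z hz)
    rw [Finset.sum_comm]
    unfold SF
    rw [Finset.mul_sum]
    exact Finset.sum_le_sum h1
  have h3 : ((Pz z).card : ℝ) / 2 ≤ SF f (4 * z) := by
    refine hs.le.trans ?_
    unfold SF
    refine Finset.sum_le_sum_of_subset_of_nonneg ?_ fun i _ _ => sq_nonneg _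
    unfold Pz
    exact Finset.filter_subset _ _
  nlinarith

theorem SF_mono (f : ℕ → ℝ) {a b : ℝ} (hab : a ≤ b) : SF f a ≤ SF f b := by
  unfold SF
  refine Finset.sum_le_sum_of_subset_of_nonneg ?_ fun i _ _ => sq_nonneg _
  exact Finset.Icc_subset_Icc_right (Nat.floor_mono hab)

end GudM

theorem stmtGud (hW : StmtWlo) (hC : StmtChP) : StmtGud := by
  intro ε hε
  obtain ⟨C, hC0, hW⟩ := hW
  set e : ℝ := min (ε / 4) (1 / 2) with he
  have he0 : 0 < e := lt_min (by linarith) (by norm_num)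
  have he1 : e ≤ 1 / 2 := min_le_right _ _
  have he2 : e ≤ ε / 4 := min_le_left _ _
  obtain ⟨z0, hz0, hC⟩ := hC e he0
  -- the threshold
  have hlim : Tendsto (fun T : ℝ => T ^ (ε - e)) atTop atTop :=
    tendsto_rpow_atTop (by linarith)
  obtain ⟨T1, hT1⟩ := (hlim.eventually_ge_atTop (36 * 1024 * (C + 1))).exists_forall_of_atTop
  refine ⟨max 200 (max T1 (max ((32 * z0) ^ 2) ((32 * 1296) ^ 2))), le_max_left _ _, ?_⟩
  intro T hT f t ρ l hf hρ hl ht1 ht2 hs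
  have hT200 : 200 ≤ T := (le_max_left _ _).trans hT
  have hTT1 : T1 ≤ T := (le_max_left _ _).trans ((le_max_right _ _).trans hT)
  have hTz0 : (32 * z0) ^ 2 ≤ T :=
    (le_max_left _ _).trans ((le_max_right _ _).trans ((le_max_right _ _).trans hT))
  have hTb : ((32 : ℝ) * 1296) ^ 2 ≤ T :=
    (le_max_right _ _).trans ((le_max_right _ _).trans ((le_max_right _ _).trans hT))
  have hT0 : 0 < T := by linarith
  set z : ℝ := √T / 32 with hz
  have hz1 : z0 ≤ z := by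
    rw [hz, le_div_iff₀ (by norm_num), mul_comm]
    exact Real.le_sqrt_of_sq_le hTz0
  have hz2 : 1296 ≤ z := by
    rw [hz, le_div_iff₀ (by norm_num), mul_comm]
    exact Real.le_sqrt_of_sq_le hTb
  have hzsq : z ^ 2 = T / 1024 := by
    rw [hz, div_pow, Real.sq_sqrt hT0.le]
    norm_num
  have hz00 : 0 < z := by linarith
  have hcard := hC z hz1
  have hc36 : (36 : ℝ) ≤ ((Pz z).card : ℝ) := by
    refine le_trans ?_ hcard
    have h1 : z ^ (1 / 2 : ℝ) ≤ z ^ (1 - e) :=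
      Real.rpow_le_rpow_of_exponent_le (by linarith) (by linarith)
    refine le_trans ?_ h1
    rw [← Real.sqrt_eq_rpow]
    exact Real.le_sqrt_of_sq_le (by linarith)
  have hmain := GudM.main l hl.mul z (by linarith) hc36 hs
  have hx : 16 * z ^ 2 ≤ t / (8 * Real.pi) := by
    rw [hzsq, le_div_iff₀ (by positivity)]
    have := Real.pi_lt_four
    nlinarith
  have hS := hW f t ρ l hf hρ hl (by linarith) (t / (8 * Real.pi)) le_rfl
  have hw0 : 0 ≤ wf t ρ := by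
    unfold wf
    exact div_nonneg (Real.cosh_pos _).le (by positivity)
  have hx2 : t / (8 * Real.pi) ≤ T := by
    rw [div_le_iff₀ (by positivity)]
    have := Real.pi_gt_three
    nlinarith
  have h5 : ((Pz z).card : ℝ) ^ 2 / 36 ≤ (C + 1) * T * wf t ρ := by
    refine hmain.trans ((GudM.SF_mono l hx).trans (hS.trans ?_))
    refine mul_le_mul_of_nonneg_right ?_ hw0
    have h6 : 0 ≤ t / (8 * Real.pi) := by
      have : 0 < t := by linarith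
      positivity
    exact mul_le_mul (by linarith) hx2 h6 (by linarith)
  have h7 : (z ^ (1 - e)) ^ 2 ≤ ((Pz z).card : ℝ) ^ 2 :=
    pow_le_pow_left₀ (Real.rpow_nonneg hz00.le _) hcard 2
  have h8 : (z ^ (1 - e)) ^ 2 = (T / 1024) ^ (1 - e) := by
    rw [← hzsq, ← Real.rpow_natCast, ← Real.rpow_natCast, ← Real.rpow_mul hz00.le,
      ← Real.rpow_mul hz00.le, mul_comm]
  have h9 : T ^ (1 - e) / 1024 ≤ (T / 1024) ^ (1 - e) := by
    rw [Real.div_rpow hT0.le (by norm_num)]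
    refine div_le_div_of_nonneg_left (Real.rpow_nonneg hT0.le _) (by positivity) ?_
    calc (1024 : ℝ) ^ (1 - e) ≤ 1024 ^ (1 : ℝ) :=
          Real.rpow_le_rpow_of_exponent_le (by norm_num) (by linarith)
      _ = 1024 := Real.rpow_one _
  have h10 : T ^ (1 - e) = T * T ^ (-e) := by
    rw [sub_eq_add_neg, Real.rpow_add hT0, Real.rpow_one]
  have h11 : T ^ (-e) ≤ 36 * 1024 * (C + 1) * wf t ρ := by
    have h12 : T * T ^ (-e) ≤ T * (36 * 1024 * (C + 1) * wf t ρ) := by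
      rw [← h10]
      nlinarith
    exact le_of_mul_le_mul_left h12 hT0
  have h13 := hT1 T hTT1
  have h14 : T ^ (-e) = T ^ (-ε) * T ^ (ε - e) := by
    rw [← Real.rpow_add hT0]
    congr 1
    ring
  have h15 : T ^ (-ε) * (36 * 1024 * (C + 1)) ≤ 36 * 1024 * (C + 1) * wf t ρ := by
    refine le_trans ?_ h11
    rw [h14]
    exact mul_le_mul_of_nonneg_left h13 (Real.rpow_nonneg hT0.le _)
  have h16 : (36 * 1024 * (C + 1)) * T ^ (-ε) ≤ (36 * 1024 * (C + 1)) * wf t ρ := by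
    rwa [mul_comm (36 * 1024 * (C + 1)) (T ^ (-ε))]
  exact le_of_mul_le_mul_left h16 (by linarith)

end

end Pool.Agent.A54.Th
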