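import Pool.Agent.Lib.MP_a54f13_nt.Th.Spec

/-!
# Hecke relations for all indices
-/

set_option autoImplicit false

namespace Pool.Agent.A54.Th

open Pool.Agent.A54.Ef (HMul)

noncomputable section

namespace HecM

lemma dvd_sq' {k n d : ℕ} (h1 : d ∣ k) (h2 : d ∣ n) : d ^ 2 ∣ k * n := by
  rw [sq]
  exact mul_dvd_mul h1 h2

lemma step (l : ℕ → ℝ) (h : HMul l) (p k n : ℕ) (hp : p.Prime) (hk : 1 ≤ k) (hn : 1 ≤ n)
    (h1 : l k * l n = ∑ d ∈ (Nat.gcd k n).divisors, l (k * n / d ^ 2))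
    (h2 : p ∣ k → l (k / p) * l n =
      ∑ d ∈ (Nat.gcd (k / p) n).divisors, l (k / p * n / d ^ 2)) :
    l (p * k) * l n = ∑ d ∈ (Nat.gcd (p * k) n).divisors, l (p * k * n / d ^ 2) := by
  have hp0 : 0 < p := hp.pos
  have m1 : ∀ d, d ∈ (Nat.gcd k n).divisors ↔ d ∣ k ∧ d ∣ n := by
    intro d
    rw [Nat.mem_divisors, Nat.dvd_gcd_iff]
    exact ⟨fun h => h.1, fun h => ⟨h, (Nat.gcd_pos_of_pos_left _ hk).ne'⟩⟩
  have m3 : ∀ d, d ∈ (Nat.gcd (p * k) n).divisors ↔ d ∣ p * k ∧ d ∣ n := by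
    intro d
    rw [Nat.mem_divisors, Nat.dvd_gcd_iff]
    exact ⟨fun h => h.1, fun h => ⟨h, (Nat.gcd_pos_of_pos_left _ (by positivity)).ne'⟩⟩
  set D1 := (Nat.gcd k n).divisors with hD1
  set D3 := (Nat.gcd (p * k) n).divisors with hD3
  have sub13 : D1 ⊆ D3 := fun d hd =>
    (m3 d).2 ⟨((m1 d).1 hd).1.mul_left p, ((m1 d).1 hd).2⟩
  -- the first sum
  have e1 : l p * (l k * l n) = ∑ d ∈ D1, l (p * k * n / d ^ 2) +
      ∑ d ∈ D1, (if p ∣ k * n / d ^ 2 then l (k * n / d ^ 2 / p) else 0) := by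
    rw [h1, Finset.mul_sum, ← Finset.sum_add_distrib]
    refine Finset.sum_congr rfl fun d hd => ?_
    obtain ⟨a, b⟩ := (m1 d).1 hd
    have hd2 := dvd_sq' a b
    have hpos : 1 ≤ k * n / d ^ 2 :=
      Nat.div_pos (Nat.le_of_dvd (by positivity) hd2) (pow_pos (Nat.pos_of_dvd_of_pos a hk) 2)
    rw [h.rel p _ hp hpos, mul_assoc p k n, Nat.mul_div_assoc _ hd2]
  -- the second sum
  have e2 : (if p ∣ k then l (k / p) else 0) * l n =
      ∑ d ∈ D1.filter (fun d => p * d ∣ k), l (k * n / d ^ 2 / p) := by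
    split_ifs with hpk
    · rw [h2 hpk]
      obtain ⟨j, hj⟩ := hpk
      have hj0 : 0 < j := by
        rcases Nat.eq_zero_or_pos j with h | h
        · rw [h] at hj; omega
        · exact h
      have hkp : k / p = j := by rw [hj, Nat.mul_div_cancel_left j hp0]
      rw [hkp]
      refine Finset.sum_congr ?_ ?_
      · ext d
        rw [Finset.mem_filter, m1, Nat.mem_divisors, Nat.dvd_gcd_iff, hj,
          Nat.mul_dvd_mul_iff_left hp0]
        constructor
        · rintro ⟨⟨a, b⟩, -⟩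
          exact ⟨⟨a.mul_left p, b⟩, a⟩
        · rintro ⟨⟨-, b⟩, a⟩
          exact ⟨⟨a, b⟩, (Nat.gcd_pos_of_pos_left _ hj0).ne'⟩
      · intro d hd
        rw [Finset.mem_filter, m1, hj, Nat.mul_dvd_mul_iff_left hp0] at hd
        rw [hj, mul_assoc, Nat.mul_div_assoc _ (dvd_sq' hd.2 hd.1.2), Nat.mul_div_cancel_left _ hp0]
    · rw [zero_mul, Finset.filter_false_of_mem, Finset.sum_empty]
      intro d _ hc
      exact hpk ((dvd_mul_right p d).trans hc)
  -- comparison
  have subBA : D1.filter (fun d => p * d ∣ k) ⊆ D1.filter (fun d => p ∣ k * n / d ^ 2) := by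
    intro d hd
    rw [Finset.mem_filter, m1] at hd
    rw [Finset.mem_filter, m1]
    refine ⟨hd.1, ?_⟩
    obtain ⟨j, hj⟩ := hd.2
    obtain ⟨i, hi⟩ := hd.1.2
    have hd0 : 0 < d := Nat.pos_of_dvd_of_pos hd.1.1 hk
    have : k * n / d ^ 2 = p * (j * i) := by
      rw [hj, hi]
      exact Nat.div_eq_of_eq_mul_left (pow_pos hd0 2) (by ring)
    rw [this]
    exact dvd_mul_right _ _
  have e3 : ∑ d ∈ D1.filter (fun d => p ∣ k * n / d ^ 2) \ D1.filter (fun d => p * d ∣ k),
      l (k * n / d ^ 2 / p) = ∑ d ∈ D3 \ D1, l (p * k * n / d ^ 2) := by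
    refine Finset.sum_bij (fun d _ => p * d) ?_ ?_ ?_ ?_
    · intro d hd
      rw [Finset.mem_sdiff, Finset.mem_filter, Finset.mem_filter, m1] at hd
      obtain ⟨⟨⟨a, b⟩, c⟩, e⟩ := hd
      have e' : ¬ p * d ∣ k := fun h => e ⟨⟨a, b⟩, h⟩
      rw [Finset.mem_sdiff, m3, m1]
      have hd0 : 0 < d := Nat.pos_of_dvd_of_pos a hk
      refine ⟨⟨mul_dvd_mul_left p a, ?_⟩, fun h => e' h.1⟩
      obtain ⟨j, hj⟩ := a
      obtain ⟨i, hi⟩ := b
      have h3 : k * n / d ^ 2 = j * i := by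
        rw [hj, hi]
        exact Nat.div_eq_of_eq_mul_left (pow_pos hd0 2) (by ring)
      rw [h3] at c
      rcases hp.dvd_mul.1 c with h4 | h4
      · exfalso
        apply e'
        rw [hj, mul_comm p d]
        exact mul_dvd_mul_left d h4
      · rw [hi, mul_comm p d]
        exact mul_dvd_mul_left d h4
    · intro a _ b _ hab
      exact Nat.eq_of_mul_eq_mul_left hp0 hab
    · intro d' hd'
      rw [Finset.mem_sdiff, m3, m1] at hd'
      obtain ⟨⟨a, b⟩, c⟩ := hd'
      have c' : ¬ d' ∣ k := fun h => c ⟨h, b⟩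
      have hpd : p ∣ d' := by
        by_contra hc
        exact c' (Nat.Coprime.dvd_of_dvd_mul_left ((hp.coprime_iff_not_dvd.2 hc).symm) a)
      obtain ⟨d, hd⟩ := hpd
      have hdk : d ∣ k := by
        rw [hd, Nat.mul_dvd_mul_iff_left hp0] at a
        exact a
      have hd0 : 0 < d := Nat.pos_of_dvd_of_pos hdk hk
      have hdn : d ∣ n := (Dvd.intro_left p hd.symm).trans b
      refine ⟨d, ?_, hd.symm⟩
      rw [Finset.mem_sdiff, Finset.mem_filter, Finset.mem_filter, m1]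
      refine ⟨⟨⟨hdk, hdn⟩, ?_⟩, fun h => c' (hd ▸ h.2)⟩
      obtain ⟨j, hj⟩ := hdk
      rw [hd] at b
      obtain ⟨i, hi⟩ := b
      have h3 : k * n / d ^ 2 = p * (j * i) := by
        rw [hj, hi]
        exact Nat.div_eq_of_eq_mul_left (pow_pos hd0 2) (by ring)
      rw [h3]
      exact dvd_mul_right _ _
    · intro d hd
      rw [Finset.mem_sdiff, Finset.mem_filter, m1] at hd
      obtain ⟨⟨⟨a, b⟩, c⟩, -⟩ := hd
      have hd0 : 0 < d := Nat.pos_of_dvd_of_pos a hk
      have hd2 := dvd_sq' a b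
      obtain ⟨q, hq⟩ := hd2
      have h3 : k * n / d ^ 2 = q := by
        rw [hq, Nat.mul_div_cancel_left _ (pow_pos hd0 2)]
      rw [h3] at c
      obtain ⟨r, hr⟩ := c
      have h4 : p * k * n / (p * d) ^ 2 = r := by
        rw [mul_assoc, hq, hr]
        exact Nat.div_eq_of_eq_mul_left (by positivity) (by ring)
      rw [h3, h4, hr, Nat.mul_div_cancel_left _ hp0]
  have e4 := Finset.sum_sdiff (f := fun d => l (k * n / d ^ 2 / p)) subBA
  have e5 := Finset.sum_sdiff (f := fun d => l (p * k * n / d ^ 2)) sub13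
  have e6 := h.rel p k hp hk
  rw [← Finset.sum_filter] at e1
  have e7 : l (p * k) * l n = l p * (l k * l n) - (if p ∣ k then l (k / p) else 0) * l n := by
    have : l (p * k) = l p * l k - (if p ∣ k then l (k / p) else 0) := by linarith
    rw [this]
    ring
  rw [e7, e1, e2, ← e5, ← e4, e3]
  ring

end HecM

open HecM in
/-- **Hec** -/
theorem stmtHec : StmtHec := by
  intro l h m
  induction m using Nat.strong_induction_on with
  | _ m ih =>
    intro n hm hn
    rcases hm.eq_or_lt with h1 | h1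
    · rw [← h1, h.one]
      simp
    · obtain ⟨p, hp, k, hk⟩ := Nat.exists_prime_and_dvd (by omega : m ≠ 1)
      have hk0 : 1 ≤ k := by
        rcases Nat.eq_zero_or_pos k with h2 | h2
        · rw [h2] at hk; omega
        · exact h2
      have hkm : k < m := by
        rw [hk]
        exact lt_mul_of_one_lt_left hk0 hp.one_lt
      have hs := step l h p k n hp hk0 hn (ih k hkm n hk0 hn) (fun hpk => by
        have h3 : k / p ≤ k := Nat.div_le_self k p
        have h4 : 1 ≤ k / p := Nat.div_pos (Nat.le_of_dvd hk0 hpk) hp.pos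
        exact ih (k / p) (h3.trans_lt hkm) n h4 hn)
      rw [hk]
      exact hs

end

end Pool.Agent.A54.Th
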