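import Pool.Agent.Lib.MP_a54f13_nt.Th.Spec
import Pool.Agent.Lib.MP_a54f13_nt.Ef.HkR

/-! The normalised Hecke eigenvalues. -/

set_option autoImplicit false

namespace Pool.Agent.A54.Th

open MeasureTheory Filter Topology Set
open scoped ContDiff ComplexConjugate UpperHalfPlane MatrixGroups ENNReal
open Pool.Agent.A54.Half (H0)
open Pool.Agent.A54.Av (ee an KB IsHk IsRho)

noncomputable section

theorem stmtHkE (hF : Av.StmtFo1) (hR : Av.StmtRho) (hK : Av.StmtKBf) : StmtHkE := by
  intro f t hf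
  obtain ⟨y1, hy1, hne⟩ := Ef.HkRM.nz hR hK hf
  have hex : ∀ m : ℕ, ∃ c : ℝ, 1 ≤ m → IsHk f m c := by
    intro m
    by_cases hm : 1 ≤ m
    · obtain ⟨c, hc⟩ := hf.hecke m hm
      exact ⟨c, fun _ => hc⟩
    · exact ⟨0, fun h => absurd h hm⟩
  choose c hc using hex
  have h5 := (hF f t hf).2.2.2.2
  have hco : ∀ n : ℕ, 1 ≤ n → ∀ y : ℝ, 0 < y →
      an f n y = ((c n / n : ℝ) : ℂ) * an f 1 (n * y) :=
    fun n hn y hy => h5 n (c n) hn (hc n hn) y hy
  -- the relation for the eigenvalues
  have hrel : ∀ p n : ℕ, p.Prime → 1 ≤ n →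
      c p * c n = (if p ∣ n then p * c (n / p) else 0) + c (p * n) := by
    intro p n hp hn
    have hp0 := hp.pos
    have hnR : (0 : ℝ) < n := by exact_mod_cast hn
    have hpR : (0 : ℝ) < p := by exact_mod_cast hp0
    have hY : 0 < y1 / n := by positivity
    have h := Ef.HkRM.coef hf hp (hc p hp0) hY (n : ℤ)
    have e1 : an f (n : ℤ) (y1 / n) = ((c n / n : ℝ) : ℂ) * an f 1 y1 := by
      rw [hco n hn _ hY]
      congr 2
      field_simp
    have e2 : an f ((p : ℤ) * n) (y1 / n / p) = ((c (p * n) / (p * n : ℕ) : ℝ) : ℂ) * an f 1 y1 := by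
      have hpn : 1 ≤ p * n := Nat.mul_pos hp0 hn
      have := hco (p * n) hpn (y1 / n / p) (by positivity)
      push_cast at this
      push_cast
      rw [this]
      congr 2
      field_simp
    have e3 : (if (p : ℤ) ∣ (n : ℤ) then an f ((n : ℤ) / p) (p * (y1 / n)) else 0) =
        (((if p ∣ n then p * c (n / p) / n else 0 : ℝ)) : ℂ) * an f 1 y1 := by
      by_cases hd : p ∣ n
      · have hd' : (p : ℤ) ∣ (n : ℤ) := by exact_mod_cast hd
        rw [if_pos hd', if_pos hd]
        obtain ⟨k, rfl⟩ := hd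
        have hk : 1 ≤ k := by
          rcases Nat.eq_zero_or_pos k with h0 | h0
          · rw [h0, mul_zero] at hn; omega
          · exact h0
        have hkR : (0 : ℝ) < k := by exact_mod_cast hk
        rw [Nat.mul_div_cancel_left _ hp0]
        have e4 : (((p * k : ℕ) : ℤ) / (p : ℤ)) = (k : ℤ) := by
          push_cast
          exact Int.mul_ediv_cancel_left _ (by positivity)
        rw [e4, hco k hk _ (by positivity)]
        have e5 : (k : ℝ) * (p * (y1 / ((p * k : ℕ) : ℝ))) = y1 := by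
          push_cast
          field_simp
        rw [e5]
        congr 2
        push_cast
        field_simp
      · have hd' : ¬(p : ℤ) ∣ (n : ℤ) := by
          intro h0
          exact hd (by exact_mod_cast h0)
        rw [if_neg hd', if_neg hd]
        simp
    rw [e1, e2, e3] at h
    have h6 : (((c p * (c n / n) : ℝ)) : ℂ) * an f 1 y1 =
        ((((if p ∣ n then p * c (n / p) / n else 0) + p * (c (p * n) / (p * n : ℕ)) : ℝ)) : ℂ) *
          an f 1 y1 := by
      push_cast at h ⊢
      linear_combination h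
    have h7 := mul_right_cancel₀ hne h6
    have h8 : c p * (c n / n) = (if p ∣ n then p * c (n / p) / n else 0) +
        p * (c (p * n) / (p * n : ℕ)) := by exact_mod_cast h7
    by_cases hd : p ∣ n
    · rw [if_pos hd] at h8 ⊢
      push_cast at h8
      field_simp at h8
      linarith
    · rw [if_neg hd] at h8 ⊢
      push_cast at h8
      field_simp at h8
      linarith
  have hone : c 1 = 1 := by
    have h := hco 1 le_rfl y1 hy1
    have e : ((1 : ℕ) : ℝ) * y1 = y1 := by simp
    rw [e] at h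
    have h6 : ((1 : ℂ)) * an f 1 y1 = ((c 1 / (1 : ℕ) : ℝ) : ℂ) * an f 1 y1 := by
      rw [one_mul]
      exact_mod_cast h
    have h7 := mul_right_cancel₀ hne h6
    have h8 : (1 : ℝ) = c 1 / (1 : ℕ) := by exact_mod_cast h7
    simpa using h8.symm
  refine ⟨fun n => c n / √n, ⟨by simp [hone], ?_⟩, ?_⟩
  · intro p n hp hn
    have hp0 := hp.pos
    have hnR : (0 : ℝ) < n := by exact_mod_cast hn
    have hpR : (0 : ℝ) < p := by exact_mod_cast hp0
    have hr := hrel p n hp hn
    have hsp : √(p : ℝ) * √(p : ℝ) = p := Real.mul_self_sqrt hpR.le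
    have hsp0 : 0 < √(p : ℝ) := Real.sqrt_pos.2 hpR
    have hsn0 : 0 < √(n : ℝ) := Real.sqrt_pos.2 hnR
    have hspn : √(((p * n : ℕ)) : ℝ) = √(p : ℝ) * √(n : ℝ) := by
      push_cast
      exact Real.sqrt_mul hpR.le _
    show c p / √(p : ℝ) * (c n / √(n : ℝ)) = c (p * n) / √(((p * n : ℕ)) : ℝ) +
      if p ∣ n then c (n / p) / √(((n / p : ℕ)) : ℝ) else 0
    rw [hspn]
    by_cases hd : p ∣ n
    · rw [if_pos hd] at hr ⊢
      obtain ⟨k, rfl⟩ := hd
      have hk : 1 ≤ k := by
        rcases Nat.eq_zero_or_pos k with h0 | h0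
        · rw [h0, mul_zero] at hn; omega
        · exact h0
      have hkR : (0 : ℝ) < k := by exact_mod_cast hk
      have hsk0 : 0 < √(k : ℝ) := Real.sqrt_pos.2 hkR
      rw [Nat.mul_div_cancel_left _ hp0] at hr ⊢
      have hspk : √(((p * k : ℕ)) : ℝ) = √(p : ℝ) * √(k : ℝ) := by
        push_cast
        exact Real.sqrt_mul hpR.le _
      rw [hspk]
      have e1 : c p / √(p : ℝ) * (c (p * k) / (√(p : ℝ) * √(k : ℝ))) =
          (c p * c (p * k)) / (p * √(k : ℝ)) := by
        rw [div_mul_div_comm, ← mul_assoc, hsp]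
      have e2 : √(p : ℝ) * (√(p : ℝ) * √(k : ℝ)) = p * √(k : ℝ) := by
        rw [← mul_assoc, hsp]
      rw [e1, e2, hr]
      field_simp
      ring
    · rw [if_neg hd] at hr ⊢
      rw [add_zero, div_mul_div_comm, hr, zero_add]
  · intro n hn y hy
    have hnR : (0 : ℝ) < n := by exact_mod_cast hn
    have hsn : √(n : ℝ) * √(n : ℝ) = n := Real.mul_self_sqrt hnR.le
    rw [hco n hn y hy]
    congr 2
    show c n / n = c n / √(n : ℝ) / √(n : ℝ)
    rw [div_div, hsn]

end

end Pool.Agent.A54.Th
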