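import Pool.Agent.Lib.MP_a54f13_nt.Th.Spec
import Pool.Agent.Lib.MP_a54f13_nt.Av.I2

/-!
# Module J2 of the package `Th`: a dyadic range of `c`
-/

set_option autoImplicit false

namespace Pool.Agent.A54.Th.J2M

/-- the last estimate -/
theorem pow_bound (D h b θ s : ℝ) (hD : 1 ≤ D) (hh : 1 ≤ h) (hb : 1 ≤ b) (hθ : 0 < θ)
    (hθ1 : θ ≤ 1 / 2) (hs : 0 ≤ s) (hsb : s ≤ D * b) :
    h * s * (s / h) ^ θ ≤ D ^ 2 * (b ^ (1 + θ) * h ^ (1 - θ)) := by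
  have hh0 : 0 < h := by linarith
  have hb0 : 0 < b := by linarith
  have hD0 : 0 < D := by linarith
  have h1 : (s / h) ^ θ ≤ (D * b / h) ^ θ := by
    apply Real.rpow_le_rpow (div_nonneg hs hh0.le) _ hθ.le
    exact div_le_div_of_nonneg_right hsb hh0.le
  have h2 : (D * b / h) ^ θ = D ^ θ * b ^ θ * h ^ (-θ) := by
    rw [Real.div_rpow (by positivity) hh0.le, Real.mul_rpow hD0.le hb0.le, Real.rpow_neg hh0.le,
      div_eq_mul_inv]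
  have h3 : D ^ θ ≤ D := by
    calc D ^ θ ≤ D ^ (1 : ℝ) := Real.rpow_le_rpow_of_exponent_le hD (by linarith)
      _ = D := Real.rpow_one D
  have e1 : b ^ (1 + θ) = b * b ^ θ := by rw [Real.rpow_add hb0, Real.rpow_one]
  have e2 : h ^ (1 - θ) = h * h ^ (-θ) := by
    rw [sub_eq_add_neg, Real.rpow_add hh0, Real.rpow_one]
  have hbθ : 0 ≤ b ^ θ := Real.rpow_nonneg hb0.le _
  have hhθ : 0 ≤ h ^ (-θ) := Real.rpow_nonneg hh0.le _
  calc h * s * (s / h) ^ θ ≤ h * (D * b) * (D ^ θ * b ^ θ * h ^ (-θ)) := by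
        rw [← h2]
        have := Real.rpow_nonneg (div_nonneg hs hh0.le) θ
        gcongr
    _ ≤ h * (D * b) * (D * b ^ θ * h ^ (-θ)) := by gcongr
    _ = D ^ 2 * (b ^ (1 + θ) * h ^ (1 - θ)) := by rw [e1, e2]; ring

end Pool.Agent.A54.Th.J2M

namespace Pool.Agent.A54.Th

open MeasureTheory Filter Topology Set
open scoped ContDiff ComplexConjugate UpperHalfPlane MatrixGroups ENNReal
open Pool.Agent.A54.Half (H0 qq ff hh)
open Pool.Agent.A54.Av (Mat VV Vd msq Cnd cnt StmtI2a StmtGe StmtAr StmtQF)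
open Pool.Agent.A54.Av.I2M

theorem stmtJ2 (hPC : StmtPC2) (hI2a : StmtI2a) (hGe : StmtGe) (hAr : StmtAr) (hQF : StmtQF) :
    StmtJ2 := by
  intro θ hθ hθ1 K hK hKH
  obtain ⟨C0, M0, hC0, hPC⟩ := hPC θ hθ hθ1
  obtain ⟨A1, hA1, hI2a⟩ := hI2a K hK hKH
  obtain ⟨C1, hC1, hGe⟩ := hGe K hK hKH
  obtain ⟨C2, hC2, hAr⟩ := hAr K hK hKH C1 (by linarith)
  refine ⟨A1, 16 * C0 * (2 * A1) ^ M0 * (3 + 2 * C1) ^ 2 * C2, M0, hA1, by positivity, ?_⟩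
  intro β r H hβ hr hH
  have hH1 : (1 : ℝ) ≤ H := by
    have : 0 ≤ A1 * r := by positivity
    nlinarith
  have hH1' : 1 ≤ H := by exact_mod_cast hH1
  set B : ℕ := ⌈2 * β⌉₊ with hB
  set ρ : ℕ := ⌈A1 * (1 + r)⌉₊ with hρ
  have hB1 : 2 * β ≤ B := Nat.le_ceil _
  have hρ1 : A1 * (1 + r) ≤ ρ := Nat.le_ceil _
  have hρ2 : (ρ : ℝ) ≤ 2 * A1 * (1 + r) := by
    have h1 : (ρ : ℝ) < A1 * (1 + r) + 1 := Nat.ceil_lt_add_one (by positivity)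
    nlinarith
  have hρ3 : 1 ≤ ρ := by
    have : (1 : ℝ) ≤ ρ := by nlinarith [mul_nonneg (by linarith : (0:ℝ) ≤ A1) hr.le]
    exact_mod_cast this
  have hcard : ∀ s : Finset (ℕ × (Mat × Mat)), (∀ x ∈ s, Good K β r H x) → (s.card : ℝ) ≤
      C0 * (ρ : ℝ) ^ M0 * ((H : ℝ) ^ 3 * (B + H) * (((B : ℝ) + H) / H) ^ θ) := by
    intro s hs
    classical
    have hinj : Set.InjOn (fun x : ℕ × (Mat × Mat) => toO x.2) s := by
      intro x hx y hy hxy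
      have h2 := toO_inj _ _ hxy
      obtain ⟨z, _, hz1, _⟩ := hs x hx
      obtain ⟨w, _, hw1, _⟩ := hs y hy
      have h3 := hz1.1.2.1
      have h4 := hw1.1.2.1
      rw [h2, h4] at h3
      refine Prod.ext ?_ h2
      have : (y.1 : ℤ) = x.1 := by linarith
      exact_mod_cast this.symm
    rw [← Finset.card_image_of_injOn hinj]
    refine hPC H B ρ hH1' hρ3 _ ?_
    intro o ho
    rw [Finset.mem_image] at ho
    obtain ⟨x, hx, rfl⟩ := ho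
    obtain ⟨z, hzK, hz1, hz2⟩ := hs x hx
    exact hI2a β r H B ρ z (x.1 + 1) x.2.1 x.2.2 hβ hr hH hρ1 hB1 hzK hz1.1 hz2.1 hz1.2.1
      hz1.2.2.1 hz2.2.1 hz2.2.2.1 hz1.2.2.2 hz2.2.2.2
  have hvol : ∀ x, Good K β r H x → volume {z : ℂ | z ∈ K ∧ Pp β r H x.1 z x.2.1} ≤
      ENNReal.ofReal (C2 * r ^ 2 / (H : ℝ) ^ 2) := by
    intro x hx
    obtain ⟨w, hwK, hw1, _⟩ := hx
    have hc : (H : ℝ) ≤ ((x.2.1 1 0 : ℤ) : ℝ) := by exact_mod_cast hw1.2.1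
    have hsub : {z : ℂ | z ∈ K ∧ Pp β r H x.1 z x.2.1} ⊆
        {z : ℂ | z ∈ K ∧ |((x.2.1 0 0 - x.2.1 1 1 : ℤ) : ℝ) -
          2 * ((x.2.1 1 0 : ℤ) : ℝ) * z.re| ≤ 2 * r ∧
          |-((x.2.1 0 1 : ℤ) : ℝ) - ((x.2.1 1 0 : ℤ) : ℝ) * ‖z‖ ^ 2| ≤ C1 * r} := by
      rintro z ⟨hzK, hz⟩
      have h := hGe z hzK x.2.1 r hr.le hz.1.2.2.2
      exact ⟨hzK, h.1, h.2.1⟩
    refine le_trans (measure_mono hsub) (le_trans (hAr _ _ _ r ?_ hr.le) ?_)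
    · rw [abs_of_nonneg (by linarith)]; linarith
    · apply ENNReal.ofReal_le_ofReal
      gcongr
  by_cases hg : ∃ x, Good K β r H x
  · obtain ⟨x, z, hzK, hz1, _⟩ := hg
    have hV := (hQF x.2.1 z z (hKH hzK) (hKH hzK)).1
    have hdet : (((x.2.1).det : ℤ) : ℝ) = (x.1 : ℝ) + 1 := by
      have := hz1.1.2.1
      rw [this]; push_cast; ring
    have h3 := hz1.1.2.2.1
    rw [hdet] at h3
    have hV' : 0 ≤ Vd x.2.1 z := hV
    have hx0 : (0 : ℝ) ≤ (x.1 : ℝ) := Nat.cast_nonneg _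
    have hβ1 : 1 ≤ β := by nlinarith
    have hms := (hGe z hzK x.2.1 r hr.le hz1.1.2.2.2).2.2.1
    rw [hdet] at hms
    have hc : (H : ℝ) ≤ ((x.2.1 1 0 : ℤ) : ℝ) := by exact_mod_cast hz1.2.1
    have hHs : (H : ℝ) ^ 2 ≤ 2 * C1 * β ^ 2 := by
      have h5 : (H : ℝ) ^ 2 ≤ msq x.2.1 := by
        unfold msq
        nlinarith [sq_nonneg ((x.2.1 0 0 : ℤ) : ℝ), sq_nonneg ((x.2.1 0 1 : ℤ) : ℝ),
          sq_nonneg ((x.2.1 1 1 : ℤ) : ℝ)]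
      have h6 : C1 * ((x.1 : ℝ) + 1 + 2 * Vd x.2.1 z) ≤ C1 * (2 * β ^ 2) := by
        apply mul_le_mul_of_nonneg_left _ (by linarith)
        linarith
      linarith
    have hHb : (H : ℝ) ≤ 2 * C1 * β := by
      refine abs_le_of_sq_le_sq' ?_ (by positivity) |>.2
      nlinarith [mul_nonneg (by linarith : (0:ℝ) ≤ C1 - 1) (sq_nonneg β), sq_nonneg β]
    have hB2 : (B : ℝ) ≤ 3 * β := by
      have h1 : (B : ℝ) < 2 * β + 1 := Nat.ceil_lt_add_one (by positivity)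
      linarith
    have hBH : (B : ℝ) + H ≤ (3 + 2 * C1) * β := by nlinarith
    refine le_trans (main_bound K hK.measurableSet β r H _ _ hcard hvol) ?_
    have e16 : (16 : ℝ≥0∞) = ENNReal.ofReal 16 := by
      rw [ENNReal.ofReal_ofNat]
    rw [e16, ← ENNReal.ofReal_mul (by positivity), ← ENNReal.ofReal_mul (by norm_num)]
    apply ENNReal.ofReal_le_ofReal
    rw [mul_comm (16 : ℝ)]
    have hs := J2M.pow_bound (3 + 2 * C1) H β θ ((B : ℝ) + H) (by linarith) hH1 hβ1 hθ hθ1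
      (by positivity) hBH
    have hp : (ρ : ℝ) ^ M0 ≤ (2 * A1) ^ M0 * (1 + r) ^ M0 := by
      rw [← mul_pow]
      gcongr
    have hq0 : 0 ≤ (((B : ℝ) + H) / H) ^ θ := Real.rpow_nonneg (by positivity) _
    calc C0 * (ρ : ℝ) ^ M0 * ((H : ℝ) ^ 3 * (B + H) * (((B : ℝ) + H) / H) ^ θ) *
          (C2 * r ^ 2 / (H : ℝ) ^ 2) * 16
        = 16 * C0 * (ρ : ℝ) ^ M0 * C2 * r ^ 2 * ((H : ℝ) * (B + H) * (((B : ℝ) + H) / H) ^ θ) := by
          have : (H : ℝ) ≠ 0 := by linarith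
          field_simp
      _ ≤ 16 * C0 * ((2 * A1) ^ M0 * (1 + r) ^ M0) * C2 * r ^ 2 *
          ((3 + 2 * C1) ^ 2 * (β ^ (1 + θ) * (H : ℝ) ^ (1 - θ))) := by
          gcongr
      _ = 16 * C0 * (2 * A1) ^ M0 * (3 + 2 * C1) ^ 2 * C2 * r ^ 2 * (1 + r) ^ M0 *
          (β ^ (1 + θ) * (H : ℝ) ^ (1 - θ)) := by ring
  · refine le_trans (main_bound K hK.measurableSet β r H 0 0 ?_ ?_) ?_
    · intro s hs
      rcases s.eq_empty_or_nonempty with h | ⟨x, hx⟩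
      · simp [h]
      · exact absurd ⟨x, hs x hx⟩ hg
    · intro x hx
      exact absurd ⟨x, hx⟩ hg
    · simp

end Pool.Agent.A54.Th
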