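import Pool.Agent.Lib.MP_a54f13_nt.Th.Spec

/-!
# Package `Th`, module `JJ`: the count (dyadic summation)
-/

set_option autoImplicit false

namespace Pool.Agent.A54.Th.JJM

open MeasureTheory Filter Topology Set
open scoped ContDiff ComplexConjugate UpperHalfPlane MatrixGroups ENNReal NNReal
open Pool.Agent.A54.Half (H0 qq ff hh)
open Pool.Agent.A54.Av (Mat VV Vd NonSc cnt Cnd)

private lemma sq_add' (a b : ℝ≥0∞) :
    (a + b) ^ 2 ≤ 5 * a ^ 2 + ENNReal.ofReal (5 / 4) * b ^ 2 := by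
  rcases eq_or_ne a ⊤ with rfl | ha
  · simp
  rcases eq_or_ne b ⊤ with rfl | hb
  · have h : ENNReal.ofReal (5 / 4) * (⊤ : ℝ≥0∞) ^ 2 = ⊤ := by
      rw [ENNReal.top_pow (by norm_num), ENNReal.mul_top]
      simp
    rw [h]; simp
  have h0a := ENNReal.ofReal_toReal ha
  have h0b := ENNReal.ofReal_toReal hb
  have ha0 := ENNReal.toReal_nonneg (a := a)
  have hb0 := ENNReal.toReal_nonneg (a := b)
  rw [← h0a, ← h0b]
  generalize a.toReal = x at *
  generalize b.toReal = y at *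
  have h5 : (5 : ℝ≥0∞) = ENNReal.ofReal 5 := by
    rw [ENNReal.ofReal_ofNat]
  rw [h5, ← ENNReal.ofReal_add ha0 hb0, ← ENNReal.ofReal_pow (by positivity),
    ← ENNReal.ofReal_pow (by positivity), ← ENNReal.ofReal_pow (by positivity),
    ← ENNReal.ofReal_mul (by positivity), ← ENNReal.ofReal_mul (by positivity),
    ← ENNReal.ofReal_add (by positivity) (by positivity)]
  apply ENNReal.ofReal_le_ofReal
  nlinarith [sq_nonneg (2 * x - y / 2)]

private lemma sum_sq : ∀ (m : ℕ) (y : ℕ → ℝ≥0∞),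
    (∑ k ∈ Finset.range m, y k) ^ 2 ≤
      5 * ∑ k ∈ Finset.range m, ENNReal.ofReal ((5 / 4) ^ k) * y k ^ 2
  | 0, y => by simp
  | m + 1, y => by
    rw [Finset.sum_range_succ', Finset.sum_range_succ', add_comm]
    refine (sq_add' _ _).trans ?_
    have ih := sum_sq m (fun k => y (k + 1))
    have h1 : ENNReal.ofReal (5 / 4) * (∑ k ∈ Finset.range m, y (k + 1)) ^ 2 ≤
        5 * ∑ k ∈ Finset.range m, ENNReal.ofReal ((5 / 4) ^ (k + 1)) * y (k + 1) ^ 2 := by
      calc ENNReal.ofReal (5 / 4) * (∑ k ∈ Finset.range m, y (k + 1)) ^ 2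
          ≤ ENNReal.ofReal (5 / 4) *
            (5 * ∑ k ∈ Finset.range m, ENNReal.ofReal ((5 / 4) ^ k) * y (k + 1) ^ 2) := by
            gcongr
        _ = 5 * ∑ k ∈ Finset.range m, ENNReal.ofReal ((5 / 4) ^ (k + 1)) * y (k + 1) ^ 2 := by
            rw [mul_left_comm, Finset.mul_sum]
            congr 1
            refine Finset.sum_congr rfl fun k _ => ?_
            rw [← mul_assoc, ← ENNReal.ofReal_mul (by norm_num), pow_succ' (5 / 4 : ℝ) k]
    calc 5 * y 0 ^ 2 + ENNReal.ofReal (5 / 4) * (∑ k ∈ Finset.range m, y (k + 1)) ^ 2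
        ≤ 5 * y 0 ^ 2 +
          5 * ∑ k ∈ Finset.range m, ENNReal.ofReal ((5 / 4) ^ (k + 1)) * y (k + 1) ^ 2 := by
          gcongr
      _ = _ := by
          rw [← mul_add]
          congr 1
          rw [add_comm]
          simp

/-- the functional -/
private noncomputable def J (K : Set ℂ) (f : ℕ → ℂ → ℝ≥0∞) : ℝ≥0∞ := ∫⁻ z in K, ∑' n, f n z

private lemma J_eq (K : Set ℂ) (f : ℕ → ℂ → ℝ≥0∞) (hf : ∀ n, Measurable (f n)) :
    J K f = ∑' n, ∫⁻ z in K, f n z :=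
  lintegral_tsum fun n => (hf n).aemeasurable

private lemma J_add (K : Set ℂ) (f g : ℕ → ℂ → ℝ≥0∞) (hf : ∀ n, Measurable (f n))
    (hg : ∀ n, Measurable (g n)) :
    J K (fun n z => f n z + g n z) = J K f + J K g := by
  rw [J_eq K (fun n z => f n z + g n z) (fun n => (hf n).add (hg n)), J_eq _ _ hf,
    J_eq _ _ hg, ← ENNReal.tsum_add]
  refine tsum_congr fun n => ?_
  exact lintegral_add_left (hf n) _

private lemma J_mul (K : Set ℂ) (c : ℝ≥0∞) (f : ℕ → ℂ → ℝ≥0∞) (hf : ∀ n, Measurable (f n)) :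
    J K (fun n z => c * f n z) = c * J K f := by
  rw [J_eq K (fun n z => c * f n z) (fun n => (hf n).const_mul c), J_eq _ _ hf,
    ← ENNReal.tsum_mul_left]
  refine tsum_congr fun n => ?_
  exact lintegral_const_mul c (hf n)

private lemma J_sum (K : Set ℂ) (s : Finset ℕ) (f : ℕ → ℕ → ℂ → ℝ≥0∞)
    (hf : ∀ i n, Measurable (f i n)) :
    J K (fun n z => ∑ i ∈ s, f i n z) = ∑ i ∈ s, J K (f i) := by
  classical
  induction s using Finset.induction_on with
  | empty => simp [J]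
  | insert a s ha ih =>
    simp only [Finset.sum_insert ha]
    rw [← ih]
    exact J_add K (f a) (fun n z => ∑ i ∈ s, f i n z) (hf a)
      (fun n => Finset.measurable_sum _ fun i _ => hf i n)

private lemma J_mono (K : Set ℂ) (f g : ℕ → ℂ → ℝ≥0∞) (h : ∀ n z, f n z ≤ g n z) :
    J K f ≤ J K g :=
  lintegral_mono fun z => ENNReal.tsum_le_tsum fun n => h n z

private lemma meas_Vd (γ : Mat) : Measurable (Vd γ) := by
  unfold Vd VV
  have hre : Measurable (fun z : ℂ => z.im) := Complex.measurable_im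
  refine Measurable.div ?_ ?_
  · refine (Measurable.norm ?_).pow_const 2
    exact ((measurable_const.mul measurable_id).add measurable_const).sub
      (measurable_id.mul ((measurable_const.mul measurable_id).add measurable_const))
  · exact (measurable_const.mul hre).mul hre

private lemma meas_cnt (β r : ℝ) (n : ℤ) (Q : Mat → Prop) :
    Measurable (fun z : ℂ => cnt (fun γ => Cnd β r n z γ ∧ Q γ)) := by
  classical
  unfold cnt
  have : Countable Mat := inferInstanceAs (Countable (Fin 2 → Fin 2 → ℤ))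
  refine Measurable.ennreal_tsum fun γ => ?_
  refine Measurable.ite ?_ measurable_const measurable_const
  have h1 : MeasurableSet {z : ℂ | ((γ.det : ℤ) : ℝ) + Vd γ z ≤ β ^ 2} :=
    measurableSet_le (measurable_const.add (meas_Vd γ)) measurable_const
  have h2 : MeasurableSet {z : ℂ | Vd γ z ≤ r ^ 2} :=
    measurableSet_le (meas_Vd γ) measurable_const
  have h3 : {z : ℂ | Cnd β r n z γ ∧ Q γ} =
      ({z : ℂ | ((γ.det : ℤ) : ℝ) + Vd γ z ≤ β ^ 2} ∩ {z : ℂ | Vd γ z ≤ r ^ 2}) ∩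
        {_z : ℂ | NonSc γ ∧ γ.det = n ∧ Q γ} := by
    ext z
    simp only [Cnd, mem_ofPred_eq, mem_inter_iff]
    tauto
  rw [h3]
  exact (h1.inter h2).inter (MeasurableSet.const _)

private lemma cnt_le (P P0 P1 : Mat → Prop) (s : Finset ℕ) (R : ℕ → Mat → Prop)
    (h : ∀ γ, P γ → P0 γ ∨ P1 γ ∨ ∃ i ∈ s, R i γ) :
    cnt P ≤ cnt P0 + (cnt P1 + ∑ i ∈ s, cnt (R i)) := by
  classical
  unfold cnt
  rw [← Summable.tsum_finsetSum (fun i _ => ENNReal.summable), ← ENNReal.tsum_add,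
    ← ENNReal.tsum_add]
  refine ENNReal.tsum_le_tsum fun γ => ?_
  by_cases hP : P γ
  · rw [if_pos hP]
    rcases h γ hP with h0 | h1 | ⟨i, hi, hR⟩
    · rw [if_pos h0]; exact le_self_add
    · rw [if_pos h1]
      exact le_trans le_self_add le_add_self
    · have h2 : (1 : ℝ≥0∞) ≤ ∑ i ∈ s, (if R i γ then (1 : ℝ≥0∞) else 0) := by
        refine le_trans ?_ (Finset.single_le_sum (f := fun i => if R i γ then (1 : ℝ≥0∞) else 0)
          (fun _ _ => bot_le) hi)
        simp [hR]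
      exact h2.trans (le_trans le_add_self le_add_self)
  · rw [if_neg hP]; exact bot_le

end Pool.Agent.A54.Th.JJM

namespace Pool.Agent.A54.Th

open MeasureTheory Filter Topology Set
open scoped ContDiff ComplexConjugate UpperHalfPlane MatrixGroups ENNReal NNReal
open Pool.Agent.A54.Half (H0 qq ff hh)
open Pool.Agent.A54.Av (Mat VV Vd NonSc cnt Cnd)
open JJM

theorem stmtJJ (hI0 : Av.StmtI0) (hI1 : Av.StmtI1) (hJ2 : StmtJ2) : StmtJJ := by
  intro θ hθ0 hθ1 K hK hKH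
  obtain ⟨C0, M0, hC0, h0⟩ := hI0 K hK hKH
  obtain ⟨A, C2, M2, hA, hC2, h2⟩ := hJ2 θ hθ0 hθ1 K hK hKH
  obtain ⟨C1, M1, hC1, h1⟩ := hI1 K hK hKH (2 * A) (by linarith)
  refine ⟨5 * C0 + 7 * C1 + 100 * C2, M0 + M1 + M2, by positivity, ?_⟩
  intro β r L hβ hr hL
  classical
  set N : ℕ := Nat.log 2 ⌊L⌋₊ with hN
  -- the pieces
  let Q0 : Mat → Prop := fun γ => γ 1 0 = 0
  let Q1 : Mat → Prop := fun γ => 1 ≤ |γ 1 0| ∧ ((|γ 1 0| : ℤ) : ℝ) ≤ 2 * A * (1 + r)
  let cd : ℕ → Prop := fun k => A * (1 + r) ≤ ((2 ^ (N - k) : ℕ) : ℝ) ∧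
    ((2 ^ (N - k) : ℕ) : ℝ) * 2 ^ k ≤ L
  let Q2 : ℕ → Mat → Prop := fun k γ => cd k ∧ ((2 ^ (N - k) : ℕ) : ℤ) ≤ |γ 1 0| ∧
    |γ 1 0| < 2 * ((2 ^ (N - k) : ℕ) : ℤ)
  let x0 : ℕ → ℂ → ℝ≥0∞ := fun n z => cnt (fun γ => Cnd β r (n + 1) z γ ∧ Q0 γ)
  let x1 : ℕ → ℂ → ℝ≥0∞ := fun n z => cnt (fun γ => Cnd β r (n + 1) z γ ∧ Q1 γ)
  let x2 : ℕ → ℕ → ℂ → ℝ≥0∞ := fun k n z => cnt (fun γ => Cnd β r (n + 1) z γ ∧ Q2 k γ)
  have mx0 : ∀ n, Measurable (x0 n) := fun n => meas_cnt _ _ _ _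
  have mx1 : ∀ n, Measurable (x1 n) := fun n => meas_cnt _ _ _ _
  have mx2 : ∀ k n, Measurable (x2 k n) := fun k n => meas_cnt _ _ _ _
  have hcov : ∀ (n : ℕ) (z : ℂ),
      cnt (fun γ => Cnd β r (n + 1) z γ ∧ ((|γ 1 0| : ℤ) : ℝ) ≤ L) ≤
        x0 n z + (x1 n z + ∑ k ∈ Finset.range (N + 1), x2 k n z) := by
    intro n z
    refine cnt_le _ _ _ _ (fun k γ => Cnd β r (n + 1) z γ ∧ Q2 k γ) ?_
    rintro γ ⟨hc, hL'⟩
    by_cases hz : γ 1 0 = 0
    · exact Or.inl ⟨hc, hz⟩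
    by_cases hs : ((|γ 1 0| : ℤ) : ℝ) ≤ 2 * A * (1 + r)
    · exact Or.inr (Or.inl ⟨hc, Int.one_le_abs hz, hs⟩)
    push Not at hs
    refine Or.inr (Or.inr ?_)
    have hcast : ((|γ 1 0| : ℤ) : ℝ) = (((γ 1 0).natAbs : ℕ) : ℝ) := by
      rw [Nat.cast_natAbs]
    have hna : (γ 1 0).natAbs ≠ 0 := by
      intro h; exact hz (Int.natAbs_eq_zero.1 h)
    set a : ℕ := (γ 1 0).natAbs with ha
    set i : ℕ := Nat.log 2 a with hi
    have hi1 : 2 ^ i ≤ a := Nat.pow_log_le_self 2 hna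
    have hi2 : a < 2 ^ (i + 1) := Nat.lt_pow_succ_log_self (by norm_num) a
    have haL : a ≤ ⌊L⌋₊ := by
      apply Nat.le_floor
      rw [← hcast]; exact hL'
    have hiN : i ≤ N := Nat.log_mono_right haL
    have hk : N - (N - i) = i := by omega
    have hfl : ⌊L⌋₊ ≠ 0 := by omega
    have h2N : (2 : ℝ) ^ N ≤ L := by
      have h3 : 2 ^ N ≤ ⌊L⌋₊ := Nat.pow_log_le_self 2 hfl
      have h4 : ((2 ^ N : ℕ) : ℝ) ≤ L := (Nat.cast_le.2 h3).trans (Nat.floor_le hL)
      simpa using h4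
    have hi2' : ((a : ℕ) : ℝ) < 2 * ((2 ^ i : ℕ) : ℝ) := by
      have h5 : ((a : ℕ) : ℝ) < ((2 ^ (i + 1) : ℕ) : ℝ) := Nat.cast_lt.2 hi2
      rw [pow_succ] at h5
      push_cast at h5 ⊢
      linarith
    have habs : |γ 1 0| = (a : ℤ) := by rw [ha]; exact Int.abs_eq_natAbs _
    refine ⟨N - i, by simp only [Finset.mem_range]; omega, hc, ⟨?_, ?_⟩, ?_, ?_⟩
    · rw [hk]
      rw [hcast] at hs
      nlinarith
    · rw [hk]
      have h6 : ((2 ^ i : ℕ) : ℝ) * 2 ^ (N - i) = 2 ^ N := by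
        push_cast
        rw [← pow_add]
        congr 1
        omega
      rw [h6]; exact h2N
    · rw [hk, habs]; exact_mod_cast hi1
    · rw [hk, habs]
      have h7 : a < 2 * 2 ^ i := by rw [pow_succ] at hi2; linarith
      exact_mod_cast h7
  -- the bounds of the pieces
  have b0 : J K (fun n z => x0 n z ^ 2) ≤ ENNReal.ofReal (C0 * r ^ 2 * (1 + r) ^ M0 * β) :=
    h0 β r hβ hr
  have b1 : J K (fun n z => x1 n z ^ 2) ≤ ENNReal.ofReal (C1 * r ^ 2 * (1 + r) ^ M1 * β) :=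
    h1 β r hβ hr
  set D : ℝ := C2 * r ^ 2 * (1 + r) ^ M2 * (β ^ (1 + θ) * L ^ (1 - θ)) with hD
  have hD0 : 0 ≤ D := by positivity
  have b2 : ∀ k, J K (fun n z => x2 k n z ^ 2) ≤ ENNReal.ofReal (D * (18 / 25) ^ k) := by
    intro k
    by_cases hcd : cd k
    · have e1 : J K (fun n z => x2 k n z ^ 2) =
          ∫⁻ z in K, ∑' n : ℕ, cnt (fun γ => Cnd β r (n + 1) z γ ∧
            ((2 ^ (N - k) : ℕ) : ℤ) ≤ |γ 1 0| ∧ |γ 1 0| < 2 * ((2 ^ (N - k) : ℕ) : ℤ)) ^ 2 := by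
        simp only [J, x2, Q2, hcd, true_and]
      rw [e1]
      refine (h2 β r (2 ^ (N - k)) hβ hr hcd.1).trans ?_
      apply ENNReal.ofReal_le_ofReal
      have hH : ((2 ^ (N - k) : ℕ) : ℝ) ≤ L * (1 / 2) ^ k := by
        have h3 := hcd.2
        have h5 : (0 : ℝ) < 2 ^ k := by positivity
        rw [one_div, inv_pow, ← div_eq_mul_inv, le_div_iff₀ h5]
        exact h3
      have h6 : ((1 / 2 : ℝ) ^ k) ^ (1 - θ) ≤ (18 / 25) ^ k := by
        have h7 : (1 / 2 : ℝ) ≤ 1 - θ := by linarith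
        calc ((1 / 2 : ℝ) ^ k) ^ (1 - θ) ≤ ((1 / 2 : ℝ) ^ k) ^ (1 / 2 : ℝ) :=
              Real.rpow_le_rpow_of_exponent_ge (by positivity)
                (pow_le_one₀ (by norm_num) (by norm_num)) h7
          _ ≤ (((18 / 25 : ℝ) ^ 2) ^ k) ^ (1 / 2 : ℝ) := by
              apply Real.rpow_le_rpow (by positivity) _ (by norm_num)
              exact pow_le_pow_left₀ (by norm_num) (by norm_num) k
          _ = (18 / 25) ^ k := by
              rw [← pow_mul, mul_comm 2 k, pow_mul, ← Real.sqrt_eq_rpow,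
                Real.sqrt_sq (by positivity)]
      have hs : ((2 ^ (N - k) : ℕ) : ℝ) ^ (1 - θ) ≤ L ^ (1 - θ) * (18 / 25) ^ k := by
        calc ((2 ^ (N - k) : ℕ) : ℝ) ^ (1 - θ) ≤ (L * (1 / 2) ^ k) ^ (1 - θ) :=
              Real.rpow_le_rpow (Nat.cast_nonneg _) hH (by linarith)
          _ = L ^ (1 - θ) * ((1 / 2 : ℝ) ^ k) ^ (1 - θ) :=
              Real.mul_rpow hL (by positivity)
          _ ≤ L ^ (1 - θ) * (18 / 25) ^ k :=
              mul_le_mul_of_nonneg_left h6 (Real.rpow_nonneg hL _)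
      rw [hD]
      have h8 : C2 * r ^ 2 * (1 + r) ^ M2 * (β ^ (1 + θ) * ((2 ^ (N - k) : ℕ) : ℝ) ^ (1 - θ)) ≤
          C2 * r ^ 2 * (1 + r) ^ M2 * (β ^ (1 + θ) * (L ^ (1 - θ) * (18 / 25) ^ k)) := by
        gcongr
      refine h8.trans (le_of_eq ?_)
      ring
    · have e1 : J K (fun n z => x2 k n z ^ 2) = 0 := by
        simp [J, x2, Q2, hcd, cnt]
      rw [e1]; exact bot_le
  -- summation
  have msq : ∀ k n, Measurable (fun z => x2 k n z ^ 2) := fun k n => (mx2 k n).pow_const 2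
  have bS : J K (fun n z => (∑ k ∈ Finset.range (N + 1), x2 k n z) ^ 2) ≤
      ENNReal.ofReal (50 * D) := by
    calc J K (fun n z => (∑ k ∈ Finset.range (N + 1), x2 k n z) ^ 2)
        ≤ J K (fun n z => 5 * ∑ k ∈ Finset.range (N + 1),
            ENNReal.ofReal ((5 / 4) ^ k) * x2 k n z ^ 2) :=
          J_mono _ _ _ fun n z => sum_sq (N + 1) (fun k => x2 k n z)
      _ = 5 * ∑ k ∈ Finset.range (N + 1),
            ENNReal.ofReal ((5 / 4) ^ k) * J K (fun n z => x2 k n z ^ 2) := by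
          rw [J_mul K 5 (fun n z => ∑ k ∈ Finset.range (N + 1),
            ENNReal.ofReal ((5 / 4) ^ k) * x2 k n z ^ 2)
            (fun n => Finset.measurable_sum _ fun k _ => (msq k n).const_mul _)]
          rw [J_sum K _ (fun k n z => ENNReal.ofReal ((5 / 4) ^ k) * x2 k n z ^ 2)
            (fun k n => (msq k n).const_mul _)]
          congr 1
          refine Finset.sum_congr rfl fun k _ => ?_
          exact J_mul K _ _ (msq k)
      _ ≤ 5 * ∑ k ∈ Finset.range (N + 1), ENNReal.ofReal (D * (9 / 10) ^ k) := by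
          gcongr with k _
          calc ENNReal.ofReal ((5 / 4) ^ k) * J K (fun n z => x2 k n z ^ 2)
              ≤ ENNReal.ofReal ((5 / 4) ^ k) * ENNReal.ofReal (D * (18 / 25) ^ k) := by
                gcongr; exact b2 k
            _ = ENNReal.ofReal (D * (9 / 10) ^ k) := by
                rw [← ENNReal.ofReal_mul (by positivity)]
                congr 1
                rw [mul_left_comm, ← mul_pow]
                norm_num
      _ ≤ ENNReal.ofReal (50 * D) := by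
          rw [← ENNReal.ofReal_sum_of_nonneg (fun k _ => by positivity), ← Finset.mul_sum]
          have h5 : (5 : ℝ≥0∞) = ENNReal.ofReal 5 := by rw [ENNReal.ofReal_ofNat]
          rw [h5, ← ENNReal.ofReal_mul (by norm_num)]
          apply ENNReal.ofReal_le_ofReal
          have hg : ∑ k ∈ Finset.range (N + 1), (9 / 10 : ℝ) ^ k ≤ 10 := by
            have h6 := Summable.sum_le_tsum (Finset.range (N + 1))
              (fun k _ => by positivity)
              (summable_geometric_of_lt_one (r := (9 / 10 : ℝ)) (by norm_num) (by norm_num))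
            rw [tsum_geometric_of_lt_one (by norm_num) (by norm_num)] at h6
            norm_num at h6 ⊢
            exact h6
          nlinarith
  have mS : ∀ n, Measurable (fun z => (∑ k ∈ Finset.range (N + 1), x2 k n z) ^ 2) :=
    fun n => (Finset.measurable_sum _ fun k _ => mx2 k n).pow_const 2
  have m0 : ∀ n, Measurable (fun z => x0 n z ^ 2) := fun n => (mx0 n).pow_const 2
  have m1 : ∀ n, Measurable (fun z => x1 n z ^ 2) := fun n => (mx1 n).pow_const 2
  set c : ℝ≥0∞ := ENNReal.ofReal (5 / 4) with hc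
  have key : ∀ (n : ℕ) (z : ℂ),
      cnt (fun γ => Cnd β r (n + 1) z γ ∧ ((|γ 1 0| : ℤ) : ℝ) ≤ L) ^ 2 ≤
        5 * x0 n z ^ 2 + (c * (5 * x1 n z ^ 2) +
          c * (c * (∑ k ∈ Finset.range (N + 1), x2 k n z) ^ 2)) := by
    intro n z
    calc cnt (fun γ => Cnd β r (n + 1) z γ ∧ ((|γ 1 0| : ℤ) : ℝ) ≤ L) ^ 2
        ≤ (x0 n z + (x1 n z + ∑ k ∈ Finset.range (N + 1), x2 k n z)) ^ 2 := by
          gcongr; exact hcov n z
      _ ≤ 5 * x0 n z ^ 2 + c * (x1 n z + ∑ k ∈ Finset.range (N + 1), x2 k n z) ^ 2 :=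
          sq_add' _ _
      _ ≤ 5 * x0 n z ^ 2 + c * (5 * x1 n z ^ 2 +
            c * (∑ k ∈ Finset.range (N + 1), x2 k n z) ^ 2) := by
          gcongr; exact sq_add' _ _
      _ = _ := by rw [mul_add]
  have step : J K (fun n z => cnt (fun γ => Cnd β r (n + 1) z γ ∧ ((|γ 1 0| : ℤ) : ℝ) ≤ L) ^ 2) ≤
      5 * J K (fun n z => x0 n z ^ 2) + (c * (5 * J K (fun n z => x1 n z ^ 2)) +
        c * (c * J K (fun n z => (∑ k ∈ Finset.range (N + 1), x2 k n z) ^ 2))) := by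
    refine (J_mono K _ _ key).trans (le_of_eq ?_)
    rw [J_add K (fun n z => 5 * x0 n z ^ 2) (fun n z => c * (5 * x1 n z ^ 2) +
        c * (c * (∑ k ∈ Finset.range (N + 1), x2 k n z) ^ 2))
      (fun n => (m0 n).const_mul _)
      (fun n => (((m1 n).const_mul _).const_mul _).add (((mS n).const_mul _).const_mul _)),
      J_add K (fun n z => c * (5 * x1 n z ^ 2))
        (fun n z => c * (c * (∑ k ∈ Finset.range (N + 1), x2 k n z) ^ 2))
        (fun n => ((m1 n).const_mul _).const_mul _) (fun n => ((mS n).const_mul _).const_mul _),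
      J_mul K 5 _ m0, J_mul K c (fun n z => 5 * x1 n z ^ 2) (fun n => (m1 n).const_mul _),
      J_mul K 5 _ m1, J_mul K c
        (fun n z => c * (∑ k ∈ Finset.range (N + 1), x2 k n z) ^ 2)
        (fun n => (mS n).const_mul _), J_mul K c _ mS]
  refine step.trans ?_
  calc 5 * J K (fun n z => x0 n z ^ 2) + (c * (5 * J K (fun n z => x1 n z ^ 2)) +
        c * (c * J K (fun n z => (∑ k ∈ Finset.range (N + 1), x2 k n z) ^ 2)))
      ≤ 5 * ENNReal.ofReal (C0 * r ^ 2 * (1 + r) ^ M0 * β) +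
        (c * (5 * ENNReal.ofReal (C1 * r ^ 2 * (1 + r) ^ M1 * β)) +
          c * (c * ENNReal.ofReal (50 * D))) := by
        gcongr
    _ = ENNReal.ofReal (5 * (C0 * r ^ 2 * (1 + r) ^ M0 * β) +
        (5 / 4 * (5 * (C1 * r ^ 2 * (1 + r) ^ M1 * β)) + 5 / 4 * (5 / 4 * (50 * D)))) := by
        have h5 : (5 : ℝ≥0∞) = ENNReal.ofReal 5 := by rw [ENNReal.ofReal_ofNat]
        rw [h5, hc]
        rw [← ENNReal.ofReal_mul (by norm_num), ← ENNReal.ofReal_mul (by norm_num),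
          ← ENNReal.ofReal_mul (by norm_num), ← ENNReal.ofReal_mul (by norm_num),
          ← ENNReal.ofReal_mul (by norm_num), ← ENNReal.ofReal_add (by positivity) (by positivity),
          ← ENNReal.ofReal_add (by positivity) (by positivity)]
    _ ≤ _ := by
        apply ENNReal.ofReal_le_ofReal
        have hp0 : (1 + r) ^ M0 ≤ (1 + r) ^ (M0 + M1 + M2) :=
          pow_le_pow_right₀ (by linarith) (by omega)
        have hp1 : (1 + r) ^ M1 ≤ (1 + r) ^ (M0 + M1 + M2) :=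
          pow_le_pow_right₀ (by linarith) (by omega)
        have hp2 : (1 + r) ^ M2 ≤ (1 + r) ^ (M0 + M1 + M2) :=
          pow_le_pow_right₀ (by linarith) (by omega)
        set P : ℝ := (1 + r) ^ (M0 + M1 + M2) with hP
        have hs0 : 0 ≤ β ^ (1 + θ) * L ^ (1 - θ) := by positivity
        have t0 : C0 * r ^ 2 * (1 + r) ^ M0 * β ≤ C0 * r ^ 2 * P * (β + β ^ (1 + θ) * L ^ (1 - θ)) := by
          have : C0 * r ^ 2 * (1 + r) ^ M0 ≤ C0 * r ^ 2 * P := by gcongr
          exact mul_le_mul this (by linarith) hβ.le (by positivity)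
        have t1 : C1 * r ^ 2 * (1 + r) ^ M1 * β ≤ C1 * r ^ 2 * P * (β + β ^ (1 + θ) * L ^ (1 - θ)) := by
          have : C1 * r ^ 2 * (1 + r) ^ M1 ≤ C1 * r ^ 2 * P := by gcongr
          exact mul_le_mul this (by linarith) hβ.le (by positivity)
        have t2 : D ≤ C2 * r ^ 2 * P * (β + β ^ (1 + θ) * L ^ (1 - θ)) := by
          rw [hD]
          have : C2 * r ^ 2 * (1 + r) ^ M2 ≤ C2 * r ^ 2 * P := by gcongr
          exact mul_le_mul this (by linarith) hs0 (by positivity)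
        have n0 : 0 ≤ C0 * r ^ 2 * P * (β + β ^ (1 + θ) * L ^ (1 - θ)) := by positivity
        have n1 : 0 ≤ C1 * r ^ 2 * P * (β + β ^ (1 + θ) * L ^ (1 - θ)) := by positivity
        have n2 : 0 ≤ C2 * r ^ 2 * P * (β + β ^ (1 + θ) * L ^ (1 - θ)) := by positivity
        nlinarith

end Pool.Agent.A54.Th
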