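import Pool.Agent.Lib.MP_a54f13_nt.Th.Spec
import Pool.Agent.Lib.MP_a54f13_nt.Av.En

/-!
# Bessel function, oscillating range (explicit)
-/

set_option autoImplicit false

namespace Pool.Agent.A54.Th

open MeasureTheory Filter Topology Set
open Pool.Agent.A54.Av (KB KB1)
open Pool.Agent.A54.Av.EnM (en dv de lim en_eq)

noncomputable section

namespace KbEM

lemma dG (hKBf : Av.StmtKBf) (t : ℝ) {X : ℝ} (hX : 0 < X) :
    HasDerivAt (fun X => KB t X * (X * KB1 t X))
      (((X * KB1 t X) ^ 2 - (t ^ 2 - X ^ 2) * KB t X ^ 2) / X) X := by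
  have h1 := ((hKBf t).1 X hX).fun_mul (dv hKBf t hX)
  refine h1.congr_deriv ?_
  field_simp
  ring

end KbEM

open KbEM in
/-- **KbE** -/
theorem stmtKbE (hKBf : Av.StmtKBf) (hBet : Av.StmtBet) : StmtKbE := by
  intro t ht
  have hp := Real.pi_pos
  have ht0 : 0 < t := by linarith
  obtain ⟨hi, hv⟩ := hBet t ht0
  set E : ℝ := Real.pi * t / Real.sinh (Real.pi * t) with hE
  have hE0 : 0 < E := div_pos (by positivity) (Real.sinh_pos_iff.2 (by positivity))
  have hv' : 2 * ∫ x in Ioi (0 : ℝ), x * KB t x ^ 2 = E := by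
    rw [hv, hE]; field_simp
  have nn : ∀ x ∈ Ioi (0 : ℝ), 0 ≤ x * KB t x ^ 2 := fun x hx =>
    mul_nonneg (le_of_lt hx) (sq_nonneg _)
  have up : ∀ X : ℝ, 0 < X → en t X ≤ E := by
    intro X hX
    rw [en_eq hKBf hi hX, ← hv']
    refine mul_le_mul_of_nonneg_left ?_ (by norm_num)
    refine setIntegral_mono_set hi ?_ (Ioi_subset_Ioi hX.le).eventuallyLE
    exact (ae_restrict_iff' measurableSet_Ioi).2 (Eventually.of_forall nn)
  have b0 : ∀ X : ℝ, 0 < X → X ≤ t / 2 →
      3 / 4 * t ^ 2 * KB t X ^ 2 + (X * KB1 t X) ^ 2 ≤ E := by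
    intro X hX hX2
    have h1 := up X hX
    have h2 : X ^ 2 ≤ t ^ 2 / 4 := by nlinarith
    unfold en at h1
    have h3 : 3 / 4 * t ^ 2 * KB t X ^ 2 ≤ (t ^ 2 - X ^ 2) * KB t X ^ 2 :=
      mul_le_mul_of_nonneg_right (by linarith) (sq_nonneg _)
    linarith
  have bK : ∀ X : ℝ, 0 < X → X ≤ t / 2 → KB t X ^ 2 ≤ 4 / 3 * (E / t ^ 2) := by
    intro X hX hX2
    have h1 := b0 X hX hX2
    have h3 := sq_nonneg (X * KB1 t X)
    rw [mul_div_assoc', le_div_iff₀ (by positivity)]
    nlinarith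
  refine ⟨?_, ?_, ?_⟩
  · intro X hX hX2
    have h1 := b0 X hX hX2
    have h3 := sq_nonneg (X * KB1 t X)
    have h4 : 0 ≤ t ^ 2 * KB t X ^ 2 := by positivity
    refine ⟨?_, ?_⟩
    · rw [div_mul_eq_mul_div, le_div_iff₀ (by positivity)]
      nlinarith
    · linarith
  · intro X hX hX4
    have low : ∀ u : ℝ, 0 < u → u ≤ t / 2 → 2 / 3 * E ≤ en t u := by
      intro u hu hu2
      have i1 : IntervalIntegrable (fun x : ℝ => x * KB t x ^ 2) volume 0 u :=
        (intervalIntegrable_iff_integrableOn_Ioc_of_le hu.le).2 (hi.mono_set Ioc_subset_Ioi_self)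
      have i2 : IntervalIntegrable (fun x : ℝ => x * (4 / 3 * (E / t ^ 2))) volume 0 u :=
        (by fun_prop : Continuous (fun x : ℝ => x * (4 / 3 * (E / t ^ 2)))).intervalIntegrable _ _
      have h1 : ∫ x in (0 : ℝ)..u, x * KB t x ^ 2 ≤ ∫ x in (0 : ℝ)..u, x * (4 / 3 * (E / t ^ 2)) := by
        refine intervalIntegral.integral_mono_on hu.le i1 i2 ?_
        intro x hx
        rcases hx.1.eq_or_lt with h | h
        · rw [← h]; simp
        · exact mul_le_mul_of_nonneg_left (bK x h (hx.2.trans hu2)) h.le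
      rw [intervalIntegral.integral_mul_const, integral_id,
        intervalIntegral.integral_of_le hu.le] at h1
      have h2 : ∫ x in Ioi (0 : ℝ), x * KB t x ^ 2 = (∫ x in Ioc 0 u, x * KB t x ^ 2) +
          ∫ x in Ioi u, x * KB t x ^ 2 := by
        rw [← setIntegral_union Ioc_disjoint_Ioi_same measurableSet_Ioi
          (hi.mono_set Ioc_subset_Ioi_self) (hi.mono_set (Ioi_subset_Ioi hu.le)),
          Ioc_union_Ioi_eq_Ioi hu.le]
      rw [en_eq hKBf hi hu]
      have h4 : (u ^ 2 - 0 ^ 2) / 2 * (4 / 3 * (E / t ^ 2)) ≤ E / 6 := by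
        have h5 : (u ^ 2 - 0 ^ 2) / 2 * (4 / 3 * (E / t ^ 2)) = (2 / 3 * u ^ 2 / t ^ 2) * E := by
          field_simp
          ring
        have h6 : 2 / 3 * u ^ 2 / t ^ 2 ≤ 1 / 6 := by
          rw [div_le_iff₀ (by positivity)]
          nlinarith
        rw [h5]
        nlinarith
      linarith
    have uv : ∀ u : ℝ, 0 < u → u ≤ t / 2 → |KB t u * (u * KB1 t u)| ≤ E / 100 := by
      intro u hu hu2
      have h1 := b0 u hu hu2
      have h3 : 0 ≤ t ^ 2 * KB t u ^ 2 := by positivity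
      have h6 : |t * (KB t u * (u * KB1 t u))| ≤ E := by
        rw [abs_le]
        constructor
        · nlinarith [sq_nonneg (t * KB t u / 2 + u * KB1 t u)]
        · nlinarith [sq_nonneg (t * KB t u / 2 - u * KB1 t u)]
      rw [abs_mul, abs_of_pos ht0] at h6
      have h7 := abs_nonneg (KB t u * (u * KB1 t u))
      nlinarith
    have hle : X ≤ 2 * X := by linarith
    have hi0 : ∀ u ∈ Icc X (2 * X), 0 < u := fun u hu => hX.trans_le hu.1
    have hi2 : ∀ u ∈ Icc X (2 * X), u ≤ t / 2 := fun u hu => by linarith [hu.2]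
    have contK : ContinuousOn (KB t) (Icc X (2 * X)) := fun u hu =>
      ((hKBf t).1 u (hi0 u hu)).continuousAt.continuousWithinAt
    have contv : ContinuousOn (fun u => u * KB1 t u) (Icc X (2 * X)) := fun u hu =>
      (dv hKBf t (hi0 u hu)).continuousAt.continuousWithinAt
    have ne0 : ∀ u ∈ Icc X (2 * X), u ≠ 0 := fun u hu => (hi0 u hu).ne'
    have cH : ContinuousOn (fun u => ((u * KB1 t u) ^ 2 - (t ^ 2 - u ^ 2) * KB t u ^ 2) / u)
        (Icc X (2 * X)) :=
      ((contv.pow 2).sub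
        ((by fun_prop : ContinuousOn (fun u : ℝ => t ^ 2 - u ^ 2) _).mul (contK.pow 2))).div
          continuousOn_id ne0
    have iH : IntervalIntegrable (fun u => ((u * KB1 t u) ^ 2 - (t ^ 2 - u ^ 2) * KB t u ^ 2) / u)
        volume X (2 * X) := by
      apply ContinuousOn.intervalIntegrable
      rwa [uIcc_of_le hle]
    have h1 := intervalIntegral.integral_eq_sub_of_hasDerivAt (a := X) (b := 2 * X)
      (f := fun u => KB t u * (u * KB1 t u))
      (f' := fun u => ((u * KB1 t u) ^ 2 - (t ^ 2 - u ^ 2) * KB t u ^ 2) / u)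
      (fun u hu => by
        rw [uIcc_of_le hle] at hu
        exact dG hKBf t (hi0 u hu)) iH
    have iK : IntervalIntegrable (fun u => KB t u ^ 2 / u) volume X (2 * X) := by
      apply ContinuousOn.intervalIntegrable
      rw [uIcc_of_le hle]
      exact (contK.pow 2).div continuousOn_id ne0
    have iX : IntervalIntegrable (fun u : ℝ => 2 / 3 * E * u⁻¹) volume X (2 * X) := by
      apply ContinuousOn.intervalIntegrable
      rw [uIcc_of_le hle]
      exact continuousOn_const.mul (continuousOn_id.inv₀ ne0)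
    have h2 : ∫ u in X..(2 * X), (2 / 3 * E * u⁻¹ -
        ((u * KB1 t u) ^ 2 - (t ^ 2 - u ^ 2) * KB t u ^ 2) / u) ≤
        ∫ u in X..(2 * X), 2 * t ^ 2 * (KB t u ^ 2 / u) := by
      refine intervalIntegral.integral_mono_on hle (iX.sub iH) (iK.const_mul _) ?_
      intro u hu
      have hu0 := hi0 u hu
      have k1 := low u hu0 (hi2 u hu)
      unfold en at k1
      have k3 : 0 ≤ u ^ 2 * KB t u ^ 2 := by positivity
      have e1 : 2 / 3 * E * u⁻¹ - ((u * KB1 t u) ^ 2 - (t ^ 2 - u ^ 2) * KB t u ^ 2) / u =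
          (2 / 3 * E - ((u * KB1 t u) ^ 2 - (t ^ 2 - u ^ 2) * KB t u ^ 2)) / u := by
        field_simp
      have e2 : 2 * t ^ 2 * (KB t u ^ 2 / u) = (2 * t ^ 2 * KB t u ^ 2) / u := by ring
      rw [e1, e2]
      exact div_le_div_of_nonneg_right (by nlinarith) hu0.le
    have hlog : ∫ u in X..(2 * X), u⁻¹ = Real.log 2 := by
      rw [integral_inv_of_pos hX (by linarith), mul_div_assoc, div_self hX.ne', mul_one]
    rw [intervalIntegral.integral_sub iX iH, h1, intervalIntegral.integral_const_mul,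
      intervalIntegral.integral_const_mul, hlog] at h2
    have a1 := abs_le.1 (uv (2 * X) (by linarith) (by linarith))
    have a2 := abs_le.1 (uv X hX (by linarith))
    have l2 := Real.log_two_gt_d9
    have l3 : 2 / 3 * E * (69 / 100) ≤ 2 / 3 * E * Real.log 2 :=
      mul_le_mul_of_nonneg_left (by linarith) (by positivity)
    rw [div_le_iff₀ (by positivity)]
    nlinarith [a1.1, a1.2, a2.1, a2.2]
  · intro X hX
    refine ⟨hi.mono_set (Ioi_subset_Ioi hX.le), ?_⟩
    have h1 := up X hX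
    rw [en_eq hKBf hi hX] at h1
    linarith

end

end Pool.Agent.A54.Th
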