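import Pool.Agent.Lib.MP_a54f13_nt.Th.Spec

/-! Upper bounds for the integral of `K²/u`. -/

set_option autoImplicit false

namespace Pool.Agent.A54.Th.KinM

open MeasureTheory Filter Topology Set
open Pool.Agent.A54.Av (KB KB1)

noncomputable section

lemma cont (hKBf : Av.StmtKBf) (t : ℝ) : ContinuousOn (KB t) (Ioi 0) := fun x hx =>
  ((hKBf t).1 x hx).continuousAt.continuousWithinAt

lemma contf (hKBf : Av.StmtKBf) (t : ℝ) :
    ContinuousOn (fun u : ℝ => KB t u ^ 2 / u) (Ioi 0) :=
  ((cont hKBf t).pow 2).div continuousOn_id fun _ hx => ne_of_gt hx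

lemma le1 (t : ℝ) {X u : ℝ} (hX : 0 < X) (hu : X ≤ u) :
    KB t u ^ 2 / u ≤ (X ^ 2)⁻¹ * (u * KB t u ^ 2) := by
  have hu0 : 0 < u := hX.trans_le hu
  have h1 : 1 / u ≤ u / X ^ 2 := by
    rw [div_le_div_iff₀ hu0 (by positivity)]
    nlinarith
  calc KB t u ^ 2 / u = (1 / u) * KB t u ^ 2 := by ring
    _ ≤ (u / X ^ 2) * KB t u ^ 2 := mul_le_mul_of_nonneg_right h1 (sq_nonneg _)
    _ = _ := by ring

lemma int (hKBf : Av.StmtKBf) (t : ℝ) {X : ℝ} (hX : 0 < X)
    (hi : IntegrableOn (fun u : ℝ => u * KB t u ^ 2) (Ioi X)) :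
    IntegrableOn (fun u : ℝ => KB t u ^ 2 / u) (Ioi X) := by
  refine Integrable.mono' (hi.const_mul (X ^ 2)⁻¹) ?_ ?_
  · exact ((contf hKBf t).mono (Ioi_subset_Ioi hX.le)).aestronglyMeasurable measurableSet_Ioi
  · refine (ae_restrict_iff' measurableSet_Ioi).2 (Eventually.of_forall fun u hu => ?_)
    have hu0 : 0 < u := hX.trans hu
    rw [Real.norm_of_nonneg (by positivity)]
    exact le1 t hX (le_of_lt hu)

lemma KI_le (hKBf : Av.StmtKBf) (t : ℝ) {X e : ℝ} (hX : 0 < X)
    (hi : IntegrableOn (fun u : ℝ => u * KB t u ^ 2) (Ioi X))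
    (he : ∫ u in Ioi X, u * KB t u ^ 2 ≤ e) : KI t X ≤ (X ^ 2)⁻¹ * e := by
  unfold KI
  calc ∫ u in Ioi X, KB t u ^ 2 / u ≤ ∫ u in Ioi X, (X ^ 2)⁻¹ * (u * KB t u ^ 2) :=
        setIntegral_mono_on (int hKBf t hX hi) (hi.const_mul _) measurableSet_Ioi
          fun u hu => le1 t hX (le_of_lt hu)
    _ = (X ^ 2)⁻¹ * ∫ u in Ioi X, u * KB t u ^ 2 := integral_const_mul _ _
    _ ≤ (X ^ 2)⁻¹ * e := mul_le_mul_of_nonneg_left he (by positivity)

end

end Pool.Agent.A54.Th.KinM

namespace Pool.Agent.A54.Th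

open MeasureTheory Filter Topology Set
open Pool.Agent.A54.Av (KB KB1)

noncomputable section

theorem stmtKin (hKbE : StmtKbE) (hKBf : Av.StmtKBf) : StmtKin := by
  refine ⟨4, by norm_num, fun t ht => ?_⟩
  have ht0 : 0 < t := by linarith
  have hp := Real.pi_pos
  obtain ⟨hb, -, hi⟩ := hKbE t ht
  set E : ℝ := Real.pi * t / Real.sinh (Real.pi * t) with hE
  have hsh : 0 < Real.sinh (Real.pi * t) := Real.sinh_pos_iff.2 (by positivity)
  have hE0 : 0 < E := div_pos (by positivity) hsh
  refine ⟨fun X hX => ⟨KinM.int hKBf t hX (hi X hX).1, ?_⟩, fun X hX => ?_⟩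
  · by_cases hXt : t / 2 < X
    · have h1 := KinM.KI_le hKBf t hX (hi X hX).1 (hi X hX).2
      have h2 : (X ^ 2)⁻¹ ≤ 4 / t ^ 2 := by
        rw [inv_eq_one_div, div_le_div_iff₀ (by positivity) (by positivity)]
        nlinarith
      have h3 : (X ^ 2)⁻¹ * E ≤ 4 / t ^ 2 * E := mul_le_mul_of_nonneg_right h2 hE0.le
      have h4 : 4 / t ^ 2 * E ≤ 4 * (1 + max 0 (Real.log (t / X))) * (E / t ^ 2) := by
        have h5 : 0 ≤ max 0 (Real.log (t / X)) := le_max_left _ _
        have h6 : 4 / t ^ 2 * E = 4 * 1 * (E / t ^ 2) := by ring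
        rw [h6]
        gcongr
        linarith
      linarith
    · push Not at hXt
      have hh : 0 < t / 2 := by linarith
      have h1 := KinM.KI_le hKBf t hh (hi _ hh).1 (hi _ hh).2
      have hI := KinM.int hKBf t hX (hi X hX).1
      have hI2 := KinM.int hKBf t hh (hi _ hh).1
      have h2 : KI t X = (∫ u in X..(t / 2), KB t u ^ 2 / u) + KI t (t / 2) := by
        unfold KI
        rw [intervalIntegral.integral_interval_add_Ioi hI hI2]
      have h3 : ∫ u in X..(t / 2), KB t u ^ 2 / u ≤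
          ∫ u in X..(t / 2), 2 / t ^ 2 * E * (1 / u) := by
        refine intervalIntegral.integral_mono_on hXt ?_ ?_ fun u hu => ?_
        · rw [intervalIntegrable_iff_integrableOn_Ioc_of_le hXt]
          exact hI.mono_set Ioc_subset_Ioi_self
        · refine (intervalIntegral.intervalIntegrable_one_div (fun u hu => ?_)
            continuousOn_id).const_mul _
          rw [uIcc_of_le hXt] at hu
          exact (hX.trans_le hu.1).ne'
        · have hu0 : 0 < u := hX.trans_le hu.1
          have h4 := (hb u hu0 hu.2).1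
          calc KB t u ^ 2 / u = KB t u ^ 2 * (1 / u) := by ring
            _ ≤ 2 / t ^ 2 * E * (1 / u) := mul_le_mul_of_nonneg_right h4 (by positivity)
      have h4 : ∫ u in X..(t / 2), 2 / t ^ 2 * E * (1 / u) =
          2 / t ^ 2 * E * Real.log (t / 2 / X) := by
        rw [intervalIntegral.integral_const_mul, integral_one_div_of_pos hX hh]
      have h5 : Real.log (t / 2 / X) ≤ Real.log (t / X) := by
        refine Real.log_le_log (by positivity) ?_
        gcongr
        linarith
      have h6 : Real.log (t / X) ≤ max 0 (Real.log (t / X)) := le_max_right _ _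
      have h7 : 0 ≤ max 0 (Real.log (t / X)) := le_max_left _ _
      have h8 : 2 / t ^ 2 * E * Real.log (t / 2 / X) ≤
          2 / t ^ 2 * E * max 0 (Real.log (t / X)) :=
        mul_le_mul_of_nonneg_left (h5.trans h6) (by positivity)
      have h9 : ((t / 2) ^ 2)⁻¹ * E = 4 * (E / t ^ 2) := by
        field_simp
        norm_num
      have h10 : 2 / t ^ 2 * E * max 0 (Real.log (t / X)) =
          2 * max 0 (Real.log (t / X)) * (E / t ^ 2) := by ring
      have h11 : 0 ≤ max 0 (Real.log (t / X)) * (E / t ^ 2) := by positivity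
      rw [h9] at h1
      rw [h2]
      nlinarith
  · have hX0 : 0 < X := by linarith
    have hX1 : 1 ≤ X := by linarith
    have hI := KinM.int hKBf t hX0 (hi X hX0).1
    have h1 : ∀ u ∈ Ioi X, KB t u ^ 2 / u ≤ Real.pi / (2 * X ^ 2) * Real.exp (-X) *
        Real.exp (-u) := by
      intro u hu
      have hu' : X < u := hu
      have hu0 : 0 < u := hX0.trans hu
      have h2 := (hKBf t).2.2.1 u hu0
      have h3 : KB t u ^ 2 ≤ Real.pi / (2 * u) * Real.exp (-u) ^ 2 := by
        have h4 : KB t u ^ 2 ≤ (√(Real.pi / (2 * u)) * Real.exp (-u)) ^ 2 := by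
          rw [← sq_abs]
          exact pow_le_pow_left₀ (abs_nonneg _) h2 2
        rwa [mul_pow, Real.sq_sqrt (by positivity)] at h4
      have h5 : Real.exp (-u) ^ 2 ≤ Real.exp (-X) * Real.exp (-u) := by
        rw [pow_two]
        exact mul_le_mul_of_nonneg_right (Real.exp_le_exp.2 (by linarith)) (Real.exp_pos _).le
      have h6 : Real.pi / (2 * u) / u ≤ Real.pi / (2 * X ^ 2) := by
        rw [div_div]
        refine div_le_div_of_nonneg_left hp.le (by positivity) ?_
        nlinarith
      calc KB t u ^ 2 / u ≤ Real.pi / (2 * u) * Real.exp (-u) ^ 2 / u := by gcongr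
        _ = Real.pi / (2 * u) / u * Real.exp (-u) ^ 2 := by ring
        _ ≤ Real.pi / (2 * X ^ 2) * (Real.exp (-X) * Real.exp (-u)) := by gcongr
        _ = _ := by ring
    have hie : IntegrableOn (fun u : ℝ => Real.exp (-u)) (Ioi X) := integrableOn_exp_neg_Ioi X
    have h2 : KI t X ≤ Real.pi / (2 * X ^ 2) * Real.exp (-X) * Real.exp (-X) := by
      unfold KI
      calc ∫ u in Ioi X, KB t u ^ 2 / u
          ≤ ∫ u in Ioi X, Real.pi / (2 * X ^ 2) * Real.exp (-X) * Real.exp (-u) :=
            setIntegral_mono_on hI (hie.const_mul _) measurableSet_Ioi h1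
        _ = _ := by rw [integral_const_mul, integral_exp_neg_Ioi]
    refine h2.trans ?_
    have h3 : t * Real.exp (-X) * (E / t ^ 2) =
        Real.pi / Real.sinh (Real.pi * t) * Real.exp (-X) := by
      rw [hE]
      field_simp
    rw [h3]
    refine mul_le_mul_of_nonneg_right ?_ (Real.exp_pos _).le
    have h4 : Real.exp (-X) * Real.sinh (Real.pi * t) ≤ 1 := by
      have h5 : Real.sinh (Real.pi * t) ≤ Real.exp (Real.pi * t) := by
        rw [Real.sinh_eq]
        have := Real.exp_pos (-(Real.pi * t))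
        have := Real.exp_pos (Real.pi * t)
        linarith
      have h6 : Real.exp (Real.pi * t) ≤ Real.exp X := by
        refine Real.exp_le_exp.2 ?_
        have := Real.pi_le_four
        nlinarith
      calc Real.exp (-X) * Real.sinh (Real.pi * t) ≤ Real.exp (-X) * Real.exp X := by
            gcongr
            exact h5.trans h6
        _ = 1 := by rw [← Real.exp_add]; simp
    have h7 : Real.exp (-X) ≤ 1 / Real.sinh (Real.pi * t) := by
      rw [le_div_iff₀ hsh]
      exact h4
    have h8 : Real.pi / (2 * X ^ 2) ≤ Real.pi := by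
      refine div_le_self hp.le ?_
      nlinarith
    calc Real.pi / (2 * X ^ 2) * Real.exp (-X)
        ≤ Real.pi * (1 / Real.sinh (Real.pi * t)) := by gcongr
      _ = _ := by ring

end

end Pool.Agent.A54.Th
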