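import Pool.Agent.Lib.MP_a54f13_nt.Th.Spec
import Pool.Agent.Lib.MP_a54f13_nt.Av.RS

/-!
# Package `Th`, module LSv: a large sieve inequality for short sums of Hecke eigenvalues
-/

set_option autoImplicit false

namespace Pool.Agent.A54.Th

open MeasureTheory Filter Topology Set
open scoped ContDiff ComplexConjugate UpperHalfPlane MatrixGroups ENNReal
open Pool.Agent.A54.Half (H0 qq ff hh)
open Pool.Agent.A54.Av (Fam wf an IsRho KB KB1 ee)
open Pool.Agent.A54.Av.RSM (bf e0 e0_pos bf_deriv bf_cont ext_coe' ext_per cont_f cont_ee int_sq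
  strip besselC)

noncomputable section

namespace LSvM

theorem norm_een (n : ℤ) (x : ℝ) : ‖ee (-((n : ℂ) * (x : ℂ)))‖ = 1 := by
  unfold ee
  have : 2 * (Real.pi : ℂ) * Complex.I * (-((n : ℂ) * (x : ℂ))) =
      ((-(2 * Real.pi * n * x) : ℝ) : ℂ) * Complex.I := by
    push_cast
    ring
  rw [this, Complex.norm_exp_ofReal_mul_I]

/-- the test functions -/
def TF (n : ℤ) (y0 w : ℝ) (z : ℍ) : ℂ := open Classical in
  if y0 < z.im ∧ z.im ≤ y0 + w then
    (z.im ^ 2 : ℝ) • ee (-((n : ℂ) * (((z : ℂ).re : ℝ) : ℂ))) else 0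

theorem TF_meas (n : ℤ) (y0 w : ℝ) : Measurable (TF n y0 w) := by
  classical
  have h1 : Measurable (fun z : ℍ => (z.im ^ 2 : ℝ) •
      ee (-((n : ℂ) * (((z : ℂ).re : ℝ) : ℂ)))) := by
    refine Continuous.measurable ?_
    refine (UpperHalfPlane.continuous_im.pow 2).smul (cont_ee.comp ?_)
    refine (continuous_const.mul ?_).neg
    exact Complex.continuous_ofReal.comp (Complex.continuous_re.comp UpperHalfPlane.continuous_coe)
  have h2 : MeasurableSet {z : ℍ | y0 < z.im ∧ z.im ≤ y0 + w} :=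
    (measurableSet_lt measurable_const UpperHalfPlane.continuous_im.measurable).inter
      (measurableSet_le UpperHalfPlane.continuous_im.measurable measurable_const)
  exact Measurable.ite h2 h1 measurable_const

theorem int_TF (n : ℤ) (y0 w : ℝ) (h1 : 1 ≤ y0) (hw : 0 ≤ w) :
    ∫ z in ModularGroup.fdo, ‖TF n y0 w z‖ ^ 2 = ((y0 + w) ^ 3 - y0 ^ 3) / 3 := by
  classical
  have h2 := strip (fun z : ℂ => (z.im ^ 2 : ℝ)) y0 w h1 hw
    (Complex.continuous_im.pow 2).continuousOn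
  have h3 : ∀ z : ℍ, ‖TF n y0 w z‖ ^ 2 =
      if y0 < z.im ∧ z.im ≤ y0 + w then (z.im ^ 2 : ℝ) • (((z : ℂ).im ^ 2 : ℝ)) else 0 := by
    intro z
    unfold TF
    split_ifs with hz
    · rw [norm_smul, norm_een, mul_one, Real.norm_eq_abs, abs_of_nonneg (sq_nonneg _), smul_eq_mul,
        UpperHalfPlane.coe_im]
      ring
    · simp
  simp_rw [h3]
  rw [h2]
  have h4 : ∀ y : ℝ, ∫ x in (-(1 / 2 : ℝ))..(1 / 2), ((⟨x, y⟩ : ℂ).im ^ 2 : ℝ) = y ^ 2 := by
    intro y
    show ∫ _x in (-(1 / 2 : ℝ))..(1 / 2), (y ^ 2 : ℝ) = y ^ 2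
    rw [intervalIntegral.integral_const, smul_eq_mul]
    ring
  simp_rw [h4]
  rw [integral_pow]
  norm_num

theorem TF_int (n : ℤ) (y0 w : ℝ) (h1 : 1 ≤ y0) (hw : 0 < w) :
    Integrable (fun z => ‖TF n y0 w z‖ ^ 2) (volume.restrict ModularGroup.fdo) := by
  by_contra hcon
  have h3 := integral_undef hcon
  rw [int_TF n y0 w h1 hw.le] at h3
  have h4 : 0 < (y0 + w) ^ 3 - y0 ^ 3 := by
    have e1 : (y0 + w) ^ 3 - y0 ^ 3 = w * (3 * y0 ^ 2 + 3 * y0 * w + w ^ 2) := by ring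
    rw [e1]
    positivity
  linarith

theorem int_FTF {f : ℍ → ℝ} {t : ℝ} (hf : IsHeckeMaass f t) (n : ℤ)
    (y0 w : ℝ) (h1 : 1 ≤ y0) (hw : 0 ≤ w) :
    ∫ z in ModularGroup.fdo, (f z : ℂ) * TF n y0 w z = ∫ y in y0..(y0 + w), an f n y := by
  classical
  have hc : ContinuousOn (fun z : ℂ => (ext f z : ℂ) *
      ee (-((n : ℂ) * ((z.re : ℝ) : ℂ)))) {z : ℂ | 0 < z.im} := by
    refine ContinuousOn.mul ?_ ?_
    · exact Complex.continuous_ofReal.comp_continuousOn hf.smooth.continuousOn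
    · refine (cont_ee.comp ?_).continuousOn
      exact (continuous_const.mul (Complex.continuous_ofReal.comp Complex.continuous_re)).neg
  have h2 := strip (fun z : ℂ => (ext f z : ℂ) * ee (-((n : ℂ) * ((z.re : ℝ) : ℂ)))) y0 w
    h1 hw hc
  have h3 : ∀ z : ℍ, (f z : ℂ) * TF n y0 w z =
      if y0 < z.im ∧ z.im ≤ y0 + w then (z.im ^ 2 : ℝ) •
        ((ext f (z : ℂ) : ℂ) * ee (-((n : ℂ) * (((z : ℂ).re : ℝ) : ℂ)))) else 0 := by
    intro z
    unfold TF
    split_ifs with hz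
    · rw [ext_coe', mul_smul_comm]
    · simp
  simp_rw [h3]
  rw [h2]
  refine intervalIntegral.integral_congr fun y hy => ?_
  rw [uIcc_of_le (by linarith)] at hy
  have hy0 : 0 < y := by linarith [hy.1]
  have hper : Function.Periodic (fun x : ℝ => (ext f ⟨x, y⟩ : ℂ) *
      ee (-((n : ℂ) * ((x : ℝ) : ℂ)))) 1 := by
    intro x
    show (ext f ⟨x + 1, y⟩ : ℂ) * ee (-((n : ℂ) * ((x + 1 : ℝ) : ℂ))) = _
    rw [ext_per hf hy0 x]
    congr 1
    unfold ee
    rw [Complex.exp_eq_exp_iff_exists_int]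
    refine ⟨-n, ?_⟩
    push_cast
    ring
  have h5 := hper.intervalIntegral_add_eq (-(1 / 2 : ℝ)) 0
  have e1 : -(1 / 2 : ℝ) + 1 = 1 / 2 := by norm_num
  rw [e1, zero_add] at h5
  show ∫ x in (-(1 / 2 : ℝ))..(1 / 2), (ext f ⟨x, y⟩ : ℂ) *
    ee (-((n : ℂ) * ((x : ℝ) : ℂ))) = _
  rw [h5]
  rfl

theorem int_FT {f : ℍ → ℝ} {t : ℝ} {ρ : ℂ} {l : ℕ → ℝ} (hf : IsHeckeMaass f t)
    (hρ : IsRho f t ρ) (hl : Lam f l) (n : ℕ) (hn : 1 ≤ n) (u0 w : ℝ) (h1 : (n : ℝ) ≤ u0)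
    (hw : 0 ≤ w) :
    ∫ z in ModularGroup.fdo, (f z : ℂ) * TF n (u0 / n) (w / n) z =
      ρ * ((l n / √n / n : ℝ) : ℂ) * ((∫ u in u0..(u0 + w), bf t u : ℝ) : ℂ) := by
  have hn0 : (0 : ℝ) < n := by exact_mod_cast hn
  rw [int_FTF hf n (u0 / n) (w / n) (by rw [le_div_iff₀ hn0]; linarith) (by positivity)]
  have e1 : ∀ y ∈ uIcc (u0 / n) (u0 / n + w / n), an f n y =
      ((l n / √n : ℝ) : ℂ) * (ρ * ((bf t (n * y) : ℝ) : ℂ)) := by
    intro y hy
    rw [uIcc_of_le (by have : 0 ≤ w / n := by positivity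
                       linarith)] at hy
    have hy0 : 0 < y := by
      have : 0 < u0 / n := by
        apply div_pos _ hn0
        linarith
      linarith [hy.1]
    have h2 := hl.coef n hn y hy0
    rw [show ((n : ℤ)) = ((n : ℕ) : ℤ) from rfl, h2, hρ.2 (n * y) (by positivity)]
    rfl
  rw [intervalIntegral.integral_congr e1]
  rw [intervalIntegral.integral_const_mul, intervalIntegral.integral_const_mul,
    intervalIntegral.integral_ofReal]
  have h3 := intervalIntegral.integral_comp_mul_left (a := u0 / n) (b := u0 / n + w / n) (bf t)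
    (c := (n : ℝ)) hn0.ne'
  rw [h3]
  have e2 : (n : ℝ) * (u0 / n) = u0 := by field_simp
  have e3 : (n : ℝ) * (u0 / n + w / n) = u0 + w := by field_simp
  rw [e2, e3, smul_eq_mul]
  push_cast
  ring

theorem int_ee (k : ℤ) (hk : k ≠ 0) :
    ∫ x in (-(1 / 2 : ℝ))..(1 / 2), ee (-((k : ℂ) * (x : ℂ))) = 0 := by
  have hc : -(2 * (Real.pi : ℂ) * Complex.I * k) ≠ 0 := by
    rw [neg_ne_zero]
    refine mul_ne_zero (mul_ne_zero (mul_ne_zero two_ne_zero ?_) Complex.I_ne_zero) ?_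
    · exact_mod_cast Real.pi_ne_zero
    · exact_mod_cast hk
  have h1 : ∀ x : ℝ, ee (-((k : ℂ) * (x : ℂ))) =
      Complex.exp (-(2 * (Real.pi : ℂ) * Complex.I * k) * x) := by
    intro x
    unfold ee
    congr 1
    ring
  simp_rw [h1]
  rw [integral_exp_mul_complex hc]
  have h2 : Complex.exp (-(2 * (Real.pi : ℂ) * Complex.I * k) * ((1 / 2 : ℝ) : ℂ)) =
      Complex.exp (-(2 * (Real.pi : ℂ) * Complex.I * k) * ((-(1 / 2) : ℝ) : ℂ)) := by
    rw [Complex.exp_eq_exp_iff_exists_int]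
    refine ⟨-k, ?_⟩
    push_cast
    ring
  rw [h2, sub_self, zero_div]

theorem cross (n m : ℤ) (hnm : n ≠ m) (a b a' b' : ℝ) (ha : 1 ≤ a) :
    ∫ z in ModularGroup.fdo, TF n a b z * conj (TF m a' b' z) = 0 := by
  classical
  have hcase : ∀ z : ℍ, TF n a b z * conj (TF m a' b' z) =
      if max a a' < z.im ∧ z.im ≤ max a a' + (min (a + b) (a' + b') - max a a') then
        (z.im ^ 2 : ℝ) • (((z : ℂ).im ^ 2 : ℝ) •
          ee (-((((n - m : ℤ)) : ℂ) * (((z : ℂ).re : ℝ) : ℂ)))) else 0 := by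
    intro z
    have hiff : (max a a' < z.im ∧ z.im ≤ max a a' + (min (a + b) (a' + b') - max a a')) ↔
        ((a < z.im ∧ z.im ≤ a + b) ∧ (a' < z.im ∧ z.im ≤ a' + b')) := by
      rw [show max a a' + (min (a + b) (a' + b') - max a a') = min (a + b) (a' + b') by ring,
        max_lt_iff, le_min_iff]
      tauto
    unfold TF
    by_cases hz : (a < z.im ∧ z.im ≤ a + b) ∧ (a' < z.im ∧ z.im ≤ a' + b')
    · rw [if_pos hz.1, if_pos hz.2, if_pos (hiff.mpr hz)]
      have h1 : conj ((z.im ^ 2 : ℝ) • ee (-((m : ℂ) * (((z : ℂ).re : ℝ) : ℂ)))) =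
          (z.im ^ 2 : ℝ) • ee (((m : ℂ) * (((z : ℂ).re : ℝ) : ℂ))) := by
        rw [Complex.real_smul, map_mul, Complex.conj_ofReal, Complex.real_smul]
        congr 1
        unfold ee
        rw [← Complex.exp_conj]
        congr 1
        simp only [map_mul, map_neg, Complex.conj_I, Complex.conj_ofReal, map_intCast, map_ofNat]
        ring
      rw [h1]
      have h2 : ee (-((((n - m : ℤ)) : ℂ) * (((z : ℂ).re : ℝ) : ℂ))) =
          ee (-((n : ℂ) * (((z : ℂ).re : ℝ) : ℂ))) * ee (((m : ℂ) * (((z : ℂ).re : ℝ) : ℂ))) := by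
        unfold ee
        rw [← Complex.exp_add]
        congr 1
        push_cast
        ring
      rw [h2, UpperHalfPlane.coe_im, Complex.real_smul, Complex.real_smul, Complex.real_smul,
        Complex.real_smul]
      ring
    · rw [if_neg (fun h => hz (hiff.mp h))]
      by_cases h1 : a < z.im ∧ z.im ≤ a + b
      · have h2 : ¬(a' < z.im ∧ z.im ≤ a' + b') := fun h => hz ⟨h1, h⟩
        rw [if_neg h2, map_zero, mul_zero]
      · rw [if_neg h1, zero_mul]
  simp_rw [hcase]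
  by_cases hle : max a a' ≤ min (a + b) (a' + b')
  · have hc : ContinuousOn (fun z : ℂ => ((z.im ^ 2 : ℝ) •
        ee (-((((n - m : ℤ)) : ℂ) * ((z.re : ℝ) : ℂ))))) {z : ℂ | 0 < z.im} := by
      refine Continuous.continuousOn ?_
      refine (Complex.continuous_im.pow 2).smul (cont_ee.comp ?_)
      exact (continuous_const.mul (Complex.continuous_ofReal.comp Complex.continuous_re)).neg
    have h2 := strip (fun z : ℂ => ((z.im ^ 2 : ℝ) •
        ee (-((((n - m : ℤ)) : ℂ) * ((z.re : ℝ) : ℂ))))) (max a a')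
        (min (a + b) (a' + b') - max a a') (le_trans ha (le_max_left _ _)) (by linarith) hc
    rw [h2]
    have h3 : ∀ y : ℝ, ∫ x in (-(1 / 2 : ℝ))..(1 / 2), (((⟨x, y⟩ : ℂ).im ^ 2 : ℝ) •
        ee (-((((n - m : ℤ)) : ℂ) * ((((⟨x, y⟩ : ℂ).re : ℝ)) : ℂ)))) = 0 := by
      intro y
      show ∫ x in (-(1 / 2 : ℝ))..(1 / 2), ((y ^ 2 : ℝ) •
        ee (-((((n - m : ℤ)) : ℂ) * ((x : ℝ) : ℂ)))) = 0
      rw [intervalIntegral.integral_smul, int_ee (n - m) (sub_ne_zero.mpr hnm), smul_zero]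
    simp_rw [h3]
    simp
  · have h4 : ∀ z : ℍ, (if max a a' < z.im ∧ z.im ≤ max a a' + (min (a + b) (a' + b') - max a a')
        then (z.im ^ 2 : ℝ) • (((z : ℂ).im ^ 2 : ℝ) •
          ee (-((((n - m : ℤ)) : ℂ) * (((z : ℂ).re : ℝ) : ℂ)))) else 0) = 0 := by
      intro z
      rw [if_neg]
      rintro ⟨h5, h6⟩
      apply hle
      linarith
    simp_rw [h4]
    simp

/-- bound of the derivative -/
theorem bfb (hKbE : StmtKbE) {t M : ℝ} (ht : 100 ≤ t) (hM : 1 ≤ M) {y : ℝ} (hy1 : M ≤ y)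
    (hy2 : 2 * Real.pi * y ≤ t / 2) :
    |1 / (2 * √y) * KB t (2 * Real.pi * y) +
      √y * (KB1 t (2 * Real.pi * y) * (2 * Real.pi))| ≤ 101 / 100 * √(e0 t) / √M := by
  have hpi := Real.pi_pos
  have hy0 : 0 < y := by linarith
  have hX : 0 < 2 * Real.pi * y := by positivity
  obtain ⟨k1, k2⟩ := (hKbE t ht).1 (2 * Real.pi * y) hX hy2
  have he : 0 < e0 t := e0_pos (by linarith)
  set s := √(e0 t) with hs
  have hs0 : 0 ≤ s := Real.sqrt_nonneg _
  have hs2 : s ^ 2 = e0 t := Real.sq_sqrt he.le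
  have k1' : KB t (2 * Real.pi * y) ^ 2 ≤ (s / 50) ^ 2 := by
    refine k1.trans ?_
    show 2 / t ^ 2 * e0 t ≤ _
    rw [div_pow, hs2]
    have h1 : 2 / t ^ 2 ≤ 1 / 50 ^ 2 := by
      rw [div_le_div_iff₀ (by positivity) (by norm_num)]
      nlinarith
    calc 2 / t ^ 2 * e0 t ≤ 1 / 50 ^ 2 * e0 t := mul_le_mul_of_nonneg_right h1 he.le
      _ = e0 t / 50 ^ 2 := by ring
  have k1a : |KB t (2 * Real.pi * y)| ≤ s / 50 := abs_le_of_sq_le_sq k1' (by positivity)
  have k2a : |2 * Real.pi * y * KB1 t (2 * Real.pi * y)| ≤ s := by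
    refine abs_le_of_sq_le_sq ?_ hs0
    rw [hs2]
    exact k2
  have hsM : 1 ≤ √M := by
    rw [Real.one_le_sqrt]
    exact hM
  have hsM0 : 0 < √M := by linarith
  have hsq1 : √M ≤ √y := Real.sqrt_le_sqrt hy1
  have hsqy : √y * √y = y := Real.mul_self_sqrt (by linarith)
  have hsy0 : 0 < √y := by linarith
  have h2 : |1 / (2 * √y) * KB t (2 * Real.pi * y)| ≤ s / 100 / √M := by
    rw [abs_mul, abs_of_pos (by positivity)]
    have h3 : 1 / (2 * √y) ≤ 1 / (2 * √M) := by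
      apply one_div_le_one_div_of_le (by positivity)
      linarith
    calc 1 / (2 * √y) * |KB t (2 * Real.pi * y)| ≤ 1 / (2 * √M) * (s / 50) :=
          mul_le_mul h3 k1a (abs_nonneg _) (by positivity)
      _ = s / 100 / √M := by
          field_simp
          ring
  have h4 : |√y * (KB1 t (2 * Real.pi * y) * (2 * Real.pi))| ≤ s / √M := by
    have h5 : 2 * Real.pi * y * KB1 t (2 * Real.pi * y) =
        √y * (√y * (KB1 t (2 * Real.pi * y) * (2 * Real.pi))) := by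
      rw [← mul_assoc, hsqy]
      ring
    rw [h5, abs_mul, abs_of_nonneg hsy0.le] at k2a
    rw [le_div_iff₀ hsM0]
    have h6 : √M * |√y * (KB1 t (2 * Real.pi * y) * (2 * Real.pi))| ≤
        √y * |√y * (KB1 t (2 * Real.pi * y) * (2 * Real.pi))| :=
      mul_le_mul_of_nonneg_right hsq1 (abs_nonneg _)
    linarith
  refine (abs_add_le _ _).trans ?_
  have e1 : 101 / 100 * s / √M = s / 100 / √M + s / √M := by
    field_simp
    ring
  rw [e1]
  exact add_le_add h2 h4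

theorem bfi (hKBf : Av.StmtKBf) (hKbE : StmtKbE) {t M : ℝ} (ht : 100 ≤ t) (hM : 1 ≤ M) {y0 w : ℝ}
    (h1 : M ≤ y0) (hw : 0 < w) (hy2 : 2 * Real.pi * (y0 + w) ≤ t / 2) :
    1 / 2 * (w ^ 2 * bf t y0 ^ 2) - 10201 / 10000 * (e0 t / M) * w ^ 4 ≤
      (∫ y in y0..(y0 + w), bf t y) ^ 2 := by
  have hpi := Real.pi_pos
  have he : 0 < e0 t := e0_pos (by linarith)
  have hM0 : 0 < M := by linarith
  have hsub : ∀ y ∈ Icc y0 (y0 + w), 0 < y := fun y hy => by linarith [hy.1]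
  set K : ℝ := 101 / 100 * √(e0 t) / √M with hK
  have hmvt : ∀ y ∈ Icc y0 (y0 + w), ‖bf t y - bf t y0‖ ≤ K * w := by
    intro y hy
    have h3 := Convex.norm_image_sub_le_of_norm_hasDerivWithin_le (f := bf t)
      (fun x hx => (bf_deriv hKBf t (hsub x hx)).hasDerivWithinAt)
      (fun x hx => by
        rw [Real.norm_eq_abs]
        refine bfb hKbE ht hM (le_trans h1 hx.1) ?_
        have : 2 * Real.pi * x ≤ 2 * Real.pi * (y0 + w) :=
          mul_le_mul_of_nonneg_left hx.2 (by positivity)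
        linarith)
      (convex_Icc y0 (y0 + w)) (x := y0) (y := y) ⟨le_refl _, by linarith⟩ hy
    refine h3.trans (mul_le_mul_of_nonneg_left ?_ (by positivity))
    rw [Real.norm_eq_abs, abs_of_nonneg (by linarith [hy.1])]
    linarith [hy.2]
  have hint : IntervalIntegrable (bf t) volume y0 (y0 + w) := by
    refine ContinuousOn.intervalIntegrable ((bf_cont hKBf t).mono ?_)
    intro y hy
    rw [uIcc_of_le (by linarith)] at hy
    exact lt_of_lt_of_le (by linarith) hy.1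
  have hD : |(∫ y in y0..(y0 + w), bf t y) - w * bf t y0| ≤ K * w * w := by
    have e1 : (∫ y in y0..(y0 + w), bf t y) - w * bf t y0 =
        ∫ y in y0..(y0 + w), (bf t y - bf t y0) := by
      rw [intervalIntegral.integral_sub hint intervalIntegrable_const,
        intervalIntegral.integral_const, smul_eq_mul]
      ring
    rw [e1, ← Real.norm_eq_abs]
    have h4 := intervalIntegral.norm_integral_le_of_norm_le_const
      (a := y0) (b := y0 + w) (f := fun y => bf t y - bf t y0) (C := K * w)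
      (fun y hy => hmvt y (by
        rw [uIoc_of_le (by linarith)] at hy
        exact ⟨hy.1.le, hy.2⟩))
    have e2 : |y0 + w - y0| = w := by
      rw [abs_of_nonneg (by linarith)]
      ring
    rw [e2] at h4
    exact h4
  have hD2 : ((∫ y in y0..(y0 + w), bf t y) - w * bf t y0) ^ 2 ≤
      10201 / 10000 * (e0 t / M) * w ^ 4 := by
    have h5 := sq_le_sq' (by linarith [(abs_le.mp hD).1]) (abs_le.mp hD).2
    refine h5.trans (le_of_eq ?_)
    have e3 : √(e0 t) ^ 2 = e0 t := Real.sq_sqrt he.le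
    have e4 : √M ^ 2 = M := Real.sq_sqrt hM0.le
    have e5 : K ^ 2 = 10201 / 10000 * (e0 t / M) := by
      rw [hK, div_pow, mul_pow, e3, e4]
      ring
    calc (K * w * w) ^ 2 = K ^ 2 * w ^ 4 := by ring
      _ = _ := by rw [e5]
  set B := ∫ y in y0..(y0 + w), bf t y with hB
  nlinarith [sq_nonneg (2 * B - w * bf t y0), hD2]

theorem bfs (hKBf : Av.StmtKBf) (hKbE : StmtKbE) {t M : ℝ} (ht : 100 ≤ t) (hM : 1 ≤ M)
    (h8 : 8 * Real.pi * M ≤ t) :
    e0 t * M ^ 2 / (5 * t ^ 2) ≤ ∫ y in M..(2 * M), bf t y ^ 2 := by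
  have hpi := Real.pi_pos
  have hM0 : 0 < M := by linarith
  have h1 := (hKbE t ht).2.1 (2 * Real.pi * M) (by positivity) (by linarith)
  have h2 := intervalIntegral.integral_comp_mul_left (a := M) (b := 2 * M)
    (fun X => KB t X ^ 2 / X) (c := 2 * Real.pi) (by positivity)
  have e1 : 2 * Real.pi * (2 * M) = 2 * (2 * Real.pi * M) := by ring
  rw [e1, smul_eq_mul] at h2
  have hcont : ContinuousOn (fun y : ℝ => KB t (2 * Real.pi * y)) (uIcc M (2 * M)) := by
    intro y hy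
    rw [uIcc_of_le (by linarith)] at hy
    have hy0 : 0 < y := by linarith [hy.1]
    have h3 := (hKBf t).1 (2 * Real.pi * y) (by positivity)
    have h4 : HasDerivAt (fun y : ℝ => 2 * Real.pi * y) (2 * Real.pi) y := by
      simpa using (hasDerivAt_id y).const_mul (2 * Real.pi)
    exact (HasDerivAt.comp y h3 h4).continuousAt.continuousWithinAt
  have hne : ∀ y ∈ uIcc M (2 * M), y ≠ 0 := by
    intro y hy
    rw [uIcc_of_le (by linarith)] at hy
    have : 0 < y := by linarith [hy.1]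
    exact this.ne'
  have hi1 : IntervalIntegrable (fun y : ℝ => M ^ 2 * (KB t (2 * Real.pi * y) ^ 2 / y)) volume
      M (2 * M) :=
    (((hcont.pow 2).div continuousOn_id hne).intervalIntegrable).const_mul _
  have hi2 : IntervalIntegrable (fun y : ℝ => bf t y ^ 2) volume M (2 * M) := by
    refine ContinuousOn.intervalIntegrable (((bf_cont hKBf t).mono ?_).pow 2)
    intro y hy
    rw [uIcc_of_le (by linarith)] at hy
    exact lt_of_lt_of_le hM0 hy.1
  have h5 : ∫ y in M..(2 * M), M ^ 2 * (KB t (2 * Real.pi * y) ^ 2 / y) ≤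
      ∫ y in M..(2 * M), bf t y ^ 2 := by
    refine intervalIntegral.integral_mono_on (by linarith) hi1 hi2 ?_
    intro y hy
    have hy0 : 0 < y := by linarith [hy.1]
    unfold bf
    rw [mul_pow, Real.sq_sqrt hy0.le]
    have h6 : M ^ 2 * (KB t (2 * Real.pi * y) ^ 2 / y) =
        (M ^ 2 / y) * KB t (2 * Real.pi * y) ^ 2 := by ring
    rw [h6]
    refine mul_le_mul_of_nonneg_right ?_ (sq_nonneg _)
    rw [div_le_iff₀ hy0]
    nlinarith [hy.1]
  have h7 : ∫ y in M..(2 * M), KB t (2 * Real.pi * y) ^ 2 / y =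
      2 * Real.pi * ∫ y in M..(2 * M), KB t (2 * Real.pi * y) ^ 2 / (2 * Real.pi * y) := by
    rw [← intervalIntegral.integral_const_mul]
    refine intervalIntegral.integral_congr fun y hy => ?_
    have hy' := hne y hy
    have hpi' := hpi.ne'
    show KB t (2 * Real.pi * y) ^ 2 / y =
      2 * Real.pi * (KB t (2 * Real.pi * y) ^ 2 / (2 * Real.pi * y))
    field_simp
  have h9 : ∫ y in M..(2 * M), KB t (2 * Real.pi * y) ^ 2 / y =
      ∫ X in (2 * Real.pi * M)..(2 * (2 * Real.pi * M)), KB t X ^ 2 / X := by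
    rw [h7, h2]
    have : 2 * Real.pi ≠ 0 := by positivity
    field_simp
  rw [intervalIntegral.integral_const_mul, h9] at h5
  refine le_trans ?_ h5
  have h10 : e0 t * M ^ 2 / (5 * t ^ 2) =
      M ^ 2 * ((Real.pi * t / Real.sinh (Real.pi * t)) / (5 * t ^ 2)) := by
    unfold e0
    ring
  rw [h10]
  exact mul_le_mul_of_nonneg_left h1 (by positivity)

/-- the test function -/
def PS (A : Finset ℕ) (u0 w : ℝ) (z : ℍ) : ℂ :=
  ∑ n ∈ A, (((n : ℝ) * √n : ℝ) : ℂ) * TF n (u0 / n) (w / n) z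

theorem PS_meas (A : Finset ℕ) (u0 w : ℝ) : Measurable (PS A u0 w) := by
  unfold PS
  exact Finset.measurable_fun_sum _ fun n _ => (TF_meas n (u0 / n) (w / n)).const_mul _

theorem mul_int {g h : ℍ → ℂ} (hg : Measurable g) (hh : Measurable h)
    (ig : Integrable (fun z => ‖g z‖ ^ 2) (volume.restrict ModularGroup.fdo))
    (ih : Integrable (fun z => ‖h z‖ ^ 2) (volume.restrict ModularGroup.fdo)) :
    Integrable (fun z => g z * h z) (volume.restrict ModularGroup.fdo) := by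
  refine Integrable.mono' (ig.add ih) (hg.mul hh).aestronglyMeasurable
    (Eventually.of_forall fun z => ?_)
  rw [norm_mul]
  simp only [Pi.add_apply]
  nlinarith [sq_nonneg (‖g z‖ - ‖h z‖), sq_nonneg ‖g z‖, sq_nonneg ‖h z‖]

theorem PS_sq (A : Finset ℕ) (u0 w : ℝ) (hA : ∀ n ∈ A, 1 ≤ n ∧ (n : ℝ) ≤ u0) (hw : 0 < w) :
    Integrable (fun z => ‖PS A u0 w z‖ ^ 2) (volume.restrict ModularGroup.fdo) ∧
    ∫ z in ModularGroup.fdo, ‖PS A u0 w z‖ ^ 2 = A.card * (((u0 + w) ^ 3 - u0 ^ 3) / 3) := by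
  have hn0 : ∀ n ∈ A, (0 : ℝ) < n := fun n hn => by exact_mod_cast (hA n hn).1
  have hu : ∀ n ∈ A, 1 ≤ u0 / n := fun n hn => by
    rw [le_div_iff₀ (hn0 n hn)]; linarith [(hA n hn).2]
  have hw' : ∀ n ∈ A, 0 < w / n := fun n hn => div_pos hw (hn0 n hn)
  have hTi : ∀ n ∈ A, Integrable (fun z => ‖TF n (u0 / n) (w / n) z‖ ^ 2)
      (volume.restrict ModularGroup.fdo) := fun n hn => TF_int n _ _ (hu n hn) (hw' n hn)
  have hmm : ∀ n ∈ A, ∀ m ∈ A, Integrable (fun z => TF n (u0 / n) (w / n) z *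
      conj (TF m (u0 / m) (w / m) z)) (volume.restrict ModularGroup.fdo) := by
    intro n hn m hm
    refine mul_int (TF_meas _ _ _) (Complex.continuous_conj.measurable.comp (TF_meas _ _ _))
      (hTi n hn) ?_
    have : (fun z => ‖conj (TF m (u0 / m) (w / m) z)‖ ^ 2) =
        fun z => ‖TF m (u0 / m) (w / m) z‖ ^ 2 := by
      funext z
      rw [RCLike.norm_conj]
    rw [this]
    exact hTi m hm
  have hexp : ∀ z, ((‖PS A u0 w z‖ ^ 2 : ℝ) : ℂ) = ∑ n ∈ A, ∑ m ∈ A,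
      ((((n : ℝ) * √n : ℝ) : ℂ) * (((m : ℝ) * √m : ℝ) : ℂ)) * (TF n (u0 / n) (w / n) z *
        conj (TF m (u0 / m) (w / m) z)) := by
    intro z
    have h1 : ((‖PS A u0 w z‖ ^ 2 : ℝ) : ℂ) = PS A u0 w z * conj (PS A u0 w z) := by
      rw [Complex.mul_conj, Complex.normSq_eq_norm_sq]
    rw [h1]
    unfold PS
    rw [map_sum, Finset.sum_mul_sum]
    refine Finset.sum_congr rfl fun n _ => Finset.sum_congr rfl fun m _ => ?_
    rw [map_mul, Complex.conj_ofReal]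
    ring
  have hI : Integrable (fun z => ((‖PS A u0 w z‖ ^ 2 : ℝ) : ℂ))
      (volume.restrict ModularGroup.fdo) := by
    simp_rw [hexp]
    exact integrable_finsetSum _ fun n hn => integrable_finsetSum _ fun m hm =>
      (hmm n hn m hm).const_mul _
  refine ⟨?_, ?_⟩
  · have h0 := hI.re
    have e0 : (fun z => RCLike.re ((‖PS A u0 w z‖ ^ 2 : ℝ) : ℂ)) = fun z => ‖PS A u0 w z‖ ^ 2 := by
      funext z
      exact Complex.ofReal_re _
    rw [e0] at h0
    exact h0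
  · have hsum : ∫ z in ModularGroup.fdo, ((‖PS A u0 w z‖ ^ 2 : ℝ) : ℂ) =
        ((A.card * (((u0 + w) ^ 3 - u0 ^ 3) / 3) : ℝ) : ℂ) := by
      simp_rw [hexp]
      rw [integral_finsetSum _ (fun n hn => integrable_finsetSum _ fun m hm =>
        (hmm n hn m hm).const_mul _)]
      have hterm : ∀ n ∈ A, ∫ z in ModularGroup.fdo, ∑ m ∈ A,
          ((((n : ℝ) * √n : ℝ) : ℂ) * (((m : ℝ) * √m : ℝ) : ℂ)) * (TF n (u0 / n) (w / n) z *
            conj (TF m (u0 / m) (w / m) z)) = ((((u0 + w) ^ 3 - u0 ^ 3) / 3 : ℝ) : ℂ) := by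
        intro n hn
        rw [integral_finsetSum _ (fun m hm => (hmm n hn m hm).const_mul _),
          Finset.sum_eq_single n]
        · rw [integral_const_mul]
          have h1 : ∀ z, TF n (u0 / n) (w / n) z * conj (TF n (u0 / n) (w / n) z) =
              ((‖TF n (u0 / n) (w / n) z‖ ^ 2 : ℝ) : ℂ) := by
            intro z
            rw [Complex.mul_conj, Complex.normSq_eq_norm_sq]
          simp_rw [h1]
          rw [integral_complex_ofReal, int_TF n (u0 / n) (w / n) (hu n hn) (hw' n hn).le]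
          have hnn := hn0 n hn
          rw [← Complex.ofReal_mul, ← Complex.ofReal_mul]
          congr 1
          have hsq : √(n : ℝ) * √(n : ℝ) = n := Real.mul_self_sqrt hnn.le
          have e1 : (n : ℝ) * √n * (n * √n) = n ^ 3 := by
            calc (n : ℝ) * √n * (n * √n) = n ^ 2 * (√(n : ℝ) * √n) := by ring
              _ = n ^ 3 := by rw [hsq]; ring
          rw [e1]
          field_simp
        · intro m hm hmn
          rw [integral_const_mul, cross (n : ℤ) (m : ℤ) (by exact_mod_cast (Ne.symm hmn)) _ _ _ _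
            (hu n hn), mul_zero]
        · intro h
          exact absurd hn h
      rw [Finset.sum_congr rfl hterm, Finset.sum_const, nsmul_eq_mul]
      push_cast
      ring
    rw [integral_complex_ofReal] at hsum
    exact_mod_cast hsum

theorem int_FPS {f : ℍ → ℝ} {t : ℝ} {ρ : ℂ} {l : ℕ → ℝ} (hf : IsHeckeMaass f t)
    (hρ : IsRho f t ρ) (hl : Lam f l) (A : Finset ℕ) (u0 w : ℝ)
    (hA : ∀ n ∈ A, 1 ≤ n ∧ (n : ℝ) ≤ u0) (hw : 0 < w) :
    ∫ z in ModularGroup.fdo, (f z : ℂ) * PS A u0 w z =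
      ρ * ((∑ n ∈ A, l n : ℝ) : ℂ) * ((∫ u in u0..(u0 + w), bf t u : ℝ) : ℂ) := by
  have hn0 : ∀ n ∈ A, (0 : ℝ) < n := fun n hn => by exact_mod_cast (hA n hn).1
  have hu : ∀ n ∈ A, 1 ≤ u0 / n := fun n hn => by
    rw [le_div_iff₀ (hn0 n hn)]; linarith [(hA n hn).2]
  have hw' : ∀ n ∈ A, 0 < w / n := fun n hn => div_pos hw (hn0 n hn)
  have hfm : Measurable (fun z : ℍ => (f z : ℂ)) :=
    Complex.measurable_ofReal.comp (cont_f hf).measurable
  have hfi : Integrable (fun z : ℍ => ‖(f z : ℂ)‖ ^ 2) (volume.restrict ModularGroup.fdo) := by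
    have : (fun z : ℍ => ‖(f z : ℂ)‖ ^ 2) = fun z => f z ^ 2 := by
      funext z
      rw [Complex.norm_real, Real.norm_eq_abs, sq_abs]
    rw [this]
    exact int_sq hf
  have h1 : ∀ z : ℍ, (f z : ℂ) * PS A u0 w z = ∑ n ∈ A, (((n : ℝ) * √n : ℝ) : ℂ) *
      ((f z : ℂ) * TF n (u0 / n) (w / n) z) := by
    intro z
    unfold PS
    rw [Finset.mul_sum]
    refine Finset.sum_congr rfl fun n _ => ?_
    ring
  simp_rw [h1]
  rw [integral_finsetSum _ (fun (n : ℕ) (hn : n ∈ A) => ((mul_int hfm (TF_meas _ _ _) hfi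
    (TF_int (n : ℤ) _ _ (hu n hn) (hw' n hn))).const_mul _))]
  have h2 : ∀ n ∈ A, ∫ z in ModularGroup.fdo, (((n : ℝ) * √n : ℝ) : ℂ) *
      ((f z : ℂ) * TF n (u0 / n) (w / n) z) =
      ρ * ((l n : ℝ) : ℂ) * ((∫ u in u0..(u0 + w), bf t u : ℝ) : ℂ) := by
    intro n hn
    rw [integral_const_mul, int_FT hf hρ hl n (hA n hn).1 u0 w (hA n hn).2 hw.le]
    have hnn := hn0 n hn
    have e1 : (((n : ℝ) * √n : ℝ) : ℂ) * (ρ * ((l n / √n / n : ℝ) : ℂ) *
        ((∫ u in u0..(u0 + w), bf t u : ℝ) : ℂ)) =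
        ρ * (((n : ℝ) * √n * (l n / √n / n) : ℝ) : ℂ) *
          ((∫ u in u0..(u0 + w), bf t u : ℝ) : ℂ) := by
      push_cast
      ring
    rw [e1]
    congr 3
    have hs : √(n : ℝ) ≠ 0 := (Real.sqrt_pos.mpr hnn).ne'
    field_simp
  rw [Finset.sum_congr rfl h2, ← Finset.sum_mul, ← Finset.mul_sum]
  push_cast
  ring

theorem pointwise (hKBf : Av.StmtKBf) (hKbE : StmtKbE) {ι : Type} [Fintype ι] {F : ι → ℍ → ℝ}
    {t : ι → ℝ} {ρ : ι → ℂ} {l : ι → ℕ → ℝ} (hF : Fam ι F t ρ) (hl : ∀ i, Lam (F i) (l i))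
    (ht : ∀ i, 100 ≤ t i) {M u0 w : ℝ} (hM : 1 ≤ M) (h1 : M ≤ u0)
    (h2 : u0 ≤ 2 * M) (hw : 0 < w) (hwM : w ≤ M)
    (hy2 : ∀ i, 2 * Real.pi * (2 * M + w) ≤ t i / 2)
    (A : Finset ℕ) (hA : ∀ n ∈ A, 1 ≤ n ∧ (n : ℝ) ≤ M) :
    ∑ i, ‖ρ i‖ ^ 2 * (∑ n ∈ A, l i n) ^ 2 * (1 / 2 * (w ^ 2 * bf (t i) u0 ^ 2) -
      10201 / 10000 * (e0 (t i) / M) * w ^ 4) ≤ 3 * Real.pi * M ^ 2 * w * A.card := by
  have hpi := Real.pi_pos
  have hM0 : 0 < M := by linarith
  have hA' : ∀ n ∈ A, 1 ≤ n ∧ (n : ℝ) ≤ u0 := fun n hn => ⟨(hA n hn).1, le_trans (hA n hn).2 h1⟩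
  obtain ⟨hPi, hPe⟩ := PS_sq A u0 w hA' hw
  have hb := besselC (volume.restrict ModularGroup.fdo) F (PS A u0 w) (Real.pi / 3) (by positivity)
    (fun i => (cont_f (hF.form i)).aestronglyMeasurable) (PS_meas A u0 w).aestronglyMeasurable
    (fun i => int_sq (hF.form i)) hPi (fun i => (hF.form i).normalised)
    (fun i j hij => hF.orth i j hij)
  rw [hPe] at hb
  have h4 : Real.pi / 3 * (A.card * (((u0 + w) ^ 3 - u0 ^ 3) / 3)) ≤
      3 * Real.pi * M ^ 2 * w * A.card := by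
    have h5 : (u0 + w) ^ 3 - u0 ^ 3 ≤ 27 * M ^ 2 * w := by
      have e1 : (u0 + w) ^ 3 - u0 ^ 3 = w * (3 * u0 ^ 2 + 3 * u0 * w + w ^ 2) := by ring
      have e2 : 3 * u0 ^ 2 + 3 * u0 * w + w ^ 2 ≤ 27 * M ^ 2 := by nlinarith
      rw [e1]
      nlinarith
    have h6 : (0 : ℝ) ≤ A.card := Nat.cast_nonneg _
    calc Real.pi / 3 * (A.card * (((u0 + w) ^ 3 - u0 ^ 3) / 3))
        ≤ Real.pi / 3 * (A.card * ((27 * M ^ 2 * w) / 3)) := by gcongr
      _ = 3 * Real.pi * M ^ 2 * w * A.card := by ring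
  refine le_trans (Finset.sum_le_sum fun i _ => ?_) (hb.trans h4)
  rw [int_FPS (hF.form i) (hF.rho i) (hl i) A u0 w hA' hw, norm_mul, norm_mul, mul_pow, mul_pow,
    Complex.norm_real, Complex.norm_real, Real.norm_eq_abs, Real.norm_eq_abs, sq_abs, sq_abs]
  refine mul_le_mul_of_nonneg_left (bfi hKBf hKbE (ht i) hM h1 hw ?_) (by positivity)
  refine le_trans ?_ (hy2 i)
  refine mul_le_mul_of_nonneg_left ?_ (by positivity)
  linarith

theorem averaged (hKBf : Av.StmtKBf) (hKbE : StmtKbE) {ι : Type} [Fintype ι] {F : ι → ℍ → ℝ}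
    {t : ι → ℝ} {ρ : ι → ℂ} {l : ι → ℕ → ℝ} (hF : Fam ι F t ρ) (hl : ∀ i, Lam (F i) (l i))
    (ht : ∀ i, 100 ≤ t i) {M w : ℝ} (hM : 1 ≤ M) (hw : 0 < w) (hwM : w ≤ M)
    (hy2 : ∀ i, 2 * Real.pi * (2 * M + w) ≤ t i / 2) (h8 : ∀ i, 8 * Real.pi * M ≤ t i)
    (A : Finset ℕ) (hA : ∀ n ∈ A, 1 ≤ n ∧ (n : ℝ) ≤ M) :
    ∑ i, ‖ρ i‖ ^ 2 * (∑ n ∈ A, l i n) ^ 2 * (1 / 2 * (w ^ 2 * (e0 (t i) * M ^ 2 / (5 * t i ^ 2))) -
      10201 / 10000 * e0 (t i) * w ^ 4) ≤ 3 * Real.pi * M ^ 3 * w * A.card := by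
  have hM0 : 0 < M := by linarith
  have hint : ∀ i, IntervalIntegrable (fun y => bf (t i) y ^ 2) volume M (2 * M) := by
    intro i
    refine ContinuousOn.intervalIntegrable (((bf_cont hKBf (t i)).mono ?_).pow 2)
    intro y hy
    rw [uIcc_of_le (by linarith)] at hy
    exact lt_of_lt_of_le hM0 hy.1
  have hint2 : ∀ i, IntervalIntegrable (fun y => ‖ρ i‖ ^ 2 * (∑ n ∈ A, l i n) ^ 2 *
      (1 / 2 * (w ^ 2 * bf (t i) y ^ 2) - 10201 / 10000 * (e0 (t i) / M) * w ^ 4)) volume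
        M (2 * M) := fun i =>
    ((((hint i).const_mul (w ^ 2)).const_mul (1 / 2)).sub intervalIntegrable_const).const_mul _
  have h1 : ∫ y in M..(2 * M), ∑ i, ‖ρ i‖ ^ 2 * (∑ n ∈ A, l i n) ^ 2 *
      (1 / 2 * (w ^ 2 * bf (t i) y ^ 2) - 10201 / 10000 * (e0 (t i) / M) * w ^ 4) ≤
        ∫ _y in M..(2 * M), 3 * Real.pi * M ^ 2 * w * A.card := by
    refine intervalIntegral.integral_mono_on (by linarith) ?_ intervalIntegrable_const ?_
    · have hs := IntervalIntegrable.sum Finset.univ (fun i _ => hint2 i)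
      have he : (∑ i, fun y => ‖ρ i‖ ^ 2 * (∑ n ∈ A, l i n) ^ 2 *
          (1 / 2 * (w ^ 2 * bf (t i) y ^ 2) - 10201 / 10000 * (e0 (t i) / M) * w ^ 4)) =
            fun y => ∑ i, ‖ρ i‖ ^ 2 * (∑ n ∈ A, l i n) ^ 2 *
          (1 / 2 * (w ^ 2 * bf (t i) y ^ 2) - 10201 / 10000 * (e0 (t i) / M) * w ^ 4) := by
        funext y
        rw [Finset.sum_apply]
      rw [he] at hs
      exact hs
    · intro y hy
      exact pointwise hKBf hKbE hF hl ht hM hy.1 hy.2 hw hwM hy2 A hA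
  rw [intervalIntegral.integral_const, intervalIntegral.integral_finsetSum fun i _ => hint2 i] at h1
  have h2 : (2 * M - M : ℝ) • (3 * Real.pi * M ^ 2 * w * A.card) =
      3 * Real.pi * M ^ 3 * w * A.card := by
    rw [smul_eq_mul]
    ring
  rw [h2] at h1
  refine le_trans (Finset.sum_le_sum fun i _ => ?_) h1
  rw [intervalIntegral.integral_const_mul]
  refine mul_le_mul_of_nonneg_left ?_ (by positivity)
  rw [intervalIntegral.integral_sub (((hint i).const_mul (w ^ 2)).const_mul (1 / 2))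
    intervalIntegrable_const, intervalIntegral.integral_const_mul,
    intervalIntegral.integral_const_mul, intervalIntegral.integral_const, smul_eq_mul]
  have h3 := bfs hKBf hKbE (ht i) hM (h8 i)
  have h4 : 1 / 2 * (w ^ 2 * (e0 (t i) * M ^ 2 / (5 * t i ^ 2))) ≤
      1 / 2 * (w ^ 2 * ∫ y in M..(2 * M), bf (t i) y ^ 2) :=
    mul_le_mul_of_nonneg_left (mul_le_mul_of_nonneg_left h3 (sq_nonneg _)) (by norm_num)
  have h5 : (2 * M - M) * (10201 / 10000 * (e0 (t i) / M) * w ^ 4) =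
      10201 / 10000 * e0 (t i) * w ^ 4 := by
    field_simp
    ring
  rw [h5]
  linarith

end LSvM

open LSvM in
theorem stmtLSv (hKbE : StmtKbE) (_hKin : StmtKin) (hKBf : Av.StmtKBf) (_hDec : Av.StmtDec)
    (_hFo1 : Av.StmtFo1) : StmtLSv := by
  refine ⟨1200, by norm_num, ?_⟩
  intro ι _ F t ρ l T hF hl hT ht A hA
  have hpi := Real.pi_pos
  have hpi4 := Real.pi_lt_d2
  have hT0 : 0 < T := by linarith
  have ht100 : ∀ i, 100 ≤ t i := fun i => by linarith [(ht i).1]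
  set M : ℝ := T / 64 with hMdef
  have hM1 : 1 ≤ M := by rw [hMdef]; linarith
  have hM0 : 0 < M := by linarith
  set w : ℝ := 1 / 1280 with hw
  have hw0 : 0 < w := by rw [hw]; norm_num
  have hwM : w ≤ M := by rw [hw]; linarith
  have hy2 : ∀ i, 2 * Real.pi * (2 * M + w) ≤ t i / 2 := by
    intro i
    have h1 := (ht i).1
    have h2 : 2 * Real.pi * (2 * M + w) ≤ 2 * 3.15 * (2 * M + w) := by
      have : 0 ≤ 2 * M + w := by positivity
      nlinarith
    have h3 : 2 * 3.15 * (2 * M + w) ≤ T / 4 := by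
      rw [hMdef, hw]
      linarith
    linarith
  have h8 : ∀ i, 8 * Real.pi * M ≤ t i := by
    intro i
    have h1 := (ht i).1
    have h2 : 8 * Real.pi * M ≤ 8 * 3.15 * M := by nlinarith
    have h3 : 8 * 3.15 * M ≤ T / 2 := by
      rw [hMdef]
      linarith
    linarith
  have h1 := averaged hKBf hKbE hF hl ht100 hM1 hw0 hwM hy2 h8 A hA
  have h2 : ∀ i, w ^ 2 * Real.pi * M ^ 2 / (20 * T) *
      ((wf (t i) (ρ i))⁻¹ * (∑ n ∈ A, l i n) ^ 2) ≤
      ‖ρ i‖ ^ 2 * (∑ n ∈ A, l i n) ^ 2 * (1 / 2 * (w ^ 2 * (e0 (t i) * M ^ 2 / (5 * t i ^ 2))) -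
        10201 / 10000 * e0 (t i) * w ^ 4) := by
    intro i
    have hti : 0 < t i := by linarith [ht100 i]
    have htT := (ht i).2
    have he := e0_pos hti
    have hcosh : 0 < Real.cosh (Real.pi * t i) := Real.cosh_pos _
    have hsinh : 0 < Real.sinh (Real.pi * t i) := Real.sinh_pos_iff.mpr (by positivity)
    have hwt : w ^ 2 ≤ M ^ 2 / (400 * t i ^ 2) := by
      have e1 : w ^ 2 = M ^ 2 / (400 * T ^ 2) := by
        rw [hw, hMdef]
        field_simp
        norm_num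
      rw [e1]
      apply div_le_div_of_nonneg_left (by positivity) (by positivity)
      have : t i ^ 2 ≤ T ^ 2 := pow_le_pow_left₀ hti.le htT 2
      linarith
    have h3 : w ^ 2 * (e0 (t i) * M ^ 2 / (20 * t i ^ 2)) ≤
        1 / 2 * (w ^ 2 * (e0 (t i) * M ^ 2 / (5 * t i ^ 2))) -
          10201 / 10000 * e0 (t i) * w ^ 4 := by
      have e1 : 1 / 2 * (w ^ 2 * (e0 (t i) * M ^ 2 / (5 * t i ^ 2))) -
          10201 / 10000 * e0 (t i) * w ^ 4 - w ^ 2 * (e0 (t i) * M ^ 2 / (20 * t i ^ 2)) =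
          w ^ 2 * e0 (t i) * (M ^ 2 / (20 * t i ^ 2) - 10201 / 10000 * w ^ 2) := by
        field_simp
        ring
      have e2 : 0 ≤ M ^ 2 / (20 * t i ^ 2) - 10201 / 10000 * w ^ 2 := by
        have e3 : M ^ 2 / (20 * t i ^ 2) = 20 * (M ^ 2 / (400 * t i ^ 2)) := by
          field_simp
          norm_num
        rw [e3]
        nlinarith [sq_nonneg w]
      have e4 : 0 ≤ w ^ 2 * e0 (t i) * (M ^ 2 / (20 * t i ^ 2) - 10201 / 10000 * w ^ 2) := by
        positivity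
      linarith
    have h4 : Real.pi / (T * Real.cosh (Real.pi * t i)) ≤ e0 (t i) / t i ^ 2 := by
      have e1 : e0 (t i) / t i ^ 2 = Real.pi / (t i * Real.sinh (Real.pi * t i)) := by
        unfold e0
        field_simp
      rw [e1]
      apply div_le_div_of_nonneg_left hpi.le (by positivity)
      exact mul_le_mul htT (Real.sinh_lt_cosh _).le hsinh.le hT0.le
    have h5 : (wf (t i) (ρ i))⁻¹ = ‖ρ i‖ ^ 2 / Real.cosh (Real.pi * t i) := by
      unfold wf
      rw [inv_div]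
    rw [h5]
    set SS : ℝ := (∑ n ∈ A, l i n) ^ 2 with hSS
    have hSS0 : 0 ≤ SS := sq_nonneg _
    calc w ^ 2 * Real.pi * M ^ 2 / (20 * T) * (‖ρ i‖ ^ 2 / Real.cosh (Real.pi * t i) * SS)
        = ‖ρ i‖ ^ 2 * SS * (w ^ 2 * (Real.pi / (T * Real.cosh (Real.pi * t i))) * M ^ 2 / 20) := by
          field_simp
      _ ≤ ‖ρ i‖ ^ 2 * SS * (w ^ 2 * (e0 (t i) / t i ^ 2) * M ^ 2 / 20) := by
          refine mul_le_mul_of_nonneg_left ?_ (by positivity)
          exact div_le_div_of_nonneg_right (mul_le_mul_of_nonneg_right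
            (mul_le_mul_of_nonneg_left h4 (sq_nonneg _)) (by positivity)) (by norm_num)
      _ = ‖ρ i‖ ^ 2 * SS * (w ^ 2 * (e0 (t i) * M ^ 2 / (20 * t i ^ 2))) := by
          field_simp
      _ ≤ _ := mul_le_mul_of_nonneg_left h3 (by positivity)
  have h6 : w ^ 2 * Real.pi * M ^ 2 / (20 * T) *
      ∑ i, (wf (t i) (ρ i))⁻¹ * (∑ n ∈ A, l i n) ^ 2 ≤ 3 * Real.pi * M ^ 3 * w * A.card := by
    rw [Finset.mul_sum]
    exact (Finset.sum_le_sum fun i _ => h2 i).trans h1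
  have h7 : w ^ 2 * Real.pi * M ^ 2 / (20 * T) * (1200 * T ^ 2 * A.card) =
      3 * Real.pi * M ^ 3 * w * A.card := by
    rw [hw, hMdef]
    field_simp
    ring
  rw [← h7] at h6
  exact le_of_mul_le_mul_left h6 (by positivity)

end

end Pool.Agent.A54.Th
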