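import Pool.Agent.Lib.MP_a54f13_nt.Th.Spec
import Pool.Agent.Lib.MP_a54f13_nt.Ef.Cus
import Pool.Agent.Lib.MP_a54f13_nt.Av.Fo1

/-! The mass of a strip. -/

set_option autoImplicit false

namespace Pool.Agent.A54.Th

open MeasureTheory Filter Topology Set
open scoped ContDiff ComplexConjugate UpperHalfPlane MatrixGroups ENNReal NNReal
open Pool.Agent.A54.Half (H0)
open Pool.Agent.A54.Av (ee an IsRho KB)

noncomputable section

namespace MasM

open Pool.Agent.A54.Av.Fo1M (cf cont_ee Fl an_eq Fl_smooth Fl_per)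
open Pool.Agent.A54.Ef.CusM (lint_gen cont_pair scale)

/-- a continuous modification of the form -/
def gy (f : ℍ → ℝ) (Y : ℝ) (z : ℂ) : ℝ := ext f ⟨z.re, max z.im Y⟩

lemma cont_mk (Y : ℝ) : Continuous fun z : ℂ => (⟨z.re, max z.im Y⟩ : ℂ) := by
  have h : (fun z : ℂ => (⟨z.re, max z.im Y⟩ : ℂ)) =
      fun z : ℂ => (z.re : ℂ) + ((max z.im Y : ℝ) : ℂ) * Complex.I := by
    funext z
    apply Complex.ext <;> simp
  rw [h]
  exact (Complex.continuous_ofReal.comp Complex.continuous_re).add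
    ((Complex.continuous_ofReal.comp (Complex.continuous_im.max continuous_const)).mul
      continuous_const)

lemma cont_gy {f : ℍ → ℝ} {t : ℝ} (hf : IsHeckeMaass f t) {Y : ℝ} (hY : 0 < Y) :
    Continuous (gy f Y) := by
  have h1 : ContinuousOn (ext f) {z : ℂ | 0 < z.im} := hf.smooth.continuousOn
  refine h1.comp_continuous (cont_mk Y) fun z => ?_
  show (0 : ℝ) < max z.im Y
  exact lt_of_lt_of_le hY (le_max_right _ _)

lemma gy_eq (f : ℍ → ℝ) {Y : ℝ} {z : ℂ} (hz : Y ≤ z.im) : gy f Y z = ext f z := by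
  unfold gy
  rw [max_eq_left hz]

/-- the strip -/
def Sc (Y : ℝ) : Set ℂ := {w | 0 ≤ w.re ∧ w.re < 1 ∧ Y < w.im}

lemma meas_Sc (Y : ℝ) : MeasurableSet (Sc Y) :=
  (isClosed_le continuous_const Complex.continuous_re).measurableSet.inter
    ((isOpen_lt Complex.continuous_re continuous_const).measurableSet.inter
      (isOpen_lt continuous_const Complex.continuous_im).measurableSet)

lemma meas_Sp (Y : ℝ) : MeasurableSet (Sp Y) :=
  (isClosed_le continuous_const UpperHalfPlane.continuous_re).measurableSet.inter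
    ((isOpen_lt UpperHalfPlane.continuous_re continuous_const).measurableSet.inter
      (isOpen_lt continuous_const UpperHalfPlane.continuous_im).measurableSet)

/-- the mass of the strip -/
def LY (f : ℍ → ℝ) (Y : ℝ) : ℝ≥0∞ := ∫⁻ y in Ioi Y, (∫⁻ x in Ico (0 : ℝ) 1,
  ENNReal.ofReal (gy f Y ⟨x, y⟩ ^ 2)) * ENNReal.ofReal (1 / y ^ 2)

lemma mass_eq {f : ℍ → ℝ} {t : ℝ} (hf : IsHeckeMaass f t) {Y : ℝ} (hY : 0 < Y) :
    ∫⁻ z in Sp Y, ENNReal.ofReal (f z ^ 2) = LY f Y := by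
  have hg := cont_gy hf hY
  have h1 : ∀ z : ℍ, (Sp Y).indicator (fun z => ENNReal.ofReal (f z ^ 2)) z =
      (Sc Y).indicator (fun w => ENNReal.ofReal (gy f Y w ^ 2)) (z : ℂ) := by
    intro z
    by_cases hz : (z : ℂ) ∈ Sc Y
    · have hz' : z ∈ Sp Y := hz
      rw [indicator_of_mem hz', indicator_of_mem hz, gy_eq f hz.2.2.le, Half.ext_coe]
    · have hz' : z ∉ Sp Y := fun h => hz h
      rw [indicator_of_notMem hz', indicator_of_notMem hz]
  have hm1 : Measurable ((Sc Y).indicator (fun w => ENNReal.ofReal (gy f Y w ^ 2))) :=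
    (ENNReal.measurable_ofReal.comp (hg.pow 2).measurable).indicator (meas_Sc Y)
  rw [← lintegral_indicator (meas_Sp Y)]
  simp_rw [h1]
  rw [lint_gen _ hm1 fun z hz => indicator_of_notMem (fun h => by
    have := h.2.2
    linarith) _]
  have hpre := Complex.volume_preserving_equiv_real_prod
  have key := hpre.lintegral_comp_emb
    Complex.measurableEquivRealProd.measurableEmbedding
    (fun p : ℝ × ℝ => (Ico (0 : ℝ) 1 ×ˢ Ioi Y).indicator
      (fun p : ℝ × ℝ => ENNReal.ofReal (gy f Y ⟨p.1, p.2⟩ ^ 2) * ENNReal.ofReal (1 / p.2 ^ 2)) p)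
  have h2 : ∀ z : ℂ, ENNReal.ofReal (1 / z.im ^ 2) *
      (Sc Y).indicator (fun w => ENNReal.ofReal (gy f Y w ^ 2)) z =
      (Ico (0 : ℝ) 1 ×ˢ Ioi Y).indicator
      (fun p : ℝ × ℝ => ENNReal.ofReal (gy f Y ⟨p.1, p.2⟩ ^ 2) * ENNReal.ofReal (1 / p.2 ^ 2))
        (Complex.measurableEquivRealProd z) := by
    intro z
    rw [Complex.measurableEquivRealProd_apply]
    by_cases hz : z ∈ Sc Y
    · have hz' : (z.re, z.im) ∈ Ico (0 : ℝ) 1 ×ˢ Ioi Y := ⟨⟨hz.1, hz.2.1⟩, hz.2.2⟩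
      rw [indicator_of_mem hz, indicator_of_mem hz', mul_comm]
    · have hz' : (z.re, z.im) ∉ Ico (0 : ℝ) 1 ×ˢ Ioi Y :=
        fun h => hz ⟨h.1.1, h.1.2, h.2⟩
      rw [indicator_of_notMem hz, indicator_of_notMem hz', mul_zero]
  simp_rw [h2]
  rw [key]
  have hm2 : Measurable (fun p : ℝ × ℝ => ENNReal.ofReal (gy f Y ⟨p.1, p.2⟩ ^ 2) *
      ENNReal.ofReal (1 / p.2 ^ 2)) := by
    have h3 : Measurable fun p : ℝ × ℝ => gy f Y ⟨p.1, p.2⟩ ^ 2 :=
      ((hg.comp cont_pair).pow 2).measurable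
    exact (ENNReal.measurable_ofReal.comp h3).mul
      (ENNReal.measurable_ofReal.comp (by fun_prop))
  have hm3 := hm2.indicator (measurableSet_Ico.prod measurableSet_Ioi :
    MeasurableSet (Ico (0 : ℝ) 1 ×ˢ Ioi Y))
  rw [Measure.volume_eq_prod, lintegral_prod_symm _ hm3.aemeasurable]
  unfold LY
  rw [← lintegral_indicator measurableSet_Ioi]
  refine lintegral_congr fun y => ?_
  by_cases hy : y ∈ Ioi Y
  · rw [indicator_of_mem hy, ← lintegral_mul_const' _ _ ENNReal.ofReal_ne_top,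
      ← lintegral_indicator measurableSet_Ico]
    refine lintegral_congr fun x => ?_
    by_cases hx : x ∈ Ico (0 : ℝ) 1
    · have hxy : (x, y) ∈ Ico (0 : ℝ) 1 ×ˢ Ioi Y := ⟨hx, hy⟩
      rw [indicator_of_mem hx, indicator_of_mem hxy]
    · rw [indicator_of_notMem hx, indicator_of_notMem fun h => hx h.1]
  · rw [indicator_of_notMem hy]
    have h5 : ∀ x : ℝ, (Ico (0 : ℝ) 1 ×ˢ Ioi Y).indicator
        (fun p : ℝ × ℝ => ENNReal.ofReal (gy f Y ⟨p.1, p.2⟩ ^ 2) *
          ENNReal.ofReal (1 / p.2 ^ 2)) (x, y) = 0 := fun x =>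
      indicator_of_notMem (fun h => hy h.2) _
    simp_rw [h5]
    exact lintegral_zero

/-- Parseval -/
lemma pars {f : ℍ → ℝ} {t : ℝ} (hf : IsHeckeMaass f t) {y : ℝ} (hy : 0 < y) :
    HasSum (fun n : ℤ => ‖an f n y‖ ^ 2) (∫ x in (0 : ℝ)..1, ‖Fl f y x‖ ^ 2) := by
  have hab : (0 : ℝ) < 1 := one_pos
  have hc := (Fl_smooth hf hy).continuous
  have hL2 : MemLp (Fl f y) 2 (volume.restrict (Ioc (0 : ℝ) 1)) := by
    obtain ⟨C, hC⟩ := (isCompact_Icc (a := (0 : ℝ)) (b := 1)).exists_bound_of_continuousOn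
      hc.continuousOn
    refine MemLp.of_bound hc.aestronglyMeasurable C ?_
    rw [ae_restrict_iff' measurableSet_Ioc]
    exact Filter.Eventually.of_forall fun x hx => hC x (Ioc_subset_Icc_self hx)
  have h := hasSum_sq_fourierCoeffOn hab hL2
  have h1 : ((1 : ℝ) - 0)⁻¹ = 1 := by norm_num
  rw [h1, one_smul] at h
  have h2 : ∀ n : ℤ, fourierCoeffOn hab (Fl f y) n = an f n y := by
    intro n
    rw [fourierCoeffOn_eq_integral, an_eq]
    have h3 : (1 / ((1 : ℝ) - 0)) = 1 := by norm_num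
    rw [h3, one_smul]
    unfold cf
    refine intervalIntegral.integral_congr fun x _ => ?_
    show fourier (-n) (x : AddCircle ((1 : ℝ) - 0)) • Fl f y x =
      Fl f y x * ee (-((n : ℂ) * x))
    rw [fourier_coe_apply, smul_eq_mul, mul_comm]
    congr 1
    unfold ee
    congr 1
    push_cast
    ring
  simp_rw [h2] at h
  exact h

lemma inner {f : ℍ → ℝ} {t : ℝ} (hf : IsHeckeMaass f t) {Y y : ℝ} (hY : 0 < Y) (hy : Y ≤ y) :
    ∫⁻ x in Ico (0 : ℝ) 1, ENNReal.ofReal (gy f Y ⟨x, y⟩ ^ 2) =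
      ∑' n : ℤ, ENNReal.ofReal (‖an f n y‖ ^ 2) := by
  have hy0 : 0 < y := by linarith
  have hp := pars hf hy0
  have hc := (Fl_smooth hf hy0).continuous
  rw [← ENNReal.ofReal_tsum_of_nonneg (fun n => sq_nonneg _) hp.summable, hp.tsum_eq]
  have h1 : ∀ x : ℝ, gy f Y ⟨x, y⟩ ^ 2 = ‖Fl f y x‖ ^ 2 := by
    intro x
    rw [gy_eq f (show Y ≤ (⟨x, y⟩ : ℂ).im from hy)]
    unfold Fl
    rw [Complex.norm_real, Real.norm_eq_abs, sq_abs]
  simp_rw [h1]
  rw [intervalIntegral.integral_of_le zero_le_one, ← integral_Ico_eq_integral_Ioc,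
    ofReal_integral_eq_lintegral_ofReal]
  · exact ((hc.norm.pow 2).continuousOn.integrableOn_Icc (a := (0 : ℝ))
      (b := 1)).mono_set Ico_subset_Icc_self
  · exact Filter.Eventually.of_forall fun x => sq_nonneg _

/-- the sum over all coefficients -/
lemma coeffs (hFo : Av.StmtFo1) {f : ℍ → ℝ} {t : ℝ} {ρ : ℂ} {l : ℕ → ℝ}
    (hf : IsHeckeMaass f t) (hρ : IsRho f t ρ) (hl : Lam f l) {y : ℝ} (hy0 : 0 < y) :
    ∑' n : ℤ, ENNReal.ofReal (‖an f n y‖ ^ 2) =
      2 * ∑' n : ℕ, ENNReal.ofReal (‖ρ‖ ^ 2 * l (n + 1) ^ 2 *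
        (y * KB t (2 * Real.pi * (n + 1) * y) ^ 2)) := by
  obtain ⟨-, h2, -, h4, -⟩ := hFo f t hf
  have hpos : ∀ n : ℕ, ENNReal.ofReal (‖an f ((n : ℤ) + 1) y‖ ^ 2) =
      ENNReal.ofReal (‖ρ‖ ^ 2 * l (n + 1) ^ 2 *
        (y * KB t (2 * Real.pi * (n + 1) * y) ^ 2)) := by
    intro n
    have hm0 : (0 : ℝ) < (n : ℝ) + 1 := by positivity
    have h := hl.coef (n + 1) (by omega) y hy0
    have h5 := hρ.2 (((n : ℝ) + 1) * y) (by positivity)
    push_cast at h
    congr 1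
    rw [h, h5, norm_mul, norm_mul, mul_pow, mul_pow]
    have e1 : ‖((l (n + 1) : ℂ) / ((√((n : ℝ) + 1) : ℝ) : ℂ))‖ ^ 2 = l (n + 1) ^ 2 / ((n : ℝ) + 1) := by
      rw [norm_div, Complex.norm_real, Complex.norm_real, Real.norm_eq_abs, Real.norm_eq_abs,
        div_pow, sq_abs, sq_abs, Real.sq_sqrt hm0.le]
    have e2 : ‖((√(((n : ℝ) + 1) * y) * KB t (2 * Real.pi * (((n : ℝ) + 1) * y)) : ℝ) : ℂ)‖ ^ 2 =
        (((n : ℝ) + 1) * y) * KB t (2 * Real.pi * ((n : ℝ) + 1) * y) ^ 2 := by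
      rw [Complex.norm_real, Real.norm_eq_abs, sq_abs, mul_pow, Real.sq_sqrt (by positivity),
        mul_assoc (2 * Real.pi) ((n : ℝ) + 1) y]
    rw [e1, e2]
    field_simp
  rw [tsum_of_add_one_of_neg_add_one ENNReal.summable ENNReal.summable, h4 y hy0]
  have h6 : ∀ n : ℕ, ENNReal.ofReal (‖an f (-((n : ℤ) + 1)) y‖ ^ 2) =
      ENNReal.ofReal (‖an f ((n : ℤ) + 1) y‖ ^ 2) := by
    intro n
    rw [h2, RCLike.norm_conj]
  simp_rw [h6, hpos]
  rw [norm_zero, zero_pow two_ne_zero, ENNReal.ofReal_zero, add_zero]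
  exact (two_mul _).symm

lemma meas_KB (t : ℝ) : Measurable (KB t) := by
  have h1 : Continuous fun p : ℝ × ℝ => Real.exp (-(p.1 * Real.cosh p.2)) * Real.cos (t * p.2) := by
    have := Real.continuous_cosh
    fun_prop
  have h2 := h1.stronglyMeasurable.integral_prod_right' (ν := volume.restrict (Ioi (0 : ℝ)))
  exact h2.measurable

/-- the integral of the square of the Bessel function -/
def Ak (t X : ℝ) : ℝ≥0∞ := ∫⁻ u in Ioi X, ENNReal.ofReal (KB t u ^ 2 / u)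

lemma Ak_scale (t : ℝ) {c Y : ℝ} (hc : 0 < c) (hY : 0 < Y) :
    ∫⁻ y in Ioi Y, ENNReal.ofReal (KB t (c * y) ^ 2 / y) = Ak t (c * Y) := by
  have hm := meas_KB t
  set F : ℝ → ℝ≥0∞ := fun u => (Ioi (c * Y)).indicator
    (fun u => ENNReal.ofReal (KB t u ^ 2 / u)) u with hF
  have hFm : Measurable F := (ENNReal.measurable_ofReal.comp
    ((hm.pow_const 2).div measurable_id)).indicator measurableSet_Ioi
  have e1 : ∫⁻ y in Ioi Y, ENNReal.ofReal (KB t (c * y) ^ 2 / y) =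
      ∫⁻ y, ENNReal.ofReal c * F (c * y) := by
    rw [← lintegral_indicator measurableSet_Ioi]
    refine lintegral_congr fun y => ?_
    by_cases hy : y ∈ Ioi Y
    · have hy' : c * y ∈ Ioi (c * Y) := mul_lt_mul_of_pos_left hy hc
      have hy0 : 0 < y := lt_trans hY hy
      rw [indicator_of_mem hy]
      simp only [hF]
      rw [indicator_of_mem hy', ← ENNReal.ofReal_mul hc.le]
      congr 1
      field_simp
    · have hy' : c * y ∉ Ioi (c * Y) := fun h => hy (lt_of_mul_lt_mul_left h hc.le)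
      rw [indicator_of_notMem hy]
      simp only [hF]
      rw [indicator_of_notMem hy', mul_zero]
  rw [e1, lintegral_const_mul' _ _ ENNReal.ofReal_ne_top, scale hc hFm, ← mul_assoc,
    ← ENNReal.ofReal_mul hc.le, mul_inv_cancel₀ hc.ne', ENNReal.ofReal_one, one_mul]
  simp only [hF]
  rw [lintegral_indicator measurableSet_Ioi]
  rfl

/-- the formula for the mass -/
lemma LY_eq (hFo : Av.StmtFo1) {f : ℍ → ℝ} {t : ℝ} {ρ : ℂ} {l : ℕ → ℝ}
    (hf : IsHeckeMaass f t) (hρ : IsRho f t ρ) (hl : Lam f l) {Y : ℝ} (hY : 0 < Y) :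
    LY f Y = ENNReal.ofReal (2 * ‖ρ‖ ^ 2) * ∑' n : ℕ, ENNReal.ofReal (l (n + 1) ^ 2) *
      Ak t (2 * Real.pi * (n + 1) * Y) := by
  have hm := meas_KB t
  have hpi := Real.pi_pos
  unfold LY
  have h1 : ∫⁻ y in Ioi Y, (∫⁻ x in Ico (0 : ℝ) 1,
      ENNReal.ofReal (gy f Y ⟨x, y⟩ ^ 2)) * ENNReal.ofReal (1 / y ^ 2) =
      ∫⁻ y in Ioi Y, ENNReal.ofReal (2 * ‖ρ‖ ^ 2) * ∑' n : ℕ, (ENNReal.ofReal (l (n + 1) ^ 2) *
        ENNReal.ofReal (KB t (2 * Real.pi * (n + 1) * y) ^ 2 / y)) := by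
    refine setLIntegral_congr_fun measurableSet_Ioi fun y hy => ?_
    have hy0 : 0 < y := hY.trans hy
    show (∫⁻ x in Ico (0 : ℝ) 1,
      ENNReal.ofReal (gy f Y ⟨x, y⟩ ^ 2)) * ENNReal.ofReal (1 / y ^ 2) = _
    have e : ∀ n : ℕ, ENNReal.ofReal (‖ρ‖ ^ 2 * l (n + 1) ^ 2 *
        (y * KB t (2 * Real.pi * (n + 1) * y) ^ 2)) * ENNReal.ofReal (1 / y ^ 2) =
        ENNReal.ofReal (‖ρ‖ ^ 2) * (ENNReal.ofReal (l (n + 1) ^ 2) *
          ENNReal.ofReal (KB t (2 * Real.pi * (n + 1) * y) ^ 2 / y)) := by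
      intro n
      rw [← ENNReal.ofReal_mul (by positivity), ← ENNReal.ofReal_mul (by positivity),
        ← ENNReal.ofReal_mul (by positivity)]
      congr 1
      field_simp
    rw [inner hf hY hy.le, coeffs hFo hf hρ hl hy0, mul_assoc, ← ENNReal.tsum_mul_right]
    simp_rw [e]
    rw [ENNReal.tsum_mul_left, ← mul_assoc, ENNReal.ofReal_mul (by norm_num : (0 : ℝ) ≤ 2),
      ENNReal.ofReal_ofNat]
  have hmn : ∀ n : ℕ, Measurable fun y : ℝ => ENNReal.ofReal (l (n + 1) ^ 2) *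
      ENNReal.ofReal (KB t (2 * Real.pi * (n + 1) * y) ^ 2 / y) := by
    intro n
    exact measurable_const.mul (ENNReal.measurable_ofReal.comp
      (((hm.comp (measurable_const_mul _)).pow_const 2).div measurable_id))
  rw [h1, lintegral_const_mul' _ _ ENNReal.ofReal_ne_top,
    lintegral_tsum fun n => (hmn n).aemeasurable]
  congr 1
  refine tsum_congr fun n => ?_
  rw [lintegral_const_mul' _ _ ENNReal.ofReal_ne_top,
    Ak_scale t (c := 2 * Real.pi * ((n : ℝ) + 1)) (by positivity) hY]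

/-- the mass is finite -/
lemma LY_fin {f : ℍ → ℝ} {C : ℝ} (hC : ∀ z : ℍ, |f z| ≤ C) {Y : ℝ} (hY : 0 < Y) :
    LY f Y ≠ ⊤ := by
  have hint : IntegrableOn (fun y : ℝ => 1 / y ^ 2) (Ioi Y) := by
    have h := integrableOn_Ioi_rpow_of_lt (by norm_num : (-2 : ℝ) < -1) hY
    refine h.congr_fun (fun y hy => ?_) measurableSet_Ioi
    have hy0 : 0 < y := hY.trans hy
    show y ^ (-2 : ℝ) = 1 / y ^ 2
    rw [Real.rpow_neg hy0.le, one_div]
    norm_num
  have h1 : LY f Y ≤ ∫⁻ y in Ioi Y, ENNReal.ofReal (C ^ 2) * ENNReal.ofReal (1 / y ^ 2) := by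
    unfold LY
    refine lintegral_mono fun y => ?_
    refine mul_le_mul_left ?_ _
    calc ∫⁻ x in Ico (0 : ℝ) 1, ENNReal.ofReal (gy f Y ⟨x, y⟩ ^ 2)
        ≤ ∫⁻ _x in Ico (0 : ℝ) 1, ENNReal.ofReal (C ^ 2) := by
          refine lintegral_mono fun x => ENNReal.ofReal_le_ofReal ?_
          have h := hC (UpperHalfPlane.ofComplex ⟨x, max y Y⟩)
          show f (UpperHalfPlane.ofComplex ⟨x, max y Y⟩) ^ 2 ≤ C ^ 2
          exact sq_le_sq' (abs_le.mp h).1 (abs_le.mp h).2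
      _ = ENNReal.ofReal (C ^ 2) := by
          rw [lintegral_const, Measure.restrict_apply_univ, Real.volume_Ico]
          simp
  refine ne_top_of_le_ne_top ?_ h1
  rw [lintegral_const_mul' _ _ ENNReal.ofReal_ne_top]
  refine ENNReal.mul_ne_top ENNReal.ofReal_ne_top ?_
  have h2 := hint.lintegral_lt_top
  exact h2.ne

lemma KI_eq {t X : ℝ} (hX : 0 < X) : KI t X = (Ak t X).toReal := by
  unfold KI Ak
  rw [integral_eq_lintegral_of_nonneg_ae]
  · rw [EventuallyLE, ae_restrict_iff' measurableSet_Ioi]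
    refine Filter.Eventually.of_forall fun u hu => ?_
    have hu0 : 0 < u := hX.trans hu
    show 0 ≤ KB t u ^ 2 / u
    positivity
  · exact (((meas_KB t).pow_const 2).div measurable_id).aestronglyMeasurable

end MasM

open MasM in
theorem stmtMas (hFo : Av.StmtFo1) (hDec : Av.StmtDec) : StmtMas := by
  intro f t ρ l hf hρ hl Y hY
  obtain ⟨C, c, -, -, hC⟩ := hDec f t hf
  have hpi := Real.pi_pos
  have hfin := LY_fin hC hY
  have hmass := mass_eq hf hY
  have hLY := LY_eq hFo hf hρ hl hY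
  have hρ0 : 0 < ‖ρ‖ := norm_pos_iff.mpr hρ.1
  have hcont : Continuous f := by
    have h1 : ContinuousOn (ext f) {z : ℂ | 0 < z.im} := hf.smooth.continuousOn
    have h2 : Continuous fun z : ℍ => ext f (z : ℂ) :=
      h1.comp_continuous UpperHalfPlane.continuous_coe fun z => z.im_pos
    have h3 : (fun z : ℍ => ext f (z : ℂ)) = f := by
      funext z
      exact Half.ext_coe f z
    rwa [h3] at h2
  have hsm : AEStronglyMeasurable (fun z : ℍ => f z ^ 2) (volume.restrict (Sp Y)) :=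
    (hcont.pow 2).measurable.aestronglyMeasurable
  have hint : IntegrableOn (fun z : ℍ => f z ^ 2) (Sp Y) := by
    refine (lintegral_ofReal_ne_top_iff_integrable hsm
      (Filter.Eventually.of_forall fun z => sq_nonneg _)).mp ?_
    rw [hmass]
    exact hfin
  set a : ℕ → ℝ≥0∞ := fun n => ENNReal.ofReal (l (n + 1) ^ 2) *
    Ak t (2 * Real.pi * (n + 1) * Y) with ha
  have hsum : ∑' n, a n ≠ ⊤ := by
    intro h
    rw [h, ENNReal.mul_top] at hLY
    · exact hfin hLY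
    · rw [Ne, ENNReal.ofReal_eq_zero, not_le]
      positivity
  have hterm : ∀ n : ℕ, (a n).toReal = l (n + 1) ^ 2 * KI t (2 * Real.pi * (n + 1) * Y) := by
    intro n
    simp only [ha]
    rw [ENNReal.toReal_mul, ENNReal.toReal_ofReal (sq_nonneg _), KI_eq (by positivity)]
  refine ⟨hint, ?_, ?_⟩
  · have h := ENNReal.summable_toReal hsum
    simp_rw [hterm] at h
    exact h
  · rw [integral_eq_lintegral_of_nonneg_ae (Filter.Eventually.of_forall fun z => sq_nonneg _) hsm,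
      hmass, hLY, ENNReal.toReal_mul, ENNReal.toReal_ofReal (by positivity),
      ENNReal.tsum_toReal_eq fun n => ENNReal.ne_top_of_tsum_ne_top hsum n]
    simp_rw [hterm]

end

end Pool.Agent.A54.Th
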