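import Pool.Agent.Lib.MP_a54f13_nt.Th.Spec
import Pool.Agent.Lib.MP_a54f13_nt.Av.PC

/-!
# Module PC2: the count
-/

set_option autoImplicit false

namespace Pool.Agent.A54.Th

open Pool.Agent.A54.Av Pool.Agent.A54.Av.PCM

/-- **PC2** -/
theorem stmtPC2 (hPd : Av.StmtPd) (h0 : Av.StmtP0) (h1 : Av.StmtP1) (hI : StmtPI2)
    (hII : Av.StmtPII) : StmtPC2 := by
  intro θ hθ hθ2
  obtain ⟨C0, M0, hC0, h0⟩ := h0
  obtain ⟨C1, M1, hC1, h1⟩ := h1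
  obtain ⟨C2, M2, hC2, hI⟩ := hI θ hθ hθ2
  obtain ⟨C3, M3, hC3, hII⟩ := hII
  refine ⟨C0 + 2 * (C1 + C2 + C3), M0 + M1 + M2 + M3, by positivity, ?_⟩
  intro H B ρ hH hρ S hS
  classical
  have hHr : (1 : ℝ) ≤ H := by exact_mod_cast hH
  have hρr : (1 : ℝ) ≤ ρ := by exact_mod_cast hρ
  have hB : (0 : ℝ) ≤ B := by positivity
  have hH0 : (0 : ℝ) < H := by linarith
  have hq1 : (1 : ℝ) ≤ ((B : ℝ) + H) / H := by
    rw [one_le_div hH0]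
    linarith
  have hq : (1 : ℝ) ≤ (((B : ℝ) + H) / H) ^ θ := Real.one_le_rpow hq1 hθ.le
  set X : ℝ := (H : ℝ) ^ 3 * (B + H) * (((B : ℝ) + H) / H) ^ θ with hX
  have hX4 : (H : ℝ) ^ 4 ≤ X := by
    calc (H : ℝ) ^ 4 = (H : ℝ) ^ 3 * H * 1 := by ring
      _ ≤ (H : ℝ) ^ 3 * (B + H) * (((B : ℝ) + H) / H) ^ θ := by
        gcongr
        linarith
  have hX3 : (H : ℝ) ^ 3 * (B + 1) ≤ X := by
    calc (H : ℝ) ^ 3 * (B + 1) = (H : ℝ) ^ 3 * (B + 1) * 1 := by ring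
      _ ≤ (H : ℝ) ^ 3 * (B + H) * (((B : ℝ) + H) / H) ^ θ := by gcongr
  have hX0 : 0 ≤ X := by positivity
  set P : ℝ := (ρ : ℝ) ^ (M0 + M1 + M2 + M3) with hP
  have hp0 : (ρ : ℝ) ^ M0 ≤ P := pow_le_pow_right₀ hρr (by omega)
  have hp1 : (ρ : ℝ) ^ M1 ≤ P := pow_le_pow_right₀ hρr (by omega)
  have hp2 : (ρ : ℝ) ^ M2 ≤ P := pow_le_pow_right₀ hρr (by omega)
  have hp3 : (ρ : ℝ) ^ M3 ≤ P := pow_le_pow_right₀ hρr (by omega)
  -- the class of larger first trace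
  have big : ∀ T : Finset O8, (∀ x ∈ T, Pc H B ρ x ∧ 2 * x.d2 + x.p2 < 2 * x.d1 + x.p1) →
      (T.card : ℝ) ≤ (C1 + C2 + C3) * P * X := by
    intro T hT
    have hcov := card3 T (fun x => |x.c2 - x.c1| < 32 * (ρ : ℤ) ^ 3)
      (fun x => 32 * (ρ : ℤ) ^ 3 ≤ x.c2 - x.c1 ∧ ∃ i : ℕ, (2 : ℤ) ^ i ≤ x.c2 - x.c1 ∧
        x.c2 - x.c1 < 2 ^ (i + 1) ∧ (2 * x.d1 + x.p1) - (2 * x.d2 + x.p2) ≤ 2 ^ i)
      (fun x => 32 * (ρ : ℤ) ^ 3 ≤ x.c2 - x.c1 ∧ ∃ i : ℕ, (2 : ℤ) ^ i ≤ x.c2 - x.c1 ∧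
        x.c2 - x.c1 < 2 ^ (i + 1) ∧ 2 ^ i < (2 * x.d1 + x.p1) - (2 * x.d2 + x.p2)) (by
      intro x hx
      obtain ⟨hpc, hlt⟩ := hT x hx
      obtain ⟨_, _, hd3, _⟩ := hPd H B ρ x hH hρ hpc
      have hρz : (1 : ℤ) ≤ (ρ : ℤ) ^ 3 := one_le_pow₀ (by exact_mod_cast hρ)
      have hΔ : 4 * x.q1 * x.c1 - x.p1 ^ 2 < 4 * x.q2 * x.c2 - x.p2 ^ 2 := by
        have e := hpc.eq
        have s1 := hpc.s1
        have s2 := hpc.s2
        nlinarith [mul_pos (sub_pos.mpr hlt)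
          (by linarith : (0 : ℤ) < (2 * x.d1 + x.p1) + (2 * x.d2 + x.p2))]
      have hlow : x.c1 - x.c2 < 12 * (ρ : ℤ) ^ 3 := by
        by_contra hcon
        push Not at hcon
        exact absurd (hd3 hcon) (not_lt.mpr hΔ.le)
      by_cases hsm : x.c2 - x.c1 < 32 * (ρ : ℤ) ^ 3
      · left
        rw [abs_lt]
        constructor <;> linarith
      · right
        push Not at hsm
        have hn : ((x.c2 - x.c1).toNat : ℤ) = x.c2 - x.c1 := Int.toNat_of_nonneg (by linarith)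
        have hn0 : (x.c2 - x.c1).toNat ≠ 0 := by
          intro h
          rw [h] at hn
          push_cast at hn
          linarith
        have l1 : 2 ^ Nat.log 2 (x.c2 - x.c1).toNat ≤ (x.c2 - x.c1).toNat :=
          Nat.pow_log_le_self 2 hn0
        have l2 : (x.c2 - x.c1).toNat < 2 ^ (Nat.log 2 (x.c2 - x.c1).toNat + 1) :=
          Nat.lt_pow_succ_log_self (by norm_num) _
        have l3 : (2 : ℤ) ^ Nat.log 2 (x.c2 - x.c1).toNat ≤ x.c2 - x.c1 := by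
          rw [← hn]
          exact_mod_cast l1
        have l4 : x.c2 - x.c1 < (2 : ℤ) ^ (Nat.log 2 (x.c2 - x.c1).toNat + 1) := by
          calc x.c2 - x.c1 = ((x.c2 - x.c1).toNat : ℤ) := hn.symm
            _ < _ := by exact_mod_cast l2
        rcases le_or_gt ((2 * x.d1 + x.p1) - (2 * x.d2 + x.p2))
          (2 ^ Nat.log 2 (x.c2 - x.c1).toNat) with h | h
        · exact Or.inl ⟨hsm, _, l3, l4, h⟩
        · exact Or.inr ⟨hsm, _, l3, l4, h⟩)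
    have b1 := h1 H B ρ hH hρ (T.filter (fun x => |x.c2 - x.c1| < 32 * (ρ : ℤ) ^ 3)) (by
      intro x hx
      obtain ⟨hx1, hx2⟩ := Finset.mem_filter.mp hx
      exact ⟨(hT x hx1).1, (hT x hx1).2, hx2⟩)
    have b2 := hI H B ρ hH hρ (T.filter (fun x => 32 * (ρ : ℤ) ^ 3 ≤ x.c2 - x.c1 ∧
        ∃ i : ℕ, (2 : ℤ) ^ i ≤ x.c2 - x.c1 ∧
        x.c2 - x.c1 < 2 ^ (i + 1) ∧ (2 * x.d1 + x.p1) - (2 * x.d2 + x.p2) ≤ 2 ^ i)) (by
      intro x hx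
      obtain ⟨hx1, hx2⟩ := Finset.mem_filter.mp hx
      exact ⟨(hT x hx1).1, (hT x hx1).2, hx2⟩)
    have b3 := hII H B ρ hH hρ (T.filter (fun x => 32 * (ρ : ℤ) ^ 3 ≤ x.c2 - x.c1 ∧
        ∃ i : ℕ, (2 : ℤ) ^ i ≤ x.c2 - x.c1 ∧
        x.c2 - x.c1 < 2 ^ (i + 1) ∧ 2 ^ i < (2 * x.d1 + x.p1) - (2 * x.d2 + x.p2))) (by
      intro x hx
      obtain ⟨hx1, hx2⟩ := Finset.mem_filter.mp hx
      exact ⟨(hT x hx1).1, hx2⟩)
    have c1 : C1 * (ρ : ℝ) ^ M1 * (H : ℝ) ^ 4 ≤ C1 * P * X := by gcongr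
    have c2 : C2 * (ρ : ℝ) ^ M2 * X ≤ C2 * P * X := by gcongr
    have c3 : C3 * (ρ : ℝ) ^ M3 * (H : ℝ) ^ 4 ≤ C3 * P * X := by gcongr
    calc (T.card : ℝ) ≤ _ := hcov
      _ ≤ C1 * P * X + C2 * P * X + C3 * P * X :=
        add_le_add (add_le_add (b1.trans c1) (b2.trans c2)) (b3.trans c3)
      _ = _ := by ring
  -- the three classes
  have hcov := card3 S (fun x => 2 * x.d1 + x.p1 = 2 * x.d2 + x.p2)
    (fun x => 2 * x.d2 + x.p2 < 2 * x.d1 + x.p1) (fun x => 2 * x.d1 + x.p1 < 2 * x.d2 + x.p2) (by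
      intro x _
      rcases lt_trichotomy (2 * x.d1 + x.p1) (2 * x.d2 + x.p2) with h | h | h
      · exact Or.inr (Or.inr h)
      · exact Or.inl h
      · exact Or.inr (Or.inl h))
  have a1 := h0 H B ρ hH hρ (S.filter (fun x => 2 * x.d1 + x.p1 = 2 * x.d2 + x.p2)) (by
    intro x hx
    obtain ⟨hx1, hx2⟩ := Finset.mem_filter.mp hx
    exact ⟨hS x hx1, hx2⟩)
  have a2 := big (S.filter (fun x => 2 * x.d2 + x.p2 < 2 * x.d1 + x.p1)) (by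
    intro x hx
    obtain ⟨hx1, hx2⟩ := Finset.mem_filter.mp hx
    exact ⟨hS x hx1, hx2⟩)
  have a3 := big ((S.filter (fun x => 2 * x.d1 + x.p1 < 2 * x.d2 + x.p2)).image sw) (by
    intro y hy
    obtain ⟨x, hx, rfl⟩ := Finset.mem_image.mp hy
    obtain ⟨hx1, hx2⟩ := Finset.mem_filter.mp hx
    exact ⟨sw_pc (hS x hx1), hx2⟩)
  rw [Finset.card_image_of_injective _ sw_inj] at a3
  have c0 : C0 * (ρ : ℝ) ^ M0 * (H : ℝ) ^ 3 * (B + 1) ≤ C0 * P * X := by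
    calc C0 * (ρ : ℝ) ^ M0 * (H : ℝ) ^ 3 * (B + 1) =
        C0 * (ρ : ℝ) ^ M0 * ((H : ℝ) ^ 3 * (B + 1)) := by ring
      _ ≤ C0 * P * X := by gcongr
  calc (S.card : ℝ) ≤ _ := hcov
    _ ≤ C0 * P * X + (C1 + C2 + C3) * P * X + (C1 + C2 + C3) * P * X :=
      add_le_add (add_le_add (a1.trans c0) a2) a3
    _ = (C0 + 2 * (C1 + C2 + C3)) * P * X := by ring

end Pool.Agent.A54.Th
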