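import Pool.Agent.Lib.MP_a54f13_nt.Th.Spec
import Pool.Agent.Lib.MP_a54f13_nt.Av.PI

/-!
# Module `PI2`: different traces, class I (sharp exponent)

Proof of `StmtPI2` from `StmtPb2`: split by the dyadic size of `h = c2 - c1`, apply `Pb2` with
`δ = η = 2^i`, `E = B + H`, and sum the geometric series.
-/

set_option autoImplicit false

namespace Pool.Agent.A54.Th.PI2M

open Finset
open Pool.Agent.A54.Av (lam)

theorem bb_le (θ : ℝ) (hθ : 0 < θ) (hθ1 : θ ≤ 1 / 2) (H η E : ℕ) (hH : 1 ≤ H) (hη : 1 ≤ η)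
    (hE : H ≤ E) :
    bb2 θ H η η E ≤ (H : ℝ) ^ 2 * E * η + 2 * ((H : ℝ) ^ 2 * E) +
      4 * η * ((H : ℝ) ^ 2 * E * ((E : ℝ) / H) ^ θ) := by
  have hHr : (1 : ℝ) ≤ H := by exact_mod_cast hH
  have hηr : (1 : ℝ) ≤ η := by exact_mod_cast hη
  have hEr : (H : ℝ) ≤ E := by exact_mod_cast hE
  have hH0 : (0 : ℝ) < H := by linarith
  have hη0 : (0 : ℝ) < η := by linarith
  have hE0 : (0 : ℝ) < E := by linarith
  have hlam : lam H η η E ≤ 2 * (E / H) := by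
    unfold lam
    rw [div_self hη0.ne']
    have h1 : (1 : ℝ) ≤ E / H := by
      rw [le_div_iff₀ hH0]; linarith
    linarith
  have hlam0 : 0 ≤ lam H η η E := by
    unfold lam
    positivity
  have hq0 : 0 < (E : ℝ) / H := by positivity
  have hpow : lam H η η E ^ (1 + θ) ≤ 4 * (E / H) * ((E : ℝ) / H) ^ θ := by
    calc lam H η η E ^ (1 + θ) ≤ (2 * ((E : ℝ) / H)) ^ (1 + θ) :=
          Real.rpow_le_rpow hlam0 hlam (by linarith)
      _ = 2 ^ (1 + θ) * ((E : ℝ) / H) ^ (1 + θ) := Real.mul_rpow (by norm_num) hq0.le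
      _ ≤ 4 * ((E : ℝ) / H) ^ (1 + θ) := by
          refine mul_le_mul_of_nonneg_right ?_ (Real.rpow_nonneg hq0.le _)
          calc (2 : ℝ) ^ (1 + θ) ≤ 2 ^ (2 : ℝ) :=
                Real.rpow_le_rpow_of_exponent_le (by norm_num) (by linarith)
            _ = 4 := by norm_num
      _ = 4 * (E / H) * ((E : ℝ) / H) ^ θ := by
          rw [Real.rpow_add hq0, Real.rpow_one]
          ring
  have t2 : (H : ℝ) ^ 3 * lam H η η E * η / η ≤ 2 * ((H : ℝ) ^ 2 * E) := by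
    rw [mul_div_assoc, div_self hη0.ne', mul_one]
    calc (H : ℝ) ^ 3 * lam H η η E ≤ (H : ℝ) ^ 3 * (2 * (E / H)) := by gcongr
      _ = 2 * ((H : ℝ) ^ 2 * E) := by field_simp
  have t3 : (η : ℝ) * H ^ 3 * lam H η η E ^ (1 + θ) ≤
      4 * η * ((H : ℝ) ^ 2 * E * ((E : ℝ) / H) ^ θ) := by
    calc (η : ℝ) * H ^ 3 * lam H η η E ^ (1 + θ)
        ≤ (η : ℝ) * H ^ 3 * (4 * (E / H) * ((E : ℝ) / H) ^ θ) := by gcongr
      _ = 4 * η * ((H : ℝ) ^ 2 * E * ((E : ℝ) / H) ^ θ) := by field_simp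
  unfold bb2
  linarith

end Pool.Agent.A54.Th.PI2M

namespace Pool.Agent.A54.Th

open Finset
open Pool.Agent.A54.Av (O8 Pc Pm lam)

theorem stmtPI2 (hPb : StmtPb2) : StmtPI2 := by
  classical
  intro θ hθ hθ1
  obtain ⟨C, M, hC, hb⟩ := hPb θ hθ hθ1
  refine ⟨12 * C, M, by linarith, fun H B ρ hH hρ S hS => ?_⟩
  have hHr : (1 : ℝ) ≤ H := by exact_mod_cast hH
  have hH0 : (0 : ℝ) < H := by linarith
  have hB0 : (0 : ℝ) ≤ B := Nat.cast_nonneg B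
  set F : ℕ → Finset O8 := fun i => S.filter fun x => (2 : ℤ) ^ i ≤ x.c2 - x.c1 ∧
      x.c2 - x.c1 < 2 ^ (i + 1) ∧ (2 * x.d1 + x.p1) - (2 * x.d2 + x.p2) ≤ 2 ^ i with hF
  have hsub : S ⊆ (range (Nat.log 2 H + 1)).biUnion F := by
    intro x hx
    obtain ⟨hp, -, -, i, h1, h2, h3⟩ := hS x hx
    rw [mem_biUnion]
    refine ⟨i, ?_, ?_⟩
    · rw [mem_range, Nat.lt_succ_iff]
      refine Nat.le_log_of_pow_le (by norm_num) ?_
      have h4 : (2 : ℤ) ^ i ≤ H := by linarith [hp.u2, hp.l1]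
      exact_mod_cast h4
    · rw [hF]
      exact mem_filter.mpr ⟨hx, h1, h2, h3⟩
  set E : ℝ := (B : ℝ) + H with hE
  have hEH : (H : ℝ) ≤ E := by linarith
  have hE0 : 0 < E := by linarith
  set Q : ℝ := (E / H) ^ θ with hQ
  have hQ1 : 1 ≤ Q := by
    rw [hQ]
    refine Real.one_le_rpow ?_ hθ.le
    rw [le_div_iff₀ hH0]
    linarith
  have hcard : ∀ i ∈ range (Nat.log 2 H + 1), ((F i).card : ℝ) ≤
      C * (ρ : ℝ) ^ M * ((H : ℝ) ^ 2 * E * 2 ^ i + 2 * ((H : ℝ) ^ 2 * E) +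
        4 * 2 ^ i * ((H : ℝ) ^ 2 * E * Q)) := by
    intro i hi
    rw [mem_range, Nat.lt_succ_iff] at hi
    have hiH : 2 ^ i ≤ H :=
      (Nat.pow_le_pow_right (by norm_num) hi).trans (Nat.pow_log_le_self 2 (by omega))
    have hPm : Pm H (2 ^ i) (2 ^ i) (B + H) ρ :=
      ⟨hρ, Nat.one_le_two_pow, hiH, le_rfl, by omega, Or.inl rfl⟩
    have h1 := hb H (2 ^ i) (2 ^ i) (B + H) B ρ hPm (F i) (fun x hx => by
      rw [hF] at hx
      obtain ⟨hxS, h1, h2, h3⟩ := mem_filter.mp hx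
      obtain ⟨hp, hs, -, -⟩ := hS x hxS
      exact Pool.Agent.A54.Av.PIM.cond H B ρ hH hρ i x hp hs h1 h2 h3)
    refine h1.trans ?_
    have h2 := PI2M.bb_le θ hθ hθ1 H (2 ^ i) (B + H) hH Nat.one_le_two_pow (by omega)
    have h3 : (((B + H : ℕ)) : ℝ) = E := by rw [hE]; push_cast; ring
    have h4 : (((2 ^ i : ℕ)) : ℝ) = 2 ^ i := by push_cast; ring
    rw [h3, h4, ← hQ] at h2
    exact mul_le_mul_of_nonneg_left h2 (by positivity)
  have hsum := Pool.Agent.A54.Av.PIM.sum_two_pow H hH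
  have hn : ((Nat.log 2 H + 1 : ℕ) : ℝ) ≤ H := by
    have : Nat.log 2 H < H := Nat.log_lt_self 2 (by omega)
    exact_mod_cast this
  calc (S.card : ℝ) ≤ (((range (Nat.log 2 H + 1)).biUnion F).card : ℝ) := by
        exact_mod_cast card_le_card hsub
    _ ≤ ∑ i ∈ range (Nat.log 2 H + 1), ((F i).card : ℝ) := by
        exact_mod_cast card_biUnion_le
    _ ≤ ∑ i ∈ range (Nat.log 2 H + 1), C * (ρ : ℝ) ^ M * ((H : ℝ) ^ 2 * E * 2 ^ i +
          2 * ((H : ℝ) ^ 2 * E) + 4 * 2 ^ i * ((H : ℝ) ^ 2 * E * Q)) :=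
        sum_le_sum hcard
    _ = C * (ρ : ℝ) ^ M * ((H : ℝ) ^ 2 * E * (∑ i ∈ range (Nat.log 2 H + 1), (2 : ℝ) ^ i) +
          2 * ((H : ℝ) ^ 2 * E) * ((Nat.log 2 H + 1 : ℕ) : ℝ) +
          4 * (∑ i ∈ range (Nat.log 2 H + 1), (2 : ℝ) ^ i) * ((H : ℝ) ^ 2 * E * Q)) := by
        rw [← mul_sum, sum_add_distrib, sum_add_distrib, ← mul_sum, sum_const, card_range,
          nsmul_eq_mul, ← sum_mul, ← mul_sum]
        ring
    _ ≤ C * (ρ : ℝ) ^ M * (12 * ((H : ℝ) ^ 3 * E * Q)) := by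
        refine mul_le_mul_of_nonneg_left ?_ (by positivity)
        have a1 : (H : ℝ) ^ 2 * E * (∑ i ∈ range (Nat.log 2 H + 1), (2 : ℝ) ^ i) ≤
            (H : ℝ) ^ 2 * E * (2 * H) :=
          mul_le_mul_of_nonneg_left hsum (by positivity)
        have a2 : 2 * ((H : ℝ) ^ 2 * E) * ((Nat.log 2 H + 1 : ℕ) : ℝ) ≤
            2 * ((H : ℝ) ^ 2 * E) * H :=
          mul_le_mul_of_nonneg_left hn (by positivity)
        have a3 : 4 * (∑ i ∈ range (Nat.log 2 H + 1), (2 : ℝ) ^ i) * ((H : ℝ) ^ 2 * E * Q) ≤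
            4 * (2 * H) * ((H : ℝ) ^ 2 * E * Q) := by
          refine mul_le_mul_of_nonneg_right ?_ (by positivity)
          linarith
        have a4 : (H : ℝ) ^ 3 * E ≤ (H : ℝ) ^ 3 * E * Q :=
          le_mul_of_one_le_right (by positivity) hQ1
        nlinarith [a1, a2, a3, a4]
    _ = 12 * C * (ρ : ℝ) ^ M * ((H : ℝ) ^ 3 * (B + H) * (((B : ℝ) + H) / H) ^ θ) := by
        rw [hQ, hE]
        ring

end Pool.Agent.A54.Th
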