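import Pool.Agent.Lib.MP_a54f13_nt.Th.Spec
import Pool.Agent.Lib.MP_a54f13_nt.Av.Pb

/-!
# Package `Th`, module `Pb2`: from solutions to differences
-/

set_option autoImplicit false

namespace Pool.Agent.A54.Th

open Pool.Agent.A54.Av (O8 Pm lam Cc Blk BlkG Pc)
open Pool.Agent.A54.Av.PbM (key dif dif_blk)

noncomputable section

theorem stmtPb2 (hCa : Pool.Agent.A54.Av.StmtCa) (hCb : Pool.Agent.A54.Av.StmtCb)
    (hCs : StmtCs2) : StmtPb2 := by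
  classical
  intro θ hθ hθ1
  obtain ⟨Ca, Ma, hCa0, hCa⟩ := hCa
  obtain ⟨Cb, Mb, hCb0, hCb⟩ := hCb
  obtain ⟨Cs, Ms, hCs0, hCs⟩ := hCs θ hθ hθ1
  refine ⟨Ca + Cb + Cs, Ma + Mb + Ms, by positivity, ?_⟩
  intro H η δ E B ρ hP S hS
  -- representatives
  obtain ⟨r, hr1, hr2, hr3⟩ : ∃ r : O8 → O8, (∀ x ∈ S, r x ∈ S) ∧ (∀ x ∈ S, key (r x) = key x) ∧
      ∀ x ∈ S, ∀ y ∈ S, key x = key y → r x = r y := by
    refine ⟨fun x => if h : ∃ y ∈ S, key y = key x then h.choose else x, ?_, ?_, ?_⟩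
    · intro x hx
      have h : ∃ y ∈ S, key y = key x := ⟨x, hx, rfl⟩
      simp only [dif_pos h]
      exact h.choose_spec.1
    · intro x hx
      have h : ∃ y ∈ S, key y = key x := ⟨x, hx, rfl⟩
      simp only [dif_pos h]
      exact h.choose_spec.2
    · intro x hx y hy hxy
      have h : ∃ z ∈ S, key z = key x := ⟨x, hx, rfl⟩
      have h' : ∃ z ∈ S, key z = key y := ⟨y, hy, rfl⟩
      simp only [dif_pos h, dif_pos h']
      congr 1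
      funext z
      rw [hxy]
  obtain ⟨T, hT⟩ : ∃ T, T = S.image fun x => dif x (r x) := ⟨_, rfl⟩
  have hcard : T.card = S.card := by
    rw [hT]
    apply Finset.card_image_of_injOn
    intro x hx y hy hxy
    have hx' : x ∈ S := hx
    have hy' : y ∈ S := hy
    simp only [dif, O8.mk.injEq] at hxy
    obtain ⟨a1, a2, a3, a4, a5, a6, a7, a8⟩ := hxy
    have hk : key x = key y := by
      unfold key
      rw [a1, a2, a3, a4]
    rw [hr3 x hx' y hy' hk] at a5 a6 a7 a8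
    obtain ⟨x1, x2, x3, x4, x5, x6, x7, x8⟩ := x
    obtain ⟨y1, y2, y3, y4, y5, y6, y7, y8⟩ := y
    simp only [O8.mk.injEq]
    simp only at a1 a2 a3 a4 a5 a6 a7 a8
    refine ⟨a1, a2, a3, a4, ?_, ?_, ?_, ?_⟩ <;> linarith
  have hblk : ∀ y ∈ T, Blk H η δ E ρ y := by
    intro y hy
    rw [hT, Finset.mem_image] at hy
    obtain ⟨x, hx, rfl⟩ := hy
    obtain ⟨h1, h2, h3, h4, h5⟩ := hS x hx
    exact dif_blk h1 (hS _ (hr1 x hx)).1 h2 h3 h4 h5 (hr2 x hx)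
  obtain ⟨Ta, hTa⟩ : ∃ Ta, Ta = T.filter fun x => x.p1 = x.p2 := ⟨_, rfl⟩
  obtain ⟨Tb, hTb⟩ : ∃ Tb, Tb = T.filter fun x => x.p1 ≠ x.p2 ∧ |x.p1| * (η : ℤ) < 4 * (ρ : ℤ) * H :=
    ⟨_, rfl⟩
  obtain ⟨Ts, hTs⟩ : ∃ Ts, Ts = T.filter fun x => x.p1 ≠ x.p2 ∧ 4 * (ρ : ℤ) * H ≤ |x.p1| * (η : ℤ) :=
    ⟨_, rfl⟩
  have hcov : T ⊆ Ta ∪ (Tb ∪ Ts) := by
    intro x hx
    rw [Finset.mem_union, Finset.mem_union, hTa, hTb, hTs, Finset.mem_filter, Finset.mem_filter,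
      Finset.mem_filter]
    by_cases h1 : x.p1 = x.p2
    · exact Or.inl ⟨hx, h1⟩
    · rcases lt_or_ge (|x.p1| * (η : ℤ)) (4 * (ρ : ℤ) * (H : ℤ)) with h2 | h2
      · exact Or.inr (Or.inl ⟨hx, h1, h2⟩)
      · exact Or.inr (Or.inr ⟨hx, h1, h2⟩)
  have hc1 : (T.card : ℝ) ≤ Ta.card + (Tb.card + Ts.card) := by
    have h1 : T.card ≤ Ta.card + (Tb.card + Ts.card) :=
      (Finset.card_le_card hcov).trans ((Finset.card_union_le _ _).trans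
        (Nat.add_le_add_left (Finset.card_union_le _ _) _))
    exact_mod_cast h1
  have ha := hCa H η δ E ρ hP Ta fun x hx => by
    rw [hTa, Finset.mem_filter] at hx
    exact ⟨hblk x hx.1, hx.2⟩
  have hb := hCb H η δ E ρ hP Tb fun x hx => by
    rw [hTb, Finset.mem_filter] at hx
    exact ⟨hblk x hx.1, hx.2⟩
  have hs := hCs H η δ E ρ hP Ts fun x hx => by
    rw [hTs, Finset.mem_filter] at hx
    exact ⟨hblk x hx.1, hx.2⟩
  have hρ : (1 : ℝ) ≤ ρ := by exact_mod_cast hP.rho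
  have hlam : 0 ≤ lam H η δ E := by
    unfold lam
    positivity
  obtain ⟨X, hX⟩ : ∃ X : ℝ, X = (H : ℝ) ^ 2 * E * δ := ⟨_, rfl⟩
  obtain ⟨Y, hY⟩ : ∃ Y : ℝ, Y = (H : ℝ) ^ 3 * lam H η δ E * δ / η := ⟨_, rfl⟩
  obtain ⟨Z, hZ⟩ : ∃ Z : ℝ, Z = (η : ℝ) * H ^ 3 * lam H η δ E ^ (1 + θ) := ⟨_, rfl⟩
  have hX0 : 0 ≤ X := by rw [hX]; positivity
  have hY0 : 0 ≤ Y := by rw [hY]; positivity
  have hZ0 : 0 ≤ Z := by rw [hZ]; positivity
  rw [← hX] at ha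
  rw [← hY] at hb
  rw [← hZ] at hs
  have hbb : bb2 θ H η δ E = X + Y + Z := by
    unfold bb2
    rw [hX, hY, hZ]
  rw [← hcard, hbb]
  have hpow : ∀ k : ℕ, k ≤ Ma + Mb + Ms → (ρ : ℝ) ^ k ≤ (ρ : ℝ) ^ (Ma + Mb + Ms) := fun k hk =>
    pow_le_pow_right₀ hρ hk
  obtain ⟨R, hR⟩ : ∃ R : ℝ, R = (ρ : ℝ) ^ (Ma + Mb + Ms) := ⟨_, rfl⟩
  rw [← hR] at hpow ⊢
  have hR0 : 0 ≤ R := by rw [hR]; positivity
  have h1 : Ca * (ρ : ℝ) ^ Ma * X ≤ Ca * R * (X + Y + Z) :=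
    mul_le_mul (mul_le_mul_of_nonneg_left (hpow _ (by omega)) hCa0) (by linarith) hX0
      (mul_nonneg hCa0 hR0)
  have h2 : Cb * (ρ : ℝ) ^ Mb * Y ≤ Cb * R * (X + Y + Z) :=
    mul_le_mul (mul_le_mul_of_nonneg_left (hpow _ (by omega)) hCb0) (by linarith) hY0
      (mul_nonneg hCb0 hR0)
  have h3 : Cs * (ρ : ℝ) ^ Ms * Z ≤ Cs * R * (X + Y + Z) :=
    mul_le_mul (mul_le_mul_of_nonneg_left (hpow _ (by omega)) hCs0) (by linarith) hZ0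
      (mul_nonneg hCs0 hR0)
  calc (T.card : ℝ) ≤ Ta.card + (Tb.card + Ts.card) := hc1
    _ ≤ Ca * R * (X + Y + Z) + (Cb * R * (X + Y + Z) + Cs * R * (X + Y + Z)) := by
        linarith
    _ = (Ca + Cb + Cs) * R * (X + Y + Z) := by ring

end

end Pool.Agent.A54.Th
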