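import Pool.Agent.Lib.MP_a54f13_nt.Th.Spec
import Pool.Agent.Lib.MP_a54f13_nt.Ef.Seq

/-!
# Package `Th`, module `Sq2`: sequences of good forms, general exponent
-/

set_option autoImplicit false

namespace Pool.Agent.A54.Th.Sq2M

open MeasureTheory Filter Topology Set
open scoped ContDiff ComplexConjugate UpperHalfPlane MatrixGroups ENNReal
open Pool.Agent.A54.Half (H0)
open Pool.Agent.A54.Pl (Ed)
open Pool.Agent.A54.Av (Bump es Sm' XX2)
open Pool.Agent.A54.Sq (TestP)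
open Pool.Agent.A54.Ef

noncomputable section

/-- choice of a subsequence -/
lemma core (hFa : Ef.StmtFa1) (hSD : Av.StmtSDi) (hFlt : Sq.StmtFlt) (hCus : Ef.StmtCus)
    (hVol : Av.StmtVol) (hU1 : Pl.StmtU1) {κ : ℝ} (hκ : 0 < κ) {η : ℂ → ℝ} (hη : Bump η)
    {f : ℕ → ℍ → ℝ} {t T : ℕ → ℝ} (hf : ∀ i, IsHeckeMaass (f i) (t i))
    (ht : Tendsto t atTop atTop) (h0 : ∀ i, 0 < t i) (hTt : ∀ i, t i ≤ T i)
    (hX : ∀ K : Set ℂ, IsCompact K → K ⊆ H0 →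
      Tendsto (fun i => XX2 η (T i ^ (-(1 / 2 + κ))) K (f i)) atTop (𝓝 0)) :
    ∃ ms : ℕ → ℕ, ∀ φ : ℂ → ℝ, TestR H0 φ →
      Tendsto (fun i => ∫ z : ℍ, φ z * f (ms i) z ^ 2) atTop (𝓝 (∫ z : ℍ, φ z)) ∧
      Tendsto (fun i => ∫ z : ℍ, φ z * f (ms i) z ^ 4) atTop (𝓝 (3 * ∫ z : ℍ, φ z)) := by
  have hT : Tendsto T atTop atTop := tendsto_atTop_mono hTt ht
  have hT0 : ∀ i, 0 < T i := fun i => (h0 i).trans_le (hTt i)
  have hpow : ∀ b : ℝ, 0 < b → Tendsto (fun i => T i ^ (-b)) atTop (𝓝 0) := fun b hb =>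
    (tendsto_rpow_neg_atTop hb).comp hT
  obtain ⟨φ0, hφ0, hφ0n, hφ01⟩ := Av.FdM.exists_phi0
  obtain ⟨B, hB⟩ := Av.FdM.bdd hU1 hφ0
  have hmem : ∀ i, ∫ z, φ0 z * ext (f i) z ^ 2 ∈ Icc (0 : ℝ) B := fun i =>
    ⟨integral_nonneg fun z => mul_nonneg (hφ0n z) (sq_nonneg _),
      (le_abs_self _).trans (hB (f i) (t i) (hf i))⟩
  obtain ⟨c, hc, ms, hms, hlim⟩ := isCompact_Icc.tendsto_subseq hmem
  refine ⟨ms, ?_⟩
  have hmt := hms.tendsto_atTop
  have hcF : ∀ i, ContinuousOn (fun w => ext (f (ms i)) w ^ 2) H0 := fun i =>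
    ((hf (ms i)).smooth.continuousOn).pow 2
  have key : ∀ φ : ℂ → ℝ, TestP H0 φ →
      Tendsto (fun i => ∫ z, φ z * (Sm' η (T (ms i) ^ (-(1 / 2 + κ)))
        (fun w => ext (f (ms i)) w ^ 2) z - c) ^ 2) atTop (𝓝 0) ∧
      Tendsto (fun i => ∫ z, φ z * ext (f (ms i)) z ^ 2) atTop (𝓝 (c * ∫ z, φ z)) := by
    refine hFa η hη (fun i w => ext (f (ms i)) w ^ 2) (fun i => T (ms i) ^ (-(1 / 2 + κ)))
      hcF (fun i z => sq_nonneg _) (fun i => Real.rpow_pos_of_pos (hT0 _) _)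
      ((hpow _ (by linarith)).comp hmt) ?_ ?_ φ0 c ⟨hφ0, hφ0n⟩ hφ01 hlim
    · intro K hK hKH
      obtain ⟨B', hB'⟩ := Av.FdM.bddK hU1 hK hKH
      exact ⟨B', fun i => hB' (f (ms i)) (t (ms i)) (hf (ms i))⟩
    · intro K hK hKH
      exact (hX K hK hKH).comp hmt
  -- the constant is one
  have hc1 : c = 1 := by
    refine Av.Fd2M.c_one hVol (f := fun i => f (ms i)) (t := fun i => t (ms i))
      (fun i => hf (ms i)) hc.1 (fun φ hφ => SeqM.to_half (fun ψ hψ => ?_) hφ) fun κ₁ hκ₁ => ?_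
    · exact SeqM.general (g := fun i z => ext (f (ms i)) z ^ 2)
        (fun i ψ hψ => (Av.FdM.test_sq hψ (hf (ms i))).integrable) (fun ψ hψ => (key ψ hψ).2) hψ
    · obtain ⟨Y, hY⟩ := SeqM.cusp hCus hκ₁
      exact ⟨Y, Eventually.of_forall fun i => hY (f (ms i)) (t (ms i)) (hf (ms i))⟩
  subst hc1
  -- means over discs
  have hEd : ∀ φ : ℂ → ℝ, TestP H0 φ → Tendsto (fun i => ∫ z, φ z *
      (Ed (T (ms i) ^ (-(1 / 2 + κ / 2))) (fun w => ext (f (ms i)) w ^ 2) z - 1) ^ 2) atTop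
        (𝓝 0) := by
    intro φ hφ
    obtain ⟨ζ, C, r0, A0, hζ, hζ0, hC, hr0, hA0, h⟩ := hSD η hη φ hφ.test hφ.nonneg
    have hratio : ∀ i, T (ms i) ^ (-(1 / 2 + κ)) / T (ms i) ^ (-(1 / 2 + κ / 2)) =
        T (ms i) ^ (-(κ / 2)) := fun i => by
      rw [← Real.rpow_sub (hT0 _)]
      congr 1
      ring
    have hlim1 : Tendsto (fun i => C * (∫ z, ζ z * (Sm' η (T (ms i) ^ (-(1 / 2 + κ)))
        (fun w => ext (f (ms i)) w ^ 2) z - 1) ^ 2) +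
        C * (1 : ℝ) ^ 2 * (T (ms i) ^ (-(κ / 2))) ^ 2) atTop (𝓝 0) := by
      have h1 := (key ζ ⟨hζ, hζ0⟩).1.const_mul C
      have h2 := (((hpow _ (by linarith : (0 : ℝ) < κ / 2)).comp hmt).pow 2).const_mul
        (C * (1 : ℝ) ^ 2)
      have h3 := h1.add h2
      simpa using h3
    refine squeeze_zero' (Eventually.of_forall fun i =>
      integral_nonneg fun z => mul_nonneg (hφ.nonneg z) (sq_nonneg _)) ?_ hlim1
    have e1 := ((hpow _ (by linarith : (0 : ℝ) < 1 / 2 + κ / 2)).comp hmt).eventually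
      (ge_mem_nhds hr0)
    have e2 := ((hpow _ (by linarith : (0 : ℝ) < κ / 2)).comp hmt).eventually
      (ge_mem_nhds (by positivity : 0 < A0⁻¹))
    filter_upwards [e1, e2] with i h1 h2
    have hTi := hT0 (ms i)
    have hp := Real.rpow_pos_of_pos hTi (-(1 / 2 + κ / 2))
    have h3 := h (fun w => ext (f (ms i)) w ^ 2) (hcF i) (fun z => sq_nonneg _) 1
      (T (ms i) ^ (-(1 / 2 + κ / 2))) (T (ms i) ^ (-(1 / 2 + κ))) zero_le_one
      (Real.rpow_pos_of_pos hTi _) ?_ h1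
    · rw [hratio] at h3
      exact h3
    · have h4 : T (ms i) ^ (-(1 / 2 + κ)) =
          T (ms i) ^ (-(κ / 2)) * T (ms i) ^ (-(1 / 2 + κ / 2)) := by
        rw [← Real.rpow_add hTi]
        congr 1
        ring
      have h5 : T (ms i) ^ (-(κ / 2)) ≤ A0⁻¹ := h2
      have hA : 0 < A0 := by linarith
      calc A0 * T (ms i) ^ (-(1 / 2 + κ)) =
          A0 * T (ms i) ^ (-(κ / 2)) * T (ms i) ^ (-(1 / 2 + κ / 2)) := by rw [h4]; ring
        _ ≤ A0 * A0⁻¹ * T (ms i) ^ (-(1 / 2 + κ / 2)) := by gcongr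
        _ = _ := by rw [mul_inv_cancel₀ hA.ne', one_mul]
  have hfin := hFlt (fun i => f (ms i)) (fun i => t (ms i))
    (fun i => T (ms i) ^ (-(1 / 2 + κ / 2))) (fun _ => 1) (κ / 2) 1 (fun i => hf (ms i))
    (ht.comp hmt) (by linarith) (fun i => ⟨Real.rpow_pos_of_pos (hT0 _) _, ?_⟩)
    (fun _ => ⟨zero_le_one, one_le_two⟩) tendsto_const_nhds hEd
  · intro φ hφ
    have h2 := SeqM.to_half (f := fun i => f (ms i)) (m := 2) (fun ψ hψ => (hfin ψ hψ).1) hφ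
    have h4 := SeqM.to_half (f := fun i => f (ms i)) (m := 4) (fun ψ hψ => (hfin ψ hψ).2) hφ
    rw [one_mul] at h2
    rw [one_pow, mul_one] at h4
    exact ⟨h2, h4⟩
  · exact Real.rpow_le_rpow_of_nonpos (h0 _) (hTt _) (by linarith)

end

end Pool.Agent.A54.Th.Sq2M

namespace Pool.Agent.A54.Th

open MeasureTheory Filter Topology Set
open scoped ContDiff ComplexConjugate UpperHalfPlane MatrixGroups ENNReal
open Pool.Agent.A54.Half (H0)

theorem stmtSq2 (hFa : Ef.StmtFa1) (hSD : Av.StmtSDi) (hFlt : Sq.StmtFlt) (hCus : Ef.StmtCus)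
    (hVol : Av.StmtVol) (hU1 : Pl.StmtU1) : StmtSq2 := by
  intro κ hκ _ η hη f t T hf ht hTt hX φ hφ
  obtain ⟨N, hN⟩ := eventually_atTop.1 (hTt.and (ht.eventually_gt_atTop 0))
  have key : ∀ ns : ℕ → ℕ, Tendsto ns atTop atTop → ∃ ms : ℕ → ℕ,
      Tendsto (fun i => ∫ z : ℍ, φ z * f (ns (ms i)) z ^ 2) atTop (𝓝 (∫ z : ℍ, φ z)) ∧
      Tendsto (fun i => ∫ z : ℍ, φ z * f (ns (ms i)) z ^ 4) atTop (𝓝 (3 * ∫ z : ℍ, φ z)) := by
    intro ns hns
    obtain ⟨M, hM⟩ := eventually_atTop.1 (hns.eventually (eventually_ge_atTop N))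
    have hns' : Tendsto (fun i => ns (i + M)) atTop atTop :=
      hns.comp (tendsto_add_atTop_nat M)
    have hge : ∀ i, N ≤ ns (i + M) := fun i => hM _ (Nat.le_add_left M i)
    obtain ⟨ms, hms⟩ := Sq2M.core hFa hSD hFlt hCus hVol hU1 hκ hη (f := fun i => f (ns (i + M)))
      (t := fun i => t (ns (i + M))) (T := fun i => T (ns (i + M))) (fun i => hf _)
      (ht.comp hns') (fun i => (hN _ (hge i)).2) (fun i => (hN _ (hge i)).1.2)
      (fun K hK hKH => (hX K hK hKH).comp hns')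
    exact ⟨fun i => ms i + M, hms φ hφ⟩
  constructor
  · refine tendsto_of_subseq_tendsto fun ns hns => ?_
    obtain ⟨ms, h2, -⟩ := key ns hns
    exact ⟨ms, h2⟩
  · refine tendsto_of_subseq_tendsto fun ns hns => ?_
    obtain ⟨ms, -, h4⟩ := key ns hns
    exact ⟨ms, h4⟩

end Pool.Agent.A54.Th
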