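import Pool.Agent.Lib.MP_a54f13_nt.Th.Spec

/-!
# Module `Str`: strips and the fundamental domain
-/

set_option autoImplicit false

namespace Pool.Agent.A54.Th

open MeasureTheory Filter Topology Set
open scoped ContDiff ComplexConjugate UpperHalfPlane MatrixGroups ENNReal

noncomputable section

namespace StrM

lemma cont_f {f : ℍ → ℝ} {t : ℝ} (hf : IsHeckeMaass f t) : Continuous f := by
  have h1 : ContinuousOn (ext f) {z : ℂ | 0 < z.im} := hf.smooth.continuousOn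
  have h2 : Continuous fun z : ℍ => ext f (z : ℂ) :=
    h1.comp_continuous UpperHalfPlane.continuous_coe fun z => z.im_pos
  have h3 : (fun z : ℍ => ext f (z : ℂ)) = f := by
    funext z
    unfold ext
    rw [UpperHalfPlane.ofComplex_apply]
  rwa [h3] at h2

lemma meas_Sp (Y : ℝ) : MeasurableSet (Sp Y) := by
  have h1 : MeasurableSet {z : ℍ | 0 ≤ z.re} :=
    (isClosed_le continuous_const UpperHalfPlane.continuous_re).measurableSet
  have h2 : MeasurableSet {z : ℍ | z.re < 1} :=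
    (isOpen_lt UpperHalfPlane.continuous_re continuous_const).measurableSet
  have h3 : MeasurableSet {z : ℍ | Y < z.im} :=
    (isOpen_lt continuous_const UpperHalfPlane.continuous_im).measurableSet
  have h4 : Sp Y = {z : ℍ | 0 ≤ z.re} ∩ ({z : ℍ | z.re < 1} ∩ {z : ℍ | Y < z.im}) := rfl
  rw [h4]
  exact h1.inter (h2.inter h3)

/-- two matrices with the same second row -/
lemma same_row (γ γ' : SL(2, ℤ)) (h0 : γ 1 0 = γ' 1 0) (h1 : γ 1 1 = γ' 1 1) :
    ∃ n : ℤ, γ' = ModularGroup.T ^ n * γ := by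
  have hd := γ.det_coe
  have hd' := γ'.det_coe
  rw [Matrix.det_fin_two] at hd hd'
  have e0 : (γ.1 1 0 : ℤ) = γ'.1 1 0 := h0
  have e1 : (γ.1 1 1 : ℤ) = γ'.1 1 1 := h1
  refine ⟨γ.1 0 0 * γ'.1 0 1 - γ'.1 0 0 * γ.1 0 1, ?_⟩
  ext i j
  rw [Matrix.SpecialLinearGroup.coe_mul, ModularGroup.coe_T_zpow]
  rw [← e0, ← e1] at hd'
  fin_cases i <;> fin_cases j
  · simp only [Fin.zero_eta, Fin.mk_one, Matrix.mul_apply, Fin.sum_univ_two, Matrix.of_apply,
      Matrix.cons_val', Matrix.cons_val_zero, Matrix.cons_val_one, Matrix.cons_val_fin_one]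
    linear_combination (γ.1 0 0) * hd' - (γ'.1 0 0) * hd
  · simp only [Fin.zero_eta, Fin.mk_one, Matrix.mul_apply, Fin.sum_univ_two, Matrix.of_apply,
      Matrix.cons_val', Matrix.cons_val_zero, Matrix.cons_val_one, Matrix.cons_val_fin_one]
    linear_combination (γ.1 0 1) * hd' - (γ'.1 0 1) * hd
  · simp only [Fin.zero_eta, Fin.mk_one, Matrix.mul_apply, Fin.sum_univ_two, Matrix.of_apply,
      Matrix.cons_val', Matrix.cons_val_zero, Matrix.cons_val_one, Matrix.cons_val_fin_one]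
    rw [← e0]; ring
  · simp only [Fin.zero_eta, Fin.mk_one, Matrix.mul_apply, Fin.sum_univ_two, Matrix.of_apply,
      Matrix.cons_val', Matrix.cons_val_zero, Matrix.cons_val_one, Matrix.cons_val_fin_one]
    rw [← e1]; ring

lemma inj_row (Y : ℝ) (z : ℍ) : InjOn (fun γ : SL(2, ℤ) => ((γ 1 0 : ℤ), (γ 1 1 : ℤ)))
    {γ : SL(2, ℤ) | γ • z ∈ Sp Y} := by
  intro γ hγ γ' hγ' h
  obtain ⟨h0, h1⟩ := Prod.mk.inj h
  obtain ⟨n, hn⟩ := same_row γ γ' h0 h1
  have hre : (γ' • z).re = (γ • z).re + n := by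
    rw [hn, mul_smul, ModularGroup.re_T_zpow_smul]
  obtain ⟨a1, a2, -⟩ := hγ
  obtain ⟨b1, b2, -⟩ := hγ'
  have hn1 : (n : ℝ) < 1 := by linarith
  have hn2 : (-1 : ℝ) < n := by linarith
  have hn3 : n < 1 := by exact_mod_cast hn1
  have hn4 : -1 < n := by exact_mod_cast hn2
  have hn5 : n = 0 := by omega
  rw [hn, hn5, zpow_zero, one_mul]

/-- the second row -/
lemma row_bd {Y : ℝ} (hY : 0 < Y) {z : ℍ} {γ : SL(2, ℤ)} (h : γ • z ∈ Sp Y) :
    ((γ 1 0 : ℤ) : ℝ) ^ 2 * z.im ^ 2 + (((γ 1 0 : ℤ) : ℝ) * z.re + ((γ 1 1 : ℤ) : ℝ)) ^ 2 <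
      z.im / Y := by
  obtain ⟨-, -, h3⟩ := h
  rw [ModularGroup.im_smul_eq_div_normSq] at h3
  have h4 : Complex.normSq (UpperHalfPlane.denom (γ : GL (Fin 2) ℝ) z) =
      ((γ 1 0 : ℤ) : ℝ) ^ 2 * z.im ^ 2 +
        (((γ 1 0 : ℤ) : ℝ) * z.re + ((γ 1 1 : ℤ) : ℝ)) ^ 2 := by
    rw [ModularGroup.denom_apply, Complex.normSq_apply]
    simp
    ring
  have h5 := UpperHalfPlane.normSq_denom_pos (γ : GL (Fin 2) ℝ) z.im_ne_zero
  rw [h4] at h3 h5
  rw [lt_div_iff₀ h5] at h3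
  rw [lt_div_iff₀ hY]
  linarith

/-- the points of the fundamental domain -/
lemma fdo_im {z : ℍ} (hz : z ∈ ModularGroup.fdo) : |z.re| < 1 / 2 ∧ 3 / 4 < z.im ^ 2 := by
  obtain ⟨h1, h2⟩ := hz
  refine ⟨h2, ?_⟩
  rw [Complex.normSq_apply] at h1
  have h3 : (z : ℂ).re = z.re := rfl
  have h4 : (z : ℂ).im = z.im := rfl
  rw [h3, h4] at h1
  obtain ⟨a, b⟩ := abs_lt.mp h2
  nlinarith

/-- the interval of the values of `d` -/
def Dd (R x : ℝ) (c : ℤ) : Finset ℤ := Finset.Icc ⌈-(c * x) - √R⌉ ⌊-(c * x) + √R⌋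

lemma card_Dd (R x : ℝ) (c : ℤ) : ((Dd R x c).card : ℝ) ≤ 2 * √R + 1 := by
  unfold Dd
  rw [Int.card_Icc]
  have h1 := Int.le_ceil (-(c * x) - √R)
  have h2 := Int.floor_le (-(c * x) + √R)
  have h3 := Real.sqrt_nonneg R
  have h4 : ((Int.toNat (⌊-(c * x) + √R⌋ + 1 - ⌈-(c * x) - √R⌉) : ℕ) : ℝ) =
      ((max (⌊-(c * x) + √R⌋ + 1 - ⌈-(c * x) - √R⌉) 0 : ℤ) : ℝ) := by
    rw [← Int.toNat_eq_max]
    norm_cast
  rw [h4]
  push_cast
  refine max_le ?_ (by positivity)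
  linarith

/-- the set of the rows -/
def Rw (R x : ℝ) (m : ℕ) : Finset (ℤ × ℤ) :=
  {((0 : ℤ), (1 : ℤ)), ((0 : ℤ), (-1 : ℤ))} ∪
    ((Finset.Icc (-(m : ℤ)) m).erase 0).biUnion fun c => (Dd R x c).image fun d => (c, d)

lemma card_Rw (R x : ℝ) (m : ℕ) : ((Rw R x m).card : ℝ) ≤ 2 + 2 * m * (2 * √R + 1) := by
  have h1 : (Rw R x m).card ≤ 2 + ∑ c ∈ (Finset.Icc (-(m : ℤ)) m).erase 0, (Dd R x c).card := by
    unfold Rw
    refine (Finset.card_union_le _ _).trans (add_le_add Finset.card_le_two ?_)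
    refine Finset.card_biUnion_le.trans (Finset.sum_le_sum fun c _ => Finset.card_image_le)
  have h2 : ((Finset.Icc (-(m : ℤ)) m).erase 0).card = 2 * m := by
    rw [Finset.card_erase_of_mem (by simp), Int.card_Icc]
    omega
  calc ((Rw R x m).card : ℝ)
      ≤ ((2 + ∑ c ∈ (Finset.Icc (-(m : ℤ)) m).erase 0, (Dd R x c).card : ℕ) : ℝ) := by
        exact_mod_cast h1
    _ = 2 + ∑ c ∈ (Finset.Icc (-(m : ℤ)) m).erase 0, ((Dd R x c).card : ℝ) := by push_cast; rfl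
    _ ≤ 2 + ∑ _c ∈ (Finset.Icc (-(m : ℤ)) m).erase 0, (2 * √R + 1) := by
        gcongr with c _
        exact card_Dd R x c
    _ = 2 + 2 * m * (2 * √R + 1) := by
        rw [Finset.sum_const, h2, nsmul_eq_mul]
        push_cast
        ring

/-- the rows which occur -/
lemma mem_Rw {Y : ℝ} (hY : 0 < Y) {z : ℍ} {γ : SL(2, ℤ)} (h : γ • z ∈ Sp Y) :
    ((γ 1 0 : ℤ), (γ 1 1 : ℤ)) ∈ Rw (z.im / Y) z.re ⌊(√(z.im * Y))⁻¹⌋₊ := by
  have hb := row_bd hY h
  have hy := z.im_pos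
  have hR : 0 < z.im / Y := by positivity
  unfold Rw
  by_cases hc : γ 1 0 = 0
  · have hd := γ.det_coe
    rw [Matrix.det_fin_two] at hd
    have e0 : (γ.1 1 0 : ℤ) = 0 := hc
    rw [e0, mul_zero, sub_zero] at hd
    have h1 : γ.1 1 1 = 1 ∨ γ.1 1 1 = -1 := by
      have := Int.isUnit_iff.mp (IsUnit.of_mul_eq_one_right _ hd)
      exact this
    rw [Finset.mem_union]
    left
    rw [hc]
    rcases h1 with h1 | h1
    · have h2 : (γ 1 1 : ℤ) = 1 := h1
      rw [h2]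
      simp
    · have h2 : (γ 1 1 : ℤ) = -1 := h1
      rw [h2]
      simp
  · rw [Finset.mem_union]
    right
    rw [Finset.mem_biUnion]
    refine ⟨γ 1 0, ?_, ?_⟩
    · rw [Finset.mem_erase]
      refine ⟨hc, ?_⟩
      have h1 : ((γ 1 0 : ℤ) : ℝ) ^ 2 * z.im ^ 2 < z.im / Y := by
        have := sq_nonneg (((γ 1 0 : ℤ) : ℝ) * z.re + ((γ 1 1 : ℤ) : ℝ))
        linarith
      have h2 : (|((γ 1 0 : ℤ) : ℝ)|) ≤ (√(z.im * Y))⁻¹ := by
        rw [← Real.sqrt_inv]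
        refine Real.abs_le_sqrt ?_
        rw [lt_div_iff₀ hY] at h1
        have h5 : ((γ 1 0 : ℤ) : ℝ) ^ 2 * (z.im * Y) ≤ 1 := by
          by_contra hcon
          push Not at hcon
          nlinarith [mul_lt_mul_of_pos_right hcon hy]
        rw [← one_div, le_div_iff₀ (by positivity)]
        exact h5
      have h3 : (γ 1 0 : ℤ).natAbs ≤ ⌊(√(z.im * Y))⁻¹⌋₊ := by
        rw [Nat.le_floor_iff (by positivity)]
        rw [Nat.cast_natAbs, Int.cast_abs]
        exact h2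
      rw [Finset.mem_Icc]
      omega
    · rw [Finset.mem_image]
      refine ⟨γ 1 1, ?_, rfl⟩
      have h1 : (((γ 1 0 : ℤ) : ℝ) * z.re + ((γ 1 1 : ℤ) : ℝ)) ^ 2 ≤ z.im / Y := by
        have := mul_nonneg (sq_nonneg ((γ 1 0 : ℤ) : ℝ)) (sq_nonneg z.im)
        linarith
      have h2 := Real.abs_le_sqrt h1
      obtain ⟨h3, h4⟩ := abs_le.mp h2
      unfold Dd
      rw [Finset.mem_Icc, Int.ceil_le, Int.le_floor]
      constructor <;> linarith

/-- an element is not its negative -/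
lemma ne_neg (γ0 : SL(2, ℤ)) : γ0 ≠ -γ0 := by
  intro h
  have h3 := congrArg (fun γ : SL(2, ℤ) => γ.1 0 0) h
  have h4 := congrArg (fun γ : SL(2, ℤ) => γ.1 0 1) h
  have h5 := γ0.det_coe
  rw [Matrix.det_fin_two] at h5
  simp only [Matrix.SpecialLinearGroup.coe_neg, Matrix.neg_apply] at h3 h4
  have h6 : (γ0 0 0 : ℤ) = 0 := by
    have : (γ0.1 0 0 : ℤ) = -γ0.1 0 0 := h3
    have h7 : (γ0.1 0 0 : ℤ) = 0 := by omega
    exact h7
  have h8 : (γ0 0 1 : ℤ) = 0 := by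
    have : (γ0.1 0 1 : ℤ) = -γ0.1 0 1 := h4
    have h7 : (γ0.1 0 1 : ℤ) = 0 := by omega
    exact h7
  rw [h6, h8] at h5
  simp at h5

/-- the number of elements which move `z` to the strip -/
def NN (Y : ℝ) (z : ℍ) : ℝ≥0∞ :=
  ∑' γ : SL(2, ℤ), (Sp Y).indicator (fun _ => (1 : ℝ≥0∞)) (γ • z)

lemma NN_le {Y : ℝ} (hY : 0 < Y) (hY1 : Y ≤ 1) {z : ℍ} (hz : z ∈ ModularGroup.fdo) :
    NN Y z ≤ ENNReal.ofReal (9 / Y) := by
  obtain ⟨-, him⟩ := fdo_im hz
  have hy := z.im_pos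
  set S := Rw (z.im / Y) z.re ⌊(√(z.im * Y))⁻¹⌋₊ with hS
  have hmaps : MapsTo (fun γ : SL(2, ℤ) => ((γ 1 0 : ℤ), (γ 1 1 : ℤ)))
      {γ : SL(2, ℤ) | γ • z ∈ Sp Y} (S : Set (ℤ × ℤ)) := fun γ hγ => mem_Rw hY hγ
  have hfin : {γ : SL(2, ℤ) | γ • z ∈ Sp Y}.Finite :=
    Set.Finite.of_injOn hmaps (inj_row Y z) S.finite_toSet
  have h1 : NN Y z = (hfin.toFinset.card : ℝ≥0∞) := by
    unfold NN
    rw [tsum_eq_sum (s := hfin.toFinset)]
    · have h2 : ∀ γ ∈ hfin.toFinset,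
          (Sp Y).indicator (fun _ => (1 : ℝ≥0∞)) (γ • z) = 1 := fun γ hγ => by
        have h9 : γ • z ∈ Sp Y := hfin.mem_toFinset.mp hγ
        exact indicator_of_mem h9 _
      rw [Finset.sum_congr rfl h2]
      simp
    · intro γ hγ
      have h9 : γ • z ∉ Sp Y := fun h => hγ (hfin.mem_toFinset.mpr h)
      exact indicator_of_notMem h9 _
  have h2 : hfin.toFinset.card ≤ S.card := by
    refine Finset.card_le_card_of_injOn (fun γ : SL(2, ℤ) => ((γ 1 0 : ℤ), (γ 1 1 : ℤ)))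
      (fun γ hγ => ?_) (fun γ hγ γ' hγ' h => ?_)
    · exact hmaps (hfin.mem_toFinset.mp hγ)
    · exact inj_row Y z (hfin.mem_toFinset.mp hγ) (hfin.mem_toFinset.mp hγ') h
  have h3 : (S.card : ℝ) ≤ 9 / Y := by
    have h4 := card_Rw (z.im / Y) z.re ⌊(√(z.im * Y))⁻¹⌋₊
    rw [← hS] at h4
    have hs : 0 < √(z.im * Y) := Real.sqrt_pos.mpr (by positivity)
    have h5 : ((⌊(√(z.im * Y))⁻¹⌋₊ : ℕ) : ℝ) ≤ (√(z.im * Y))⁻¹ := Nat.floor_le (by positivity)
    have h6 : √(z.im / Y) = √(z.im * Y) / Y := by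
      have : z.im / Y = (z.im * Y) / Y ^ 2 := by field_simp
      rw [this, Real.sqrt_div (by positivity), Real.sqrt_sq hY.le]
    have h7 : 9 / 10 * Y ≤ √(z.im * Y) := by
      refine Real.le_sqrt_of_sq_le ?_
      have h8 : (81 : ℝ) / 100 ≤ z.im := by nlinarith
      nlinarith
    have h8 : (√(z.im * Y))⁻¹ ≤ (9 / 10 * Y)⁻¹ := inv_anti₀ (by positivity) h7
    calc (S.card : ℝ) ≤ 2 + 2 * ((⌊(√(z.im * Y))⁻¹⌋₊ : ℕ) : ℝ) * (2 * √(z.im / Y) + 1) := h4
      _ ≤ 2 + 2 * (√(z.im * Y))⁻¹ * (2 * √(z.im / Y) + 1) := by gcongr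
      _ = 2 + 4 / Y + 2 * (√(z.im * Y))⁻¹ := by
          rw [h6]
          field_simp
          ring
      _ ≤ 2 / Y + 4 / Y + 2 * (9 / 10 * Y)⁻¹ := by
          have : 2 ≤ 2 / Y := by
            rw [le_div_iff₀ hY]
            linarith
          linarith
      _ ≤ 9 / Y := by
          rw [show 2 / Y + 4 / Y + 2 * (9 / 10 * Y)⁻¹ = (6 + 20 / 9) / Y by field_simp; ring]
          gcongr
          norm_num
  rw [h1, ← ENNReal.ofReal_natCast]
  refine ENNReal.ofReal_le_ofReal (le_trans ?_ h3)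
  exact_mod_cast h2

lemma NN_ge {z : ℍ} (hz : z ∈ ModularGroup.fdo) : 2 ≤ NN (4 / 5) z := by
  obtain ⟨-, him⟩ := fdo_im hz
  have hy := z.im_pos
  set γ0 : SL(2, ℤ) := ModularGroup.T ^ (-⌊z.re⌋) with hγ0
  have h1 : γ0 • z ∈ Sp (4 / 5) := by
    have hre : (γ0 • z).re = z.re + ((-⌊z.re⌋ : ℤ) : ℝ) := ModularGroup.re_T_zpow_smul _ _
    have him' : (γ0 • z).im = z.im := ModularGroup.im_T_zpow_smul _ _
    have h2 := Int.floor_le z.re
    have h3 := Int.lt_floor_add_one z.re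
    refine ⟨?_, ?_, ?_⟩
    · rw [hre]
      push_cast
      linarith
    · rw [hre]
      push_cast
      linarith
    · rw [him']
      nlinarith
  have h2 : (-γ0) • z ∈ Sp (4 / 5) := by
    rw [ModularGroup.SL_neg_smul]
    exact h1
  unfold NN
  refine le_trans ?_ (ENNReal.sum_le_tsum ({γ0, -γ0} : Finset SL(2, ℤ)))
  rw [Finset.sum_pair (ne_neg γ0), indicator_of_mem h1, indicator_of_mem h2]
  norm_num

/-- the formula -/
lemma main (hUL : Av.StmtUL) {f : ℍ → ℝ} {t : ℝ} (hf : IsHeckeMaass f t) (Y : ℝ) :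
    ∫⁻ z in ModularGroup.fdo, ENNReal.ofReal (f z ^ 2) * NN Y z =
      2 * ∫⁻ z in Sp Y, ENNReal.ofReal (f z ^ 2) := by
  have hc := cont_f hf
  have hG : Measurable ((Sp Y).indicator fun z : ℍ => ENNReal.ofReal (f z ^ 2)) :=
    (ENNReal.measurable_ofReal.comp (hc.pow 2).measurable).indicator (meas_Sp Y)
  have h := hUL.1 _ hG
  rw [lintegral_indicator (meas_Sp Y)] at h
  rw [← h]
  refine lintegral_congr fun z => ?_
  unfold NN
  rw [← ENNReal.tsum_mul_left]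
  refine tsum_congr fun γ => ?_
  by_cases hz : γ • z ∈ Sp Y
  · rw [indicator_of_mem hz, indicator_of_mem hz, mul_one, hf.invariant]
  · rw [indicator_of_notMem hz, indicator_of_notMem hz, mul_zero]

lemma meas_fdo : MeasurableSet (ModularGroup.fdo : Set ℍ) :=
  ModularGroup.isOpen_fdo.measurableSet

lemma int_fdo {f : ℍ → ℝ} {t : ℝ} (hf : IsHeckeMaass f t) :
    ∫⁻ z in ModularGroup.fdo, ENNReal.ofReal (f z ^ 2) = ENNReal.ofReal (Real.pi / 3) := by
  have hint : IntegrableOn (fun z : ℍ => f z ^ 2) ModularGroup.fdo := by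
    by_contra hcon
    have h1 := hf.normalised
    rw [integral_undef hcon] at h1
    have := Real.pi_pos
    linarith
  rw [← hf.normalised,
    ofReal_integral_eq_lintegral_ofReal hint (Filter.Eventually.of_forall fun z => sq_nonneg _)]

end StrM

open StrM in
theorem stmtStr (hUL : Av.StmtUL) : StmtStr := by
  refine ⟨9 * (Real.pi / 3), by positivity, fun f t hf => ⟨fun Y hY hY1 hint => ?_, fun hint => ?_⟩⟩
  · have h1 := main hUL hf Y
    have h2 : ∫⁻ z in ModularGroup.fdo, ENNReal.ofReal (f z ^ 2) * NN Y z ≤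
        ENNReal.ofReal (Real.pi / 3 * (9 / Y)) := by
      rw [ENNReal.ofReal_mul (by positivity), ← int_fdo hf,
        ← lintegral_mul_const' _ _ ENNReal.ofReal_ne_top]
      refine setLIntegral_mono' meas_fdo fun z hz => ?_
      gcongr
      exact NN_le hY hY1 hz
    rw [h1, ← ofReal_integral_eq_lintegral_ofReal hint
      (Filter.Eventually.of_forall fun z => sq_nonneg _)] at h2
    have h3 : 0 ≤ ∫ z in Sp Y, f z ^ 2 := integral_nonneg fun z => sq_nonneg _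
    have h4 : ENNReal.ofReal (∫ z in Sp Y, f z ^ 2) ≤ ENNReal.ofReal (Real.pi / 3 * (9 / Y)) := by
      refine le_trans ?_ h2
      rw [two_mul]
      exact le_self_add
    have h5 := (ENNReal.ofReal_le_ofReal_iff (by positivity)).mp h4
    refine h5.trans (le_of_eq ?_)
    ring
  · have h1 := main hUL hf (4 / 5)
    have h2 : 2 * ENNReal.ofReal (Real.pi / 3) ≤
        ∫⁻ z in ModularGroup.fdo, ENNReal.ofReal (f z ^ 2) * NN (4 / 5) z := by
      rw [← int_fdo hf, mul_comm, ← lintegral_mul_const' _ _ (by norm_num)]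
      refine setLIntegral_mono' meas_fdo fun z hz => ?_
      gcongr
      exact NN_ge hz
    rw [h1, ← ofReal_integral_eq_lintegral_ofReal hint
      (Filter.Eventually.of_forall fun z => sq_nonneg _)] at h2
    have h3 : 0 ≤ ∫ z in Sp (4 / 5), f z ^ 2 := integral_nonneg fun z => sq_nonneg _
    rw [ENNReal.mul_le_mul_iff_right (by norm_num) (by norm_num)] at h2
    exact (ENNReal.ofReal_le_ofReal_iff h3).mp h2

end

end Pool.Agent.A54.Th
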