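import Pool.Agent.Lib.MP_a54f13_nt.Th.Spec
import Pool.Agent.Lib.MP_a54f13_nt.Av.W1

/-!
# Module `W2`: exponential weights, refined part
-/

set_option autoImplicit false

namespace Pool.Agent.A54.Th

open MeasureTheory Filter Topology Set
open scoped ENNReal
open Pool.Agent.A54.Half (H0)
open Pool.Agent.A54.Av (Mat VV Vd NonSc cnt Cnd msq WW sW)
open Pool.Agent.A54.Av.W1M (aw sumw sumw_ne_top cs Vd_nonneg meas_cnt sW_le cnt_mono cnt_zero)

namespace W2M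

noncomputable section

/-- the main estimate -/
private theorem key (θ : ℝ) (K : Set ℂ) (hK : IsCompact K) (CI : ℝ) (M : ℕ) (hCI : 0 ≤ CI)
    (hI : ∀ β r L : ℝ, 0 < β → 0 < r → 0 ≤ L →
      ∫⁻ z in K, ∑' n : ℕ, cnt (fun γ => Cnd β r (n + 1) z γ ∧ ((|γ 1 0| : ℤ) : ℝ) ≤ L) ^ 2 ≤
        ENNReal.ofReal (CI * r ^ 2 * (1 + r) ^ M * (β + β ^ (1 + θ) * L ^ (1 - θ))))
    (y1 y s F0 : ℝ) (hy1 : 0 < y1) (hy : 1 / 2 ≤ y) (hs : 0 ≤ s) (hF0 : 0 ≤ F0)
    (hF : ∀ j : ℕ, 1 ≤ √(((j : ℝ) + 1) / y1) →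
      √(((j : ℝ) + 1) / y1) + s ^ (1 - θ) * (((j : ℝ) + 1) / y1) ≤ F0 * ((j : ℝ) + 1))
    (P : ℕ → Mat → Prop)
    (hP : ∀ n γ, P n γ → NonSc γ ∧ γ.det = (n : ℤ) + 1 ∧
      ∀ z ∈ K, ((γ 1 0 : ℤ) : ℝ) ^ 2 ≤ s ^ 2 * (((γ.det : ℤ) : ℝ) + Vd γ z)) :
    ∫⁻ z in K, ∑' n : ℕ, sW (P n) y1 y z ^ 2 ≤
      ENNReal.ofReal (CI * 3 ^ M / y * F0) * ((sumw 0) ^ 2 * sumw 1 * sumw (M + 1)) := by
  have hy0 : 0 < y := by linarith
  set bt : ℕ → ℝ := fun j => √(((j : ℝ) + 1) / y1) with hbt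
  set rr : ℕ → ℝ := fun k => √(((k : ℝ) + 1) / y) with hrr
  have hbt2 : ∀ j, bt j ^ 2 = ((j : ℝ) + 1) / y1 := fun j => Real.sq_sqrt (by positivity)
  have hrr2 : ∀ k, rr k ^ 2 = ((k : ℝ) + 1) / y := fun k => Real.sq_sqrt (by positivity)
  have hbtp : ∀ j, 0 < bt j := fun j => Real.sqrt_pos.mpr (by positivity)
  have hrrp : ∀ k, 0 < rr k := fun k => Real.sqrt_pos.mpr (by positivity)
  set G : ℕ × ℕ → ℕ → ℂ → ℝ≥0∞ := fun p n z =>
    cnt (fun γ => Cnd (bt p.1) (rr p.2) (n + 1) z γ ∧ ((|γ 1 0| : ℤ) : ℝ) ≤ s * bt p.1) with hG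
  have hdet : ∀ n γ, P n γ → ((γ.det : ℤ) : ℝ) = (n : ℝ) + 1 := by
    intro n γ h
    rw [(hP n γ h).2.1]
    push_cast
    ring
  -- pointwise estimate
  have hpt : ∀ z ∈ K, ∑' n : ℕ, sW (P n) y1 y z ^ 2 ≤
      (sumw 0) ^ 2 * ∑' p : ℕ × ℕ, (aw p.1 * aw p.2) * ∑' n : ℕ, G p n z ^ 2 := by
    intro z hz
    have h1 : ∀ n, sW (P n) y1 y z ^ 2 ≤
        (sumw 0) ^ 2 * ∑' p : ℕ × ℕ, (aw p.1 * aw p.2) * G p n z ^ 2 := by
      intro n
      have h2 := sW_le (P n) y1 y z hy1 hy0 (fun γ h => by rw [hdet n γ h]; positivity)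
      have h3 : sW (P n) y1 y z ≤ ∑' p : ℕ × ℕ, (aw p.1 * aw p.2) * G p n z := by
        refine h2.trans (ENNReal.tsum_le_tsum fun p => mul_le_mul_right (cnt_mono ?_) _)
        rintro γ ⟨hγ, hu, hv⟩
        obtain ⟨hns, hdt, hc⟩ := hP n γ hγ
        have hu' : ((γ.det : ℤ) : ℝ) + Vd γ z ≤ bt p.1 ^ 2 := by
          rw [hbt2, le_div_iff₀ hy1]
          linarith
        refine ⟨⟨hns, hdt, hu', ?_⟩, ?_⟩
        · rw [hrr2, le_div_iff₀ hy0]
          linarith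
        · rw [Int.cast_abs]
          apply abs_le_of_sq_le_sq _ (mul_nonneg hs (hbtp _).le)
          rw [mul_pow]
          exact (hc z hz).trans (mul_le_mul_of_nonneg_left hu' (sq_nonneg s))
      have h4 : (∑' p : ℕ × ℕ, aw p.1 * aw p.2) = (sumw 0) ^ 2 := by
        rw [ENNReal.tsum_prod (f := fun j k => aw j * aw k)]
        simp_rw [ENNReal.tsum_mul_left]
        rw [ENNReal.tsum_mul_right, sq]
        have : (∑' j, aw j) = sumw 0 := by
          unfold sumw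
          simp
        rw [this]
      calc sW (P n) y1 y z ^ 2 ≤ (∑' p : ℕ × ℕ, (aw p.1 * aw p.2) * G p n z) ^ 2 :=
            pow_le_pow_left' h3 2
        _ ≤ (∑' p : ℕ × ℕ, aw p.1 * aw p.2) *
            ∑' p : ℕ × ℕ, (aw p.1 * aw p.2) * G p n z ^ 2 := cs _ _
        _ = _ := by rw [h4]
    refine (ENNReal.tsum_le_tsum h1).trans ?_
    rw [ENNReal.tsum_mul_left, ENNReal.tsum_comm]
    simp_rw [ENNReal.tsum_mul_left]
    exact le_rfl
  -- integration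
  have hmeas : ∀ p n, Measurable (G p n) := fun p n => meas_cnt _ _ _ _
  have hm2 : ∀ p, Measurable fun z => ∑' n : ℕ, G p n z ^ 2 := fun p =>
    Measurable.ennreal_tsum fun n => (hmeas p n).pow_const 2
  have hint : ∫⁻ z in K, ∑' n : ℕ, sW (P n) y1 y z ^ 2 ≤
      (sumw 0) ^ 2 * ∑' p : ℕ × ℕ, (aw p.1 * aw p.2) * ∫⁻ z in K, ∑' n : ℕ, G p n z ^ 2 := by
    refine (setLIntegral_mono' hK.measurableSet hpt).trans ?_
    rw [lintegral_const_mul _ (Measurable.ennreal_tsum fun p => (hm2 p).const_mul _),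
      lintegral_tsum fun p => ((hm2 p).const_mul _).aemeasurable]
    refine mul_le_mul_right (ENNReal.tsum_le_tsum fun p => ?_) _
    rw [lintegral_const_mul _ (hm2 p)]
  refine hint.trans ?_
  -- each integral
  have hone : ∀ p : ℕ × ℕ, ∫⁻ z in K, ∑' n : ℕ, G p n z ^ 2 ≤
      ENNReal.ofReal (CI * 3 ^ M / y * F0) * (ENNReal.ofReal (((p.1 : ℝ) + 1) ^ 1) *
        ENNReal.ofReal (((p.2 : ℝ) + 1) ^ (M + 1))) := by
    intro p
    by_cases hb : 1 ≤ bt p.1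
    · refine (hI (bt p.1) (rr p.2) (s * bt p.1) (hbtp _) (hrrp _)
        (mul_nonneg hs (hbtp _).le)).trans ?_
      have hA : 0 ≤ CI * 3 ^ M / y * F0 := by positivity
      rw [← ENNReal.ofReal_mul (by positivity), ← ENNReal.ofReal_mul hA]
      apply ENNReal.ofReal_le_ofReal
      have h1 : bt p.1 ^ (1 + θ) * (s * bt p.1) ^ (1 - θ) = s ^ (1 - θ) * bt p.1 ^ 2 := by
        have h1a : bt p.1 ^ (1 + θ) * bt p.1 ^ (1 - θ) = bt p.1 ^ 2 := by
          rw [← Real.rpow_add (hbtp _), show (1 + θ) + (1 - θ) = 2 by ring, Real.rpow_two]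
        rw [Real.mul_rpow hs (hbtp _).le, mul_left_comm, h1a]
      rw [h1]
      have h2 : bt p.1 + s ^ (1 - θ) * bt p.1 ^ 2 ≤ F0 * ((p.1 : ℝ) + 1) := by
        rw [hbt2]
        exact hF p.1 hb
      have h4 : 1 + rr p.2 ≤ 3 * ((p.2 : ℝ) + 1) := by
        have h5 : rr p.2 ≤ 2 * ((p.2 : ℝ) + 1) := by
          apply Real.sqrt_le_iff.mpr
          refine ⟨by positivity, ?_⟩
          rw [div_le_iff₀ hy0]
          have h6 : (0 : ℝ) ≤ (p.2 : ℝ) := Nat.cast_nonneg _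
          nlinarith [mul_nonneg h6 h6, mul_nonneg h6 hy0.le]
        have h6 : (0 : ℝ) ≤ (p.2 : ℝ) := Nat.cast_nonneg _
        linarith
      have h7 : (1 + rr p.2) ^ M ≤ (3 * ((p.2 : ℝ) + 1)) ^ M :=
        pow_le_pow_left₀ (by have := (hrrp p.2).le; linarith) h4 M
      rw [hrr2]
      have h8 : CI * (((p.2 : ℝ) + 1) / y) * (1 + rr p.2) ^ M ≤
          CI * (((p.2 : ℝ) + 1) / y) * (3 * ((p.2 : ℝ) + 1)) ^ M :=
        mul_le_mul_of_nonneg_left h7 (by positivity)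
      calc CI * (((p.2 : ℝ) + 1) / y) * (1 + rr p.2) ^ M * (bt p.1 + s ^ (1 - θ) * bt p.1 ^ 2)
          ≤ CI * (((p.2 : ℝ) + 1) / y) * (3 * ((p.2 : ℝ) + 1)) ^ M * (F0 * ((p.1 : ℝ) + 1)) :=
            mul_le_mul h8 h2 (by have := (hbtp p.1).le; positivity) (by positivity)
        _ = CI * 3 ^ M / y * F0 * (((p.1 : ℝ) + 1) ^ 1 * ((p.2 : ℝ) + 1) ^ (M + 1)) := by
            rw [mul_pow]
            ring
    · have hzero : ∫⁻ z in K, ∑' n : ℕ, G p n z ^ 2 = 0 := by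
        have : ∀ z, ∑' n : ℕ, G p n z ^ 2 = 0 := by
          intro z
          rw [ENNReal.tsum_eq_zero]
          intro n
          have h1 : G p n z = 0 := by
            apply cnt_zero
            rintro γ ⟨⟨hns, hdt, hu, hv⟩, -⟩
            apply hb
            have hV := Vd_nonneg γ z
            have h2 : (1 : ℝ) ≤ ((γ.det : ℤ) : ℝ) := by
              rw [hdt]
              push_cast
              have : (0 : ℝ) ≤ (n : ℝ) := Nat.cast_nonneg _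
              linarith
            have h3 : 1 ≤ bt p.1 ^ 2 := by linarith
            have h4 := (hbtp p.1).le
            nlinarith
          rw [h1]
          simp
        simp_rw [this]
        simp
      rw [hzero]
      exact zero_le
  calc (sumw 0) ^ 2 * ∑' p : ℕ × ℕ, (aw p.1 * aw p.2) * ∫⁻ z in K, ∑' n : ℕ, G p n z ^ 2
      ≤ (sumw 0) ^ 2 * ∑' p : ℕ × ℕ, (aw p.1 * aw p.2) *
        (ENNReal.ofReal (CI * 3 ^ M / y * F0) * (ENNReal.ofReal (((p.1 : ℝ) + 1) ^ 1) *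
          ENNReal.ofReal (((p.2 : ℝ) + 1) ^ (M + 1)))) :=
        mul_le_mul_right (ENNReal.tsum_le_tsum fun p => mul_le_mul_right (hone p) _) _
    _ = (sumw 0) ^ 2 * (ENNReal.ofReal (CI * 3 ^ M / y * F0) * (sumw 1 * sumw (M + 1))) := by
        congr 1
        have h1 : ∀ p : ℕ × ℕ, (aw p.1 * aw p.2) *
            (ENNReal.ofReal (CI * 3 ^ M / y * F0) * (ENNReal.ofReal (((p.1 : ℝ) + 1) ^ 1) *
              ENNReal.ofReal (((p.2 : ℝ) + 1) ^ (M + 1)))) =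
            ENNReal.ofReal (CI * 3 ^ M / y * F0) *
              ((aw p.1 * ENNReal.ofReal (((p.1 : ℝ) + 1) ^ 1)) *
                (aw p.2 * ENNReal.ofReal (((p.2 : ℝ) + 1) ^ (M + 1)))) := by
          intro p; ring
        simp_rw [h1]
        rw [ENNReal.tsum_mul_left]
        congr 1
        rw [ENNReal.tsum_prod (f := fun j k => (aw j * ENNReal.ofReal (((j : ℝ) + 1) ^ 1)) *
                (aw k * ENNReal.ofReal (((k : ℝ) + 1) ^ (M + 1))))]
        simp_rw [ENNReal.tsum_mul_left]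
        rw [ENNReal.tsum_mul_right]
        rfl
    _ = _ := by ring

end

end W2M

open W2M

theorem stmtW2 (hJJ : StmtJJ) (_hGe : Av.StmtGe) : StmtW2 := by
  intro θ hθ0 hθ1 K hK hKH
  obtain ⟨CI, M, hCI, hI'⟩ := hJJ θ hθ0 hθ1 K hK hKH
  set c0 : ℝ := ((sumw 0) ^ 2 * sumw 1 * sumw (M + 1)).toReal with hc0
  have hc0n : 0 ≤ c0 := ENNReal.toReal_nonneg
  have hfin : (sumw 0) ^ 2 * sumw 1 * sumw (M + 1) = ENNReal.ofReal c0 := by
    rw [hc0, ENNReal.ofReal_toReal]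
    exact ENNReal.mul_ne_top (ENNReal.mul_ne_top (ENNReal.pow_ne_top (sumw_ne_top 0))
      (sumw_ne_top 1)) (sumw_ne_top _)
  refine ⟨CI * 3 ^ M * c0, by positivity, ?_⟩
  intro y1 y hy1 hy ε hε hε1
  have hy0 : 0 < y := by linarith
  have h1 := key θ K hK CI M hCI hI' y1 y ε (1 / √y1 + ε ^ (1 - θ) / y1) hy1 hy hε.le
    (by positivity)
    (by
      intro j hj
      have hj0 : (0 : ℝ) ≤ (j : ℝ) := Nat.cast_nonneg _
      have h2 : √(((j : ℝ) + 1) / y1) ≤ ((j : ℝ) + 1) / √y1 := by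
        rw [Real.sqrt_div (by positivity)]
        apply div_le_div_of_nonneg_right _ (Real.sqrt_nonneg _)
        apply Real.sqrt_le_iff.mpr
        constructor
        · positivity
        · nlinarith
      have h4 : (1 / √y1 + ε ^ (1 - θ) / y1) * ((j : ℝ) + 1) =
          (((j : ℝ) + 1) / √y1) + ε ^ (1 - θ) * (((j : ℝ) + 1) / y1) := by
        ring
      rw [h4]
      linarith)
    (fun n γ => γ.det = (n : ℤ) + 1 ∧ NonSc γ ∧
      ((γ 1 0 : ℤ) : ℝ) ^ 2 ≤ ε ^ 2 * ((γ.det : ℤ) : ℝ)) (by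
      rintro n γ ⟨hd, hns, hc⟩
      refine ⟨hns, hd, ?_⟩
      intro z hz
      have hV := Vd_nonneg γ z
      nlinarith [mul_nonneg (sq_nonneg ε) hV])
  refine h1.trans ?_
  rw [hfin, ← ENNReal.ofReal_mul (by positivity)]
  apply ENNReal.ofReal_le_ofReal
  apply le_of_eq
  ring

end Pool.Agent.A54.Th
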