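import Pool.Agent.Lib.MP_a54f13_nt.Th.Spec

/-!
# The upper bound for `S(x)`, `x ≥ t/(8π)`
-/

set_option autoImplicit false

namespace Pool.Agent.A54.Th.WloM

open MeasureTheory Filter Topology Set
open scoped ContDiff ComplexConjugate UpperHalfPlane MatrixGroups ENNReal
open Pool.Agent.A54.Av (wf KB IsRho)
open Pool.Agent.A54.Ef (SF)
open Pool.Agent.A54.Th

theorem KI_nonneg (t X : ℝ) (hX : 0 < X) : 0 ≤ KI t X := by
  unfold KI
  refine setIntegral_nonneg measurableSet_Ioi fun u hu => ?_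
  have : 0 < u := lt_trans hX hu
  positivity

theorem KI_lower (hE : StmtKbE) {t X : ℝ} (ht : 100 ≤ t) (hX : 0 < X) (h4 : 4 * X ≤ t)
    (hint : IntegrableOn (fun u : ℝ => KB t u ^ 2 / u) (Ioi X)) :
    (Real.pi * t / Real.sinh (Real.pi * t)) / (5 * t ^ 2) ≤ KI t X := by
  refine ((hE t ht).2.1 X hX h4).trans ?_
  rw [intervalIntegral.integral_of_le (by linarith)]
  unfold KI
  refine setIntegral_mono_set hint ?_ ?_
  · filter_upwards [ae_restrict_mem measurableSet_Ioi] with u hu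
    have : 0 < u := lt_trans hX hu
    simp only [Pi.zero_apply]
    positivity
  · exact Ioc_subset_Ioi_self.eventuallyLE

theorem SF_eq (l : ℕ → ℝ) (x : ℝ) : SF l x = ∑ n ∈ Finset.range ⌊x⌋₊, l (n + 1) ^ 2 := by
  unfold SF
  rw [Finset.range_eq_Ico, Finset.sum_Ico_add' (fun n => l n ^ 2) 0 ⌊x⌋₊ 1]
  rfl

end Pool.Agent.A54.Th.WloM

namespace Pool.Agent.A54.Th

open MeasureTheory Filter Topology Set
open scoped ContDiff ComplexConjugate UpperHalfPlane MatrixGroups ENNReal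
open Pool.Agent.A54.Av (wf KB IsRho)
open Pool.Agent.A54.Ef (SF)
open WloM

theorem stmtWlo (hM : StmtMas) (hS : StmtStr) (hE : StmtKbE) (hK : StmtKin) : StmtWlo := by
  obtain ⟨C, hC, hS⟩ := hS
  obtain ⟨C2, hC2, hK⟩ := hK
  refine ⟨20 * C, by positivity, ?_⟩
  intro f t ρ l hf hρ hl ht x hx
  have hpi := Real.pi_pos
  have ht0 : 0 < t := by linarith
  have hx0 : 0 < x := lt_of_lt_of_le (by positivity) hx
  set Y : ℝ := t / (8 * Real.pi * x) with hY
  have hY0 : 0 < Y := by positivity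
  have hY1 : Y ≤ 1 := by
    rw [hY, div_le_one (by positivity)]
    rw [div_le_iff₀ (by positivity)] at hx
    linarith
  obtain ⟨hi, hs, he⟩ := hM f t ρ l hf hρ hl Y hY0
  have h1 := (hS f t hf).1 Y hY0 hY1 hi
  rw [he] at h1
  have hρ0 : 0 < ‖ρ‖ := norm_pos_iff.mpr hρ.1
  set e : ℝ := Real.pi * t / Real.sinh (Real.pi * t) with he0
  have hsinh : 0 < Real.sinh (Real.pi * t) := Real.sinh_pos_iff.mpr (by positivity)
  have hepos : 0 < e := by positivity
  have h2 : SF l x * (e / (5 * t ^ 2)) ≤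
      ∑' n : ℕ, l (n + 1) ^ 2 * KI t (2 * Real.pi * (n + 1) * Y) := by
    refine le_trans ?_ (hs.sum_le_tsum (Finset.range ⌊x⌋₊) fun n _ => ?_)
    · rw [SF_eq, Finset.sum_mul]
      refine Finset.sum_le_sum fun n hn => ?_
      have hn' : ((n : ℝ) + 1) ≤ x := by
        have h3 : n + 1 ≤ ⌊x⌋₊ := Finset.mem_range.mp hn
        have h4 : ((n + 1 : ℕ) : ℝ) ≤ ⌊x⌋₊ := by exact_mod_cast h3
        have h5 := Nat.floor_le hx0.le
        push_cast at h4
        linarith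
      have hX0 : 0 < 2 * Real.pi * ((n : ℝ) + 1) * Y := by positivity
      have hX4 : 4 * (2 * Real.pi * ((n : ℝ) + 1) * Y) ≤ t := by
        have h6 : 8 * Real.pi * x * Y = t := by
          rw [hY]; field_simp
        have h7 : 8 * Real.pi * ((n : ℝ) + 1) * Y ≤ 8 * Real.pi * x * Y := by
          gcongr
        linarith
      exact mul_le_mul_of_nonneg_left
        (KI_lower hE ht hX0 hX4 ((hK t ht).1 _ hX0).1) (sq_nonneg _)
    · exact mul_nonneg (sq_nonneg _) (KI_nonneg t _ (by positivity))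
  have h3 : 2 * ‖ρ‖ ^ 2 * (SF l x * (e / (5 * t ^ 2))) ≤ C / Y :=
    (mul_le_mul_of_nonneg_left h2 (by positivity)).trans h1
  have h4 : SF l x ≤ C / Y * (5 * t ^ 2 / (2 * ‖ρ‖ ^ 2 * e)) := by
    have h5 : SF l x = 2 * ‖ρ‖ ^ 2 * (SF l x * (e / (5 * t ^ 2))) *
        (5 * t ^ 2 / (2 * ‖ρ‖ ^ 2 * e)) := by
      field_simp
    rw [h5]
    exact mul_le_mul_of_nonneg_right h3 (by positivity)
  have h5 : C / Y * (5 * t ^ 2 / (2 * ‖ρ‖ ^ 2 * e)) =
      20 * C * x * (Real.sinh (Real.pi * t) / ‖ρ‖ ^ 2) := by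
    rw [hY, he0]
    field_simp
    ring
  rw [h5] at h4
  refine h4.trans ?_
  unfold wf
  have h6 : Real.sinh (Real.pi * t) ≤ Real.cosh (Real.pi * t) := (Real.sinh_lt_cosh _).le
  gcongr

end Pool.Agent.A54.Th
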