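import Pool.Agent.Lib.MP_a54f13_nt.Th.Spec
import Pool.Agent.Lib.MP_640417_ag.All.Divisor

/-!
# Module `Wsup`: the bound `w ≤ t^ε` (Iwaniec)
-/

set_option autoImplicit false

namespace Pool.Agent.A54.Th

open MeasureTheory Filter Topology Set
open scoped ContDiff ComplexConjugate UpperHalfPlane MatrixGroups ENNReal
open Pool.Agent.A54.Half (H0 qq ff hh)
open Pool.Agent.A54.Av (Mat VV Vd msq bet NonSc Bump es Sm' MN RN GR qs qT dl yo Aa DD Fam wf XX2 O8 Pm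
  lam Cc Blk BlkG Pc cnt Cnd WW sW an IsRho KB KB1)
open Pool.Agent.A54.Ef (HMul SF qe)

namespace WsupM

/-- the pairs with both entries divisible by `d` -/
private def PP (N d : ℕ) : Finset (ℕ × ℕ) :=
  (Finset.Icc 1 N ×ˢ Finset.Icc 1 N).filter fun z => d ∣ z.1 ∧ d ∣ z.2

private theorem fib (l : ℕ → ℝ) (N d : ℕ) (B : ℝ) (hd : 1 ≤ d)
    (hB : ∀ M : ℕ, 1 ≤ M → M ≤ N ^ 2 → (M.divisors.card : ℝ) ≤ B) :
    ∑ z ∈ PP N d, l (z.1 * z.2 / d ^ 2) ^ 2 ≤ B * ∑ M ∈ Finset.Icc 1 ((N / d) ^ 2), l M ^ 2 := by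
  have hd0 : 0 < d := hd
  have key : ∀ z ∈ PP N d, ∃ a b : ℕ, z.1 = d * a ∧ z.2 = d * b ∧ 1 ≤ a ∧ 1 ≤ b ∧ a ≤ N / d ∧
      b ≤ N / d ∧ z.1 * z.2 / d ^ 2 = a * b := by
    intro z hz
    obtain ⟨hz1, ⟨a, ha⟩, ⟨b, hb⟩⟩ := Finset.mem_filter.1 hz
    obtain ⟨h1, h2⟩ := Finset.mem_product.1 hz1
    rw [Finset.mem_Icc] at h1 h2
    refine ⟨a, b, ha, hb, ?_, ?_, ?_, ?_, ?_⟩
    · rcases Nat.eq_zero_or_pos a with h | h
      · rw [ha, h] at h1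
        omega
      · exact h
    · rcases Nat.eq_zero_or_pos b with h | h
      · rw [hb, h] at h2
        omega
      · exact h
    · rw [Nat.le_div_iff_mul_le hd0, mul_comm, ← ha]
      exact h1.2
    · rw [Nat.le_div_iff_mul_le hd0, mul_comm, ← hb]
      exact h2.2
    · rw [ha, hb, show d * a * (d * b) = d ^ 2 * (a * b) by ring]
      exact Nat.mul_div_cancel_left _ (by positivity)
  have hmap : ∀ z ∈ PP N d, z.1 * z.2 / d ^ 2 ∈ Finset.Icc 1 ((N / d) ^ 2) := by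
    intro z hz
    obtain ⟨a, b, -, -, ha, hb, ha', hb', he⟩ := key z hz
    rw [he, Finset.mem_Icc]
    refine ⟨Nat.mul_pos ha hb, ?_⟩
    rw [sq]
    exact Nat.mul_le_mul ha' hb'
  rw [← Finset.sum_fiberwise_of_maps_to hmap, Finset.mul_sum]
  refine Finset.sum_le_sum fun M hM => ?_
  rw [Finset.mem_Icc] at hM
  have h1 : ∑ z ∈ (PP N d).filter (fun z => z.1 * z.2 / d ^ 2 = M), l (z.1 * z.2 / d ^ 2) ^ 2 =
      (((PP N d).filter fun z => z.1 * z.2 / d ^ 2 = M).card : ℝ) * l M ^ 2 := by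
    rw [← nsmul_eq_mul, ← Finset.sum_const]
    refine Finset.sum_congr rfl fun z hz => ?_
    rw [(Finset.mem_filter.1 hz).2]
  rw [h1]
  refine mul_le_mul_of_nonneg_right ?_ (sq_nonneg _)
  have h2 : ((PP N d).filter fun z => z.1 * z.2 / d ^ 2 = M).card ≤ M.divisors.card := by
    refine Finset.card_le_card_of_injOn (fun z => z.1 / d) (fun z hz => ?_) fun z hz w hw he => ?_
    · obtain ⟨hz1, hz2⟩ := Finset.mem_filter.1 (Finset.mem_coe.1 hz)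
      obtain ⟨a, b, ha1, -, -, -, -, -, he⟩ := key z hz1
      refine Finset.mem_coe.2 (Nat.mem_divisors.2 ⟨?_, by omega⟩)
      show z.1 / d ∣ M
      rw [ha1, Nat.mul_div_cancel_left _ hd0, ← hz2, he]
      exact dvd_mul_right _ _
    · obtain ⟨hz1, hz2⟩ := Finset.mem_filter.1 (Finset.mem_coe.1 hz)
      obtain ⟨hw1, hw2⟩ := Finset.mem_filter.1 (Finset.mem_coe.1 hw)
      obtain ⟨a, b, ha1, hb1, ha, -, -, -, he1⟩ := key z hz1
      obtain ⟨a', b', ha1', hb1', -, -, -, -, he2⟩ := key w hw1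
      have e1 : z.1 / d = a := by rw [ha1, Nat.mul_div_cancel_left _ hd0]
      have e2 : w.1 / d = a' := by rw [ha1', Nat.mul_div_cancel_left _ hd0]
      have e3 : a = a' := by
        rw [← e1, ← e2]
        exact he
      have e4 : a * b = a * b' := by
        have h3 : a * b = M := by rw [← he1, hz2]
        have h4 : a' * b' = M := by rw [← he2, hw2]
        rw [h3, e3, h4]
      have e5 : b = b' := Nat.eq_of_mul_eq_mul_left ha e4
      refine Prod.ext ?_ ?_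
      · rw [ha1, ha1', e3]
      · rw [hb1, hb1', e5]
  refine le_trans (by exact_mod_cast h2) (hB M hM.1 (hM.2.trans ?_))
  exact Nat.pow_le_pow_left (Nat.div_le_self N d) 2

private theorem cs (hHec : StmtHec) (l : ℕ → ℝ) (hl : HMul l) (N : ℕ) (A B : ℝ) (hA0 : 0 ≤ A)
    (hA : ∀ m : ℕ, 1 ≤ m → m ≤ N → (m.divisors.card : ℝ) ≤ A)
    (hB : ∀ M : ℕ, 1 ≤ M → M ≤ N ^ 2 → (M.divisors.card : ℝ) ≤ B) :
    (∑ n ∈ Finset.Icc 1 N, l n ^ 2) ^ 2 ≤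
      A * (B * ∑ d ∈ Finset.Icc 1 N, ∑ M ∈ Finset.Icc 1 ((N / d) ^ 2), l M ^ 2) := by
  have h1 : (∑ n ∈ Finset.Icc 1 N, l n ^ 2) ^ 2 =
      ∑ z ∈ Finset.Icc 1 N ×ˢ Finset.Icc 1 N, (l z.1 * l z.2) ^ 2 := by
    rw [sq, Finset.sum_mul_sum, Finset.sum_product]
    refine Finset.sum_congr rfl fun m _ => Finset.sum_congr rfl fun n _ => ?_
    ring
  have h2 : ∀ z ∈ Finset.Icc 1 N ×ˢ Finset.Icc 1 N, (l z.1 * l z.2) ^ 2 ≤
      A * ∑ d ∈ Finset.Icc 1 N, if d ∣ z.1 ∧ d ∣ z.2 then l (z.1 * z.2 / d ^ 2) ^ 2 else 0 := by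
    intro z hz
    obtain ⟨hz1, hz2⟩ := Finset.mem_product.1 hz
    rw [Finset.mem_Icc] at hz1 hz2
    have hg : 0 < Nat.gcd z.1 z.2 := Nat.gcd_pos_of_pos_left _ (by omega)
    have hg' : Nat.gcd z.1 z.2 ≤ N := (Nat.gcd_le_left _ (by omega)).trans hz1.2
    rw [hHec l hl z.1 z.2 hz1.1 hz2.1]
    have h3 := sq_sum_le_card_mul_sum_sq (s := (Nat.gcd z.1 z.2).divisors)
      (f := fun d => l (z.1 * z.2 / d ^ 2))
    refine h3.trans ?_
    have h4 : (Nat.gcd z.1 z.2).divisors = (Finset.Icc 1 N).filter fun d => d ∣ z.1 ∧ d ∣ z.2 := by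
      ext d
      rw [Nat.mem_divisors, Finset.mem_filter, Finset.mem_Icc, Nat.dvd_gcd_iff]
      constructor
      · rintro ⟨h, -⟩
        refine ⟨⟨Nat.pos_of_dvd_of_pos h.1 (by omega), ?_⟩, h⟩
        exact (Nat.le_of_dvd (by omega) h.1).trans hz1.2
      · rintro ⟨-, h⟩
        exact ⟨h, hg.ne'⟩
    have h5 : ∑ d ∈ Finset.Icc 1 N, (if d ∣ z.1 ∧ d ∣ z.2 then l (z.1 * z.2 / d ^ 2) ^ 2 else 0) =
        ∑ d ∈ (Nat.gcd z.1 z.2).divisors, l (z.1 * z.2 / d ^ 2) ^ 2 := by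
      rw [h4, Finset.sum_filter]
    rw [h5]
    exact mul_le_mul_of_nonneg_right (hA _ hg hg') (Finset.sum_nonneg fun _ _ => sq_nonneg _)
  rw [h1]
  refine (Finset.sum_le_sum h2).trans ?_
  rw [← Finset.mul_sum]
  refine mul_le_mul_of_nonneg_left ?_ hA0
  rw [Finset.sum_comm, Finset.mul_sum]
  refine Finset.sum_le_sum fun d hd => ?_
  rw [← Finset.sum_filter]
  exact fib l N d B (Finset.mem_Icc.1 hd).1 hB

private theorem inv_sq' (n : ℕ) :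
    ∑ d ∈ Finset.Icc 1 (n + 1), 1 / (d : ℝ) ^ 2 ≤ 2 - 1 / ((n : ℝ) + 1) := by
  induction n with
  | zero => norm_num
  | succ n ih =>
    rw [Finset.sum_Icc_succ_top (by omega)]
    push_cast at ih ⊢
    have h0 : (0 : ℝ) ≤ n := Nat.cast_nonneg n
    have h1 : 1 / ((n : ℝ) + 1 + 1) ^ 2 ≤ 1 / (n + 1) - 1 / (n + 1 + 1) := by
      have e : 1 / ((n : ℝ) + 1) - 1 / (n + 1 + 1) = 1 / ((n + 1) * (n + 1 + 1)) := by
        field_simp
        ring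
      rw [e]
      apply one_div_le_one_div_of_le (by positivity)
      nlinarith
    linarith

private theorem inv_sq (n : ℕ) : ∑ d ∈ Finset.Icc 1 n, 1 / (d : ℝ) ^ 2 ≤ 2 := by
  rcases n with _ | n
  · norm_num
  · have h1 := inv_sq' n
    have h2 : (0 : ℝ) ≤ 1 / ((n : ℝ) + 1) := by positivity
    linarith

private theorem SF_mono (l : ℕ → ℝ) {x y : ℝ} (h : x ≤ y) : SF l x ≤ SF l y := by
  unfold SF
  refine Finset.sum_le_sum_of_subset_of_nonneg ?_ fun _ _ _ => sq_nonneg _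
  exact Finset.Icc_subset_Icc_right (Nat.floor_le_floor h)

end WsupM

open WsupM in
theorem stmtWsup (hHec : StmtHec) (hWlo : StmtWlo) (hWup : StmtWup) : StmtWsup := by
  intro ε hε
  obtain ⟨C1, hC1, hτ⟩ := Pool.Agent.Lib.MP_640417_ag.All.divisor_bound (ε / 3) (by positivity)
  obtain ⟨C2, hC2, hlo⟩ := hWlo
  obtain ⟨C3, T0, hC3, hT0, hup⟩ := hWup
  refine ⟨C3 ^ 2 * (C1 * (C1 * (3 * C2))), T0, by positivity, hT0, fun f t ρ l hf hρ hl ht => ?_⟩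
  have ht100 : 100 ≤ t := hT0.trans ht
  have ht0 : 0 < t := by linarith
  have hlo' := hlo f t ρ l hf hρ hl ht100
  have hup' := hup f t ρ l hf hρ hl ht
  have hw0 : 0 ≤ wf t ρ := by
    unfold wf
    exact div_nonneg (Real.cosh_pos _).le (by positivity)
  have hS0 : 0 ≤ SF l t := Finset.sum_nonneg fun _ _ => sq_nonneg _
  generalize wf t ρ = w at hlo' hup' hw0 ⊢
  -- the divisor bounds
  have hNt : ((⌊t⌋₊ : ℕ) : ℝ) ≤ t := Nat.floor_le ht0.le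
  have hA : ∀ m : ℕ, 1 ≤ m → m ≤ ⌊t⌋₊ → (m.divisors.card : ℝ) ≤ C1 * t ^ (ε / 3) := by
    intro m hm hmN
    refine (hτ m hm).trans (mul_le_mul_of_nonneg_left ?_ hC1.le)
    refine Real.rpow_le_rpow (Nat.cast_nonneg m) ?_ (by positivity)
    exact (Nat.cast_le.2 hmN).trans hNt
  have hB : ∀ M : ℕ, 1 ≤ M → M ≤ ⌊t⌋₊ ^ 2 →
      (M.divisors.card : ℝ) ≤ C1 * (t ^ (ε / 3) * t ^ (ε / 3)) := by
    intro M hM hMN
    refine (hτ M hM).trans (mul_le_mul_of_nonneg_left ?_ hC1.le)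
    have h1 : (M : ℝ) ≤ t ^ 2 := by
      calc (M : ℝ) ≤ ((⌊t⌋₊ ^ 2 : ℕ) : ℝ) := Nat.cast_le.2 hMN
        _ = ((⌊t⌋₊ : ℕ) : ℝ) ^ 2 := by push_cast; ring
        _ ≤ t ^ 2 := pow_le_pow_left₀ (Nat.cast_nonneg _) hNt 2
    calc (M : ℝ) ^ (ε / 3) ≤ (t ^ 2) ^ (ε / 3) :=
          Real.rpow_le_rpow (Nat.cast_nonneg M) h1 (by positivity)
      _ = t ^ (ε / 3) * t ^ (ε / 3) := by
          rw [sq, Real.mul_rpow ht0.le ht0.le]
  have h1 := cs hHec l hl.mul ⌊t⌋₊ (C1 * t ^ (ε / 3)) (C1 * (t ^ (ε / 3) * t ^ (ε / 3)))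
    (by positivity) hA hB
  -- the sums over `M`
  have h2 : ∀ d ∈ Finset.Icc 1 ⌊t⌋₊, ∑ M ∈ Finset.Icc 1 ((⌊t⌋₊ / d) ^ 2), l M ^ 2 ≤
      C2 * w * t ^ 2 * (1 / (d : ℝ) ^ 2) + C2 * w * t := by
    intro d hd
    rw [Finset.mem_Icc] at hd
    have hd0 : (0 : ℝ) < d := by exact_mod_cast hd.1
    have h3 : ∑ M ∈ Finset.Icc 1 ((⌊t⌋₊ / d) ^ 2), l M ^ 2 =
        SF l (((⌊t⌋₊ / d) ^ 2 : ℕ) : ℝ) := by
      unfold SF
      rw [Nat.floor_natCast]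
    have h4 : (((⌊t⌋₊ / d) ^ 2 : ℕ) : ℝ) ≤ t ^ 2 * (1 / (d : ℝ) ^ 2) := by
      have h5 : ((⌊t⌋₊ / d : ℕ) : ℝ) ≤ t / d :=
        Nat.cast_div_le.trans (div_le_div_of_nonneg_right hNt hd0.le)
      push_cast
      calc ((⌊t⌋₊ / d : ℕ) : ℝ) ^ 2 ≤ (t / d) ^ 2 := pow_le_pow_left₀ (Nat.cast_nonneg _) h5 2
        _ = t ^ 2 * (1 / (d : ℝ) ^ 2) := by ring
    rw [h3]
    have hpi := Real.pi_gt_three
    have h6 : t / (8 * Real.pi) ≤ t := div_le_self ht0.le (by linarith)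
    have h7 : 0 < t / (8 * Real.pi) := by positivity
    have h8 : 0 ≤ t ^ 2 * (1 / (d : ℝ) ^ 2) := by positivity
    have h9 := hlo' (max (t ^ 2 * (1 / (d : ℝ) ^ 2)) (t / (8 * Real.pi))) (le_max_right _ _)
    refine (WsupM.SF_mono l (h4.trans (le_max_left _ _))).trans (h9.trans ?_)
    have h10 : max (t ^ 2 * (1 / (d : ℝ) ^ 2)) (t / (8 * Real.pi)) ≤
        t ^ 2 * (1 / (d : ℝ) ^ 2) + t := max_le (by linarith) (by linarith)
    have h11 : 0 ≤ C2 * w := by positivity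
    nlinarith [mul_le_mul_of_nonneg_left h10 h11]
  have h3 : ∑ d ∈ Finset.Icc 1 ⌊t⌋₊, ∑ M ∈ Finset.Icc 1 ((⌊t⌋₊ / d) ^ 2), l M ^ 2 ≤
      3 * C2 * w * t ^ 2 := by
    refine (Finset.sum_le_sum h2).trans ?_
    rw [Finset.sum_add_distrib, ← Finset.mul_sum, Finset.sum_const, Nat.card_Icc, nsmul_eq_mul]
    have h4 := WsupM.inv_sq ⌊t⌋₊
    have h5 : 0 ≤ C2 * w * t ^ 2 := by positivity
    have h6 := mul_le_mul_of_nonneg_left h4 h5
    have h7 : ((⌊t⌋₊ + 1 - 1 : ℕ) : ℝ) * (C2 * w * t) ≤ t * (C2 * w * t) := by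
      refine mul_le_mul_of_nonneg_right ?_ (by positivity)
      rw [Nat.add_sub_cancel]
      exact hNt
    nlinarith
  have h4 : SF l t ^ 2 ≤ C1 * (C1 * (3 * C2)) * t ^ ε * (w * t ^ 2) := by
    have h5 : t ^ (ε / 3) * (t ^ (ε / 3) * t ^ (ε / 3)) = t ^ ε := by
      rw [← Real.rpow_add ht0, ← Real.rpow_add ht0]
      congr 1
      ring
    have h6 : SF l t ^ 2 ≤ C1 * t ^ (ε / 3) * (C1 * (t ^ (ε / 3) * t ^ (ε / 3)) *
        (3 * C2 * w * t ^ 2)) := by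
      refine h1.trans ?_
      refine mul_le_mul_of_nonneg_left ?_ (by positivity)
      exact mul_le_mul_of_nonneg_left h3 (by positivity)
    refine h6.trans (le_of_eq ?_)
    rw [← h5]
    ring
  -- conclusion
  rcases hw0.eq_or_lt with hw | hw
  · rw [← hw]
    positivity
  · have h5 : w * t ≤ C3 * SF l t := by
      rw [le_div_iff₀ ht0] at hup'
      exact hup'
    have h6 : (w * t) ^ 2 ≤ C3 ^ 2 * SF l t ^ 2 := by
      rw [← mul_pow]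
      exact pow_le_pow_left₀ (by positivity) h5 2
    have h7 : w * (w * t ^ 2) ≤ (C3 ^ 2 * (C1 * (C1 * (3 * C2))) * t ^ ε) * (w * t ^ 2) := by
      calc w * (w * t ^ 2) = (w * t) ^ 2 := by ring
        _ ≤ C3 ^ 2 * SF l t ^ 2 := h6
        _ ≤ C3 ^ 2 * (C1 * (C1 * (3 * C2)) * t ^ ε * (w * t ^ 2)) :=
            mul_le_mul_of_nonneg_left h4 (by positivity)
        _ = _ := by ring
    exact le_of_mul_le_mul_right h7 (by positivity)

end Pool.Agent.A54.Th
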