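import Pool.Agent.Lib.MP_a54f13_nt.Th.Spec

/-!
# Package `Th`, module `Wup`: the bound `w ≤ C S(t)/t`

Let `S(x) = ∑_{n ≤ x} l(n)²`, `w = cosh(π t)/‖ρ‖²`, `L0 = (π t/sinh(π t))/t²`. The mass of the strip `y > 4/5` is at least
`π/3` and equals `2 ‖ρ‖² ∑_n l(n)² KI t (8 π n/5)`. The terms with `n ≤ t` give at most `C L0 S(t)` (the weight
`1 + log(t/n)` is at most twice the number of the scales `2^j ≤ t/n`, and `S(t/2^j) ≤ C 2^{-j/4} S(t)`); the others give at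
most `C L0 w` in view of `l(n)² ≤ S(n) ≤ C n w`. Finally `‖ρ‖² L0 w ≤ 2 π/t`.
-/

set_option autoImplicit false

namespace Pool.Agent.A54.Th

open MeasureTheory Filter Topology Set
open scoped ContDiff ComplexConjugate UpperHalfPlane MatrixGroups ENNReal
open Pool.Agent.A54.Half (H0 qq ff hh)
open Pool.Agent.A54.Av (Mat VV Vd msq bet NonSc Bump es Sm' MN RN GR qs qT dl yo Aa DD Fam wf XX2 O8 Pm
  lam Cc Blk BlkG Pc cnt Cnd WW sW an IsRho KB KB1)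
open Pool.Agent.A54.Ef (HMul SF qe)

noncomputable section

namespace WupM

/-- the factor `(π t / sinh(π t))/t²` -/
def L0 (t : ℝ) : ℝ := (Real.pi * t / Real.sinh (Real.pi * t)) / t ^ 2

/-- the sum of the geometric series with ratio `2^(-1/4)` -/
def GG : ℝ := (1 - (2 : ℝ) ^ (-(1 / 4 : ℝ)))⁻¹

lemma L0_pos {t : ℝ} (ht : 0 < t) : 0 < L0 t := by
  have h1 : 0 < Real.pi * t := by positivity
  have h2 : 0 < Real.sinh (Real.pi * t) := Real.sinh_pos_iff.2 h1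
  unfold L0
  positivity

lemma ratio_lt_one : (2 : ℝ) ^ (-(1 / 4 : ℝ)) < 1 :=
  Real.rpow_lt_one_of_one_lt_of_neg (by norm_num) (by norm_num)

lemma ratio_nonneg : 0 ≤ (2 : ℝ) ^ (-(1 / 4 : ℝ)) := by positivity

lemma GG_nonneg : 0 ≤ GG := by
  have := ratio_lt_one
  exact inv_nonneg.2 (by linarith)

lemma geom_le (J : ℕ) : ∑ j ∈ Finset.range J, ((2 : ℝ) ^ j) ^ (-(1 / 4 : ℝ)) ≤ GG := by
  have h1 : ∀ j : ℕ, ((2 : ℝ) ^ j) ^ (-(1 / 4 : ℝ)) = ((2 : ℝ) ^ (-(1 / 4 : ℝ))) ^ j := by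
    intro j
    rw [← Real.rpow_natCast, ← Real.rpow_mul (by norm_num), mul_comm, Real.rpow_mul (by norm_num),
      Real.rpow_natCast]
  simp only [h1]
  unfold GG
  rw [← tsum_geometric_of_lt_one ratio_nonneg ratio_lt_one]
  exact (summable_geometric_of_lt_one ratio_nonneg ratio_lt_one).sum_le_tsum _
    fun j _ => pow_nonneg ratio_nonneg j

lemma SF_nonneg (l : ℕ → ℝ) (x : ℝ) : 0 ≤ SF l x := Finset.sum_nonneg fun n _ => sq_nonneg _

lemma sq_le_SF (l : ℕ → ℝ) {n : ℕ} (hn : 1 ≤ n) : l n ^ 2 ≤ SF l (n : ℝ) := by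
  unfold SF
  rw [Nat.floor_natCast]
  exact Finset.single_le_sum (f := fun n => l n ^ 2) (fun _ _ => sq_nonneg _)
    (Finset.mem_Icc.2 ⟨hn, le_rfl⟩)

/-- the logarithm is bounded by the number of the dyadic scales -/
lemma log_le {t : ℝ} {n : ℕ} (hn : 1 ≤ n) (hnt : (n : ℝ) ≤ t) :
    1 + max 0 (Real.log (t / n)) ≤
      2 * ∑ j ∈ Finset.range (⌊t⌋₊ + 1), if (n : ℝ) * 2 ^ j ≤ t then (1 : ℝ) else 0 := by
  have hn1 : (1 : ℝ) ≤ n := by exact_mod_cast hn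
  have hn0 : (0 : ℝ) < n := by linarith
  obtain ⟨q, hq⟩ : ∃ q : ℝ, q = t / n := ⟨_, rfl⟩
  have hq1 : 1 ≤ q := by
    rw [hq, le_div_iff₀ hn0]
    linarith
  have hnq : (n : ℝ) * q = t := by
    rw [hq]
    field_simp
  obtain ⟨k, hk⟩ : ∃ k : ℕ, k = Nat.log 2 ⌊q⌋₊ := ⟨_, rfl⟩
  have hfl : ⌊q⌋₊ ≠ 0 := by
    have := Nat.floor_pos.2 hq1
    omega
  have h1 : 2 ^ k ≤ ⌊q⌋₊ := hk ▸ Nat.pow_log_le_self 2 hfl
  have h2 : ⌊q⌋₊ < 2 ^ (k + 1) := hk ▸ Nat.lt_pow_succ_log_self (by norm_num) _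
  have h3 : q < 2 ^ (k + 1) := by
    have h4 := Nat.lt_floor_add_one q
    have h5 : (⌊q⌋₊ : ℝ) + 1 ≤ ((2 ^ (k + 1) : ℕ) : ℝ) := by exact_mod_cast h2
    push_cast at h5
    linarith
  have hk0 : (0 : ℝ) ≤ k := Nat.cast_nonneg k
  have h5 : Real.log q ≤ (k : ℝ) + 1 := by
    have h6 := Real.log_le_log (by linarith) h3.le
    rw [Real.log_pow] at h6
    have h7 : Real.log 2 ≤ 1 := by
      have := Real.log_two_lt_d9
      linarith
    push_cast at h6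
    nlinarith
  have h9 : (2 : ℝ) ^ k ≤ q := by
    have h10 : ((2 ^ k : ℕ) : ℝ) ≤ ⌊q⌋₊ := by exact_mod_cast h1
    have h11 := h10.trans (Nat.floor_le (by linarith))
    push_cast at h11
    exact h11
  have h7 : ∀ j ∈ Finset.range (k + 1), (n : ℝ) * 2 ^ j ≤ t := by
    intro j hj
    have hj' : j ≤ k := by
      have := Finset.mem_range.1 hj
      omega
    have h8 : (2 : ℝ) ^ j ≤ 2 ^ k := pow_le_pow_right₀ (by norm_num) hj'
    calc (n : ℝ) * 2 ^ j ≤ n * q := mul_le_mul_of_nonneg_left (h8.trans h9) hn0.le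
      _ = t := hnq
  have h10 : k ≤ ⌊t⌋₊ := by
    have h11 : k < 2 ^ k := Nat.lt_two_pow_self
    have h12 : ⌊q⌋₊ ≤ ⌊t⌋₊ := Nat.floor_le_floor (by nlinarith)
    omega
  have h12 : ((k : ℝ) + 1) ≤
      ∑ j ∈ Finset.range (⌊t⌋₊ + 1), if (n : ℝ) * 2 ^ j ≤ t then (1 : ℝ) else 0 := by
    calc ((k : ℝ) + 1) = ∑ j ∈ Finset.range (k + 1), if (n : ℝ) * 2 ^ j ≤ t then (1 : ℝ) else 0 := by
          rw [Finset.sum_congr rfl (fun j hj => if_pos (h7 j hj))]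
          simp
      _ ≤ _ := Finset.sum_le_sum_of_subset_of_nonneg (Finset.range_mono (by omega))
          (by intros; split_ifs <;> norm_num)
  have h13 : max 0 (Real.log q) ≤ (k : ℝ) + 1 := max_le (by linarith) h5
  rw [← hq]
  linarith

/-- the small terms -/
lemma small {l : ℕ → ℝ} {C2 : ℝ} (h : ∀ y : ℝ, 1 ≤ y → ∀ x : ℝ,
    SF l (x / y) ≤ C2 * y ^ (-(1 / 4 : ℝ)) * SF l x) (hC2 : 0 ≤ C2) {t : ℝ} (ht : 0 ≤ t) :
    ∑ n ∈ Finset.Icc 1 ⌊t⌋₊, l n ^ 2 * (1 + max 0 (Real.log (t / n))) ≤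
      2 * C2 * GG * SF l t := by
  have h1 : ∀ n ∈ Finset.Icc 1 ⌊t⌋₊, l n ^ 2 * (1 + max 0 (Real.log (t / n))) ≤
      ∑ j ∈ Finset.range (⌊t⌋₊ + 1), if (n : ℝ) * 2 ^ j ≤ t then 2 * l n ^ 2 else 0 := by
    intro n hn
    obtain ⟨hn1, hn2⟩ := Finset.mem_Icc.1 hn
    have hnt : (n : ℝ) ≤ t := (Nat.le_floor_iff ht).1 hn2
    calc l n ^ 2 * (1 + max 0 (Real.log (t / n)))
        ≤ l n ^ 2 * (2 * ∑ j ∈ Finset.range (⌊t⌋₊ + 1), if (n : ℝ) * 2 ^ j ≤ t then (1 : ℝ) else 0) :=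
          mul_le_mul_of_nonneg_left (log_le hn1 hnt) (sq_nonneg _)
      _ = ∑ j ∈ Finset.range (⌊t⌋₊ + 1), if (n : ℝ) * 2 ^ j ≤ t then 2 * l n ^ 2 else 0 := by
          rw [Finset.mul_sum, Finset.mul_sum]
          refine Finset.sum_congr rfl fun j _ => ?_
          split_ifs <;> ring
  have h2 : ∀ j : ℕ, ∑ n ∈ Finset.Icc 1 ⌊t⌋₊, (if (n : ℝ) * 2 ^ j ≤ t then 2 * l n ^ 2 else 0) ≤
      2 * SF l (t / 2 ^ j) := by
    intro j
    rw [← Finset.sum_filter]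
    unfold SF
    rw [Finset.mul_sum]
    refine Finset.sum_le_sum_of_subset_of_nonneg ?_ (fun n _ _ => by positivity)
    intro n hn
    obtain ⟨hn1, hn2⟩ := Finset.mem_filter.1 hn
    obtain ⟨hn3, hn4⟩ := Finset.mem_Icc.1 hn1
    refine Finset.mem_Icc.2 ⟨hn3, Nat.le_floor ?_⟩
    rw [le_div_iff₀ (by positivity)]
    exact hn2
  calc ∑ n ∈ Finset.Icc 1 ⌊t⌋₊, l n ^ 2 * (1 + max 0 (Real.log (t / n)))
      ≤ ∑ n ∈ Finset.Icc 1 ⌊t⌋₊, ∑ j ∈ Finset.range (⌊t⌋₊ + 1),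
          (if (n : ℝ) * 2 ^ j ≤ t then 2 * l n ^ 2 else 0) := Finset.sum_le_sum h1
    _ = ∑ j ∈ Finset.range (⌊t⌋₊ + 1), ∑ n ∈ Finset.Icc 1 ⌊t⌋₊,
          (if (n : ℝ) * 2 ^ j ≤ t then 2 * l n ^ 2 else 0) := Finset.sum_comm
    _ ≤ ∑ j ∈ Finset.range (⌊t⌋₊ + 1), 2 * (C2 * ((2 : ℝ) ^ j) ^ (-(1 / 4 : ℝ)) * SF l t) := by
        refine Finset.sum_le_sum fun j _ => (h2 j).trans ?_
        have := h (2 ^ j) (one_le_pow₀ (by norm_num)) t
        linarith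
    _ = 2 * C2 * (∑ j ∈ Finset.range (⌊t⌋₊ + 1), ((2 : ℝ) ^ j) ^ (-(1 / 4 : ℝ))) * SF l t := by
        rw [Finset.mul_sum, Finset.sum_mul]
        exact Finset.sum_congr rfl fun j _ => by ring
    _ ≤ 2 * C2 * GG * SF l t := by
        have h3 := geom_le (⌊t⌋₊ + 1)
        have h4 := SF_nonneg l t
        exact mul_le_mul_of_nonneg_right (mul_le_mul_of_nonneg_left h3 (by positivity)) h4

/-- the sum of `exp(-i)` -/
lemma tsum_exp_le : (Summable fun i : ℕ => Real.exp (-(i : ℝ))) ∧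
    ∑' i : ℕ, Real.exp (-(i : ℝ)) ≤ 2 := by
  have h1 : ∀ i : ℕ, Real.exp (-(i : ℝ)) = Real.exp (-1) ^ i := by
    intro i
    rw [← Real.exp_nat_mul]
    congr 1
    ring
  have h2 : Real.exp (-1) ≤ 1 / 2 := by
    have h3 := Real.add_one_le_exp (1 : ℝ)
    rw [Real.exp_neg, inv_eq_one_div]
    exact one_div_le_one_div_of_le (by norm_num) (by linarith)
  have h3 : 0 ≤ Real.exp (-1) := (Real.exp_pos _).le
  have h4 : Real.exp (-1) < 1 := by linarith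
  simp only [h1]
  refine ⟨summable_geometric_of_lt_one h3 h4, ?_⟩
  rw [tsum_geometric_of_lt_one h3 h4]
  have h5 : (1 - Real.exp (-1))⁻¹ ≤ (1 / 2 : ℝ)⁻¹ := by
    apply inv_anti₀ (by norm_num)
    linarith
  linarith [show (1 / 2 : ℝ)⁻¹ = 2 by norm_num]

lemma cosh_le {x : ℝ} (hx : 1 ≤ x) : Real.cosh x ≤ 2 * Real.sinh x := by
  rw [Real.cosh_eq, Real.sinh_eq]
  have h1 : 3 * Real.exp (-x) ≤ Real.exp x := by
    have h2 := Real.add_one_le_exp (2 * x)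
    have h3 : Real.exp x = Real.exp (2 * x) * Real.exp (-x) := by
      rw [← Real.exp_add]
      congr 1
      ring
    rw [h3]
    exact mul_le_mul_of_nonneg_right (by linarith) (Real.exp_pos _).le
  linarith

/-- `‖ρ‖² L0 w ≤ 2 π/t` -/
lemma fac_le {t : ℝ} (ht : 100 ≤ t) {ρ : ℂ} (hρ : ρ ≠ 0) :
    ‖ρ‖ ^ 2 * L0 t * wf t ρ ≤ 2 * Real.pi / t := by
  have hr : 0 < ‖ρ‖ ^ 2 := by positivity
  have ht0 : 0 < t := by linarith
  have hpi := Real.pi_gt_three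
  have h1 : 1 ≤ Real.pi * t := by nlinarith
  have h2 : 0 < Real.sinh (Real.pi * t) := Real.sinh_pos_iff.2 (by linarith)
  have h3 := cosh_le h1
  have h4 : ‖ρ‖ ^ 2 * L0 t * wf t ρ =
      Real.pi * Real.cosh (Real.pi * t) / (t * Real.sinh (Real.pi * t)) := by
    unfold L0 wf
    field_simp
  rw [h4, div_le_div_iff₀ (by positivity) ht0]
  have h5 : Real.pi * Real.cosh (Real.pi * t) * t ≤ Real.pi * (2 * Real.sinh (Real.pi * t)) * t := by
    gcongr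
  nlinarith

end WupM

open WupM in
/-- `w ≤ C S(t)/t` -/
theorem stmtWup (hMas : StmtMas) (hStr : StmtStr) (hKin : StmtKin) (hWlo : StmtWlo)
    (hSnd : Pool.Agent.A54.Ef.StmtSnd) : StmtWup := by
  obtain ⟨CS, _, hS⟩ := hStr
  obtain ⟨C1, hC1, hK⟩ := hKin
  obtain ⟨C3, hC3, hW⟩ := hWlo
  obtain ⟨C2, hC2, hN⟩ := hSnd
  have hG := GG_nonneg
  refine ⟨48 * C1 * C2 * GG, max 100 (48 * C3), by positivity, le_max_left _ _, ?_⟩
  intro f t ρ l hf hρ hl ht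
  have ht1 : 100 ≤ t := (le_max_left _ _).trans ht
  have ht2 : 48 * C3 ≤ t := (le_max_right _ _).trans ht
  have ht0 : 0 < t := by linarith
  obtain ⟨hI, hsum, hmass⟩ := hMas f t ρ l hf hρ hl (4 / 5) (by norm_num)
  have hlow := (hS f t hf).2 hI
  rw [hmass] at hlow
  obtain ⟨hK1, hK2⟩ := hK t ht1
  have hL := L0_pos ht0
  have hpi := Real.pi_gt_three
  have hpi4 := Real.pi_lt_four
  have hw0 : 0 ≤ wf t ρ := by
    unfold wf
    have := Real.cosh_pos (Real.pi * t)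
    positivity
  -- the small terms
  have hsmall : ∑ i ∈ Finset.range ⌊t⌋₊, l (i + 1) ^ 2 * KI t (2 * Real.pi * (i + 1) * (4 / 5)) ≤
      C1 * L0 t * (2 * C2 * GG * SF l t) := by
    have h1 : ∑ i ∈ Finset.range ⌊t⌋₊, l (i + 1) ^ 2 * KI t (2 * Real.pi * (i + 1) * (4 / 5)) =
        ∑ n ∈ Finset.Icc 1 ⌊t⌋₊, l n ^ 2 * KI t (2 * Real.pi * n * (4 / 5)) := by
      have h0 := Finset.sum_Ico_add'
        (fun n : ℕ => l n ^ 2 * KI t (2 * Real.pi * n * (4 / 5))) 0 ⌊t⌋₊ 1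
      have h00 : Finset.Ico (0 + 1) (⌊t⌋₊ + 1) = Finset.Icc 1 ⌊t⌋₊ := by
        ext x
        rw [Finset.mem_Ico, Finset.mem_Icc]
        omega
      rw [h00] at h0
      rw [← h0, Finset.range_eq_Ico]
      refine Finset.sum_congr rfl fun i _ => ?_
      push_cast
      rfl
    rw [h1]
    calc ∑ n ∈ Finset.Icc 1 ⌊t⌋₊, l n ^ 2 * KI t (2 * Real.pi * n * (4 / 5))
        ≤ ∑ n ∈ Finset.Icc 1 ⌊t⌋₊, C1 * L0 t * (l n ^ 2 * (1 + max 0 (Real.log (t / n)))) := by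
          refine Finset.sum_le_sum fun n hn => ?_
          obtain ⟨hn1, hn2⟩ := Finset.mem_Icc.1 hn
          have hn1' : (1 : ℝ) ≤ n := by exact_mod_cast hn1
          have hX : (n : ℝ) ≤ 2 * Real.pi * n * (4 / 5) := by nlinarith
          have h2 := (hK1 (2 * Real.pi * n * (4 / 5)) (by linarith)).2
          have h3 : Real.log (t / (2 * Real.pi * n * (4 / 5))) ≤ Real.log (t / n) :=
            Real.log_le_log (by positivity) (div_le_div_of_nonneg_left ht0.le (by linarith) hX)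
          have h4 : KI t (2 * Real.pi * n * (4 / 5)) ≤
              C1 * (1 + max 0 (Real.log (t / n))) * L0 t := by
            refine h2.trans ?_
            unfold L0 at hL ⊢
            gcongr
          calc l n ^ 2 * KI t (2 * Real.pi * n * (4 / 5)) ≤
              l n ^ 2 * (C1 * (1 + max 0 (Real.log (t / n))) * L0 t) :=
                mul_le_mul_of_nonneg_left h4 (sq_nonneg _)
            _ = _ := by ring
      _ = C1 * L0 t * ∑ n ∈ Finset.Icc 1 ⌊t⌋₊, l n ^ 2 * (1 + max 0 (Real.log (t / n))) := by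
          rw [Finset.mul_sum]
      _ ≤ _ := mul_le_mul_of_nonneg_left (small (fun y hy x => hN l x y hl.mul hy) hC2 ht0.le)
          (by positivity)
  -- the large terms
  obtain ⟨hes, hel⟩ := tsum_exp_le
  have hterm : ∀ i : ℕ, l (i + ⌊t⌋₊ + 1) ^ 2 *
      KI t (2 * Real.pi * (((i + ⌊t⌋₊ : ℕ) : ℝ) + 1) * (4 / 5)) ≤
        (C3 * wf t ρ * L0 t) * Real.exp (-(i : ℝ)) := by
    intro i
    obtain ⟨n, hn⟩ : ∃ n : ℕ, n = i + ⌊t⌋₊ + 1 := ⟨_, rfl⟩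
    have hnr : ((i + ⌊t⌋₊ : ℕ) : ℝ) + 1 = n := by
      rw [hn]
      push_cast
      ring
    rw [hnr, ← hn]
    have hnt : t + i ≤ n := by
      have h1 := Nat.lt_floor_add_one t
      rw [hn]
      push_cast
      linarith
    have hi0 : (0 : ℝ) ≤ i := Nat.cast_nonneg i
    have hn0 : (0 : ℝ) ≤ n := Nat.cast_nonneg n
    have h1 : l n ^ 2 ≤ C3 * n * wf t ρ := by
      refine (sq_le_SF l (by omega)).trans (hW f t ρ l hf hρ hl ht1 n ?_)
      have : t / (8 * Real.pi) ≤ t := div_le_self ht0.le (by linarith)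
      linarith
    have hX : 5 * (n : ℝ) ≤ 2 * Real.pi * n * (4 / 5) := by
      have := Real.pi_gt_d2
      nlinarith
    have h2 : KI t (2 * Real.pi * n * (4 / 5)) ≤ t * Real.exp (-(5 * (n : ℝ))) * L0 t := by
      refine (hK2 (2 * Real.pi * n * (4 / 5)) (by linarith)).trans ?_
      unfold L0 at hL ⊢
      gcongr
    have h3 : (n : ℝ) * (t * Real.exp (-(5 * (n : ℝ)))) ≤ Real.exp (-(i : ℝ)) := by
      have h4 : (n : ℝ) ≤ Real.exp n := by linarith [Real.add_one_le_exp (n : ℝ)]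
      have h5 : t ≤ Real.exp t := by linarith [Real.add_one_le_exp t]
      calc (n : ℝ) * (t * Real.exp (-(5 * (n : ℝ)))) ≤
          Real.exp n * (Real.exp t * Real.exp (-(5 * (n : ℝ)))) := by gcongr
        _ = Real.exp (n + (t + -(5 * (n : ℝ)))) := by rw [Real.exp_add, Real.exp_add]
        _ ≤ _ := Real.exp_le_exp.2 (by linarith)
    calc l n ^ 2 * KI t (2 * Real.pi * n * (4 / 5)) ≤
        l n ^ 2 * (t * Real.exp (-(5 * (n : ℝ))) * L0 t) := mul_le_mul_of_nonneg_left h2 (sq_nonneg _)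
      _ ≤ (C3 * n * wf t ρ) * (t * Real.exp (-(5 * (n : ℝ))) * L0 t) :=
          mul_le_mul_of_nonneg_right h1 (by positivity)
      _ = (C3 * wf t ρ * L0 t) * (n * (t * Real.exp (-(5 * (n : ℝ))))) := by ring
      _ ≤ _ := mul_le_mul_of_nonneg_left h3 (by positivity)
  have hlarge : ∑' i : ℕ, l (i + ⌊t⌋₊ + 1) ^ 2 *
      KI t (2 * Real.pi * (((i + ⌊t⌋₊ : ℕ) : ℝ) + 1) * (4 / 5)) ≤ (C3 * wf t ρ * L0 t) * 2 := by
    have h1 := (summable_nat_add_iff ⌊t⌋₊).2 hsum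
    calc _ ≤ ∑' i : ℕ, (C3 * wf t ρ * L0 t) * Real.exp (-(i : ℝ)) :=
          h1.tsum_le_tsum hterm (hes.mul_left _)
      _ = (C3 * wf t ρ * L0 t) * ∑' i : ℕ, Real.exp (-(i : ℝ)) := tsum_mul_left
      _ ≤ _ := mul_le_mul_of_nonneg_left hel (by positivity)
  have htot := hsum.sum_add_tsum_nat_add ⌊t⌋₊
  rw [← htot] at hlow
  have hfac := fac_le ht1 hρ.1
  have hS0 := SF_nonneg l t
  have hr : 0 ≤ 2 * ‖ρ‖ ^ 2 := by positivity
  have h1 : Real.pi / 3 ≤ 2 * ‖ρ‖ ^ 2 *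
      (C1 * L0 t * (2 * C2 * GG * SF l t) + (C3 * wf t ρ * L0 t) * 2) :=
    hlow.trans (mul_le_mul_of_nonneg_left (add_le_add hsmall hlarge) hr)
  have h2 : Real.pi / 3 * wf t ρ ≤ 2 * Real.pi / t *
      (4 * (C1 * C2 * GG * SF l t) + 4 * (C3 * wf t ρ)) := by
    calc Real.pi / 3 * wf t ρ ≤ 2 * ‖ρ‖ ^ 2 *
          (C1 * L0 t * (2 * C2 * GG * SF l t) + (C3 * wf t ρ * L0 t) * 2) * wf t ρ :=
          mul_le_mul_of_nonneg_right h1 hw0
      _ = ‖ρ‖ ^ 2 * L0 t * wf t ρ * (4 * (C1 * C2 * GG * SF l t) + 4 * (C3 * wf t ρ)) := by ring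
      _ ≤ _ := mul_le_mul_of_nonneg_right hfac (by positivity)
  have h3 : Real.pi * (wf t ρ * t) ≤ Real.pi * (24 * (C1 * C2 * GG * SF l t) + 24 * (C3 * wf t ρ)) := by
    have h4 : Real.pi / 3 * wf t ρ * t ≤ 2 * Real.pi / t *
        (4 * (C1 * C2 * GG * SF l t) + 4 * (C3 * wf t ρ)) * t := mul_le_mul_of_nonneg_right h2 ht0.le
    have h5 : 2 * Real.pi / t * (4 * (C1 * C2 * GG * SF l t) + 4 * (C3 * wf t ρ)) * t =
        2 * Real.pi * (4 * (C1 * C2 * GG * SF l t) + 4 * (C3 * wf t ρ)) := by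
      field_simp
    rw [h5] at h4
    linarith
  have h4 := le_of_mul_le_mul_left h3 (by linarith)
  have h5 : 48 * C3 * wf t ρ ≤ t * wf t ρ := mul_le_mul_of_nonneg_right ht2 hw0
  rw [le_div_iff₀ ht0]
  linarith

end

end Pool.Agent.A54.Th
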