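import Pool.Agent.Lib.MP_a54f13_nt.Ef.Main
import Pool.Agent.Lib.MP_a54f13_nt.Th.Cs2
import Pool.Agent.Lib.MP_a54f13_nt.Th.Pb2
import Pool.Agent.Lib.MP_a54f13_nt.Th.PI2
import Pool.Agent.Lib.MP_a54f13_nt.Th.PC2
import Pool.Agent.Lib.MP_a54f13_nt.Th.J2
import Pool.Agent.Lib.MP_a54f13_nt.Th.JJ
import Pool.Agent.Lib.MP_a54f13_nt.Th.W2
import Pool.Agent.Lib.MP_a54f13_nt.Th.G3
import Pool.Agent.Lib.MP_a54f13_nt.Th.Dl2
import Pool.Agent.Lib.MP_a54f13_nt.Th.BQ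
import Pool.Agent.Lib.MP_a54f13_nt.Th.F3
import Pool.Agent.Lib.MP_a54f13_nt.Th.HkE
import Pool.Agent.Lib.MP_a54f13_nt.Th.Hec
import Pool.Agent.Lib.MP_a54f13_nt.Th.KbE
import Pool.Agent.Lib.MP_a54f13_nt.Th.Kin
import Pool.Agent.Lib.MP_a54f13_nt.Th.Mas
import Pool.Agent.Lib.MP_a54f13_nt.Th.Str
import Pool.Agent.Lib.MP_a54f13_nt.Th.Wlo
import Pool.Agent.Lib.MP_a54f13_nt.Th.Wup
import Pool.Agent.Lib.MP_a54f13_nt.Th.Wsup
import Pool.Agent.Lib.MP_a54f13_nt.Th.LSv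
import Pool.Agent.Lib.MP_a54f13_nt.Th.ChP
import Pool.Agent.Lib.MP_a54f13_nt.Th.Bad
import Pool.Agent.Lib.MP_a54f13_nt.Th.Gud
import Pool.Agent.Lib.MP_a54f13_nt.Th.Cn2
import Pool.Agent.Lib.MP_a54f13_nt.Th.Dn2
import Pool.Agent.Lib.MP_a54f13_nt.Th.Sq2
import Pool.Agent.Lib.MP_a54f13_nt.Th.Fi2

/-!
Assembly of package `Th`.
-/

set_option autoImplicit false

namespace Pool.Agent.A54.Th

open MeasureTheory Filter Topology Set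
open scoped ContDiff ComplexConjugate UpperHalfPlane MatrixGroups
open Pool.Agent.A54.Av

theorem pCs2 : StmtCs2 := stmtCs2 (stmtCg pCf pCd) (stmtCr pCf pCd stmtCr1 stmtCr2 stmtCr3)

theorem pPb2 : StmtPb2 := stmtPb2 stmtCa stmtCb pCs2

theorem pPI2 : StmtPI2 := stmtPI2 pPb2

theorem pPC2 : StmtPC2 := stmtPC2 stmtPd (stmtP0 stmtPd) (stmtP1 stmtPd) pPI2 (stmtPII stmtPd pPb)

theorem pJ2 : StmtJ2 := stmtJ2 pPC2 (stmtI2a pGe pQF) pGe stmtAr pQF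

theorem pJJ : StmtJJ := stmtJJ (stmtI0 pGe) (stmtI1 pGe stmtAr pQF) pJ2

theorem pW2 : StmtW2 := stmtW2 pJJ pGe

theorem pG3 : StmtG3 := stmtG3 pMb pW1 pW2 pW3 stmtAvg Ef.pSm3 Ef.pFar Ef.stmtGaD pQF

theorem pDl2 : StmtDl2 := stmtDl2 stmtDl

theorem pBQ : StmtBQ := stmtBQ pG1 pG3 stmtDl pDl2

theorem pF3 : StmtF3 := stmtF3 pAv1 (stmtGN pQF pGau) pBQ

theorem pHkE : StmtHkE := stmtHkE pFo1 pRho pKBf

theorem pKbE : StmtKbE := stmtKbE pKBf (stmtBet pKBf)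

theorem pKin : StmtKin := stmtKin pKbE pKBf

theorem pMas : StmtMas := stmtMas pFo1 pDec

theorem pStr : StmtStr := stmtStr stmtUL

theorem pWlo : StmtWlo := stmtWlo pMas pStr pKbE pKin

theorem pWup : StmtWup := stmtWup pMas pStr pKin pWlo Ef.pSnd

theorem pWsup : StmtWsup := stmtWsup stmtHec pWlo pWup

theorem pLSv : StmtLSv := stmtLSv pKbE pKin pKBf pDec pFo1

theorem pBad : StmtBad := stmtBad pLSv stmtChP

theorem pGud : StmtGud := stmtGud pWlo stmtChP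

theorem pCn2 : StmtCn2 := stmtCn2 pF3 pHkE pWsup pBad pGud pOrth pRho pPar

theorem pSq2 : StmtSq2 := stmtSq2 Ef.stmtFa1 stmtSDi Sq.pFlt Ef.pCus stmtVol Pl.stmtU1

theorem pFi2 : StmtFi2 := stmtFi2 pCn2 stmtDn2 pSq2 Sq.pFou Pl.stmtU2

end Pool.Agent.A54.Th
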